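import Mathlib
import Pool.Agent.H140.Q.StmM
import Pool.Agent.H604.FC.Stm

/-!
# Chowla's conjecture for polynomials of any degree over `F_q[X]`, `q` even: statements

`K` is a finite field of characteristic two, `c ∈ K[X][T]` is monic in `T` and separable over
`K(X)`; `Φ = PhE c` has the squares of the coefficients of `c` as its coefficients.
For `g = x ^ 2 + X y ^ 2` the Möbius function of `Φ(g)` is, for fixed `y`, a product of local
functions of `x` at the prime divisors of `y`.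
-/

set_option autoImplicit false

namespace Pool.Agent.H140.E

open Polynomial
open Pool.Agent.H524 (AC)
open Pool.Agent.H985.Chow (mob MD Wl S_cmp)
open Pool.Agent.H985.KP (PA S_typ2 S_cnt)
open Pool.Agent.H985.FC (S_gcs)
open Pool.Agent.H604.FC (rp S_fin S_badt)
open Pool.Agent.H140.Q (mobM GM liou)

section defs

variable {K : Type} [Field K]

/-- the polynomial whose coefficients are the derivatives of the coefficients -/
noncomputable def dX {R : Type*} [CommSemiring R] (p : R[X][X]) : R[X][X] :=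
  p.sum fun i a => monomial i (derivative a)

/-- the polynomial whose coefficients are the squares of the coefficients -/
noncomputable def PhE [CharP K 2] (p : K[X][X]) : K[X][X] := p.map (frobenius K[X] 2)

/-- `c` is monic in `T`, of positive degree, and separable over `K(X)` -/
def SepE (c u v : K[X][X]) (N : K[X]) : Prop :=
  c.Monic ∧ 0 < c.natDegree ∧ N ≠ 0 ∧ u * c + v * derivative c = C N

end defs

section local_function

open Classical in
/-- The sum over the roots `α` of `c` of `W(A + α, A' + α')`, `α' = c_X(α) / c_T(α)`. -/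
noncomputable def Ws {k : Type*} [Field k] (c cX : k[X]) (β x A A' : k) : k :=
  ∑ α ∈ c.roots.toFinset, Wl β x (A + α) (A' + cX.eval α / (derivative c).eval α)

open Classical in
/-- The local function over a field `F`: `0` if `c(A) = 0`, otherwise the sign given by the
character of order two of the sum `Ws` over the roots in the algebraic closure. -/
noncomputable def gE {F : Type} [Field F] (c cX : F[X]) (β x A A' : F) : ℝ :=
  if c.eval A = 0 then 0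
  else if ∃ y : F, algebraMap F (AC F) (y ^ 2 + y) =
      Ws (c.map (algebraMap F (AC F))) (cX.map (algebraMap F (AC F)))
        (algebraMap F (AC F) β) (algebraMap F (AC F) x) (algebraMap F (AC F) A)
        (algebraMap F (AC F) A') then 1
  else -1

/-- The properties of the local functions which are used: `φ` is a function of two digits. -/
structure LocF (F : Type) [Field F] [Fintype F] (d : ℕ) (φ : F × F → ℝ) : Prop where
  abs : ∀ v, |φ v| ≤ 1
  lock : ∃ Z : Finset F, Z.card ≤ d ∧ (∀ v : F × F, v.1 ∈ Z → φ v = 0) ∧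
    ∀ (Λ : Type) [Fintype Λ] [DecidableEq Λ] (x₀ y₀ : F) (x y : Λ → F) (l : Fin 3 → Λ),
      Function.Injective l → (∀ i, x (l i) = 0) → (∀ A : Finset Λ, x₀ + ∑ j ∈ A, x j ∉ Z) →
      ∏ A : Finset Λ, φ (x₀ + ∑ j ∈ A, x j, y₀ + ∑ j ∈ A, y j) = 1
  lin : ∃ D : Finset F, D.card ≤ d ^ 2 ∧
    ∀ (ι : Type) [Fintype ι] [Nonempty ι] (τ : F) (κ σ : ι → F), τ ≠ 0 →
      (∀ i j, i ≠ j → κ i - κ j ∉ D) → ∀ χ : AddChar (F × F) ℂ,
      ‖∑ v : F × F, ((∏ i, (φ (κ i + v.1, σ i + v.2) *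
        φ (κ i + v.1, σ i + v.2 + τ)) : ℝ) : ℂ) * χ v‖ ≤ 2 * d * Fintype.card ι * Fintype.card F

/-- **Task LOCE.** -/
def S_locE : Prop :=
  ∀ (F : Type) [Field F] [Fintype F] [CharP F 2] (c cX : F[X]) (β x : F), c.Monic →
    c.Separable → 0 < c.natDegree → β ≠ 0 →
    LocF F c.natDegree (fun v => gE c cX β x v.1 v.2)

open Classical in
/-- The local function at `P` of the form `Φ(Z ^ 2 + X b ^ 2)`. -/
noncomputable def GE {K : Type} [Field K] (c : K[X][X]) (b P : K[X])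
    (v : AdjoinRoot P × AdjoinRoot P) : ℝ :=
  if hP : Irreducible P then
    (letI := Fact.mk hP
     gE (c.map (AdjoinRoot.mk P)) ((dX c).map (AdjoinRoot.mk P)) (AdjoinRoot.mk P (derivative b))
      (AdjoinRoot.root P) v.1 v.2)
  else 1

end local_function

section key

/-- the value at `ρ` of a polynomial over `K`, in the algebraic closure -/
noncomputable def evA {K : Type} [Field K] (ρ : AC K) : K[X] →+* AC K :=
  (evalRingHom ρ).comp (mapRingHom (algebraMap K (AC K)))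

open Classical in
/-- **Key formula** for `Φ = PhE cp`. -/
def S_keyE : Prop :=
  ∀ (K : Type) [Field K] [Fintype K] [CharP K 2] (cp u v : K[X][X]) (N : K[X]) (μ₀ : ℕ),
    SepE cp u v N → ∃ c₀ : ℕ, ∀ (n : ℕ) (c : K) (x₁ x₂ e h m g₁ g₂ : K[X]),
    c ≠ 0 → e.Monic → h.Monic → m.Monic → m.natDegree ≤ μ₀ → IsCoprime e h → Squarefree h →
    IsCoprime (m * N) h →
    (x₁ ^ 2 + X * (C c * (e * h)) ^ 2).Monic → (x₁ ^ 2 + X * (C c * (e * h)) ^ 2).natDegree = n →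
    (x₂ ^ 2 + X * (C c * (e * h)) ^ 2).Monic → (x₂ ^ 2 + X * (C c * (e * h)) ^ 2).natDegree = n →
    (PhE cp).eval (x₁ ^ 2 + X * (C c * (e * h)) ^ 2) = m * g₁ →
    (PhE cp).eval (x₂ ^ 2 + X * (C c * (e * h)) ^ 2) = m * g₂ →
    IsCoprime g₁ (m * N * (e * h)) → IsCoprime g₂ (m * N * (e * h)) →
    (e * N ^ 2 * m) ^ 5 ∣ x₂ - x₁ →
    n + 2 * (x₂ - x₁).natDegree + c₀ ≤ 4 * (e * h).natDegree →
    2 * (x₂ - x₁).natDegree + c₀ ≤ n →
    ∃ w : K, algebraMap K (AC K) w = ∑ ρ ∈ (h.aroots (AC K)).toFinset,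
        (Ws (cp.map (evA ρ)) ((dX cp).map (evA ρ)) (evA ρ (derivative (C c * (e * h)))) ρ
            (evA ρ x₁) (evA ρ (derivative x₁)) +
          Ws (cp.map (evA ρ)) ((dX cp).map (evA ρ)) (evA ρ (derivative (C c * (e * h)))) ρ
            (evA ρ x₂) (evA ρ (derivative x₂))) ∧
      mob g₁ * mob g₂ = if ∃ t : K, t ^ 2 + t = w then 1 else -1

end key

section windows

/-- **Task WIN4E.**  The window bound for products of local functions; `r` classes. -/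
def S_win4E : Prop :=
  ∀ r d : ℕ, ∃ M : ℝ, 1 ≤ M ∧
  ∀ (K : Type) [Field K] [Fintype K] [CharP K 2] (L D T : ℕ) (E : K[X])
    (h' h'' Z : Fin r → K[X]) (j₀ : Fin r) (χ : AddChar K[X] ℝ)
    (φ : Fin r → ∀ P : K[X], AdjoinRoot P × AdjoinRoot P → ℝ),
    (∀ j, (h' j).Monic ∧ (h'' j).Monic ∧ Squarefree (h' j * h'' j) ∧
      IsCoprime E (h' j * h'' j) ∧ (h' j).natDegree + D ≤ L ∧ (h'' j).natDegree + D ≤ L) →
    (∀ i j, i ≠ j → IsCoprime (h' i * h'' i) (h' j * h'' j)) →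
    (∀ j, ∀ P ∈ PA (h' j * h'' j), ∀ (_ : Fact (Irreducible P)) (_ : Fintype (AdjoinRoot P)),
      LocF (AdjoinRoot P) d (φ j P)) →
    L ≤ 2 * (h'' j₀).natDegree → (6 * r + 3) * T ≤ D →
    |∑ᶠ u ∈ {u : K[X] | u.degree < (L : WithBot ℕ)}, χ u * ∏ j,
        ∏ᶠ P ∈ PA (h' j * h'' j), φ j P (rp P (Z j + E * u))| ^ (2 ^ (6 * r + 1)) ≤
      M ^ (∑ j, (PA (h' j * h'' j)).ncard) * (Fintype.card K : ℝ) ^ (L * 2 ^ (6 * r + 1)) /
        (Fintype.card K : ℝ) ^ T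

/-- **Task WINFE.**  The product formula in a window, for one form. -/
def S_winFE : Prop :=
  ∀ (K : Type) [Field K] [Fintype K] [CharP K 2] (cp u v : K[X][X]) (N : K[X]) (μ₀ : ℕ),
    SepE cp u v N → ∃ c₀ : ℕ, ∀ (n L : ℕ) (c : K) (Z e h m E : K[X]),
    c ≠ 0 → e.Monic → h.Monic → m.Monic → m.natDegree ≤ μ₀ → IsCoprime e h → Squarefree h →
    IsCoprime E h → E ≠ 0 → (e * N ^ 2 * m) ^ 5 ∣ E → 1 ≤ L →
    (Z ^ 2 + X * (C c * (e * h)) ^ 2).Monic → (Z ^ 2 + X * (C c * (e * h)) ^ 2).natDegree = n →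
    n + 2 * (E.natDegree + (L - 1)) + c₀ ≤ 4 * (e * h).natDegree →
    2 * (E.natDegree + (L - 1)) + c₀ ≤ n →
    ∃ η : ℝ, |η| ≤ 1 ∧ ∀ u : K[X], u.degree < (L : WithBot ℕ) →
      (mobM m N ((PhE cp).eval ((Z + E * u) ^ 2 + X * (C c * (e * h)) ^ 2)) : ℝ) =
        η * ∏ᶠ P ∈ PA h, GE cp (C c * (e * h)) P (rp P (Z + E * u))

/-- **Task WIN5E.**  The window bound for products of Möbius values. -/
def S_win5E : Prop :=
  ∀ (K : Type) [Field K] [Fintype K] [CharP K 2] (r : ℕ) (cp u v : Fin r → K[X][X])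
    (N : Fin r → K[X]) (μ₀ : ℕ), (∀ j, SepE (cp j) (u j) (v j) (N j)) →
  ∃ (M : ℝ) (c₀ : ℕ), 1 ≤ M ∧
  ∀ (n L D T : ℕ) (c : K) (a E : K[X]) (e h' h'' s m : Fin r → K[X]) (j₀ : Fin r)
    (χ : AddChar K[X] ℝ),
    c ≠ 0 → E ≠ 0 → 1 ≤ L →
    (∀ j, (e j).Monic ∧ (h' j).Monic ∧ (h'' j).Monic ∧ (m j).Monic ∧ (m j).natDegree ≤ μ₀ ∧
      IsCoprime (e j) (h' j * h'' j) ∧ Squarefree (h' j * h'' j) ∧ IsCoprime E (h' j * h'' j) ∧
      (e j * N j ^ 2 * m j) ^ 5 ∣ E ∧ (h' j).natDegree + D ≤ L ∧ (h'' j).natDegree + D ≤ L ∧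
      n + 2 * (E.natDegree + (L - 1)) + c₀ ≤ 4 * (e j * (h' j * h'' j)).natDegree) →
    2 * (E.natDegree + (L - 1)) + c₀ ≤ n →
    (∀ i j, i ≠ j → IsCoprime (h' i * h'' i) (h' j * h'' j)) →
    (∀ j, ((a + s j) ^ 2 + X * (C c * (e j * (h' j * h'' j))) ^ 2).Monic ∧
      ((a + s j) ^ 2 + X * (C c * (e j * (h' j * h'' j))) ^ 2).natDegree = n) →
    L ≤ 2 * (h'' j₀).natDegree → (6 * r + 3) * T ≤ D →
    |∑ᶠ x ∈ {x : K[X] | x.degree < (L : WithBot ℕ)}, χ x * ∏ j,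
        (mobM (m j) (N j) ((PhE (cp j)).eval ((a + s j + E * x) ^ 2 +
          X * (C c * (e j * (h' j * h'' j))) ^ 2)) : ℝ)| ^ (2 ^ (6 * r + 1)) ≤
      M ^ (∑ j, (PA (h' j * h'' j)).ncard) * (Fintype.card K : ℝ) ^ (L * 2 ^ (6 * r + 1)) /
        (Fintype.card K : ℝ) ^ T

end windows

section assembly

/-- **The theorem for `mobM`**, with weights: `t` injective means that the differences of the
`s j ^ 2 + X * t j ^ 2` are not squares. -/
def S_apE : Prop :=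
  ∀ (K : Type) [Field K] [Fintype K] [CharP K 2] (r : ℕ) (cp u v : Fin r → K[X][X])
    (N m s t : Fin r → K[X]) (Q : K[X]), 1 ≤ r → (∀ j, SepE (cp j) (u j) (v j) (N j)) →
    (∀ j, (m j).Monic) → Function.Injective t → Q ≠ 0 →
    ∀ ε : ℝ, 0 < ε → ∃ n₀ : ℕ, ∀ n : ℕ, n₀ ≤ n → ∀ w : K[X] → ℝ, (∀ f, |w f| ≤ 1) →
      (∀ f, ∃ χ : AddChar K[X] ℝ, ∀ x, w (f + (Q * x) ^ 2) = w f * χ x) →
      |∑ᶠ f ∈ MD K n, w f * ∏ j, (mobM (m j) (N j)
        ((PhE (cp j)).eval (f + (s j ^ 2 + X * t j ^ 2))) : ℝ)| ≤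
          ε * (Fintype.card K : ℝ) ^ n

/-- **Task ASME.** -/
def S_asmE : Prop := S_win5E → S_typ2 → S_apE

/-- **Task CNTE**: the values divisible by a power of a prime. -/
def S_cntE : Prop :=
  ∀ (K : Type) [Field K] [Fintype K] [CharP K 2] (cp u v : K[X][X]) (N C0 P : K[X])
    (τ k n : ℕ), SepE cp u v N → Irreducible P → ¬ P ^ (τ + 1) ∣ N ^ 2 → τ ≤ k →
    (k - τ) * P.natDegree ≤ n →
    (MD K n ∩ {g | P ^ k ∣ (PhE cp).eval (g + C0)}).ncard ≤
      cp.natDegree * Fintype.card K ^ (τ * P.natDegree) *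
        Fintype.card K ^ (n - (k - τ) * P.natDegree)

/-- **Task BIGE**: the values divisible by the square of a prime of degree larger than `n / 2`. -/
def S_bigE : Prop :=
  ∀ (K : Type) [Field K] [Fintype K] [CharP K 2] (cp u v : K[X][X]) (N C0 : K[X]),
    SepE cp u v N → ∃ B n₀ : ℕ, ∀ n : ℕ, n₀ ≤ n →
      (MD K n ∩ {g | ∃ P : K[X], Irreducible P ∧ n < 2 * P.natDegree ∧
        P ^ 2 ∣ (PhE cp).eval (g + C0)}).ncard ≤ B * Fintype.card K ^ (n / 2)

/-- **Task TAILE**: for almost all `g` the part `m` of `Φ(g + C0)` has bounded degree. -/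
def S_tailE : Prop :=
  ∀ (K : Type) [Field K] [Fintype K] [CharP K 2] (cp u v : K[X][X]) (N C0 : K[X]),
    SepE cp u v N → ∀ η : ℝ, 0 < η → ∃ D₀ n₀ : ℕ, ∀ n : ℕ, n₀ ≤ n →
      ((MD K n ∩ {g | ¬ ∃ m : K[X], m.natDegree ≤ D₀ ∧
        GM N m ((PhE cp).eval (g + C0))}).ncard : ℝ) ≤ η * (Fintype.card K : ℝ) ^ n

/-- **The theorem for the Liouville function**, monic case. -/
def S_lioE : Prop :=
  ∀ (K : Type) [Field K] [Fintype K] [CharP K 2] (r : ℕ) (cp u v : Fin r → K[X][X])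
    (N s t : Fin r → K[X]) (Q : K[X]), 1 ≤ r → (∀ j, SepE (cp j) (u j) (v j) (N j)) →
    Function.Injective t → Q ≠ 0 →
    ∀ ε : ℝ, 0 < ε → ∃ n₀ : ℕ, ∀ n : ℕ, n₀ ≤ n → ∀ w : K[X] → ℝ, (∀ f, |w f| ≤ 1) →
      (∀ f, ∃ χ : AddChar K[X] ℝ, ∀ x, w (f + (Q * x) ^ 2) = w f * χ x) →
      |∑ᶠ f ∈ MD K n, w f * ∏ j,
        (liou ((PhE (cp j)).eval (f + (s j ^ 2 + X * t j ^ 2))) : ℝ)| ≤
          ε * (Fintype.card K : ℝ) ^ n

/-- **Task LAME.** -/
def S_lamE : Prop := S_apE → S_tailE → S_lioE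

/-- **The theorem**: `f ∈ K[X][T]` is separable over `K(X)`, of positive degree, and a constant
times a product of polynomials `Φ_j(μ T + C_j)`, where the coefficients of `Φ_j` are squares. -/
def S_E : Prop :=
  ∀ (K : Type) [Field K] [Fintype K] [CharP K 2] (r : ℕ) (cp : Fin r → K[X][X])
    (Cc : Fin r → K[X]) (f u v : K[X][X]) (c μ N Q : K[X]), c ≠ 0 → μ ≠ 0 → Q ≠ 0 → N ≠ 0 →
    C c * f = ∏ j, ((cp j).map (frobenius K[X] 2)).comp (C μ * X + C (Cc j)) →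
    0 < f.natDegree → u * f + v * derivative f = C N →
    ∀ ε : ℝ, 0 < ε → ∃ n₀ : ℕ, ∀ n : ℕ, n₀ ≤ n → ∀ w : K[X] → ℝ, (∀ g, |w g| ≤ 1) →
      (∀ g, ∃ χ : AddChar K[X] ℝ, ∀ x, w (g + μ * (Q * x) ^ 2) = w g * χ x) →
      |∑ᶠ g ∈ MD K n, w g * (liou (f.eval g) : ℝ)| ≤ ε * (Fintype.card K : ℝ) ^ n

/-- **Task FINE.** -/
def S_finE : Prop := S_lioE → S_E

end assembly

end Pool.Agent.H140.E
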