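import Mathlib
import Pool.Agent.H140.E.Stm

/-!
# Chowla's conjecture for polynomials of any degree over `F_q[X]`, `q` even: the final statements
-/

set_option autoImplicit false

namespace Pool.Agent.H140.E

open Polynomial
open Pool.Agent.H985.Chow (mob MD)
open Pool.Agent.H140.Q (liou)

/-- **Task INTRA.**  If `μ θ + s` is the square of a separable element for every root `θ`, with a
rational `s`, then `f` is up to a constant a product of the form considered in `S_E`. -/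
def S_intrA : Prop :=
  ∀ (K : Type) [Field K] [Fintype K] [CharP K 2] (f u v : K[X][X]) (μ N : K[X]),
    μ ≠ 0 → N ≠ 0 → 0 < f.natDegree → u * f + v * derivative f = C N →
    (∀ θ : AlgebraicClosure (RatFunc K), aeval θ f = 0 →
      ∃ (s : RatFunc K) (σ : AlgebraicClosure (RatFunc K)), IsSeparable (RatFunc K) σ ∧
        σ ^ 2 = algebraMap K[X] (AlgebraicClosure (RatFunc K)) μ * θ +
          algebraMap (RatFunc K) (AlgebraicClosure (RatFunc K)) s) →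
    ∃ (r : ℕ) (cp : Fin r → K[X][X]) (a : Fin r → K[X]) (c δ : K[X]), c ≠ 0 ∧ δ ≠ 0 ∧
      C c * f = ∏ j, ((cp j).map (frobenius K[X] 2)).comp (C (δ ^ 2 * μ) * X + C (a j))

/-- **Task MOBE.**  `S_E` for the Möbius function. -/
def S_Emob : Prop :=
  ∀ (K : Type) [Field K] [Fintype K] [CharP K 2] (r : ℕ) (cp : Fin r → K[X][X])
    (Cc : Fin r → K[X]) (f u v : K[X][X]) (c μ N Q : K[X]), c ≠ 0 → μ ≠ 0 → Q ≠ 0 → N ≠ 0 →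
    C c * f = ∏ j, ((cp j).map (frobenius K[X] 2)).comp (C μ * X + C (Cc j)) →
    0 < f.natDegree → u * f + v * derivative f = C N →
    ∀ ε : ℝ, 0 < ε → ∃ n₀ : ℕ, ∀ n : ℕ, n₀ ≤ n → ∀ w : K[X] → ℝ, (∀ g, |w g| ≤ 1) →
      (∀ g, ∃ χ : AddChar K[X] ℝ, ∀ x, w (g + μ * (Q * x) ^ 2) = w g * χ x) →
      |∑ᶠ g ∈ MD K n, w g * (mob (f.eval g) : ℝ)| ≤ ε * (Fintype.card K : ℝ) ^ n

/-- The Liouville function at the values of a polynomial with constant coefficients. -/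
def S_const : Prop :=
  ∀ (K : Type) [Field K] [Fintype K] [CharP K 2] (f Q : K[X]), ¬ IsSquare f → Q ≠ 0 →
    ∀ ε : ℝ, 0 < ε → ∃ n₀ : ℕ, ∀ n : ℕ, n₀ ≤ n → ∀ w : K[X] → ℝ, (∀ g, |w g| ≤ 1) →
      (∀ g, ∃ χ : AddChar K[X] ℝ, ∀ x, w (g + (Q * x) ^ 2) = w g * χ x) →
      |∑ᶠ g ∈ MD K n, w g * (liou (f.comp g) : ℝ)| ≤ ε * (Fintype.card K : ℝ) ^ n

/-- Binomials. -/
def S_bin : Prop :=
  ∀ (K : Type) [Field K] [Fintype K] [CharP K 2] (α β Q : K[X]) (d : ℕ), α ≠ 0 → β ≠ 0 →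
    Odd d → Q ≠ 0 →
    ∀ ε : ℝ, 0 < ε → ∃ n₀ : ℕ, ∀ n : ℕ, n₀ ≤ n → ∀ w : K[X] → ℝ, (∀ g, |w g| ≤ 1) →
      (∀ g, ∃ χ : AddChar K[X] ℝ, ∀ x, w (g + α * β * (Q * x) ^ 2) = w g * χ x) →
      |∑ᶠ g ∈ MD K n, w g * (liou (α * g ^ d + β) : ℝ)| ≤ ε * (Fintype.card K : ℝ) ^ n

/-- Quadratics. -/
def S_quadw : Prop :=
  ∀ (K : Type) [Field K] [Fintype K] [CharP K 2] (α β γ Q : K[X]), α ≠ 0 → β ≠ 0 → Q ≠ 0 →
    ∀ ε : ℝ, 0 < ε → ∃ n₀ : ℕ, ∀ n : ℕ, n₀ ≤ n → ∀ w : K[X] → ℝ, (∀ g, |w g| ≤ 1) →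
      (∀ g, ∃ χ : AddChar K[X] ℝ, ∀ x, w (g + α * β * (Q * x) ^ 2) = w g * χ x) →
      |∑ᶠ g ∈ MD K n, w g * (liou (α * g ^ 2 + β * g + γ) : ℝ)| ≤
        ε * (Fintype.card K : ℝ) ^ n

/-- Cubics `α g ^ 3 + β g ^ 2 + γ g + δ` such that `α γ` is a square; separability means
`β γ + α δ ≠ 0`. -/
def S_cub : Prop :=
  ∀ (K : Type) [Field K] [Fintype K] [CharP K 2] (α β γ δ Q : K[X]), α ≠ 0 → IsSquare (α * γ) →
    β * γ + α * δ ≠ 0 → Q ≠ 0 →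
    ∀ ε : ℝ, 0 < ε → ∃ n₀ : ℕ, ∀ n : ℕ, n₀ ≤ n → ∀ w : K[X] → ℝ, (∀ g, |w g| ≤ 1) →
      (∀ g, ∃ χ : AddChar K[X] ℝ, ∀ x,
        w (g + (β * γ + α * δ) * (Q * x) ^ 2) = w g * χ x) →
      |∑ᶠ g ∈ MD K n, w g * (liou (α * g ^ 3 + β * g ^ 2 + γ * g + δ) : ℝ)| ≤
        ε * (Fintype.card K : ℝ) ^ n

end Pool.Agent.H140.E
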