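import Mathlib
import Pool.Agent.H140.E.StmF
import Pool.Agent.H140.Q.FinM

/-!
# Chowla's conjecture for polynomials of any degree over `F_q[X]`, `q` even: special cases
-/

set_option autoImplicit false

namespace Pool.Agent.H140.E

open Polynomial
open Pool.Agent.H985.Chow (mob MD)
open Pool.Agent.H140.Q (liou)
open Pool.Agent.H140.Q.FinM (liou_mul liou_self)

section

variable {K : Type} [Field K] [CharP K 2]

lemma two_eq_zero' : (2 : K[X][X]) = 0 := by
  have h : (2 : K) = 0 := CharP.cast_eq_zero K 2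
  have h2 : (2 : K[X]) = 0 := by
    rw [show (2 : K[X]) = C (2 : K) from (map_ofNat C 2).symm, h, C_0]
  rw [show (2 : K[X][X]) = C (2 : K[X]) from (map_ofNat C 2).symm, h2, C_0]

lemma odd_eq_one {d : ℕ} (hd : Odd d) : (C (d : K[X]) : K[X][X]) = 1 := by
  obtain ⟨k, rfl⟩ := hd
  have h2 : (2 : K[X]) = 0 := by
    have h : (2 : K) = 0 := CharP.cast_eq_zero K 2
    rw [show (2 : K[X]) = C (2 : K) from (map_ofNat C 2).symm, h, C_0]
  push_cast
  rw [h2, zero_mul, zero_add, C_1]

end

theorem binE (h : S_E) : S_bin := by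
  intro K _ _ _ α β Q d hα hβ hd hQ ε hε
  have hdd := odd_eq_one (K := K) hd
  have hd' := hd
  obtain ⟨k, hk⟩ := hd'
  have hf0 : (C α * X ^ d + C β : K[X][X]).natDegree = d := by
    have hd0 : 0 < d := hd.pos
    rw [natDegree_add_eq_left_of_natDegree_lt]
    · exact natDegree_C_mul_X_pow d α hα
    · rw [natDegree_C_mul_X_pow d α hα, natDegree_C]
      exact hd0
  obtain ⟨n₀, hn₀⟩ := h K 1 (fun _ => X ^ d + C (α ^ k * β ^ (k + 1))) (fun _ => 0)
    (C α * X ^ d + C β) 1 X ((α * β) ^ (2 * k) * β) (α * β) β Q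
    (mul_ne_zero (pow_ne_zero _ (mul_ne_zero hα hβ)) hβ) (mul_ne_zero hα hβ) hQ hβ
    (by
      rw [Fin.prod_univ_one]
      simp only [Polynomial.map_add, Polynomial.map_pow, map_X, map_C, frobenius_def, add_comp,
        pow_comp, X_comp, C_comp, C_0, add_zero]
      rw [hk]
      simp only [C_mul, C_pow]
      ring)
    (by rw [hf0]; exact hd.pos)
    (by
      rw [derivative_add, derivative_C, add_zero, derivative_C_mul, derivative_X_pow, hdd]
      have e : (X : K[X][X]) * X ^ (d - 1) = X ^ d := by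
        rw [mul_comm, ← pow_succ, Nat.sub_add_cancel hd.pos]
      linear_combination (C α) * e + C α * X ^ d * two_eq_zero' (K := K))
    ε hε
  refine ⟨n₀, fun n hn w hw hχ => ?_⟩
  have := hn₀ n hn w hw hχ
  simpa only [eval_add, eval_mul, eval_C, eval_pow, eval_X] using this

theorem quadE (h : S_E) : S_quadw := by
  intro K _ _ _ α β γ Q hα hβ hQ ε hε
  obtain ⟨n₀, hn₀⟩ := h K 1 (fun _ => X ^ 2 + C β * X + C (α * γ)) (fun _ => α * γ)
    (C α * X ^ 2 + C β * X + C γ) 0 1 (α * β ^ 2) (α * β) β Q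
    (mul_ne_zero hα (pow_ne_zero 2 hβ)) (mul_ne_zero hα hβ) hQ hβ
    (by
      rw [Fin.prod_univ_one]
      simp only [Polynomial.map_add, Polynomial.map_pow, Polynomial.map_mul, map_X, map_C,
        frobenius_def, add_comp, mul_comp, pow_comp, X_comp, C_comp]
      simp only [C_mul, C_pow]
      linear_combination (-(C α * C β * X * (C α * C γ)) - C α ^ 2 * C γ ^ 2) *
        two_eq_zero' (K := K))
    (by rw [natDegree_quadratic hα]; norm_num)
    (by
      simp only [derivative_add, derivative_mul, derivative_C, derivative_X, derivative_X_pow]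
      simp only [Nat.cast_ofNat, map_ofNat]
      linear_combination (C α * X) * two_eq_zero' (K := K))
    ε hε
  refine ⟨n₀, fun n hn w hw hχ => ?_⟩
  have := hn₀ n hn w hw hχ
  simpa only [eval_add, eval_mul, eval_C, eval_pow, eval_X] using this

theorem cubE (h : S_E) : S_cub := by
  intro K _ _ _ α β γ δ Q hα hsq hκ hQ ε hε
  obtain ⟨s, hs⟩ := hsq
  obtain ⟨κ, hκd⟩ : ∃ κ, κ = β * γ + α * δ := ⟨_, rfl⟩
  rw [← hκd] at hκ
  have h2 := two_eq_zero' (K := K)
  have hs' : C α * C γ = C s * C s := by rw [← C_mul, ← C_mul, hs]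
  have hκ' : C κ = C β * C γ + C α * C δ := by rw [← C_mul, ← C_mul, ← C_add, hκd]
  obtain ⟨n₀, hn₀⟩ := h K 1
    (fun _ => X ^ 3 + C ((β + s) * (α * κ)) * X + C ((α * κ) ^ 2)) (fun _ => α * κ * β)
    (C α * X ^ 3 + C β * X ^ 2 + C γ * X + C δ) (C α) (C α * X + C β) (α ^ 5 * κ ^ 3)
    (α ^ 2 * κ) κ Q
    (mul_ne_zero (pow_ne_zero 5 hα) (pow_ne_zero 3 hκ)) (mul_ne_zero (pow_ne_zero 2 hα) hκ) hQ hκ
    (by
      rw [Fin.prod_univ_one]
      simp only [Polynomial.map_add, Polynomial.map_pow, Polynomial.map_mul, map_X, map_C,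
        frobenius_def, add_comp, mul_comp, pow_comp, X_comp, C_comp]
      simp only [C_mul, C_pow, C_add]
      generalize C κ = k at hκ' ⊢
      generalize C α = a at hs' hκ' ⊢
      generalize C β = b at hκ' ⊢
      generalize C γ = c at hs' hκ' ⊢
      generalize C δ = d at hκ' ⊢
      generalize C s = t at hs' ⊢
      linear_combination (a ^ 3 * k ^ 3 * (a * X + b)) * hs' - a ^ 4 * k ^ 3 * hκ' -
        a ^ 3 * k ^ 3 * (a ^ 2 * b * X ^ 2 + 2 * a * b ^ 2 * X + b ^ 3 + b * t * (a * X + b) +
          a * b * c) * h2)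
    (by rw [natDegree_cubic hα]; norm_num)
    (by
      rw [hκ']
      simp only [derivative_add, derivative_mul, derivative_C, derivative_X, derivative_X_pow]
      simp only [Nat.cast_ofNat, map_ofNat]
      linear_combination (2 * C α ^ 2 * X ^ 3 + 3 * C α * C β * X ^ 2 +
        (C α * C γ + C β ^ 2) * X) * h2)
    ε hε
  refine ⟨n₀, fun n hn w hw hχ => ?_⟩
  have := hn₀ n hn w hw fun g => by
    obtain ⟨χ, hχ⟩ := hχ g
    refine ⟨χ.compAddMonoidHom (AddMonoidHom.mulLeft α), fun x => ?_⟩
    have := hχ (α * x)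
    rw [← hκd] at this
    rw [AddChar.compAddMonoidHom_apply, AddMonoidHom.coe_mulLeft, ← this]
    congr 1
    ring
  simpa only [eval_add, eval_mul, eval_C, eval_pow, eval_X] using this

section

variable {K : Type} [Field K]

/-- a nonzero polynomial is a squarefree one times a square -/
lemma sqfree_mul_sq (n : ℕ) : ∀ f : K[X], f ≠ 0 → f.natDegree ≤ n →
    ∃ s t : K[X], Squarefree s ∧ f = s * t ^ 2 := by
  induction n with
  | zero =>
    intro f hf hn
    have : IsUnit f := by
      rw [isUnit_iff_degree_eq_zero, degree_eq_natDegree hf, Nat.le_zero.1 hn]; rfl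
    exact ⟨f, 1, this.squarefree, by ring⟩
  | succ n ih =>
    intro f hf hn
    by_cases hs : Squarefree f
    · exact ⟨f, 1, hs, by ring⟩
    · unfold Squarefree at hs
      push Not at hs
      obtain ⟨x, ⟨g, hg⟩, hx⟩ := hs
      have hx0 : x ≠ 0 := by
        rintro rfl
        apply hf
        rw [hg]; ring
      have hg0 : g ≠ 0 := by
        rintro rfl
        apply hf
        rw [hg]; ring
      have hdx : 0 < x.natDegree := by
        rw [Nat.pos_iff_ne_zero]
        intro h0
        apply hx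
        rw [isUnit_iff_degree_eq_zero, degree_eq_natDegree hx0, h0]; rfl
      have hdeg : f.natDegree = x.natDegree + x.natDegree + g.natDegree := by
        rw [hg, natDegree_mul (mul_ne_zero hx0 hx0) hg0, natDegree_mul hx0 hx0]
      obtain ⟨s, t, hs', hst⟩ := ih g hg0 (by omega)
      exact ⟨s, x * t, hs', by rw [hg, hst]; ring⟩

end

theorem constE (h : S_E) : S_const := by
  intro K _ _ _ f Q hf hQ ε hε
  have hf0 : f ≠ 0 := by
    rintro rfl
    exact hf ⟨0, by ring⟩
  obtain ⟨s, t, hs, hst⟩ := sqfree_mul_sq f.natDegree f hf0 le_rfl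
  have hs0 : s ≠ 0 := hs.ne_zero
  have ht0 : t ≠ 0 := by
    rintro rfl
    apply hf0
    rw [hst]; ring
  -- every element of K is a square
  have hsurj : Function.Surjective (frobenius K 2) :=
    (Finite.injective_iff_surjective (α := K)).1 (frobenius K 2).injective
  have hsd : 0 < s.natDegree := by
    rw [Nat.pos_iff_ne_zero]
    intro h0
    rw [natDegree_eq_zero] at h0
    obtain ⟨a, rfl⟩ := h0
    obtain ⟨b, rfl⟩ := hsurj a
    apply hf
    refine ⟨C b * t, ?_⟩
    rw [hst, frobenius_def, C_pow]; ring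
  obtain ⟨p, hp⟩ := Polynomial.map_surjective (frobenius K 2) hsurj s
  have hsep : s.Separable := PerfectField.separable_iff_squarefree.2 hs
  obtain ⟨u, v, huv⟩ := hsep
  obtain ⟨n₀, hn₀⟩ := h K 1 (fun _ => p.map C) (fun _ => 0) (s.map C) (u.map C) (v.map C) 1 1 1 Q
    one_ne_zero one_ne_zero hQ one_ne_zero
    (by
      rw [Fin.prod_univ_one, C_1, one_mul, one_mul, C_0, add_zero, comp_X, ← hp, map_map, map_map]
      congr 1
      refine RingHom.ext fun a => ?_
      rw [RingHom.comp_apply, RingHom.comp_apply, frobenius_def, frobenius_def, C_pow])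
    (by rwa [natDegree_map_eq_of_injective C_injective])
    (by
      rw [derivative_map, ← Polynomial.map_mul, ← Polynomial.map_mul, ← Polynomial.map_add, huv,
        Polynomial.map_one, C_1])
    ε hε
  refine ⟨max n₀ 1, fun n hn w hw hχ => ?_⟩
  have := hn₀ n (le_trans (le_max_left _ _) hn) w hw fun g => by
    obtain ⟨χ, hχ⟩ := hχ g
    exact ⟨χ, fun x => by rw [one_mul]; exact hχ x⟩
  refine le_of_eq_of_le ?_ this
  congr 1
  refine finsum_mem_congr rfl fun g hg => ?_
  have hgd : 0 < g.natDegree := by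
    have : 1 ≤ n := le_trans (le_max_right _ _) hn
    rw [hg.2]; omega
  have htg : t.comp g ≠ 0 := by
    intro h0
    rw [comp_eq_zero_iff] at h0
    rcases h0 with h0 | ⟨h0, h1⟩
    · exact ht0 h0
    · rw [h1, natDegree_C] at hgd
      exact lt_irrefl _ hgd
  have e1 : liou (f.comp g) = liou ((s.map C).eval g) := by
    rw [hst, mul_comp, pow_comp, liou_mul, sq, liou_mul, liou_self htg, mul_one, eval_map]
    rfl
  rw [e1]

end Pool.Agent.H140.E
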