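import Mathlib
import Pool.Agent.H140.E.Stm
import Pool.Agent.H604.FC.Asm4

/-!
# Chowla for polynomials of any degree, characteristic two: assembly (task ASME, helper287)

Adapted from helper385's ASM4 (`Pool.Agent.H604.FC.Asm4`).
-/

set_option autoImplicit false

namespace Pool.Agent.H140.E

open Polynomial
open Pool.Agent.H985.Chow (mob MD)
open Pool.Agent.H985.KP (PA Good2 S_typ2)
open Pool.Agent.H140.Q (mobM)
open Pool.Agent.H985.Chow.Asm
open Pool.Agent.H604.FC.Asm4 (omega_bound tend nz nz_ne nz_of_ne cop_other num_est gd2 badG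
  mem_badG bad_card badA mem_badA badA_card lead_eq)

namespace AsmE

section setup

variable {K : Type} [Field K] [Fintype K]

/-- the product of everything to which the divisors have to be prime -/
noncomputable def SS {r : ℕ} (N m t : Fin r → K[X]) (Q : K[X]) : K[X] :=
  Q * (∏ i, N i) * (∏ i, m i) * ∏ p : Fin r × Fin r, nz (t p.1 - t p.2)

omit [Fintype K] in
lemma SS_ne {r : ℕ} (N m t : Fin r → K[X]) (Q : K[X]) (hN : ∀ i, N i ≠ 0)
    (hm : ∀ i, (m i).Monic) (hQ : Q ≠ 0) : SS N m t Q ≠ 0 := by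
  unfold SS
  refine mul_ne_zero (mul_ne_zero (mul_ne_zero hQ ?_) ?_) ?_
  · exact Finset.prod_ne_zero_iff.2 (fun i _ => hN i)
  · exact Finset.prod_ne_zero_iff.2 (fun i _ => (hm i).ne_zero)
  · exact Finset.prod_ne_zero_iff.2 (fun p _ => nz_ne _)

omit [Fintype K] in
lemma SS_Q {r : ℕ} (N m t : Fin r → K[X]) (Q : K[X]) : Q ∣ SS N m t Q := by
  unfold SS
  exact ((dvd_mul_right _ _).mul_right _).mul_right _

omit [Fintype K] in
lemma SS_N {r : ℕ} (N m t : Fin r → K[X]) (Q : K[X]) (i : Fin r) : N i ∣ SS N m t Q := by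
  unfold SS
  exact (((Finset.dvd_prod_of_mem N (Finset.mem_univ i)).mul_left _).mul_right _).mul_right _

omit [Fintype K] in
lemma SS_m {r : ℕ} (N m t : Fin r → K[X]) (Q : K[X]) (i : Fin r) : m i ∣ SS N m t Q := by
  unfold SS
  exact ((Finset.dvd_prod_of_mem m (Finset.mem_univ i)).mul_left _).mul_right _

omit [Fintype K] in
lemma SS_t {r : ℕ} (N m t : Fin r → K[X]) (Q : K[X]) (i j : Fin r)
    (hij : t i ≠ t j) : t i - t j ∣ SS N m t Q := by
  unfold SS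
  have h := Finset.dvd_prod_of_mem (fun p : Fin r × Fin r => nz (t p.1 - t p.2))
    (Finset.mem_univ ((i, j) : Fin r × Fin r))
  simp only [nz_of_ne (sub_ne_zero.2 hij)] at h
  exact h.mul_left _

omit [Fintype K] in
lemma abs_mobM (m N f : K[X]) : |(mobM m N f : ℝ)| ≤ 1 := by
  unfold mobM
  split_ifs
  · exact abs_mob _
  · simp

variable [CharP K 2]

/-- the summand -/
noncomputable def fs {r : ℕ} (cp : Fin r → K[X][X]) (N m s t : Fin r → K[X]) (w : K[X] → ℝ)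
    (f : K[X]) : ℝ :=
  w f * ∏ i, (mobM (m i) (N i) ((PhE (cp i)).eval (f + (s i ^ 2 + X * t i ^ 2))) : ℝ)

omit [Fintype K] in
lemma abs_fs {r : ℕ} (cp : Fin r → K[X][X]) (N m s t : Fin r → K[X]) (w : K[X] → ℝ)
    (hw : ∀ f, |w f| ≤ 1) (f : K[X]) : |fs cp N m s t w f| ≤ 1 := by
  rw [fs, abs_mul, Finset.abs_prod]
  exact mul_le_one₀ (hw _) (Finset.prod_nonneg (fun i _ => abs_nonneg _))
    (Finset.prod_le_one (fun i _ => abs_nonneg _) (fun i _ => abs_mobM _ _ _))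

end setup

section good

variable {K : Type} [Field K] [Fintype K] [CharP K 2]

lemma good_main (hwin : S_win5E) {r : ℕ} (cp u₀ v₀ : Fin r → K[X][X]) (Nn m s t : Fin r → K[X])
    (Q : K[X]) (hr1 : 1 ≤ r) (hsep : ∀ i, SepE (cp i) (u₀ i) (v₀ i) (Nn i))
    (hm : ∀ i, (m i).Monic) (hQ : Q ≠ 0) (ht : Function.Injective t)
    (δ : ℝ) (hδ : 0 < δ) (E₀ j : ℕ) (ε : ℝ) (hε : 0 < ε) :
    ∃ d₁ : ℕ, ∀ n d : ℕ, d₁ ≤ d → n ≤ 2 * d + 2 * j + 1 → ∀ v' ∈ degreeLT K (n / 2),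
      ∀ (c : K) (b₁ : Fin r → K[X]), c ≠ 0 → (∀ l, tb K n + (v' + t l) = C c * b₁ l) →
        (∀ l, (b₁ l).Monic) → (∀ l, (b₁ l).natDegree = d) →
        (∀ l, Good2 (SS Nn m t Q) δ E₀ d (b₁ l)) → ∀ w : K[X] → ℝ, (∀ f, |w f| ≤ 1) →
          (∀ f, ∃ χ : AddChar K[X] ℝ, ∀ u, w (f + (Q * u) ^ 2) = w f * χ u) →
          |∑ v : degreeLT K ((n + 1) / 2), fs cp Nn m s t w
            (G (ta K n + (v : K[X])) (tb K n + v'))| ≤
            (Fintype.card K : ℝ) ^ ((n + 1) / 2) * ε := by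
  classical
  obtain ⟨q, hqdef⟩ : ∃ q : ℝ, q = Fintype.card K := ⟨_, rfl⟩
  have hq1 : (1 : ℝ) < q := by rw [hqdef]; exact_mod_cast Fintype.one_lt_card
  have hq0 : (0 : ℝ) < q := by linarith
  obtain ⟨j₀, -⟩ : ∃ j₀ : Fin r, j₀ = ⟨0, by omega⟩ := ⟨_, rfl⟩
  have hr0 : (0 : ℝ) < r := by exact_mod_cast hr1
  obtain ⟨μ₀, hμ₀⟩ : ∃ μ₀ : ℕ, ∀ i, (m i).natDegree ≤ μ₀ :=
    ⟨∑ i, (m i).natDegree, fun i => Finset.single_le_sum
      (f := fun i => (m i).natDegree) (fun _ _ => Nat.zero_le _) (Finset.mem_univ i)⟩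
  obtain ⟨M, c₀, hM1, hM⟩ := hwin K r cp u₀ v₀ Nn μ₀ hsep
  obtain ⟨κ, hκ⟩ : ∃ κ : ℝ, κ = δ / (2 * (6 * r + 3)) := ⟨_, rfl⟩
  have hκ0 : 0 < κ := by rw [hκ]; positivity
  obtain ⟨A, hA1, hA⟩ := omega_bound K M hM1 (q ^ (κ / 2 / r))
    (Real.one_lt_rpow hq1 (by positivity))
  obtain ⟨B, hB⟩ : ∃ B : ℕ, B = ∑ i, 5 * (2 * (Nn i).natDegree + (m i).natDegree) := ⟨_, rfl⟩
  obtain ⟨C₀, hC₀⟩ : ∃ C₀ : ℕ, C₀ = Q.natDegree + (r * (5 * E₀) + B) + 3 * j + c₀ + 2 := ⟨_, rfl⟩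
  obtain ⟨Sd, hSd⟩ : ∃ Sd : ℕ, ∀ i, (s i).natDegree ≤ Sd :=
    ⟨∑ i, (s i).natDegree, fun i => Finset.single_le_sum
      (f := fun i => (s i).natDegree) (fun _ _ => Nat.zero_le _) (Finset.mem_univ i)⟩
  obtain ⟨Td, hTd⟩ : ∃ Td : ℕ, ∀ l, (t l).natDegree ≤ Td :=
    ⟨∑ i, (t i).natDegree, fun i => Finset.single_le_sum
      (f := fun i => (t i).natDegree) (fun _ _ => Nat.zero_le _) (Finset.mem_univ i)⟩
  have hρ1 : q ^ (-(κ / 2)) < 1 := Real.rpow_lt_one_of_one_lt_of_neg hq1 (by linarith)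
  obtain ⟨m1, hm1⟩ := tend (A ^ r * q) (q ^ (-(κ / 2))) (ε ^ (2 ^ (6 * r + 1))) (by positivity)
    hρ1 (by positivity)
  obtain ⟨m4, hm4⟩ := exists_nat_gt (2 * (C₀ + E₀ + 1) / δ)
  refine ⟨m1 + m4 + C₀ + Sd + Td + 5, ?_⟩
  intro n d hd hn v' hv' c b₁ hc hb hb1 hbd hgood w hw hwi
  choose e h₁ h₂ hbe he hh₁ hh₂ heh hsq hSh hE₀ hδ1 hδ2 using hgood
  have hvτ : ∀ l, v' + t l ∈ degreeLT K (n / 2) ∨ n ≤ 2 * d := by
    intro l
    by_cases h : n ≤ 2 * d
    · exact Or.inr h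
    · left
      refine add_mem hv' (mem_of_natDegree_lt (Or.inr ?_))
      have := hTd l
      omega
  have hdn : 2 * d + 1 ≤ n := by
    by_contra hcon
    have h1 := tb_coeff n v' hv' d (by omega)
    have h2 : (tb K n + (v' + t j₀)).coeff d = 0 := by
      rw [← add_assoc, coeff_add, h1, zero_add]
      refine coeff_eq_zero_of_natDegree_lt ?_
      have := hTd j₀
      omega
    rw [hb, coeff_C_mul, ← hbd j₀, Monic.coeff_natDegree (hb1 j₀), mul_one] at h2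
    exact hc h2
  have hvτ' : ∀ l, v' + t l ∈ degreeLT K (n / 2) := fun l => (hvτ l).resolve_right (by omega)
  have hdeh : ∀ l, (e l * (h₁ l * h₂ l)).natDegree = d := fun l => by rw [← hbe, hbd]
  have hh12 : ∀ l, (h₁ l * h₂ l).Monic := fun l => (hh₁ l).mul (hh₂ l)
  have hdd : ∀ l, (e l).natDegree + ((h₁ l).natDegree + (h₂ l).natDegree) = d := by
    intro l
    rw [← hdeh l, (he l).natDegree_mul (hh12 l), (hh₁ l).natDegree_mul (hh₂ l)]
  obtain ⟨N, hN⟩ : ∃ N, N = (n + 1) / 2 := ⟨_, rfl⟩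
  rw [← hN]
  rw [← hqdef]
  have hGG : ∀ (x : K[X]) (i : Fin r), G x (tb K n + v') + G (s i) (t i) =
      G (x + s i) (C c * b₁ i) := by
    intro x i
    rw [← G_add, ← hb, ← add_assoc]
  -- the window
  obtain ⟨E', hE'⟩ : ∃ E', E' = ∏ l, (e l * Nn l ^ 2 * m l) ^ 5 := ⟨_, rfl⟩
  obtain ⟨E, hE⟩ : ∃ E, E = Q * E' := ⟨_, rfl⟩
  have hE'0 : E' ≠ 0 := by
    rw [hE']
    exact Finset.prod_ne_zero_iff.2 (fun l _ => pow_ne_zero 5 (mul_ne_zero (mul_ne_zero
      (he l).ne_zero (pow_ne_zero 2 (hsep l).2.2.1)) (hm l).ne_zero))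
  have hE0 : E ≠ 0 := by rw [hE]; exact mul_ne_zero hQ hE'0
  have hE'd : E'.natDegree ≤ r * (5 * E₀) + B := by
    rw [hE']
    refine (natDegree_prod_le _ _).trans ?_
    have h1 : r * (5 * E₀) + B = ∑ l : Fin r, (5 * E₀ +
        5 * (2 * (Nn l).natDegree + (m l).natDegree)) := by
      rw [Finset.sum_add_distrib, Finset.sum_const, Finset.card_univ, Fintype.card_fin,
        smul_eq_mul, hB]
    rw [h1]
    refine Finset.sum_le_sum (fun l _ => ?_)
    rw [natDegree_pow]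
    have h2 : (e l * Nn l ^ 2 * m l).natDegree ≤ (e l).natDegree + 2 * (Nn l).natDegree +
        (m l).natDegree := by
      refine natDegree_mul_le.trans (Nat.add_le_add_right (natDegree_mul_le.trans ?_) _)
      rw [natDegree_pow]
    have := hE₀ l
    omega
  have hEd : E.natDegree = Q.natDegree + E'.natDegree := by
    rw [hE, natDegree_mul hQ hE'0]
  obtain ⟨L, hL⟩ : ∃ L, L = d - E.natDegree - 3 * j - c₀ - 2 := ⟨_, rfl⟩
  have hL0 : d ≤ L + C₀ := by omega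
  have hL2 : L + E.natDegree + 3 * j + c₀ + 2 = d := by omega
  have hL1 : 1 ≤ L := by omega
  have hL3 : (d : ℝ) ≤ L + C₀ := by exact_mod_cast hL0
  have hL4 : (L : ℝ) ≤ d := by exact_mod_cast (by omega : L ≤ d)
  have hdm4 : 2 * ((C₀ : ℝ) + E₀ + 1) ≤ δ * d := by
    have h1 : (m4 : ℝ) ≤ d := by exact_mod_cast (by omega : m4 ≤ d)
    have h2 : 2 * ((C₀ : ℝ) + E₀ + 1) / δ ≤ d := hm4.le.trans h1
    rw [div_le_iff₀ hδ] at h2
    linarith
  obtain ⟨D, hD⟩ : ∃ D, D = ⌊δ * d / 2⌋₊ := ⟨_, rfl⟩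
  obtain ⟨T, hT⟩ : ∃ T, T = D / (6 * r + 3) := ⟨_, rfl⟩
  have hd0 : (0 : ℝ) ≤ d := Nat.cast_nonneg d
  have hD1 : (D : ℝ) ≤ δ * d / 2 := by
    rw [hD]
    exact Nat.floor_le (by positivity)
  have hD2 : δ * d / 2 < D + 1 := by
    rw [hD]
    exact Nat.lt_floor_add_one (δ * d / 2)
  have hT1 : (6 * r + 3) * T ≤ D := by
    rw [hT]
    exact Nat.mul_div_le _ _
  have hT2 : D + 1 ≤ (6 * r + 3) * (T + 1) := by
    rw [hT]
    exact Nat.lt_mul_div_succ D (by omega)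
  have hT3 : κ * d ≤ T + 1 := by
    have h1 : (D : ℝ) + 1 ≤ (6 * r + 3) * (T + 1) := by exact_mod_cast hT2
    have h2 : δ * d / 2 ≤ (6 * r + 3) * (T + 1) := by linarith
    rw [hκ, div_mul_eq_mul_div, div_le_iff₀ (by positivity)]
    linarith
  have hC₀0 : (0 : ℝ) ≤ C₀ := Nat.cast_nonneg _
  have hE₀0 : (0 : ℝ) ≤ E₀ := Nat.cast_nonneg _
  have hE₀' : ∀ l, ((e l).natDegree : ℝ) ≤ E₀ := fun l => by exact_mod_cast hE₀ l
  have hdd' : ∀ l, ((e l).natDegree : ℝ) + ((h₁ l).natDegree + (h₂ l).natDegree) = d :=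
    fun l => by exact_mod_cast hdd l
  have hh1L : ∀ l, (h₁ l).natDegree + D ≤ L := by
    intro l
    have h1 : ((h₁ l).natDegree : ℝ) + D ≤ L := by
      have := hδ2 l
      nlinarith
    exact_mod_cast h1
  have hh2L : ∀ l, (h₂ l).natDegree + D ≤ L := by
    intro l
    have h1 : ((h₂ l).natDegree : ℝ) + D ≤ L := by
      have h2 := hδ1 l
      have h3 := hdd' l
      have h4 : (0 : ℝ) ≤ (e l).natDegree := Nat.cast_nonneg _
      nlinarith
    exact_mod_cast h1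
  have hh2L' : L ≤ 2 * (h₂ j₀).natDegree := by
    have h1 : (L : ℝ) ≤ 2 * (h₂ j₀).natDegree := by
      have h2 := hδ2 j₀
      have h3 := hdd' j₀
      have h4 := hE₀' j₀
      nlinarith
    exact_mod_cast h1
  -- coprimality
  have hQh : ∀ l, IsCoprime Q (h₁ l * h₂ l) := by
    intro l
    obtain ⟨x, hx⟩ := SS_Q Nn m t Q
    have h1 := hSh l
    rw [hx] at h1
    exact h1.of_mul_left_left
  have hNh : ∀ l l', IsCoprime (Nn l) (h₁ l' * h₂ l') := by
    intro l l'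
    obtain ⟨x, hx⟩ := SS_N Nn m t Q l
    have h1 := hSh l'
    rw [hx] at h1
    exact h1.of_mul_left_left
  have hmh : ∀ l l', IsCoprime (m l) (h₁ l' * h₂ l') := by
    intro l l'
    obtain ⟨x, hx⟩ := SS_m Nn m t Q l
    have h1 := hSh l'
    rw [hx] at h1
    exact h1.of_mul_left_left
  have hτh : ∀ l l' l'', l ≠ l' → IsCoprime (t l - t l') (h₁ l'' * h₂ l'') := by
    intro l l' l'' hll
    obtain ⟨x, hx⟩ := SS_t Nn m t Q l l' (fun h => hll (ht h))
    have h1 := hSh l''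
    rw [hx] at h1
    exact h1.of_mul_left_left
  have hoth : ∀ l l', l ≠ l' → IsCoprime (e l' * (h₁ l' * h₂ l')) (h₁ l * h₂ l) := by
    intro l l' hll
    have h1 : IsCoprime (C c * b₁ l') (h₁ l * h₂ l) := by
      refine cop_other (C c * b₁ l) (C c * b₁ l') (t l - t l') (h₁ l * h₂ l) (e l) c ?_ ?_
        (hτh l l' l hll)
      · rw [← hb, ← hb]
        ring
      · rw [hbe]
    rw [← hbe]
    exact h1.of_mul_left_right
  have hEh : ∀ l, IsCoprime E (h₁ l * h₂ l) := by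
    intro l
    rw [hE]
    refine (hQh l).mul_left ?_
    rw [hE']
    refine IsCoprime.prod_left (fun l' _ => IsCoprime.pow_left ?_)
    refine IsCoprime.mul_left (IsCoprime.mul_left ?_ (hNh l' l).pow_left) (hmh l' l)
    by_cases hll : l = l'
    · rw [← hll]
      exact heh l
    · exact (hoth l l' hll).of_mul_left_left
  have hhh : ∀ l l', l ≠ l' → IsCoprime (h₁ l * h₂ l) (h₁ l' * h₂ l') := fun l l' hll =>
    (hoth l' l (Ne.symm hll)).of_mul_left_right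
  -- the bound for one window
  have hφ : ∀ u ∈ degreeLT K L, E * u ∈ degreeLT K N := by
    intro u hu
    apply mem_of_natDegree_lt
    by_cases hu0 : u = 0
    · left
      rw [hu0, mul_zero]
    · right
      have h1 := natDegree_lt_of_mem hu hu0
      rw [natDegree_mul hE0 hu0]
      omega
  have havg := avg N L E hφ (fun x => fs cp Nn m s t w
    (G (ta K n + x) (tb K n + v'))) ε
  rw [← hqdef] at havg
  refine havg ?_
  intro v hv
  obtain ⟨a, ha⟩ : ∃ a, a = ta K n + v := ⟨_, rfl⟩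
  have hmem : ∀ i, G (a + s i) (C c * (e i * (h₁ i * h₂ i))) ∈ MD K n := by
    intro i
    rw [← hbe, ← hb, ha, add_assoc]
    refine G_mem n (v + s i) (v' + t i) (add_mem ?_ ?_) (hvτ' _)
    · rwa [hN] at hv
    · apply mem_of_natDegree_lt
      right
      have := hSd i
      omega
  obtain ⟨χ, hχ⟩ := hwi (G a (tb K n + v'))
  obtain ⟨χ', hχ'⟩ : ∃ χ' : AddChar K[X] ℝ, ∀ u, χ' u = χ (E' * u) :=
    ⟨χ.compAddMonoidHom (AddMonoidHom.mulLeft E'), fun u => rfl⟩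
  have hwm := hM n L D T c a E e h₁ h₂ s m j₀ χ' hc hE0 hL1
    (fun l => ⟨he l, hh₁ l, hh₂ l, hm l, hμ₀ l, heh l, hsq l, hEh l, by
      rw [hE, hE']
      exact (Finset.dvd_prod_of_mem (fun l => (e l * Nn l ^ 2 * m l) ^ 5)
        (Finset.mem_univ l)).mul_left _,
      hh1L l, hh2L l, by rw [hdeh]; omega⟩) (by omega) hhh
    (fun i => ⟨(hmem i).1, (hmem i).2⟩) hh2L' hT1
  rw [window_finsum, ← hqdef] at hwm
  have hMw : M ^ (∑ l, (PA (h₁ l * h₂ l)).ncard) ≤ A ^ r * (q ^ (κ / 2)) ^ d := by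
    rw [← Finset.prod_pow_eq_pow_sum]
    calc ∏ l, M ^ (PA (h₁ l * h₂ l)).ncard ≤ ∏ _l : Fin r, (A * (q ^ (κ / 2 / r)) ^ d) := by
          apply Finset.prod_le_prod
          · intro l _
            positivity
          · intro l _
            exact hA (h₁ l * h₂ l) (hh12 l).ne_zero d (by
              rw [(hh₁ l).natDegree_mul (hh₂ l)]
              have := hdd l
              omega)
      _ = A ^ r * (q ^ (κ / 2)) ^ d := by
          rw [Finset.prod_const, Finset.card_univ, Fintype.card_fin, mul_pow, ← pow_mul,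
            mul_comm d r, pow_mul, ← Real.rpow_natCast (q ^ (κ / 2 / r)) r, ← Real.rpow_mul hq0.le,
            div_mul_cancel₀ _ hr0.ne']
  have hest := num_est q hq1 κ (A ^ r) (by positivity) d T hT3 _ hMw
  have hfin : |∑ u : degreeLT K L, χ' (u : K[X]) * ∏ i,
      (mobM (m i) (Nn i) ((PhE (cp i)).eval ((a + s i + E * (u : K[X])) ^ 2 +
        X * (C c * (e i * (h₁ i * h₂ i))) ^ 2)) : ℝ)| ^ (2 ^ (6 * r + 1)) ≤
      (q ^ L * ε) ^ (2 ^ (6 * r + 1)) := by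
    refine hwm.trans ?_
    rw [mul_pow, ← pow_mul, mul_comm (M ^ _), mul_div_assoc]
    apply mul_le_mul_of_nonneg_left _ (by positivity)
    exact hest.trans (hm1 d (by omega))
  have habs := (pow_le_pow_iff_left₀ (abs_nonneg _) (by positivity)
    (pow_ne_zero _ (by norm_num))).1 hfin
  have hterm : ∀ u : degreeLT K L,
      fs cp Nn m s t w (G (ta K n + (v + E * (u : K[X]))) (tb K n + v')) =
        w (G a (tb K n + v')) * (χ' (u : K[X]) * ∏ i,
      (mobM (m i) (Nn i) ((PhE (cp i)).eval ((a + s i + E * (u : K[X])) ^ 2 +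
        X * (C c * (e i * (h₁ i * h₂ i))) ^ 2)) : ℝ)) := by
    intro u
    rw [fs, ← add_assoc, ← ha]
    have h1 : G (a + E * (u : K[X])) (tb K n + v') =
        G a (tb K n + v') + (Q * (E' * (u : K[X]))) ^ 2 := by
      rw [G, G, CharTwo.add_sq, hE]
      ring
    have h2 : w (G (a + E * (u : K[X])) (tb K n + v')) =
        w (G a (tb K n + v')) * χ' (u : K[X]) := by
      rw [h1, hχ, hχ']
    rw [h2, mul_assoc]
    congr 1
    congr 1
    apply Finset.prod_congr rfl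
    intro i _
    have h3 : G (a + E * (u : K[X])) (tb K n + v') + (s i ^ 2 + X * t i ^ 2) =
        (a + s i + E * (u : K[X])) ^ 2 + X * (C c * (e i * (h₁ i * h₂ i))) ^ 2 := by
      have h4 := hGG (a + E * (u : K[X])) i
      rw [hbe, add_right_comm] at h4
      exact h4
    rw [h3]
  rw [Finset.sum_congr rfl (fun u _ => hterm u), ← Finset.mul_sum, abs_mul]
  calc |w (G a (tb K n + v'))| * |∑ u : degreeLT K L, χ' (u : K[X]) * ∏ i,
      (mobM (m i) (Nn i) ((PhE (cp i)).eval ((a + s i + E * (u : K[X])) ^ 2 +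
        X * (C c * (e i * (h₁ i * h₂ i))) ^ 2)) : ℝ)|
      ≤ 1 * (q ^ L * ε) := mul_le_mul (hw _) habs (abs_nonneg _) zero_le_one
    _ = _ := one_mul _

end good

end AsmE

open AsmE in
/-- **Task ASME.** -/
theorem asmE : S_asmE := by
  intro hwin htyp K _ _ _ r cp u₀ v₀ Nn m s t Q hr1 hsep hm ht hQ ε hε
  classical
  have hq1 : (1 : ℝ) < Fintype.card K := by exact_mod_cast Fintype.one_lt_card
  have hq0 : (0 : ℝ) < Fintype.card K := by linarith
  have hr0 : (0 : ℝ) < r := by exact_mod_cast hr1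
  obtain ⟨Td, hTd⟩ : ∃ Td : ℕ, ∀ l, (t l).natDegree ≤ Td :=
    ⟨∑ i, (t i).natDegree, fun i => Finset.single_le_sum
      (f := fun i => (t i).natDegree) (fun _ _ => Nat.zero_le _) (Finset.mem_univ i)⟩
  obtain ⟨ε', hε'⟩ : ∃ ε' : ℝ, ε' = ε / r := ⟨_, rfl⟩
  have hε'0 : 0 < ε' := by rw [hε']; positivity
  have hrε : r * ε' = ε := by
    rw [hε']
    field_simp
  obtain ⟨δ, E₀, hδ, d₀, hd₀⟩ := htyp K (SS Nn m t Q)
    (SS_ne Nn m t Q (fun i => (hsep i).2.2.1) hm hQ) (ε' / 4)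
    (by linarith)
  obtain ⟨j, hj⟩ := exists_pow_lt_of_lt_one (show (0 : ℝ) < ε' / 4 by linarith)
    (show 1 / (Fintype.card K : ℝ) < 1 by rw [div_lt_one hq0]; exact hq1)
  obtain ⟨d₁, hd₁⟩ := good_main (K := K) hwin cp u₀ v₀ Nn m s t Q hr1 hsep hm hQ ht δ hδ E₀ j (ε / 4)
    (by linarith)
  refine ⟨2 * (d₀ + d₁ + 2 * j + Td + 4), ?_⟩
  intro n hn w hw hwi
  change |∑ᶠ f ∈ MD K n, fs cp Nn m s t w f| ≤ _
  rw [sum_MD]
  set N := (n + 1) / 2 with hN
  have hqN : (0 : ℝ) < (Fintype.card K : ℝ) ^ N := pow_pos hq0 _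
  have hqm : (0 : ℝ) < (Fintype.card K : ℝ) ^ (n / 2) := pow_pos hq0 _
  set T : degreeLT K (n / 2) → ℝ := fun v' => ∑ v : degreeLT K N,
    fs cp Nn m s t w (G (ta K n + (v : K[X])) (tb K n + (v' : K[X]))) with hT
  have htriv : ∀ v', |T v'| ≤ (Fintype.card K : ℝ) ^ N := by
    intro v'
    refine (Finset.abs_sum_le_sum_abs _ _).trans ?_
    refine (Finset.sum_le_sum (fun v _ => abs_fs cp Nn m s t w hw _)).trans ?_
    rw [Finset.sum_const, Finset.card_univ, card_deg, nsmul_eq_mul, mul_one]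
    push_cast
    exact le_rfl
  have hgood : ∀ v', v' ∉ badA t (SS Nn m t Q) δ E₀ j n →
      |T v'| ≤ (Fintype.card K : ℝ) ^ N * (ε / 4) := by
    intro v' hv'
    rw [mem_badA] at hv'
    push Not at hv'
    choose c b₁ hc hb hb1 hnb hg2 using hv'
    obtain ⟨l₀, -⟩ : ∃ l₀ : Fin r, l₀ = ⟨0, by omega⟩ := ⟨_, rfl⟩
    have heq : ∀ l, (b₁ l).natDegree = (b₁ l₀).natDegree ∧ c l = c l₀ := by
      intro l
      refine lead_eq (p := tb K n + (v' : K[X])) (t := t l) (t' := t l₀) (hc l) (hc l₀)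
        ?_ ?_ (hb1 l) (hb1 l₀) (Td + 1) ?_ ?_ ?_ ?_
      · rw [add_assoc]
        exact hb l
      · rw [add_assoc]
        exact hb l₀
      · exact Nat.lt_succ_of_le (hTd l)
      · exact Nat.lt_succ_of_le (hTd l₀)
      · have := hnb l
        omega
      · have := hnb l₀
        omega
    refine hd₁ n (b₁ l₀).natDegree ?_ (hnb l₀) (v' : K[X]) v'.2 (c l₀) b₁ (hc l₀) ?_ hb1
      (fun l => (heq l).1) ?_ w hw hwi
    · have := hnb l₀
      omega
    · intro l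
      rw [hb l, (heq l).2]
    · intro l
      have h1 := hg2 l
      rwa [(heq l).1] at h1
  have hbad := bad_card (SS Nn m t Q) δ E₀ j n d₀ ε' hε'0 hj.le hd₀ (by omega)
  have hbadA := badA_card t (SS Nn m t Q) δ E₀ j n (fun l => mem_of_natDegree_lt (Or.inr (by
    have := hTd l
    omega)))
  have hbadB : ((badA t (SS Nn m t Q) δ E₀ j n).card : ℝ) ≤
      ε / 2 * (Fintype.card K : ℝ) ^ (n / 2) := by
    have h1 : ((badA t (SS Nn m t Q) δ E₀ j n).card : ℝ) ≤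
        r * ((badG (SS Nn m t Q) δ E₀ j n).card : ℝ) := by exact_mod_cast hbadA
    calc ((badA t (SS Nn m t Q) δ E₀ j n).card : ℝ) ≤
        r * ((badG (SS Nn m t Q) δ E₀ j n).card : ℝ) := h1
      _ ≤ r * (ε' / 2 * (Fintype.card K : ℝ) ^ (n / 2)) :=
          mul_le_mul_of_nonneg_left hbad hr0.le
      _ = (r * ε') / 2 * (Fintype.card K : ℝ) ^ (n / 2) := by ring
      _ = _ := by rw [hrε]
  have hall : ∀ v', |T v'| ≤ (Fintype.card K : ℝ) ^ N *
      ((if v' ∈ badA t (SS Nn m t Q) δ E₀ j n then 1 else 0) + ε / 4) := by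
    intro v'
    split_ifs with h
    · refine (htriv v').trans ?_
      have : (Fintype.card K : ℝ) ^ N * 1 ≤ (Fintype.card K : ℝ) ^ N * (1 + ε / 4) :=
        mul_le_mul_of_nonneg_left (by linarith) hqN.le
      linarith
    · rw [zero_add]
      exact hgood v' h
  refine (Finset.abs_sum_le_sum_abs _ _).trans ?_
  refine (Finset.sum_le_sum (fun v' _ => hall v')).trans ?_
  rw [← Finset.mul_sum, Finset.sum_add_distrib, Finset.sum_boole, Finset.sum_const,
    Finset.card_univ, card_deg, nsmul_eq_mul, Finset.filter_mem_eq_inter, Finset.univ_inter]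
  push_cast
  have hnn : (Fintype.card K : ℝ) ^ n = (Fintype.card K : ℝ) ^ N * (Fintype.card K : ℝ) ^ (n / 2) := by
    rw [← pow_add]
    congr 1
    omega
  rw [hnn]
  have h9 : ((badA t (SS Nn m t Q) δ E₀ j n).card : ℝ) + (Fintype.card K : ℝ) ^ (n / 2) * (ε / 4) ≤
      ε * (Fintype.card K : ℝ) ^ (n / 2) := by nlinarith
  calc (Fintype.card K : ℝ) ^ N * (((badA t (SS Nn m t Q) δ E₀ j n).card : ℝ) +
        (Fintype.card K : ℝ) ^ (n / 2) * (ε / 4))
      ≤ (Fintype.card K : ℝ) ^ N * (ε * (Fintype.card K : ℝ) ^ (n / 2)) :=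
        mul_le_mul_of_nonneg_left h9 hqN.le
    _ = _ := by ring


end Pool.Agent.H140.E
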