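import Pool.Agent.H140.E.Stm
import Pool.Agent.H140.Q.CntM

/-!
# Tasks CNTE and BIGE
-/

set_option autoImplicit false
set_option linter.unusedSectionVars false

namespace Pool.Agent.H140.E

open Polynomial
open Pool.Agent.H985.Chow (MD)

namespace CntEL

open Pool.Agent.H985.Chow.Asm (G G_mem mem_G ta tb card_deg mem_deg MD_finite)
open Pool.Agent.H140.Q.CntML (pow_dvd_aux card_range card_mult)

section char_two

variable {K : Type} [Field K] [CharP K 2]

/-- the squared relation, evaluated -/
theorem bez (cp u v : K[X][X]) (N : K[X]) (h : u * cp + v * derivative cp = C N) (f : K[X]) :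
    (PhE u).eval f * (PhE cp).eval f + (PhE v).eval f * (derivative (PhE cp)).eval f = N ^ 2 := by
  have h1 := congrArg (fun p => (p.map (frobenius K[X] 2)).eval f) h
  simp only [Polynomial.map_add, Polynomial.map_mul, eval_add, eval_mul, map_C, eval_C,
    frobenius_def] at h1
  unfold PhE
  rw [derivative_map]
  exact h1

theorem diff_dvd (cp u v : K[X][X]) (N : K[X]) (h : u * cp + v * derivative cp = C N) (P : K[X])
    (hP : Irreducible P) (τ k : ℕ) (hN : ¬ P ^ (τ + 1) ∣ N ^ 2) (hk : τ + 1 ≤ k) (f₁ f₂ : K[X])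
    (h1 : P ^ k ∣ (PhE cp).eval f₁) (h2 : P ^ k ∣ (PhE cp).eval f₂)
    (h3 : P ^ (τ + 1) ∣ f₂ - f₁) : P ^ (k - τ) ∣ f₂ - f₁ := by
  obtain ⟨w, hw⟩ := (PhE cp).binomExpansion f₁ (f₂ - f₁)
  rw [add_sub_cancel] at hw
  have h4 : P ^ k ∣ ((derivative (PhE cp)).eval f₁ + w * (f₂ - f₁)) * (f₂ - f₁) := by
    have h4' : ((derivative (PhE cp)).eval f₁ + w * (f₂ - f₁)) * (f₂ - f₁) =
        (PhE cp).eval f₂ - (PhE cp).eval f₁ := by
      rw [hw]; ring
    rw [h4']
    exact dvd_sub h2 h1
  have h5 : ¬ P ^ (τ + 1) ∣ (derivative (PhE cp)).eval f₁ + w * (f₂ - f₁) := by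
    intro h6
    have h7 : P ^ (τ + 1) ∣ (derivative (PhE cp)).eval f₁ := (dvd_add_left (h3.mul_left w)).1 h6
    apply hN
    rw [← bez cp u v N h f₁]
    exact dvd_add (((pow_dvd_pow P hk).trans h1).mul_left _) (h7.mul_left _)
  exact pow_dvd_aux hP.prime τ k _ _ h4 h5

/-- the derivative of a value of a polynomial whose coefficients are squares -/
theorem deriv_eval (cp : K[X][X]) (f : K[X]) :
    derivative ((PhE cp).eval f) = (derivative (PhE cp)).eval f * derivative f := by
  unfold PhE
  induction cp using Polynomial.induction_on' with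
  | add p q hp hq =>
    rw [Polynomial.map_add, eval_add, derivative_add, hp, hq, derivative_add, eval_add, add_mul]
  | monomial n a =>
    rw [map_monomial, eval_monomial, derivative_monomial, eval_monomial, frobenius_def,
      derivative_mul, derivative_sq, derivative_pow]
    have : (C (2 : K) : K[X]) = 0 := by
      rw [show (2 : K) = 0 from CharTwo.two_eq_zero, C_0]
    rw [this]
    have h2 : (C (n : K) : K[X]) = (n : K[X]) := by simp
    rw [h2]
    ring

end char_two

theorem card_roots_mod {K : Type} [Field K] (Φ : K[X][X]) (hΦ : Φ.Monic) (P : K[X])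
    (hP : Irreducible P) (A : Finset K[X])
    (hA : ∀ r ∈ A, r.degree < P.degree ∧ P ∣ Φ.eval r) : A.card ≤ Φ.natDegree := by
  classical
  have := Fact.mk hP
  have h1 : (A.image (AdjoinRoot.mk P)).card = A.card := by
    apply Finset.card_image_of_injOn
    intro a ha b hb hab
    have h2 : P ∣ a - b := AdjoinRoot.mk_eq_mk.1 hab
    have h3 : (a - b).degree < P.degree :=
      (degree_sub_le _ _).trans_lt (max_lt (hA a ha).1 (hA b hb).1)
    exact sub_eq_zero.1 (eq_zero_of_dvd_of_degree_lt h2 h3)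
  rw [← h1]
  have h4 : A.image (AdjoinRoot.mk P) ⊆ (Φ.map (AdjoinRoot.mk P)).roots.toFinset := by
    intro y hy
    obtain ⟨r, hr, rfl⟩ := Finset.mem_image.1 hy
    rw [Multiset.mem_toFinset, mem_roots (hΦ.map _).ne_zero, IsRoot.def, eval_map,
      eval₂_at_apply]
    exact AdjoinRoot.mk_eq_zero.2 (hA r hr).2
  calc (A.image (AdjoinRoot.mk P)).card ≤ _ := Finset.card_le_card h4
    _ ≤ Multiset.card (Φ.map (AdjoinRoot.mk P)).roots := Multiset.toFinset_card_le _
    _ ≤ (Φ.map (AdjoinRoot.mk P)).natDegree := card_roots' _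
    _ = Φ.natDegree := hΦ.natDegree_map _

theorem card_class {K : Type} [Field K] [Fintype K] (Q : K[X]) (hQ : Q ≠ 0) (n : ℕ)
    (h : Q.natDegree ≤ n) (T : Finset K[X])
    (hT : ∀ g ∈ T, ∀ g' ∈ T, (g' - g).degree < (n : WithBot ℕ) ∧ Q ∣ g' - g) :
    T.card ≤ Fintype.card K ^ (n - Q.natDegree) := by
  classical
  rcases T.eq_empty_or_nonempty with h0 | ⟨g₀, hg₀⟩
  · rw [h0]; simp
  · obtain ⟨h1, h2⟩ := card_mult Q hQ n h
    refine le_trans ?_ h2
    rw [← Set.ncard_coe_finset]
    refine Set.ncard_le_ncard_of_injOn (fun g => g - g₀) ?_ ?_ h1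
    · intro g hg
      exact hT g₀ hg₀ g hg
    · exact fun a _ b _ hab => sub_left_inj.mp hab

end CntEL

open CntEL in
theorem cntE : S_cntE := by
  intro K _ _ _ cp u v N C0 P τ k n hS hP hN hτk hn
  classical
  obtain ⟨hmon, hdeg, -, hbez⟩ := hS
  have hq1 : 1 ≤ Fintype.card K := Fintype.card_pos
  have hfin : (MD K n ∩ {g | P ^ k ∣ (PhE cp).eval (g + C0)}).Finite :=
    (Pool.Agent.H985.Chow.Asm.MD_finite n).inter_of_left _
  rw [Set.ncard_eq_toFinset_card _ hfin]
  set S := hfin.toFinset with hSdef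
  have hmem : ∀ g ∈ S, g ∈ MD K n ∧ P ^ k ∣ (PhE cp).eval (g + C0) := fun g hg =>
    hfin.mem_toFinset.1 hg
  have hsub : ∀ g ∈ S, ∀ g' ∈ S, (g' - g).degree < (n : WithBot ℕ) := by
    intro g hg g' hg'
    obtain ⟨⟨hgm, hgd⟩, -⟩ := hmem g hg
    obtain ⟨⟨hgm', hgd'⟩, -⟩ := hmem g' hg'
    have h1 := degree_sub_lt_left (p := g') (q := g)
      (by rw [degree_eq_natDegree hgm'.ne_zero, degree_eq_natDegree hgm.ne_zero, hgd, hgd'])
      hgm'.ne_zero (by rw [hgm'.leadingCoeff, hgm.leadingCoeff])
    rwa [degree_eq_natDegree hgm'.ne_zero, hgd'] at h1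
  rcases Nat.eq_or_lt_of_le hτk with hk | hk
  · -- the trivial case
    subst hk
    have h1 := card_class (K := K) 1 one_ne_zero n (by simp) S
      (fun g hg g' hg' => ⟨hsub g hg g' hg', one_dvd _⟩)
    rw [natDegree_one, Nat.sub_zero] at h1
    rw [Nat.sub_self, Nat.zero_mul, Nat.sub_zero]
    refine h1.trans (Nat.le_mul_of_pos_left _ ?_)
    exact Nat.mul_pos hdeg (Nat.pow_pos hq1)
  · have hPk0 : P ^ (k - τ) ≠ 0 := pow_ne_zero _ hP.ne_zero
    have hPkd : (P ^ (k - τ)).natDegree = (k - τ) * P.natDegree := natDegree_pow _ _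
    have hPt0 : P ^ (τ + 1) ≠ 0 := pow_ne_zero _ hP.ne_zero
    have hPtd : (P ^ (τ + 1)).natDegree = (τ + 1) * P.natDegree := natDegree_pow _ _
    have hmodd : ∀ a b Q : K[X], a % Q = b % Q → Q ∣ b - a := by
      intro a b Q hab
      have h1 := EuclideanDomain.div_add_mod a Q
      have h2 := EuclideanDomain.div_add_mod b Q
      refine ⟨b / Q - a / Q, ?_⟩
      rw [hab] at h1
      linear_combination h1 - h2
    have hself : ∀ a Q : K[X], Q ∣ a - a % Q := by
      intro a Q
      refine ⟨a / Q, ?_⟩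
      linear_combination (-1 : K[X]) * EuclideanDomain.div_add_mod a Q
    have hevd : ∀ a b Q : K[X], Q ∣ a - b → Q ∣ (PhE cp).eval a → Q ∣ (PhE cp).eval b := by
      intro a b Q h1 h2
      have h3 : a - b ∣ (PhE cp).eval a - (PhE cp).eval b := sub_dvd_eval_sub a b _
      exact (dvd_sub_right h2).1 (h1.trans h3)
    -- level one
    have hA : S.card ≤ Fintype.card K ^ (n - (k - τ) * P.natDegree) *
        (S.image fun g => (g + C0) % P ^ (τ + 1)).card := by
      refine Finset.card_le_mul_card_image _ _ ?_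
      intro a _
      rw [← hPkd]
      refine card_class _ hPk0 n (by rw [hPkd]; exact hn) _ ?_
      intro g hg g' hg'
      rw [Finset.mem_filter] at hg hg'
      refine ⟨hsub g hg.1 g' hg'.1, ?_⟩
      have h1 : P ^ (τ + 1) ∣ (g' + C0) - (g + C0) := hmodd _ _ _ (hg.2.trans hg'.2.symm)
      have h2 := diff_dvd cp u v N hbez P hP τ k hN hk (g + C0) (g' + C0) (hmem g hg.1).2
        (hmem g' hg'.1).2 h1
      rwa [add_sub_add_right_eq_sub] at h2
    -- level two
    have hB : (S.image fun g => (g + C0) % P ^ (τ + 1)).card ≤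
        Fintype.card K ^ (τ * P.natDegree) *
        ((S.image fun g => (g + C0) % P ^ (τ + 1)).image fun r => r % P).card := by
      refine Finset.card_le_mul_card_image _ _ ?_
      intro a _
      have hd : (τ + 1) * P.natDegree - P.natDegree = τ * P.natDegree := by
        rw [Nat.succ_mul]; omega
      rw [← hd]
      refine card_class _ hP.ne_zero _ (by rw [Nat.succ_mul]; omega) _ ?_
      intro r hr r' hr'
      rw [Finset.mem_filter] at hr hr'
      obtain ⟨hr1, hr2⟩ := hr
      obtain ⟨hr1', hr2'⟩ := hr'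
      obtain ⟨g, -, rfl⟩ := Finset.mem_image.1 hr1
      obtain ⟨g', -, rfl⟩ := Finset.mem_image.1 hr1'
      refine ⟨?_, hmodd _ _ _ (hr2.trans hr2'.symm)⟩
      have h1 : ∀ a : K[X], (a % P ^ (τ + 1)).degree < (((τ + 1) * P.natDegree : ℕ) : WithBot ℕ) := by
        intro a
        have h2 := EuclideanDomain.mod_lt a hPt0
        have h3 : (a % P ^ (τ + 1)).degree < (P ^ (τ + 1)).degree := h2
        rwa [degree_eq_natDegree hPt0, hPtd] at h3
      exact (degree_sub_le _ _).trans_lt (max_lt (h1 _) (h1 _))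
    -- level three
    have hC : ((S.image fun g => (g + C0) % P ^ (τ + 1)).image fun r => r % P).card ≤
        cp.natDegree := by
      have h0 : (PhE cp).natDegree = cp.natDegree := hmon.natDegree_map _
      rw [← h0]
      refine card_roots_mod (PhE cp) (hmon.map _) P hP _ ?_
      intro s hs
      obtain ⟨r, hr, rfl⟩ := Finset.mem_image.1 hs
      obtain ⟨g, hg, rfl⟩ := Finset.mem_image.1 hr
      refine ⟨EuclideanDomain.mod_lt _ hP.ne_zero, ?_⟩
      refine hevd _ _ P (hself _ P) ?_
      refine hevd _ _ P ((dvd_pow_self P (Nat.succ_ne_zero τ)).trans (hself (g + C0) _)) ?_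
      exact (dvd_pow_self P (by omega)).trans (hmem g hg).2
    calc S.card ≤ Fintype.card K ^ (n - (k - τ) * P.natDegree) *
          (S.image fun g => (g + C0) % P ^ (τ + 1)).card := hA
      _ ≤ Fintype.card K ^ (n - (k - τ) * P.natDegree) * (Fintype.card K ^ (τ * P.natDegree) *
          ((S.image fun g => (g + C0) % P ^ (τ + 1)).image fun r => r % P).card) :=
          Nat.mul_le_mul_left _ hB
      _ ≤ Fintype.card K ^ (n - (k - τ) * P.natDegree) * (Fintype.card K ^ (τ * P.natDegree) *
          cp.natDegree) := Nat.mul_le_mul_left _ (Nat.mul_le_mul_left _ hC)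
      _ = _ := by ring

open CntEL Pool.Agent.H140.Q.CntML Pool.Agent.H985.Chow.Asm in
theorem bigE : S_bigE := by
  intro K _ _ _ cp u v N C0 hS
  obtain ⟨hmon, hdeg, hN0, hbez⟩ := hS
  refine ⟨Fintype.card K, 2 * N.natDegree + C0.natDegree + 1, ?_⟩
  intro n hn
  obtain ⟨h1, h2⟩ := card_range (K := K) (n / 2 + 1) (fun v => v ^ 2 - C0)
  have hsub : MD K n ∩ {g | ∃ P : K[X], Irreducible P ∧ n < 2 * P.natDegree ∧
      P ^ 2 ∣ (PhE cp).eval (g + C0)} ⊆
      Set.range (fun v : degreeLT K (n / 2 + 1) => (v : K[X]) ^ 2 - C0) := by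
    rintro g ⟨⟨hgm, hgd⟩, P, hP, hnP, hd⟩
    have hC0 : C0.degree < g.degree := by
      rw [degree_eq_natDegree hgm.ne_zero, hgd]
      refine degree_le_natDegree.trans_lt ?_
      have : C0.natDegree < n := by omega
      exact_mod_cast this
    have hg' : g + C0 ∈ MD K n := by
      refine ⟨hgm.add_of_left hC0, ?_⟩
      rw [natDegree_add_eq_left_of_degree_lt hC0, hgd]
    obtain ⟨w, hw, w', hw', hG⟩ := mem_G n (g + C0) hg'
    set x : K[X] := ta K n + w with hx
    set y : K[X] := tb K n + w' with hy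
    have hxd : x.degree < ((n / 2 + 1 : ℕ) : WithBot ℕ) := by
      rw [hx]
      refine (degree_add_le _ _).trans_lt (max_lt ?_ ?_)
      · unfold ta
        split_ifs
        · rw [degree_X_pow]
          exact_mod_cast Nat.lt_succ_self _
        · rw [degree_zero]
          exact WithBot.bot_lt_coe _
      · refine (mem_degreeLT.mp hw).trans_le ?_
        have : (n + 1) / 2 ≤ n / 2 + 1 := by omega
        exact_mod_cast this
    have hyd : y.degree < ((n / 2 + 1 : ℕ) : WithBot ℕ) := by
      rw [hy]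
      refine (degree_add_le _ _).trans_lt (max_lt ?_ ?_)
      · unfold tb
        split_ifs
        · rw [degree_zero]
          exact WithBot.bot_lt_coe _
        · rw [degree_X_pow]
          exact_mod_cast Nat.lt_succ_self _
      · refine (mem_degreeLT.mp hw').trans_le ?_
        exact_mod_cast Nat.le_succ _
    have hder : derivative (g + C0) = y ^ 2 := by
      rw [← hG]
      unfold G
      rw [derivative_add, derivative_sq, derivative_mul, derivative_sq, derivative_X]
      have : (C (2 : K) : K[X]) = 0 := by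
        rw [show (2 : K) = 0 from CharTwo.two_eq_zero, C_0]
      rw [this]
      ring
    have hPd : P ∣ (derivative (PhE cp)).eval (g + C0) * y ^ 2 := by
      rw [← hder, ← deriv_eval]
      obtain ⟨z, hz⟩ := hd
      rw [hz, derivative_mul, derivative_sq]
      have : (C (2 : K) : K[X]) = 0 := by
        rw [show (2 : K) = 0 from CharTwo.two_eq_zero, C_0]
      rw [this]
      exact ⟨P * derivative z, by ring⟩
    have hPy : P ∣ y := by
      rcases hP.prime.dvd_or_dvd hPd with h3 | h3
      · exfalso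
        have h4 : P ∣ N ^ 2 := by
          rw [← bez cp u v N hbez (g + C0)]
          exact dvd_add (((dvd_pow_self P two_ne_zero).trans hd).mul_left _) (h3.mul_left _)
        have h5 := natDegree_le_of_dvd (hP.prime.dvd_of_dvd_pow h4) hN0
        omega
      · exact hP.prime.dvd_of_dvd_pow h3
    have hy0 : y = 0 := by
      by_contra hne
      have h3 := natDegree_le_of_dvd hPy hne
      rw [degree_eq_natDegree hne] at hyd
      have h4 : y.natDegree < n / 2 + 1 := by exact_mod_cast hyd
      omega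
    refine ⟨⟨x, mem_degreeLT.mpr hxd⟩, ?_⟩
    change x ^ 2 - C0 = g
    have h3 : x ^ 2 + X * y ^ 2 = g + C0 := hG
    rw [hy0] at h3
    linear_combination h3
  refine (Set.ncard_le_ncard hsub h1).trans (h2.trans ?_)
  rw [pow_succ, mul_comm]

end Pool.Agent.H140.E
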