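import Mathlib
import Pool.Agent.H140.E.Stm
import Pool.Agent.H140.Q.FinM

/-!
# Task FINE: reduction of the general polynomial to the monic distinct-class case
-/

set_option autoImplicit false

namespace Pool.Agent.H140.E

open Polynomial
open Pool.Agent.H985.Chow (MD)
open Pool.Agent.H140.Q (liou)
open Pool.Agent.H140.Q.FinM (liou_ne liou_zero liou_mul liou_self liou_unit liou_C abs_liou)

namespace FinE

section alg

variable {K : Type} [Field K] [CharP K 2]

omit [CharP K 2] in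
/-- the monic polynomial obtained by scaling the roots -/
theorem exists_scale (p : K[X][X]) (hp : p ≠ 0) (l : K[X]) (hl : p.leadingCoeff ∣ l) :
    ∃ q : K[X][X], q.Monic ∧ q.natDegree = p.natDegree ∧
      p.scaleRoots l = C p.leadingCoeff * q := by
  have h0 : p.leadingCoeff ≠ 0 := leadingCoeff_ne_zero.2 hp
  have h1 : C p.leadingCoeff ∣ p.scaleRoots l := by
    rw [C_dvd_iff_dvd_coeff]
    intro i
    rw [coeff_scaleRoots]
    rcases lt_trichotomy i p.natDegree with h | h | h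
    · obtain ⟨k, hk⟩ : ∃ k, p.natDegree - i = k + 1 := ⟨p.natDegree - i - 1, by omega⟩
      rw [hk, pow_succ]
      exact Dvd.dvd.mul_left (Dvd.dvd.mul_left hl _) _
    · rw [h, Nat.sub_self, pow_zero, mul_one]
      exact dvd_rfl
    · rw [coeff_eq_zero_of_natDegree_lt h, zero_mul]
      exact dvd_zero _
  obtain ⟨q, hq⟩ := h1
  have h2 : q.Monic := by
    have h3 := congrArg leadingCoeff hq
    rw [leadingCoeff_scaleRoots, leadingCoeff_mul, leadingCoeff_C] at h3
    exact (mul_left_cancel₀ h0 (by rw [← h3, mul_one])).symm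
  refine ⟨q, h2, ?_, hq⟩
  have h3 := congrArg natDegree hq
  rw [natDegree_scaleRoots, natDegree_C_mul h0] at h3
  exact h3.symm

/-- the evaluation of the scaled polynomial -/
theorem eval_scale {R : Type*} [CommRing R] (φ : K[X] →+* R) (p q : K[X][X]) (l : K[X])
    (h : p.scaleRoots l = C p.leadingCoeff * q) (z : R) :
    φ (p.leadingCoeff ^ 2) * eval₂ (φ.comp (frobenius K[X] 2)) (φ (l ^ 2) * z) q =
      φ (l ^ 2) ^ p.natDegree * eval₂ (φ.comp (frobenius K[X] 2)) z p := by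
  have h1 := scaleRoots_eval₂_mul (p := p) (φ.comp (frobenius K[X] 2)) z l
  have h2 : (φ.comp (frobenius K[X] 2)) l = φ (l ^ 2) := by
    rw [RingHom.comp_apply, frobenius_def]
  rw [h2, h, eval₂_mul, eval₂_C, RingHom.comp_apply, frobenius_def] at h1
  exact h1

/-- shift by a square -/
theorem eval_shift {R : Type*} [CommRing R] (φ : K[X] →+* R) (q : K[X][X]) (s : K[X]) (y : R) :
    eval₂ (φ.comp (frobenius K[X] 2)) y (q.comp (X + C s)) =
      eval₂ (φ.comp (frobenius K[X] 2)) (y + φ (s ^ 2)) q := by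
  rw [eval₂_comp, eval₂_add, eval₂_X, eval₂_C, RingHom.comp_apply, frobenius_def]

/-- composition with a linear polynomial -/
theorem sep_of_comp {k : Type*} [Field k] (p : k[X]) (a b : k) (ha : a ≠ 0)
    (h : (p.comp (C a * X + C b)).Separable) : p.Separable := by
  have h1 : derivative (p.comp (C a * X + C b)) = C a * (derivative p).comp (C a * X + C b) := by
    rw [derivative_comp]
    simp
  unfold Separable at h ⊢
  rw [h1] at h
  have h2 : IsCoprime (p.comp (C a * X + C b)) ((derivative p).comp (C a * X + C b)) :=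
    h.of_mul_right_right
  have h3 := h2.map (compRingHom (C a⁻¹ * X + C (-(a⁻¹ * b))))
  have h4 : (C a * X + C b : k[X]).comp (C a⁻¹ * X + C (-(a⁻¹ * b))) = X := by
    rw [add_comp, mul_comp, C_comp, C_comp, X_comp, mul_add, ← mul_assoc, ← C_mul,
      mul_inv_cancel₀ ha, C_1, one_mul, ← C_mul, mul_neg, ← mul_assoc, mul_inv_cancel₀ ha, one_mul,
      C_neg]
    ring
  rw [coe_compRingHom_apply, coe_compRingHom_apply, comp_assoc, comp_assoc, h4, comp_X,
    comp_X] at h3
  exact h3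

omit [CharP K 2] in
/-- clearing denominators -/
theorem sepE_of_sep (q : K[X][X]) (hq : q.Monic) (hd : 0 < q.natDegree)
    (h : (q.map (algebraMap K[X] (FractionRing K[X]))).Separable) :
    ∃ (u v : K[X][X]) (N : K[X]), SepE q u v N := by
  obtain ⟨a, b, hab⟩ := h
  obtain ⟨x, hx, hxa⟩ := IsLocalization.integerNormalization_spec (nonZeroDivisors K[X]) a
  obtain ⟨y, hy, hyb⟩ := IsLocalization.integerNormalization_spec (nonZeroDivisors K[X]) b
  set A := IsLocalization.integerNormalization (nonZeroDivisors K[X]) a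
  set B := IsLocalization.integerNormalization (nonZeroDivisors K[X]) b
  refine ⟨C y * A, C x * B, x * y, hq, hd,
    mul_ne_zero (nonZeroDivisors.ne_zero hx) (nonZeroDivisors.ne_zero hy), ?_⟩
  apply map_injective (algebraMap K[X] (FractionRing K[X]))
    (IsFractionRing.injective K[X] (FractionRing K[X]))
  rw [Polynomial.map_add, Polynomial.map_mul, Polynomial.map_mul, Polynomial.map_mul,
    Polynomial.map_mul, hxa, hyb, map_C, map_C, map_C, ← derivative_map, Algebra.smul_def,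
    Algebra.smul_def, map_mul, C_mul]
  have e1 : ∀ r : K[X], algebraMap K[X] (FractionRing K[X])[X] r =
      C (algebraMap K[X] (FractionRing K[X]) r) := fun r => by
    rw [IsScalarTower.algebraMap_apply K[X] (FractionRing K[X]) (FractionRing K[X])[X],
      Polynomial.algebraMap_eq]
  rw [e1, e1]
  calc _ = C (algebraMap K[X] (FractionRing K[X]) x) * C (algebraMap K[X] (FractionRing K[X]) y) *
        (a * q.map (algebraMap K[X] (FractionRing K[X])) +
          b * derivative (q.map (algebraMap K[X] (FractionRing K[X])))) := by ring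
    _ = _ := by rw [hab, mul_one]

end alg


theorem liou_prod {K : Type} [Field K] {ι : Type*} (s : Finset ι) (F : ι → K[X]) :
    liou (∏ i ∈ s, F i) = ∏ i ∈ s, liou (F i) := by
  classical
  induction s using Finset.induction_on with
  | empty => rw [Finset.prod_empty, Finset.prod_empty, liou_unit isUnit_one]
  | insert i s hi ih => rw [Finset.prod_insert hi, Finset.prod_insert hi, liou_mul, ih]

section merge

variable {K : Type} [Field K] [CharP K 2]

open Classical in
/-- the product of the shifted polynomials of a class -/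
noncomputable def Qc {r : ℕ} (q : Fin r → K[X][X]) (s t : Fin r → K[X]) (τ : K[X]) : K[X][X] :=
  ∏ j with t j = τ, (q j).comp (X + C (s j))

open Classical in
/-- the classes of positive degree -/
noncomputable def Ic {r : ℕ} (q : Fin r → K[X][X]) (s t : Fin r → K[X]) : Finset K[X] :=
  (Finset.univ.image t).filter fun τ => 0 < (Qc q s t τ).natDegree

omit [CharP K 2] in
theorem Qc_monic {r : ℕ} (q : Fin r → K[X][X]) (s t : Fin r → K[X]) (τ : K[X])
    (hq : ∀ j, (q j).Monic) : (Qc q s t τ).Monic :=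
  monic_prod_of_monic _ _ fun j _ => (hq j).comp_X_add_C (s j)

open Classical in
theorem key_id {r : ℕ} (cp q : Fin r → K[X][X]) (Cc s t : Fin r → K[X]) (f : K[X][X])
    (c μ l : K[X])
    (hf : C c * f = ∏ j, ((cp j).map (frobenius K[X] 2)).comp (C μ * X + C (Cc j)))
    (hq : ∀ j, (q j).Monic)
    (hsc : ∀ j, (cp j).scaleRoots l = C (cp j).leadingCoeff * q j)
    (hst : ∀ j, s j ^ 2 + X * t j ^ 2 = l ^ 2 * Cc j)
    {R : Type} [CommRing R] (φ : K[X] →+* R) (w : R) :
    φ (∏ j, (cp j).leadingCoeff ^ 2) * ∏ τ ∈ Ic q s t,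
        eval₂ (φ.comp (frobenius K[X] 2)) (φ (l ^ 2 * μ) * w + φ (X * τ ^ 2)) (Qc q s t τ) =
      φ (∏ j, (l ^ 2) ^ (cp j).natDegree) * (φ c * eval₂ φ w f) := by
  have h1 : φ c * eval₂ φ w f =
      ∏ j, eval₂ (φ.comp (frobenius K[X] 2)) (φ μ * w + φ (Cc j)) (cp j) := by
    have h2 := congrArg (eval₂ φ w) hf
    rw [eval₂_mul, eval₂_C, eval₂_finsetProd] at h2
    rw [h2]
    refine Finset.prod_congr rfl fun j _ => ?_
    rw [eval₂_comp, eval₂_add, eval₂_mul, eval₂_C, eval₂_X, eval₂_C, eval₂_map]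
  rw [h1, map_prod, map_prod, ← Finset.prod_mul_distrib]
  have h3 : ∏ τ ∈ Ic q s t,
        eval₂ (φ.comp (frobenius K[X] 2)) (φ (l ^ 2 * μ) * w + φ (X * τ ^ 2)) (Qc q s t τ) =
      ∏ j, eval₂ (φ.comp (frobenius K[X] 2)) (φ (l ^ 2 * μ) * w + φ (X * t j ^ 2))
        ((q j).comp (X + C (s j))) := by
    have h4 : ∏ τ ∈ Ic q s t,
        eval₂ (φ.comp (frobenius K[X] 2)) (φ (l ^ 2 * μ) * w + φ (X * τ ^ 2)) (Qc q s t τ) =
        ∏ τ ∈ Finset.univ.image t,
        eval₂ (φ.comp (frobenius K[X] 2)) (φ (l ^ 2 * μ) * w + φ (X * τ ^ 2)) (Qc q s t τ) := by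
      refine Finset.prod_subset (Finset.filter_subset _ _) fun τ hτ hτ' => ?_
      have h5 : (Qc q s t τ).natDegree = 0 := by
        by_contra hcon
        exact hτ' (Finset.mem_filter.2 ⟨hτ, Nat.pos_of_ne_zero hcon⟩)
      rw [(Qc_monic q s t τ hq).natDegree_eq_zero.1 h5, eval₂_one]
    rw [h4, ← Finset.prod_fiberwise_of_maps_to (s := Finset.univ) (t := Finset.univ.image t)
      (g := t) (fun j _ => Finset.mem_image_of_mem t (Finset.mem_univ j))]
    refine Finset.prod_congr rfl fun τ _ => ?_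
    unfold Qc
    rw [eval₂_finsetProd]
    refine Finset.prod_congr rfl fun j hj => ?_
    rw [(Finset.mem_filter.1 hj).2]
  rw [h3, ← Finset.prod_mul_distrib]
  refine Finset.prod_congr rfl fun j _ => ?_
  rw [eval_shift, map_pow φ (l ^ 2), ← eval_scale φ (cp j) (q j) l (hsc j)]
  congr 2
  have h6 : φ (l ^ 2) * φ (Cc j) = φ (s j ^ 2) + φ (X * t j ^ 2) := by
    rw [← map_mul, ← hst, map_add]
  rw [map_mul φ (l ^ 2) μ, mul_add, h6]
  ring

end merge

end FinE

open FinE

open Classical in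
theorem finE : S_finE := by
  intro h K _ _ _ r cp Cc f u v c μ N Q hc hμ hQ hN hf hdeg hsep ε hε
  have hf0 : f ≠ 0 := by
    rintro rfl
    simp at hdeg
  have hcp : ∀ j, cp j ≠ 0 := by
    intro j hj
    have h1 : ∏ j, ((cp j).map (frobenius K[X] 2)).comp (C μ * X + C (Cc j)) = 0 :=
      Finset.prod_eq_zero (Finset.mem_univ j) (by rw [hj, Polynomial.map_zero, zero_comp])
    rw [← hf] at h1
    exact mul_ne_zero (C_ne_zero.2 hc) hf0 h1
  obtain ⟨l₀, hl₀⟩ : ∃ l₀ : K[X], l₀ = ∏ j, (cp j).leadingCoeff := ⟨_, rfl⟩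
  have hl₀0 : l₀ ≠ 0 := by
    rw [hl₀]
    exact Finset.prod_ne_zero_iff.2 fun j _ => leadingCoeff_ne_zero.2 (hcp j)
  have hlm0 : l₀ ^ 2 * μ ≠ 0 := mul_ne_zero (pow_ne_zero 2 hl₀0) hμ
  obtain ⟨κ, hκ⟩ : ∃ κ : K, κ ^ 2 = (l₀ ^ 2 * μ).leadingCoeff⁻¹ := by
    have h1 : Function.Surjective (frobenius K 2) :=
      Finite.injective_iff_surjective.mp (frobenius_inj K 2)
    obtain ⟨κ, hκ⟩ := h1 (l₀ ^ 2 * μ).leadingCoeff⁻¹
    exact ⟨κ, hκ⟩
  have hκ0 : κ ≠ 0 := by
    rintro rfl
    rw [zero_pow two_ne_zero] at hκ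
    exact inv_ne_zero (leadingCoeff_ne_zero.2 hlm0) hκ.symm
  obtain ⟨l, hl⟩ : ∃ l : K[X], l = C κ * l₀ := ⟨_, rfl⟩
  have hl0 : l ≠ 0 := by
    rw [hl]
    exact mul_ne_zero (C_ne_zero.2 hκ0) hl₀0
  obtain ⟨M, hM⟩ : ∃ M : K[X], M = l ^ 2 * μ := ⟨_, rfl⟩
  have hMm : M.Monic := by
    have h1 : M = C ((l₀ ^ 2 * μ).leadingCoeff⁻¹) * (l₀ ^ 2 * μ) := by
      rw [hM, hl, ← hκ, C_pow]
      ring
    rw [h1]
    apply Polynomial.monic_C_mul_of_mul_leadingCoeff_eq_one
    rw [inv_mul_cancel₀ (leadingCoeff_ne_zero.2 hlm0)]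
  have hM0 : M ≠ 0 := hMm.ne_zero
  have hdvd : ∀ j, (cp j).leadingCoeff ∣ l := by
    intro j
    rw [hl, hl₀]
    exact Dvd.dvd.mul_left (Finset.dvd_prod_of_mem _ (Finset.mem_univ j)) _
  choose q hqm hqd hsc using fun j => exists_scale (cp j) (hcp j) l (hdvd j)
  choose s t hst' using fun j => Pool.Agent.H985.Chow.Asm.G_surj (l ^ 2 * Cc j : K[X])
  have hst : ∀ j, s j ^ 2 + X * t j ^ 2 = l ^ 2 * Cc j := hst'
  obtain ⟨a, ha⟩ : ∃ a : K[X], a = ∏ j, (cp j).leadingCoeff := ⟨_, rfl⟩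
  have ha0 : a ≠ 0 := by rw [ha, ← hl₀]; exact hl₀0
  obtain ⟨b, hb⟩ : ∃ b : K[X], b = ∏ j, l ^ (cp j).natDegree := ⟨_, rfl⟩
  have hb0 : b ≠ 0 := by
    rw [hb]
    exact Finset.prod_ne_zero_iff.2 fun j _ => pow_ne_zero _ hl0
  have key : ∀ {R : Type} [CommRing R] (φ : K[X] →+* R) (w : R),
      φ (a ^ 2) * ∏ τ ∈ Ic q s t,
        eval₂ (φ.comp (frobenius K[X] 2)) (φ M * w + φ (X * τ ^ 2)) (Qc q s t τ) =
      φ (b ^ 2) * (φ c * eval₂ φ w f) := by
    intro R _ φ w
    have h1 := key_id cp q Cc s t f c μ l hf hqm hsc hst φ w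
    rw [Finset.prod_pow, ← ha, ← hM] at h1
    have h2 : ∏ j, (l ^ 2) ^ (cp j).natDegree = b ^ 2 := by
      rw [hb, ← Finset.prod_pow]
      refine Finset.prod_congr rfl fun j _ => ?_
      rw [← pow_mul, ← pow_mul, mul_comm]
    rw [h2] at h1
    exact h1
  -- the classes are nonempty
  have hne : 0 < (Ic q s t).card := by
    rw [Finset.card_pos]
    by_contra hcon
    rw [Finset.not_nonempty_iff_eq_empty] at hcon
    have h1 := key (C : K[X] →+* K[X][X]) X
    rw [hcon, Finset.prod_empty, mul_one, eval₂_C_X, ← mul_assoc, ← C_mul] at h1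
    have h2 := congrArg natDegree h1
    rw [natDegree_C, natDegree_C_mul (mul_ne_zero (pow_ne_zero 2 hb0) hc)] at h2
    omega
  -- separability
  have hsepI : ∀ τ ∈ Ic q s t, ∃ (u v : K[X][X]) (N : K[X]), SepE (Qc q s t τ) u v N := by
    intro τ hτ
    refine sepE_of_sep _ (Qc_monic q s t τ hqm) (Finset.mem_filter.1 hτ).2 ?_
    obtain ⟨ι, hι⟩ : ∃ ι : K[X] →+* FractionRing K[X], ι = algebraMap K[X] (FractionRing K[X]) :=
      ⟨_, rfl⟩
    have hinj : Function.Injective ι := by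
      rw [hι]
      exact IsFractionRing.injective K[X] (FractionRing K[X])
    have hfs : (f.map ι).Separable := by
      have h1 := congrArg (map ι) hsep
      rw [Polynomial.map_add, Polynomial.map_mul, Polynomial.map_mul, map_C,
        ← derivative_map] at h1
      have h2 : ι N ≠ 0 := fun h0 => hN (hinj (by rw [h0, map_zero]))
      refine ⟨C (ι N)⁻¹ * u.map ι, C (ι N)⁻¹ * v.map ι, ?_⟩
      rw [mul_assoc, mul_assoc, ← mul_add, h1, ← C_mul, inv_mul_cancel₀ h2, C_1]
    have h1 := key ((C : FractionRing K[X] →+* (FractionRing K[X])[X]).comp ι) X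
    rw [RingHom.comp_apply, RingHom.comp_apply, RingHom.comp_apply, RingHom.comp_apply,
      ← mul_assoc, ← C_mul] at h1
    have h2 : eval₂ ((C : FractionRing K[X] →+* (FractionRing K[X])[X]).comp ι) X f =
        f.map ι := rfl
    rw [h2] at h1
    have hbc : ι (b ^ 2) * ι c ≠ 0 := mul_ne_zero
      (fun h0 => pow_ne_zero 2 hb0 (hinj (by rw [h0, map_zero])))
      (fun h0 => hc (hinj (by rw [h0, map_zero])))
    have h3 : (C (ι (b ^ 2) * ι c) * f.map ι).Separable := by
      exact hfs.unit_mul (isUnit_C.2 (IsUnit.mk0 _ hbc))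
    rw [← h1] at h3
    have h4 := h3.of_dvd ((Finset.dvd_prod_of_mem _ hτ).mul_left _)
    have h5 : eval₂ (((C : FractionRing K[X] →+* (FractionRing K[X])[X]).comp ι).comp
        (frobenius K[X] 2)) (C (ι M) * X + ((C : FractionRing K[X] →+*
          (FractionRing K[X])[X]).comp ι) (X * τ ^ 2)) (Qc q s t τ) =
        ((Qc q s t τ).map (ι.comp (frobenius K[X] 2))).comp
          (C (ι M) * X + C (ι (X * τ ^ 2))) := by
      rw [comp, eval₂_map]
      rfl
    rw [h5] at h4
    have hM' : ι M ≠ 0 := fun h0 => hM0 (hinj (by rw [h0, map_zero]))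
    have h6 := sep_of_comp _ _ _ hM' h4
    have h7 : ι.comp (frobenius K[X] 2) = (frobenius (FractionRing K[X]) 2).comp ι := by
      ext x <;> simp [frobenius_def]
    rw [h7, ← Polynomial.map_map, separable_map, hι] at h6
    exact h6
  -- the new data
  obtain ⟨e, he⟩ : ∃ e : Fin (Ic q s t).card ≃ Ic q s t, e = (Ic q s t).equivFin.symm := ⟨_, rfl⟩
  choose u' v' N' hsep' using fun i => hsepI (e i : K[X]) (e i).2
  have hliou : ∀ g : K[X], liou (f.eval g) = liou c * ∏ i,
      liou ((PhE (Qc q s t (e i : K[X]))).eval (M * g + (0 ^ 2 + X * (e i : K[X]) ^ 2))) := by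
    intro g
    have h1 := key (RingHom.id K[X]) g
    rw [RingHom.id_apply, RingHom.id_apply, RingHom.id_apply, RingHom.id_apply,
      RingHom.id_comp] at h1
    have h2 : eval₂ (RingHom.id K[X]) g f = f.eval g := rfl
    rw [h2] at h1
    have h3 := congrArg liou h1
    rw [liou_mul, liou_mul, liou_mul, sq, liou_mul, liou_self ha0, sq, liou_mul, liou_self hb0,
      one_mul, one_mul, liou_prod] at h3
    have h4 : ∏ i, liou ((PhE (Qc q s t (e i : K[X]))).eval
        (M * g + (0 ^ 2 + X * (e i : K[X]) ^ 2))) =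
        ∏ τ ∈ Ic q s t, liou (eval₂ (frobenius K[X] 2) (M * g + (RingHom.id K[X]) (X * τ ^ 2))
          (Qc q s t τ)) := by
      rw [← Finset.prod_coe_sort (Ic q s t) (fun τ => liou (eval₂ (frobenius K[X] 2)
        (M * g + (RingHom.id K[X]) (X * τ ^ 2)) (Qc q s t τ)))]
      refine Fintype.prod_equiv e _ _ fun i => ?_
      rw [zero_pow two_ne_zero, zero_add, PhE, eval_map]
      rfl
    rw [h4, h3, ← mul_assoc, liou_self hc, one_mul]
  obtain ⟨qq, hqq⟩ : ∃ qq : ℝ, qq = (Fintype.card K : ℝ) := ⟨_, rfl⟩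
  have hqq0 : 0 < qq := by
    rw [hqq]
    exact_mod_cast Fintype.card_pos
  obtain ⟨d, hd⟩ : ∃ d : ℕ, d = M.natDegree := ⟨_, rfl⟩
  have hQ' : l * μ * Q ≠ 0 := mul_ne_zero (mul_ne_zero hl0 hμ) hQ
  obtain ⟨n₀, hn₀⟩ := h K (Ic q s t).card (fun i => Qc q s t (e i : K[X])) u' v' N'
    (fun _ => 0) (fun i => (e i : K[X])) (l * μ * Q) hne hsep'
    (fun i j hij => e.injective (Subtype.ext hij)) hQ' (ε / qq ^ d) (by positivity)
  refine ⟨n₀, fun n hn w hw1 hw2 => ?_⟩
  obtain ⟨w', hw'⟩ : ∃ w' : K[X] → ℝ, w' = fun a =>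
    if M ∣ a then (liou c : ℝ) * w (a / M) else 0 := ⟨_, rfl⟩
  have hwM : ∀ g, w' (M * g) = (liou c : ℝ) * w g := by
    intro g
    rw [hw']
    change (if M ∣ M * g then (liou c : ℝ) * w (M * g / M) else 0) = _
    rw [if_pos (dvd_mul_right M g), mul_div_cancel_left₀ _ hM0]
  have h1 := hn₀ (n + d) (by omega) w' ?_ ?_
  · have h2 : ∑ᶠ g ∈ MD K n, w g * (liou (f.eval g) : ℝ) =
        ∑ᶠ g ∈ MD K (n + d), w' g * ∏ i, (liou ((PhE (Qc q s t (e i : K[X]))).eval
          (g + (0 ^ 2 + X * (e i : K[X]) ^ 2))) : ℝ) := by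
      have h3 : ∑ᶠ g ∈ MD K n, w g * (liou (f.eval g) : ℝ) =
          ∑ᶠ g ∈ MD K n, (fun a => w' a * ∏ i, (liou ((PhE (Qc q s t (e i : K[X]))).eval
          (a + (0 ^ 2 + X * (e i : K[X]) ^ 2))) : ℝ)) (M * g) := by
        refine finsum_mem_congr rfl fun g _ => ?_
        change _ = w' (M * g) * ∏ i, (liou ((PhE (Qc q s t (e i : K[X]))).eval
          (M * g + (0 ^ 2 + X * (e i : K[X]) ^ 2))) : ℝ)
        rw [hwM, hliou]
        push_cast
        ring
      rw [h3, ← finsum_mem_image (f := fun a => w' a * ∏ i, (liou ((PhE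
        (Qc q s t (e i : K[X]))).eval (a + (0 ^ 2 + X * (e i : K[X]) ^ 2))) : ℝ))
        (g := fun g => M * g) (s := MD K n) (fun a _ b _ hab => mul_left_cancel₀ hM0 hab)]
      refine finsum_mem_inter_support_eq' _ _ _ fun a ha => ?_
      have hMa : M ∣ a := by
        by_contra hcon
        apply ha
        change w' a * _ = 0
        rw [hw']
        change (if M ∣ a then (liou c : ℝ) * w (a / M) else 0) * _ = 0
        rw [if_neg hcon, zero_mul]
      constructor
      · rintro ⟨g, ⟨hg1, hg2⟩, rfl⟩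
        refine ⟨hMm.mul hg1, ?_⟩
        change (M * g).natDegree = n + d
        rw [hMm.natDegree_mul hg1, hg2, hd, add_comm]
      · rintro ⟨ha1, ha2⟩
        obtain ⟨g, rfl⟩ := hMa
        have hg1 : g.Monic := hMm.of_mul_monic_left ha1
        refine ⟨g, ⟨hg1, ?_⟩, rfl⟩
        rw [hMm.natDegree_mul hg1] at ha2
        omega
    rw [h2]
    refine h1.trans (le_of_eq ?_)
    rw [← hqq, pow_add]
    field_simp
  · intro a
    rw [hw']
    change |if M ∣ a then (liou c : ℝ) * w (a / M) else 0| ≤ 1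
    split_ifs
    · rw [abs_mul]
      exact mul_le_one₀ (abs_liou c) (abs_nonneg _) (hw1 _)
    · simp
  · intro a
    by_cases hMa : M ∣ a
    · obtain ⟨g, rfl⟩ := hMa
      obtain ⟨χ, hχ⟩ := hw2 g
      refine ⟨χ, fun x => ?_⟩
      have h3 : M * g + (l * μ * Q * x) ^ 2 = M * (g + μ * (Q * x) ^ 2) := by
        rw [hM]
        ring
      rw [h3, hwM, hwM, hχ, mul_assoc]
    · refine ⟨1, fun x => ?_⟩
      have hdv : M ∣ (l * μ * Q * x) ^ 2 := ⟨μ * (Q * x) ^ 2, by rw [hM]; ring⟩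
      have h3 : ¬ M ∣ a + (l * μ * Q * x) ^ 2 := fun hcon => hMa ((dvd_add_left hdv).1 hcon)
      rw [hw']
      change (if M ∣ a + (l * μ * Q * x) ^ 2 then _ else (0 : ℝ)) =
        (if M ∣ a then _ else 0) * _
      rw [if_neg h3, if_neg hMa, zero_mul]

end Pool.Agent.H140.E
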