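import Pool.Agent.H140.E.StmK

/-!
# Task K3: degrees and divisibility of the cross term
-/

set_option autoImplicit false

namespace Pool.Agent.H140.E

open Polynomial

namespace Crossx

variable {R : Type} [CommRing R]

theorem bd_mono {a b : ℕ} {P : R[X][X]} (h : BD a P) (hab : a ≤ b) : BD b P := fun i =>
  (h i).trans hab

theorem bd_add {a : ℕ} {P Q : R[X][X]} (hP : BD a P) (hQ : BD a Q) : BD a (P + Q) := fun i => by
  rw [coeff_add]
  exact natDegree_add_le_of_degree_le (hP i) (hQ i)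

theorem bd_neg {a : ℕ} {P : R[X][X]} (hP : BD a P) : BD a (-P) := fun i => by
  rw [coeff_neg, natDegree_neg]
  exact hP i

theorem bd_sub {a : ℕ} {P Q : R[X][X]} (hP : BD a P) (hQ : BD a Q) : BD a (P - Q) := by
  rw [sub_eq_add_neg]
  exact bd_add hP (bd_neg hQ)

theorem bd_mul {a b : ℕ} {P Q : R[X][X]} (hP : BD a P) (hQ : BD b Q) : BD (a + b) (P * Q) :=
  fun i => by
  rw [coeff_mul]
  refine natDegree_sum_le_of_forall_le _ _ fun x _ => ?_
  exact natDegree_mul_le.trans (add_le_add (hP x.1) (hQ x.2))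

theorem bd_C {a : ℕ} {p : R[X]} (h : p.natDegree ≤ a) : BD a (C p) := fun i => by
  rw [coeff_C]
  split_ifs
  · exact h
  · rw [natDegree_zero]
    exact Nat.zero_le _

theorem bd_X_pow (t : ℕ) : BD 0 (X ^ t : R[X][X]) := fun i => by
  rw [coeff_X_pow]
  split_ifs
  · rw [natDegree_one]
  · rw [natDegree_zero]

theorem bd_derivative {a : ℕ} {P : R[X][X]} (hP : BD a P) : BD a (derivative P) := fun i => by
  rw [coeff_derivative]
  have h1 : ((P.coeff (i + 1)) * ((i : R[X]) + 1)) = (P.coeff (i + 1)) * C ((i : R) + 1) := by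
    rw [map_add, map_natCast, map_one]
  rw [h1]
  exact (natDegree_mul_C_le _ _).trans (hP (i + 1))

theorem coeff_dX (P : R[X][X]) (i : ℕ) : (dX P).coeff i = derivative (P.coeff i) := by
  unfold dX Polynomial.sum
  rw [finsetSum_coeff]
  simp only [coeff_monomial]
  rw [Finset.sum_ite_eq']
  split_ifs with h
  · rfl
  · rw [notMem_support_iff.1 h, derivative_zero]

theorem bd_dX {a : ℕ} {P : R[X][X]} (hP : BD a P) : BD a (dX P) := fun i => by
  rw [coeff_dX]
  exact (natDegree_derivative_le _).trans ((Nat.sub_le _ _).trans (hP i))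

theorem natDegree_dX (P : R[X][X]) : (dX P).natDegree ≤ P.natDegree := by
  rw [natDegree_le_iff_coeff_eq_zero]
  intro N hN
  rw [coeff_dX, coeff_eq_zero_of_natDegree_lt hN, derivative_zero]

theorem bd_mod {Φ : R[X][X]} {β d : ℕ} (hΦ : Φ.Monic) (hd : Φ.natDegree = d) (hd1 : 1 ≤ d)
    (hβ : BD β Φ) : ∀ (t a : ℕ) (P : R[X][X]), P.natDegree < d + t → BD a P →
      BD (a + β * t) (P %ₘ Φ) := by
  intro t
  induction t with
  | zero =>
    intro a P hP hB
    by_cases hR : Nontrivial R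
    · rw [(modByMonic_eq_self_iff hΦ).2]
      · exact hB
      · exact degree_lt_degree (by rw [hd]; exact hP)
    · rw [not_nontrivial_iff_subsingleton] at hR
      intro i
      rw [natDegree_of_subsingleton]
      exact Nat.zero_le _
  | succ t ih =>
    intro a P hP hB
    have h1 : (P - C (P.coeff (d + t)) * (X ^ t * Φ)) %ₘ Φ = P %ₘ Φ := by
      symm
      apply modByMonic_eq_of_dvd_sub hΦ
      rw [sub_sub_cancel]
      exact ((dvd_refl Φ).mul_left _).mul_left _
    rw [← h1]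
    have h2 : BD (a + β) (P - C (P.coeff (d + t)) * (X ^ t * Φ)) := by
      refine bd_sub (bd_mono hB (Nat.le_add_right _ _)) ?_
      refine bd_mono (bd_mul (bd_C (hB (d + t))) (bd_mul (bd_X_pow t) hβ)) ?_
      omega
    have h3 : (P - C (P.coeff (d + t)) * (X ^ t * Φ)).natDegree < d + t := by
      have h4 : (P - C (P.coeff (d + t)) * (X ^ t * Φ)).natDegree ≤ d + t - 1 := by
        rw [natDegree_le_iff_coeff_eq_zero]
        intro N hN
        rw [coeff_sub, coeff_C_mul, coeff_X_pow_mul', if_pos (by omega)]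
        rcases (show d + t ≤ N by omega).eq_or_lt with h5 | h5
        · rw [← h5, Nat.add_sub_cancel]
          have h6 : Φ.coeff d = 1 := by
            rw [← hd]
            exact hΦ.coeff_natDegree
          rw [h6, mul_one, sub_self]
        · rw [coeff_eq_zero_of_natDegree_lt (by omega), coeff_eq_zero_of_natDegree_lt
            (show Φ.natDegree < N - t by omega), mul_zero, sub_self]
      omega
    exact bd_mono (ih (a + β) _ h3 h2) (by rw [Nat.mul_succ]; omega)

theorem eval_le {P : R[X][X]} {a t n : ℕ} (hP : BD a P) (ht : P.natDegree ≤ t) {Z : R[X]}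
    (hZ : Z.natDegree ≤ n) : (P.eval Z).natDegree ≤ a + t * n := by
  rw [eval_eq_sum_range]
  refine natDegree_sum_le_of_forall_le _ _ fun i hi => ?_
  refine natDegree_mul_le.trans (add_le_add (hP i) ?_)
  refine (natDegree_pow_le).trans ?_
  have h1 : i ≤ t := by
    have := Finset.mem_range.1 hi
    omega
  exact Nat.mul_le_mul h1 hZ

theorem eval_diff {P : R[X][X]} {a t n : ℕ} (hP : BD a P) (ht : P.natDegree ≤ t) {Z₁ Z₂ : R[X]}
    (hZ₁ : Z₁.natDegree ≤ n) (hZ₂ : Z₂.natDegree ≤ n) :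
    ∃ D : R[X], P.eval Z₂ - P.eval Z₁ = (Z₂ - Z₁) * D ∧ D.natDegree ≤ a + (t - 1) * n ∧
      (t = 0 → D = 0) := by
  refine ⟨∑ i ∈ Finset.range (t + 1), P.coeff i * ∑ j ∈ Finset.range i, Z₂ ^ j * Z₁ ^ (i - 1 - j),
    ?_, ?_, ?_⟩
  · rw [eval_eq_sum_range' (Nat.lt_succ_of_le ht), eval_eq_sum_range' (Nat.lt_succ_of_le ht),
      ← Finset.sum_sub_distrib, Finset.mul_sum]
    refine Finset.sum_congr rfl fun i _ => ?_
    have h1 := geom_sum₂_mul Z₂ Z₁ i
    rw [← mul_sub, ← h1]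
    ring
  · refine natDegree_sum_le_of_forall_le _ _ fun i hi => ?_
    refine natDegree_mul_le.trans (add_le_add (hP i) ?_)
    refine natDegree_sum_le_of_forall_le _ _ fun j hj => ?_
    have h1 : i < t + 1 := Finset.mem_range.1 hi
    have h2 : j < i := Finset.mem_range.1 hj
    refine natDegree_mul_le.trans ?_
    have h3 : (Z₂ ^ j).natDegree ≤ j * n := natDegree_pow_le.trans (Nat.mul_le_mul le_rfl hZ₂)
    have h4 : (Z₁ ^ (i - 1 - j)).natDegree ≤ (i - 1 - j) * n :=
      natDegree_pow_le.trans (Nat.mul_le_mul le_rfl hZ₁)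
    refine (add_le_add h3 h4).trans ?_
    rw [← add_mul]
    exact Nat.mul_le_mul (by omega) le_rfl
  · rintro rfl
    simp

theorem cross_alg {x1 p1 p2 x2 u D1 D2 κ : R[X]} {w : R[X]} (h1 : p2 - p1 = u * D1)
    (hu : u = w ^ 2) (h2 : x2 - x1 = w * κ + u * D2) :
    x1 * p2 - x2 * p1 = x1 * (w ^ 2 * D1) - (w * κ + w ^ 2 * D2) * p1 := by
  rw [← hu, ← h1, ← h2]
  ring

end Crossx

open Crossx in
theorem crossE : S_crossE := by
  intro d β
  refine ⟨6 * β + 2 * d * β, ?_⟩
  intro R _ _ h2 Φ e₁ e₂ S G Z₁ Z₂ h₁ h₂ w n δ hΦ hd hd1 hβ he₁ he₂ hn₁ hn₂ hS hG hZ₁ hZ₂ hw _ hZ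
    hh₁ hh₂
  -- the difference of the derivatives
  have hZ' : derivative Z₂ = derivative Z₁ + 2 * w * derivative w := by
    rw [hZ, derivative_add, sq, derivative_mul]
    ring
  have h2X : (2 : R[X]) ≠ 0 := by
    intro h
    apply h2
    have h3 : (C (2 : R) : R[X]) = 0 := by
      rw [map_ofNat]
      exact h
    exact C_eq_zero.1 h3
  have hh : h₂ = h₁ + w * derivative w := by
    apply mul_left_cancel₀ h2X
    rw [mul_add, hh₁, hh₂, hZ']
    ring
  have hdd : ∀ p : R[X], (derivative p).natDegree ≤ p.natDegree := fun p =>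
    (natDegree_derivative_le p).trans (Nat.sub_le _ _)
  have hdeg : ∀ (h Z : R[X]), Z.natDegree ≤ n → 2 * h = derivative Z - G ^ 2 → h.natDegree ≤ n := by
    intro h Z hZn hh
    have h3 : (2 * h : R[X]).natDegree = h.natDegree := by
      have h4 : (2 * h : R[X]) = C (2 : R) * h := by rw [map_ofNat]
      rw [h4, natDegree_C_mul h2]
    rw [← h3, hh]
    refine (natDegree_sub_le _ _).trans (max_le ((hdd Z).trans hZn) ?_)
    exact natDegree_pow_le.trans hG
  have hdh₁ := hdeg h₁ Z₁ hZ₁ hh₁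
  have hdh₂ := hdeg h₂ Z₂ hZ₂ hh₂
  have hS2 : (S ^ 2).natDegree ≤ 2 * β := natDegree_pow_le.trans (Nat.mul_le_mul le_rfl hS)
  have hSG : ((S * G) ^ 2).natDegree ≤ 2 * β + n := by
    rw [mul_pow]
    refine natDegree_mul_le.trans (add_le_add hS2 ?_)
    exact natDegree_pow_le.trans hG
  -- the polynomials `H`
  have hH : ∀ h Z : R[X], h.natDegree ≤ n → Z.natDegree ≤ n →
      BD (2 * β + n) (HT e₁ e₂ S h (derivative Z)) ∧
        (HT e₁ e₂ S h (derivative Z)).natDegree ≤ d - 1 := by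
    intro h Z hh hZn
    constructor
    · unfold HT
      refine bd_add (bd_add (bd_C (natDegree_mul_le.trans (add_le_add hS2 hh))) ?_) ?_
      · exact bd_mono (bd_mul he₁ (bd_C ((hdd Z).trans hZn))) (by omega)
      · exact bd_mono he₂ (by omega)
    · unfold HT
      refine natDegree_add_le_of_degree_le (natDegree_add_le_of_degree_le ?_ ?_) (by omega)
      · rw [natDegree_C]
        exact Nat.zero_le _
      · exact (natDegree_mul_C_le _ _).trans (by omega)
  obtain ⟨hH₁, hH₁d⟩ := hH h₁ Z₁ hdh₁ hZ₁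
  obtain ⟨hH₂, hH₂d⟩ := hH h₂ Z₂ hdh₂ hZ₂
  have hΦd : (derivative Φ).natDegree ≤ d := (natDegree_derivative_le Φ).trans (by omega)
  have hW : ∀ Z : R[X], Z.natDegree ≤ n → BD (β + n) (derivative Φ * C (derivative Z) + dX Φ) ∧
      (derivative Φ * C (derivative Z) + dX Φ).natDegree ≤ d := by
    intro Z hZn
    constructor
    · refine bd_add (bd_mul (bd_derivative hβ) (bd_C ((hdd Z).trans hZn))) ?_
      exact bd_mono (bd_dX hβ) (by omega)
    · refine natDegree_add_le_of_degree_le ((natDegree_mul_C_le _ _).trans hΦd) ?_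
      exact (natDegree_dX Φ).trans hd.le
  obtain ⟨hW₁, hW₁d⟩ := hW Z₁ hZ₁
  obtain ⟨hW₂, hW₂d⟩ := hW Z₂ hZ₂
  set H₁ := HT e₁ e₂ S h₁ (derivative Z₁) with hH₁def
  set H₂ := HT e₁ e₂ S h₂ (derivative Z₂) with hH₂def
  set W₁ := derivative Φ * C (derivative Z₁) + dX Φ with hW₁def
  set W₂ := derivative Φ * C (derivative Z₂) + dX Φ with hW₂def
  -- the numerator
  have hQ₁ : BD (4 * β + 2 * n) (H₁ * C ((S * G) ^ 2) - H₁ ^ 2) := by
    refine bd_sub (bd_mono (bd_mul hH₁ (bd_C hSG)) (by omega)) ?_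
    rw [sq]
    exact bd_mono (bd_mul hH₁ hH₁) (by omega)
  have hQ₁d : (H₁ * C ((S * G) ^ 2) - H₁ ^ 2).natDegree ≤ 2 * (d - 1) := by
    refine (natDegree_sub_le _ _).trans (max_le ?_ ?_)
    · exact (natDegree_mul_C_le _ _).trans (by omega)
    · exact natDegree_pow_le.trans (Nat.mul_le_mul le_rfl hH₁d)
  have hP₁ : BD (5 * β + 3 * n) ((H₁ * C ((S * G) ^ 2) - H₁ ^ 2) * W₁) :=
    bd_mono (bd_mul hQ₁ hW₁) (by omega)
  have hP₁d : ((H₁ * C ((S * G) ^ 2) - H₁ ^ 2) * W₁).natDegree < d + 2 * d :=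
    lt_of_le_of_lt (natDegree_mul_le.trans (add_le_add hQ₁d hW₁d)) (by omega)
  have hN₁ := bd_mod hΦ hd hd1 hβ (2 * d) _ _ hP₁d hP₁
  have hΦ1 : Φ ≠ 1 := by
    rintro rfl
    rw [natDegree_one] at hd
    omega
  have hmodd : ∀ P : R[X][X], (P %ₘ Φ).natDegree ≤ d - 1 := by
    intro P
    have := natDegree_modByMonic_lt P hΦ hΦ1
    omega
  -- the difference of the numerators
  set κH : R[X][X] := C (S ^ 2 * derivative w) + e₁ * C (2 * derivative w) with hκH
  have hHdiff : H₂ - H₁ = C w * κH := by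
    rw [hH₂def, hH₁def, hκH]
    unfold HT
    rw [hh, hZ']
    simp only [map_mul, map_add, map_pow]
    ring
  set κ : R[X][X] := κH * (C ((S * G) ^ 2) - H₁ - H₂) * W₂ +
    (H₁ * C ((S * G) ^ 2) - H₁ ^ 2) * (derivative Φ * C (2 * derivative w)) with hκ
  have hdiff : (H₂ * C ((S * G) ^ 2) - H₂ ^ 2) * W₂ - (H₁ * C ((S * G) ^ 2) - H₁ ^ 2) * W₁ =
      C w * κ := by
    have hWd : W₂ - W₁ = C w * (derivative Φ * C (2 * derivative w)) := by
      rw [hW₂def, hW₁def, hZ']
      simp only [map_mul, map_add]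
      ring
    have e1 : (H₂ * C ((S * G) ^ 2) - H₂ ^ 2) * W₂ - (H₁ * C ((S * G) ^ 2) - H₁ ^ 2) * W₁ =
      (H₂ - H₁) * (C ((S * G) ^ 2) - H₁ - H₂) * W₂ +
        (H₁ * C ((S * G) ^ 2) - H₁ ^ 2) * (W₂ - W₁) := by ring
    rw [e1, hHdiff, hWd, hκ]
    ring
  have h2w : (2 * derivative w : R[X]).natDegree ≤ δ := by
    have h4 : (2 * derivative w : R[X]) = C (2 : R) * derivative w := by rw [map_ofNat]
    rw [h4]
    exact (natDegree_C_mul_le _ _).trans ((hdd w).trans hw)
  have hκHb : BD (2 * β + δ) κH := by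
    refine bd_add (bd_C (natDegree_mul_le.trans (add_le_add hS2 ((hdd w).trans hw)))) ?_
    exact bd_mono (bd_mul he₁ (bd_C h2w)) (by omega)
  have hκHd : κH.natDegree ≤ d - 1 := by
    refine natDegree_add_le_of_degree_le ?_ ?_
    · rw [natDegree_C]
      exact Nat.zero_le _
    · exact (natDegree_mul_C_le _ _).trans (by omega)
  have hBb : BD (2 * β + n) (C ((S * G) ^ 2) - H₁ - H₂) := bd_sub (bd_sub (bd_C hSG) hH₁) hH₂
  have hBd : (C ((S * G) ^ 2) - H₁ - H₂).natDegree ≤ d - 1 := by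
    refine (natDegree_sub_le _ _).trans (max_le ((natDegree_sub_le _ _).trans (max_le ?_ hH₁d)) hH₂d)
    rw [natDegree_C]
    exact Nat.zero_le _
  have hκb : BD (5 * β + 2 * n + δ) κ := by
    refine bd_add (bd_mono (bd_mul (bd_mul hκHb hBb) hW₂) (by omega)) ?_
    exact bd_mono (bd_mul hQ₁ (bd_mul (bd_derivative hβ) (bd_C h2w))) (by omega)
  have hκd : κ.natDegree < d + 2 * d := by
    have h5 : (κH * (C ((S * G) ^ 2) - H₁ - H₂) * W₂).natDegree ≤ (d - 1) + (d - 1) + d :=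
      natDegree_mul_le.trans (add_le_add (natDegree_mul_le.trans (add_le_add hκHd hBd)) hW₂d)
    have h6 : ((H₁ * C ((S * G) ^ 2) - H₁ ^ 2) * (derivative Φ * C (2 * derivative w))).natDegree ≤
        2 * (d - 1) + d :=
      natDegree_mul_le.trans (add_le_add hQ₁d ((natDegree_mul_C_le _ _).trans hΦd))
    have h7 : κ.natDegree ≤ 2 * (d - 1) + d :=
      natDegree_add_le_of_degree_le (h5.trans (by omega)) h6
    omega
  have hκ' := bd_mod hΦ hd hd1 hβ (2 * d) _ _ hκd hκb
  -- evaluation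
  obtain ⟨D₁, hD₁, hD₁b, -⟩ := eval_diff hβ hd.le hZ₁ hZ₂
  obtain ⟨D₂, hD₂, hD₂b, hD₂0⟩ := eval_diff hN₁ (hmodd _) hZ₁ hZ₂
  have hu : Z₂ - Z₁ = w ^ 2 := by rw [hZ]; ring
  have hx : (NT Φ e₁ e₂ S G h₂ (derivative Z₂)).eval Z₂ -
      (NT Φ e₁ e₂ S G h₁ (derivative Z₁)).eval Z₁ = w * (κ %ₘ Φ).eval Z₂ + (Z₂ - Z₁) * D₂ := by
    have e1 : NT Φ e₁ e₂ S G h₂ (derivative Z₂) - NT Φ e₁ e₂ S G h₁ (derivative Z₁) =
        C w * (κ %ₘ Φ) := by
      unfold NT
      rw [← sub_modByMonic]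
      rw [← hH₁def, ← hH₂def, ← hW₁def, ← hW₂def, hdiff, ← smul_eq_C_mul, smul_modByMonic,
        smul_eq_C_mul]
    have e2 := congrArg (eval Z₂) e1
    rw [eval_sub, eval_mul, eval_C] at e2
    rw [← hD₂, ← e2]
    unfold NT
    ring
  have hcr := cross_alg hD₁ hu hx
  rw [hcr]
  constructor
  · have b1 : ((NT Φ e₁ e₂ S G h₁ (derivative Z₁)).eval Z₁).natDegree ≤
        5 * β + 3 * n + β * (2 * d) + (d - 1) * n := eval_le hN₁ (hmodd _) hZ₁
    have b2 : (w ^ 2).natDegree ≤ 2 * δ := natDegree_pow_le.trans (Nat.mul_le_mul le_rfl hw)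
    have b3 : (Φ.eval Z₁).natDegree ≤ β + d * n := eval_le hβ hd.le hZ₁
    have b4 : ((κ %ₘ Φ).eval Z₂).natDegree ≤ 5 * β + 2 * n + δ + β * (2 * d) + (d - 1) * n :=
      eval_le hκ' (hmodd _) hZ₂
    have hdn : (d - 1) * n + n = d * n := by
      obtain ⟨e, rfl⟩ : ∃ e, d = e + 1 := ⟨d - 1, by omega⟩
      rw [Nat.add_sub_cancel]
      ring
    have hdb : β * (2 * d) = 2 * d * β := by ring
    have hrhs : (2 * d + 1) * n = 2 * (d * n) + n := by ring
    rw [hrhs]
    refine (natDegree_sub_le _ _).trans (max_le ?_ ?_)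
    · refine natDegree_mul_le.trans ((add_le_add b1
        (natDegree_mul_le.trans (add_le_add b2 hD₁b))).trans ?_)
      rw [hdb]
      omega
    · refine natDegree_mul_le.trans ?_
      have b5 : (w * (κ %ₘ Φ).eval Z₂ + w ^ 2 * D₂).natDegree ≤
          2 * δ + 5 * β + 2 * n + β * (2 * d) + (d - 1) * n := by
        refine natDegree_add_le_of_degree_le ?_ ?_
        · exact (natDegree_mul_le.trans (add_le_add hw b4)).trans (by omega)
        · rcases Nat.eq_or_lt_of_le hd1 with h1 | h1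
          · rw [hD₂0 (by omega), mul_zero, natDegree_zero]
            exact Nat.zero_le _
          · have hdn2 : (d - 1 - 1) * n + n = (d - 1) * n := by
              obtain ⟨e, rfl⟩ : ∃ e, d = e + 2 := ⟨d - 2, by omega⟩
              rw [show e + 2 - 1 - 1 = e by omega, show e + 2 - 1 = e + 1 by omega]
              ring
            exact (natDegree_mul_le.trans (add_le_add b2 hD₂b)).trans (by omega)
      refine (add_le_add b5 b3).trans ?_
      rw [hdb]
      omega
  · refine dvd_sub ?_ ?_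
    · refine Dvd.dvd.mul_left (Dvd.dvd.mul_right ?_ _) _
      exact dvd_pow_self w two_ne_zero
    · refine Dvd.dvd.mul_right (dvd_add (dvd_mul_right _ _) (Dvd.dvd.mul_right ?_ _)) _
      exact dvd_pow_self w two_ne_zero

end Pool.Agent.H140.E
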