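import Mathlib
import Pool.Agent.H140.E.Stm
import Pool.Agent.H140.Q.Local

/-!
# The key formula for polynomials of any degree: statements of the algebraic parts

`R` is a domain (the Witt vectors of the algebraic closure), `red : R → k` the reduction modulo two.
`Φ ∈ R[X][T]` is monic, its reduction has the coefficients of `c ∈ k[X][T]`, squared.
`bb ^ 2 Φ_T = S ^ 2 + 2 e₁ + Φ q₁`, `bb ^ 2 Φ_X = 2 e₂ + Φ q₂`, and `Z = V ^ 2 + X G ^ 2 + 2 M`.
-/

set_option autoImplicit false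

namespace Pool.Agent.H140.E

open Polynomial
open Pool.Agent.H140.Q.Local (HH)

section defs

variable {R : Type} [CommRing R]

/-- the polynomial `H` for `Z - T`, `T` a root -/
noncomputable def Hp0 (r : R) (S a U G M : R[X]) : R[X] :=
  S ^ 2 * HH r U G M + a * (G ^ 2 + 2 * HH r U G M)

/-- the polynomial `H(T)`; `hh` is `HH`, `Zd` the derivative of `Z` -/
noncomputable def HT (e₁ e₂ : R[X][X]) (S hh Zd : R[X]) : R[X][X] :=
  C (S ^ 2 * hh) + e₁ * C Zd + e₂

/-- the numerator, as a polynomial in `T` -/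
noncomputable def NT (Φ e₁ e₂ : R[X][X]) (S G hh Zd : R[X]) : R[X][X] :=
  ((HT e₁ e₂ S hh Zd * C ((S * G) ^ 2) - HT e₁ e₂ S hh Zd ^ 2) *
    (derivative Φ * C Zd + dX Φ)) %ₘ Φ

/-- all the coefficients have degree at most `a` -/
def BD (a : ℕ) (P : R[X][X]) : Prop := ∀ i, (P.coeff i).natDegree ≤ a

end defs

/-- **Task K1**: the local computation at a simple root of `G`. -/
def S_tloc0 : Prop :=
  ∀ (R : Type) [CommRing R] (k : Type) [Field k] [CharP k 2] (red : R →+* k),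
    (∀ x, red x ≠ 0 → IsUnit x) → ∀ (r s₀ χ : R) (S₁ a U G M B c F : R[X]),
    F = U ^ 2 + X * G ^ 2 + 2 * M → G = C χ * (B * (X - C r)) → red χ ≠ 0 → red s₀ ≠ 0 →
    red (S₁.eval r) ≠ 0 → red (U.eval r) ≠ 0 → red ((derivative G).eval r) ≠ 0 →
    c.natDegree < 4 →
    (X - C r) ^ 4 ∣ c * (S₁ * B) ^ 4 * F -
      (Hp0 0 (C s₀ * S₁) a U G M * (C s₀ * S₁ * G) ^ 2 -
        (Hp0 0 (C s₀ * S₁) a U G M) ^ 2) * derivative F →
    ∃ l, c.coeff 3 = (s₀ * χ) ^ 4 * (2 * l) ∧ ∀ κ W e0 e1 : k,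
      e0 = red (U.eval r) * red ((derivative U).eval r) + red ((derivative M).eval r) →
      e1 = red ((derivative U).eval r) ^ 2 + red r * red ((derivative G).eval r) ^ 2 →
      κ = e0 * e1 / (red ((derivative G).eval r) ^ 2 * red (U.eval r) ^ 2) →
      W = e1 ^ 3 / (red ((derivative G).eval r) ^ 4 * red (U.eval r) ^ 2) →
      red l = κ + κ ^ 2 + W

section

/-- the local value at a root `α` of the reduction of `c` at `ρ`; `x0, x1` are the values of `V`
and its derivative, `y1` of the derivative of `G`, `m1` of the derivative of `M`; `t = α ^ 2`,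
`ψ` and `φ` are the values at `t` of `Φ_X / 2` and `Φ_T`. -/
noncomputable def kaE {k : Type} [Field k] (ρ x0 x1 y1 m1 α α' ψφ : k) : k :=
  (x0 * x1 + m1 + ψφ) * ((x1 + α') ^ 2 + ρ * y1 ^ 2) / (y1 ^ 2 * (x0 + α) ^ 2)

/-- the local term -/
noncomputable def WE {k : Type} [Field k] (ρ x0 x1 y1 α α' : k) : k :=
  ((x1 + α') ^ 2 + ρ * y1 ^ 2) ^ 3 / (y1 ^ 4 * (x0 + α) ^ 2)

open Classical in
/-- **Task K2**: the local computation for `Φ`. -/
def S_locr : Prop :=
  ∀ (R : Type) [CommRing R] [IsDomain R] (k : Type) [Field k] [CharP k 2] [IsAlgClosed k]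
    (red : R →+* k), (∀ x, red x ≠ 0 → IsUnit x) → (∀ x, red x = 0 → ∃ y, x = 2 * y) →
    (2 : R) ≠ 0 → Function.Surjective red →
    (∀ (P : R[X]) (a₀ : R), P.Monic → red (P.eval a₀) = 0 → red ((derivative P).eval a₀) ≠ 0 →
      ∃ a, P.eval a = 0 ∧ red a = red a₀) →
    ∀ (Φ Ψ e₁ e₂ q₁ q₂ bb : R[X][X]) (cpk : k[X][X]) (S₁ V G M Z B : R[X]) (r s₀ χ : R),
    Φ.Monic → dX Φ = 2 * Ψ → Φ.map (mapRingHom red) = cpk.map (frobenius k[X] 2) → cpk.Monic →
    bb ^ 2 * derivative Φ = C ((C s₀ * S₁) ^ 2) + 2 * e₁ + Φ * q₁ →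
    bb ^ 2 * dX Φ = 2 * e₂ + Φ * q₂ →
    (cpk.map (evalRingHom (red r))).Separable →
    Z = V ^ 2 + X * G ^ 2 + 2 * M → G = C χ * (B * (X - C r)) → red χ ≠ 0 → red s₀ ≠ 0 →
    red (S₁.eval r) ≠ 0 → red (B.eval r) ≠ 0 → red ((Φ.eval Z).eval r) ≠ 0 →
    red ((derivative G).eval r) ≠ 0 →
    ∃ (c : R[X]) (l : R), c.natDegree < 4 ∧ c.coeff 3 = (s₀ * χ) ^ 4 * (2 * l) ∧
      (X - C r) ^ 4 ∣ c * (S₁ * B) ^ 4 * Φ.eval Z -
        (NT Φ e₁ e₂ (C s₀ * S₁) G (HH 0 V G M) (derivative Z)).eval Z ∧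
      red l = ∑ α ∈ (cpk.map (evalRingHom (red r))).roots.toFinset,
        (kaE (red r) (red (V.eval r)) (red ((derivative V).eval r))
            (red ((derivative G).eval r)) (red ((derivative M).eval r)) α
            (((dX cpk).map (evalRingHom (red r))).eval α /
              (derivative (cpk.map (evalRingHom (red r)))).eval α)
            (((Ψ.map (mapRingHom red)).map (evalRingHom (red r))).eval (α ^ 2) /
              ((derivative (Φ.map (mapRingHom red))).map (evalRingHom (red r))).eval (α ^ 2)) +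
          kaE (red r) (red (V.eval r)) (red ((derivative V).eval r))
            (red ((derivative G).eval r)) (red ((derivative M).eval r)) α
            (((dX cpk).map (evalRingHom (red r))).eval α /
              (derivative (cpk.map (evalRingHom (red r)))).eval α)
            (((Ψ.map (mapRingHom red)).map (evalRingHom (red r))).eval (α ^ 2) /
              ((derivative (Φ.map (mapRingHom red))).map (evalRingHom (red r))).eval (α ^ 2)) ^ 2 +
          WE (red r) (red (V.eval r)) (red ((derivative V).eval r))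
            (red ((derivative G).eval r)) α
            (((dX cpk).map (evalRingHom (red r))).eval α /
              (derivative (cpk.map (evalRingHom (red r)))).eval α))

end

/-- **Task K3**: degrees and divisibility of the cross term. -/
def S_crossE : Prop :=
  ∀ d β : ℕ, ∃ C₀ : ℕ, ∀ (R : Type) [CommRing R] [IsDomain R], (2 : R) ≠ 0 →
    ∀ (Φ e₁ e₂ : R[X][X]) (S G Z₁ Z₂ h₁ h₂ w : R[X]) (n δ : ℕ),
    Φ.Monic → Φ.natDegree = d → 1 ≤ d → BD β Φ → BD β e₁ → BD β e₂ → e₁.natDegree < d →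
    e₂.natDegree < d → S.natDegree ≤ β → 2 * G.natDegree ≤ n → Z₁.natDegree ≤ n →
    Z₂.natDegree ≤ n → w.natDegree ≤ δ → 2 * δ ≤ n → Z₂ = Z₁ + w ^ 2 →
    2 * h₁ = derivative Z₁ - G ^ 2 → 2 * h₂ = derivative Z₂ - G ^ 2 →
    ((NT Φ e₁ e₂ S G h₁ (derivative Z₁)).eval Z₁ * Φ.eval Z₂ -
      (NT Φ e₁ e₂ S G h₂ (derivative Z₂)).eval Z₂ * Φ.eval Z₁).natDegree ≤
        (2 * d + 1) * n + 2 * δ + C₀ ∧
    w ∣ (NT Φ e₁ e₂ S G h₁ (derivative Z₁)).eval Z₁ * Φ.eval Z₂ -
      (NT Φ e₁ e₂ S G h₂ (derivative Z₂)).eval Z₂ * Φ.eval Z₁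

end Pool.Agent.H140.E
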