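import Mathlib
import Pool.Agent.H140.E.StmK
import Pool.Agent.H140.QM.CmpA

/-!
# One side of the key formula
-/

set_option autoImplicit false

namespace Pool.Agent.H140.E

open Polynomial
open Pool.Agent.H985.Chow
open Pool.Agent.H524 (vdm)
open Pool.Agent.H140.Q.Local (HH)

section dX

variable {R : Type} [CommRing R]

lemma coeff_dX (p : R[X][X]) (i : ℕ) : (dX p).coeff i = derivative (p.coeff i) := by
  unfold dX
  rw [Polynomial.sum_def, finsetSum_coeff]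
  simp only [coeff_monomial]
  rw [Finset.sum_ite_eq' p.support i]
  split_ifs with h
  · rfl
  · rw [notMem_support_iff.1 h, derivative_zero]

lemma dX_add (p q : R[X][X]) : dX (p + q) = dX p + dX q := by
  ext i : 1
  rw [coeff_add, coeff_dX, coeff_dX, coeff_dX, coeff_add, derivative_add]

lemma dX_monomial (i : ℕ) (a : R[X]) : dX (monomial i a) = monomial i (derivative a) := by
  ext j : 1
  rw [coeff_dX, coeff_monomial, coeff_monomial]
  split_ifs
  · rfl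
  · rw [derivative_zero]

lemma derivative_eval (p : R[X][X]) (Z : R[X]) :
    derivative (p.eval Z) = (dX p).eval Z + (derivative p).eval Z * derivative Z := by
  induction p using Polynomial.induction_on' with
  | add p q hp hq =>
    rw [dX_add, eval_add, derivative_add, hp, hq, eval_add, derivative_add, eval_add]
    ring
  | monomial i a =>
    rw [dX_monomial, eval_monomial, eval_monomial, derivative_monomial, eval_monomial,
      derivative_mul, derivative_pow]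
    simp only [map_natCast]
    ring

end dX

/-- the relations of the base data -/
structure BaseE {R : Type} [CommRing R] (Φ e₁ e₂ q₁ q₂ bb : R[X][X]) (S : R[X]) : Prop where
  h1 : bb ^ 2 * derivative Φ = C (S ^ 2) + 2 * e₁ + Φ * q₁
  h2 : bb ^ 2 * dX Φ = 2 * e₂ + Φ * q₂

/-- the data attached to one polynomial `F = Φ(Z) = mt Fo` -/
structure SdE {R : Type} [CommRing R] {k : Type} [Field k] (red : R →+* k)
    (Φ : R[X][X]) (S G mt : R[X]) (N : ℕ) where
  Z : R[X]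
  V : R[X]
  M : R[X]
  Fo : R[X]
  v : Fin N → R
  hZ : Z = V ^ 2 + X * G ^ 2 + 2 * M
  hm : Φ.eval Z = mt * Fo
  hv : Fo = ∏ j, (X - C (v j))
  hG : ∀ j, red (G.eval (v j)) ≠ 0
  hS : ∀ j, red (S.eval (v j)) ≠ 0
  hmt : ∀ j, red (mt.eval (v j)) ≠ 0

namespace SdE

variable {R : Type} [CommRing R] {k : Type} [Field k] {red : R →+* k}
    {Φ e₁ e₂ q₁ q₂ bb : R[X][X]} {S G mt : R[X]} {N : ℕ} (D : SdE red Φ S G mt N)

/-- the polynomial `F` -/
noncomputable def F : R[X] := Φ.eval D.Z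

/-- the polynomial `HH` -/
noncomputable def hh : R[X] := HH 0 D.V G D.M

lemma dZ : derivative D.Z = G ^ 2 + 2 * D.hh := by
  have h1 : D.Z = D.V ^ 2 + (X + C 0) * G ^ 2 + 2 * D.M := by
    rw [C_0, add_zero]
    exact D.hZ
  exact Q.Local.der_F 0 h1

/-- the polynomial `H` -/
noncomputable def H (e₁ e₂ : R[X][X]) : R[X] :=
  (HT e₁ e₂ S D.hh (derivative D.Z)).eval D.Z

lemma H_eq (e₁ e₂ : R[X][X]) : D.H e₁ e₂ =
    S ^ 2 * D.hh + e₁.eval D.Z * derivative D.Z + e₂.eval D.Z := by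
  unfold H HT
  rw [eval_add, eval_add, eval_C, eval_mul, eval_C]

lemma bF (hB : BaseE Φ e₁ e₂ q₁ q₂ bb S) : bb.eval D.Z ^ 2 * derivative D.F =
    (S * G) ^ 2 + 2 * D.H e₁ e₂ + D.F * (q₁.eval D.Z * derivative D.Z + q₂.eval D.Z) := by
  have h1 := congrArg (eval D.Z) hB.h1
  have h2 := congrArg (eval D.Z) hB.h2
  simp only [eval_add, eval_mul, eval_pow, eval_C, eval_ofNat] at h1 h2
  have h3 := D.dZ
  have h4 := derivative_eval Φ D.Z
  rw [H_eq]
  unfold F
  rw [h4]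
  linear_combination (derivative D.Z) * h1 + h2 + S ^ 2 * h3

lemma Fo_eval (j : Fin N) : D.Fo.eval (D.v j) = 0 := by
  rw [D.hv, eval_prod]
  exact Finset.prod_eq_zero (Finset.mem_univ j) (by simp)

lemma F_eq : D.F = mt * D.Fo := D.hm

lemma F_eval (j : Fin N) : D.F.eval (D.v j) = 0 := by
  rw [D.F_eq, eval_mul, Fo_eval, mul_zero]

lemma dF : derivative D.F = derivative mt * D.Fo + mt * derivative D.Fo := by
  rw [D.F_eq, derivative_mul]

lemma dF_eval (j : Fin N) : (derivative D.F).eval (D.v j) =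
    mt.eval (D.v j) * (derivative D.Fo).eval (D.v j) := by
  rw [dF, eval_add, eval_mul, eval_mul, Fo_eval, mul_zero, zero_add]

lemma bF_eval (hB : BaseE Φ e₁ e₂ q₁ q₂ bb S) (j : Fin N) :
    (bb.eval D.Z).eval (D.v j) ^ 2 * (mt.eval (D.v j) * (derivative D.Fo).eval (D.v j)) =
    (S.eval (D.v j) * G.eval (D.v j)) ^ 2 + 2 * (D.H e₁ e₂).eval (D.v j) := by
  have h := congrArg (eval (D.v j)) (D.bF hB)
  simp only [eval_mul, eval_add, eval_pow, eval_ofNat, D.F_eval j, D.dF_eval j] at h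
  rw [h]
  ring

lemma uS (hun : ∀ x, red x ≠ 0 → IsUnit x) (j : Fin N) : IsUnit (S.eval (D.v j)) :=
  hun _ (D.hS j)

lemma uG (hun : ∀ x, red x ≠ 0 → IsUnit x) (j : Fin N) : IsUnit (G.eval (D.v j)) :=
  hun _ (D.hG j)

lemma exists_z (hun : ∀ x, red x ≠ 0 → IsUnit x) (e₁ e₂ : R[X][X]) :
    ∃ z : Fin N → R, ∀ j, (S.eval (D.v j) * G.eval (D.v j)) ^ 2 * z j =
      (D.H e₁ e₂).eval (D.v j) := by
  have h : ∀ j, ∃ z, (S.eval (D.v j) * G.eval (D.v j)) ^ 2 * z = (D.H e₁ e₂).eval (D.v j) := by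
    intro j
    obtain ⟨t, ht⟩ := (((D.uS hun j).mul (D.uG hun j)).pow 2).exists_right_inv
    exact ⟨t * (D.H e₁ e₂).eval (D.v j), by rw [← mul_assoc, ht, one_mul]⟩
  choose z hz using h
  exact ⟨z, hz⟩

/-- the discriminant -/
lemma disc (hB : BaseE Φ e₁ e₂ q₁ q₂ bb S) {z : Fin N → R}
    (hz : ∀ j, (S.eval (D.v j) * G.eval (D.v j)) ^ 2 * z j = (D.H e₁ e₂).eval (D.v j)) :
    (∏ j, mt.eval (D.v j)) *
        ((-1) ^ (N * (N - 1) / 2) * (vdm D.v * ∏ j, (bb.eval D.Z).eval (D.v j)) ^ 2) =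
      (∏ j, (S.eval (D.v j) * G.eval (D.v j))) ^ 2 * ∏ j, (1 + 2 * z j) := by
  have e1 : (∏ j, mt.eval (D.v j)) *
        ((-1) ^ (N * (N - 1) / 2) * (vdm D.v * ∏ j, (bb.eval D.Z).eval (D.v j)) ^ 2) =
      ((∏ j, (bb.eval D.Z).eval (D.v j)) ^ 2 * ∏ j, mt.eval (D.v j)) *
        ((-1) ^ (N * (N - 1) / 2) * vdm D.v ^ 2) := by ring
  rw [e1, ← Pool.Agent.H524.prod_eval_derivative, ← D.hv, ← Finset.prod_pow,
    ← Finset.prod_mul_distrib, ← Finset.prod_mul_distrib, ← Finset.prod_pow,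
    ← Finset.prod_mul_distrib]
  refine Finset.prod_congr rfl fun j _ => ?_
  have h := D.bF_eval hB j
  rw [← hz j] at h
  linear_combination h

lemma coprime_of (hun : ∀ x, red x ≠ 0 → IsUnit x) (P : R[X])
    (h : ∀ j, red (P.eval (D.v j)) ≠ 0) : IsCoprime P D.Fo := by
  rw [D.hv]
  apply IsCoprime.prod_right
  intro j _
  apply IsCoprime.symm
  apply RT.coprime_X_sub_C
  exact hun _ (h j)

/-- a polynomial with given values at the roots -/
lemma exists_P (hun : ∀ x, red x ≠ 0 → IsUnit x) (B Y : R[X])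
    (hB : ∀ j, red (B.eval (D.v j)) ≠ 0) {y : Fin N → R}
    (hy : ∀ j, B.eval (D.v j) * y j = Y.eval (D.v j)) :
    ∃ P : R[X], D.Fo ∣ P * B - Y ∧ ∀ j, P.eval (D.v j) = y j := by
  obtain ⟨u, w, huw⟩ := D.coprime_of hun B hB
  have hdv : D.Fo ∣ (u * Y) * B - Y := ⟨-w * Y, by linear_combination Y * huw⟩
  refine ⟨u * Y, hdv, fun j => ?_⟩
  obtain ⟨q, hq⟩ := hdv
  have h := congrArg (eval (D.v j)) hq
  simp only [eval_mul, eval_sub, D.Fo_eval j, zero_mul] at h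
  apply (hun _ (hB j)).mul_left_cancel
  rw [hy j, eval_mul]
  linear_combination h

lemma Fo_monic : D.Fo.Monic := by
  rw [D.hv]
  exact monic_prod_of_monic _ _ fun j _ => monic_X_sub_C _

lemma Fo_deg [Nontrivial R] : D.Fo.natDegree = N := by
  rw [D.hv, natDegree_prod_of_monic _ _ fun j _ => monic_X_sub_C _]
  simp

lemma F_deg [Nontrivial R] (hmt : mt.Monic) : D.F.natDegree = mt.natDegree + N := by
  rw [D.F_eq, hmt.natDegree_mul D.Fo_monic, D.Fo_deg]

/-- the numerator -/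
noncomputable def nu (e₁ e₂ : R[X][X]) : R[X] :=
  (NT Φ e₁ e₂ S G D.hh (derivative D.Z)).eval D.Z

/-- the numerator is congruent to the expected one -/
lemma nu_dvd (e₁ e₂ : R[X][X]) : D.F ∣ D.nu e₁ e₂ -
    (D.H e₁ e₂ * (S * G) ^ 2 - (D.H e₁ e₂) ^ 2) * derivative D.F := by
  obtain ⟨P, hP⟩ : ∃ P, P = (HT e₁ e₂ S D.hh (derivative D.Z) * C ((S * G) ^ 2) -
    HT e₁ e₂ S D.hh (derivative D.Z) ^ 2) * (derivative Φ * C (derivative D.Z) + dX Φ) := ⟨_, rfl⟩
  have h1 : P %ₘ Φ = P - Φ * (P /ₘ Φ) := by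
    have := modByMonic_add_div P Φ
    linear_combination this
  have h2 : D.nu e₁ e₂ = P.eval D.Z - D.F * (P /ₘ Φ).eval D.Z := by
    unfold nu NT
    rw [← hP, h1, eval_sub, eval_mul]
    rfl
  have h3 : P.eval D.Z = (D.H e₁ e₂ * (S * G) ^ 2 - (D.H e₁ e₂) ^ 2) * derivative D.F := by
    have e4 := derivative_eval Φ D.Z
    unfold F H
    rw [e4, hP]
    simp only [eval_mul, eval_sub, eval_add, eval_pow, eval_C]
    ring
  rw [h2, h3]
  exact ⟨-(P /ₘ Φ).eval D.Z, by ring⟩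

variable (D₁ D₂ : SdE red Φ S G mt N)

lemma F_dif {w : R[X]} (hw : D₂.Z = D₁.Z + w ^ 2) : ∃ q, D₂.F = D₁.F + w ^ 2 * q := by
  have h := sub_dvd_eval_sub D₂.Z D₁.Z Φ
  obtain ⟨q, hq⟩ := h
  refine ⟨q, ?_⟩
  unfold F
  rw [hw] at hq ⊢
  linear_combination hq

/-- the products of `mt` over the roots agree -/
lemma prodmt [IsDomain R] (hmt : mt.Monic) {w : R[X]} (hw : D₂.Z = D₁.Z + w ^ 2)
    (hmw : mt ∣ w) (hN : mt.natDegree ≤ N) :
    ∏ j, mt.eval (D₁.v j) = ∏ j, mt.eval (D₂.v j) := by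
  obtain ⟨q, hq⟩ := hmw
  obtain ⟨q₀, hq₀⟩ := F_dif D₁ D₂ hw
  have h1 : D₂.Fo = D₁.Fo + mt * (q ^ 2 * q₀) := by
    apply mul_left_cancel₀ hmt.ne_zero
    rw [D₁.F_eq, D₂.F_eq, hq] at hq₀
    linear_combination hq₀
  obtain ⟨p, hp⟩ : ∃ p, p = q ^ 2 * q₀ := ⟨_, rfl⟩
  rw [← hp] at h1
  have hd : p.natDegree + mt.natDegree ≤ N := by
    by_cases hp0 : p = 0
    · rw [hp0, natDegree_zero, zero_add]
      exact hN
    · have h2 : mt * p = D₂.Fo - D₁.Fo := by rw [h1]; ring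
      have h3 : (mt * p).natDegree ≤ N := by
        rw [h2]
        exact Q.ds D₂.Fo_deg.le D₁.Fo_deg.le
      rw [hmt.natDegree_mul' hp0] at h3
      omega
  have h3 := Pool.Agent.H524.resultant_compare le_rfl h1 le_rfl hd D₁.Fo_deg.le
  rw [Nat.sub_self, pow_zero, mul_one, mul_comm mt.natDegree N, ← two_mul, pow_mul, neg_one_sq,
    one_pow, one_mul, D₁.hv, D₂.hv, Pool.Agent.H524.resultant_prod_linear _ _ _ le_rfl,
    Pool.Agent.H524.resultant_prod_linear _ _ _ le_rfl] at h3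
  exact h3.symm

end SdE

end Pool.Agent.H140.E
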