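import Mathlib
import Pool.Agent.H140.E.Side
import Pool.Agent.H140.Q.KeyR

/-!
# The residue theorem for `z - z ^ 2` and the comparison of the two sides
-/

set_option autoImplicit false

namespace Pool.Agent.H140.E

open Polynomial
open Pool.Agent.H985.Chow
open Pool.Agent.H524 (vdm)
open Pool.Agent.H140.Q.Local (HH)
open Pool.Agent.H140.Q (der_w dm da ds dd dC d2 d4 eight)

namespace SdE

variable {R : Type} [CommRing R] [IsDomain R] {k : Type} [Field k] {red : R →+* k}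
    {Φ e₁ e₂ q₁ q₂ bb : R[X][X]} {S G mt : R[X]} {N : ℕ}

lemma rtSide (D : SdE red Φ S G mt N) (hN : 1 ≤ N)
    (hun : ∀ x, red x ≠ 0 → IsUnit x)
    {S₁ : R[X]} {s₀ : R} (hS : S = C s₀ * S₁) {m : ℕ}
    {χ : R} {E : R[X]} {r : Fin m → R}
    (hGE : G = C χ * (E * ∏ i, (X - C (r i))))
    (hFr : ∀ i, red (D.F.eval (r i)) ≠ 0) (e₁ e₂ : R[X][X])
    {z : Fin N → R}
    (hz : ∀ j, (S.eval (D.v j) * G.eval (D.v j)) ^ 2 * z j = (D.H e₁ e₂).eval (D.v j))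
    {Pr : Fin m → R → Prop}
    (hl : ∀ i, ∃ (c : R[X]) (l : R), c.natDegree < 4 ∧ c.coeff 3 = (s₀ * χ) ^ 4 * (2 * l) ∧
      (X - C (r i)) ^ 4 ∣ c * (S₁ * (E * ∏ j ∈ Finset.univ.erase i, (X - C (r j)))) ^ 4 * D.F -
        D.nu e₁ e₂ ∧ Pr i l) :
    ∃ (P : R[X]) (c : Fin m → R[X]) (l : Fin m → R),
      D.Fo ∣ D.nu e₁ e₂ * mt ^ 3 - P * (S₁ * (E * mt) * ∏ i, (X - C (r i))) ^ 4 ∧
      lc D.Fo P = (s₀ * χ) ^ 4 * ∑ j, (z j - z j ^ 2) ∧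
      (∀ i, (c i).natDegree < 4) ∧
      (∀ i, (X - C (r i)) ^ 4 ∣
        c i * (S₁ * (E * mt) * ∏ j ∈ Finset.univ.erase i, (X - C (r j))) ^ 4 * D.Fo -
          D.nu e₁ e₂ * mt ^ 3) ∧
      (∀ i, (c i).coeff 3 = (s₀ * χ) ^ 4 * (2 * l i)) ∧
      (∀ i, Pr i (l i)) ∧
      IsCoprime (S₁ * (E * mt)) D.Fo ∧ (∀ i, IsUnit (D.Fo.eval (r i))) := by
  classical
  have hSe : ∀ x, S.eval x = s₀ * S₁.eval x := by
    intro x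
    rw [hS, eval_mul, eval_C]
  have hFor : ∀ i, IsUnit (D.Fo.eval (r i)) := by
    intro i
    apply hun
    have h1 := hFr i
    rw [D.F_eq, eval_mul, map_mul] at h1
    exact right_ne_zero_of_mul h1
  have hEv : ∀ j, red (E.eval (D.v j)) ≠ 0 := by
    have h1 : ∀ x, red (G.eval x) ≠ 0 → red (E.eval x) ≠ 0 := by
      intro x hx h0
      apply hx
      rw [hGE, eval_mul, eval_mul, map_mul, map_mul, h0]
      ring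
    exact fun j => h1 _ (D.hG j)
  have hS₁v : ∀ j, red (S₁.eval (D.v j)) ≠ 0 := by
    intro j
    have h1 := D.hS j
    rw [hSe, map_mul] at h1
    exact right_ne_zero_of_mul h1
  -- the polynomial `Q`
  obtain ⟨Q, ⟨q, hq⟩, hQ2⟩ := D.exists_P hun ((S * G) ^ 4)
    (D.H e₁ e₂ * (S * G) ^ 2 - (D.H e₁ e₂) ^ 2)
    (by
      intro j
      rw [eval_pow, eval_mul, map_pow, map_mul]
      exact pow_ne_zero _ (mul_ne_zero (D.hS j) (D.hG j)))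
    (y := fun j => z j - z j ^ 2) (by
      intro j
      simp only [eval_sub, eval_mul, eval_pow, ← hz j]
      ring)
  obtain ⟨q', hq'⟩ := D.nu_dvd e₁ e₂
  choose c l hc1 hc3 hc2 hc4 using hl
  refine ⟨C ((s₀ * χ) ^ 4) * Q * derivative D.Fo, c, l, ?_, ?_, hc1, ?_, hc3, hc4, ?_, hFor⟩
  · refine ⟨(D.H e₁ e₂ * (S * G) ^ 2 - (D.H e₁ e₂) ^ 2) * (derivative mt * mt ^ 3) -
      q * derivative D.Fo * mt ^ 4 + mt ^ 4 * q', ?_⟩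
    have e1 : C ((s₀ * χ) ^ 4) * (S₁ * (E * mt) * ∏ i, (X - C (r i))) ^ 4 =
        (S * G) ^ 4 * mt ^ 4 := by
      have e2 : S * G = C s₀ * S₁ * (C χ * (E * ∏ i, (X - C (r i)))) := by
        rw [← hS, ← hGE]
      rw [e2, C_pow, C_mul]
      ring
    have e3 := D.dF
    have e4 := D.F_eq
    rw [e3, e4] at hq'
    linear_combination (- derivative D.Fo * mt ^ 4) * hq - (Q * derivative D.Fo) * e1 +
      mt ^ 3 * hq'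
  · have h1 := Pool.Agent.H140.Q.Alg.sum_eval hN D.v (C ((s₀ * χ) ^ 4) * Q)
    rw [← D.hv] at h1
    rw [h1, Finset.mul_sum]
    refine Finset.sum_congr rfl fun j _ => ?_
    rw [eval_mul, eval_C, hQ2 j]
  · intro i
    have e1 : c i * (S₁ * (E * mt) * ∏ j ∈ Finset.univ.erase i, (X - C (r j))) ^ 4 * D.Fo -
          D.nu e₁ e₂ * mt ^ 3 = (c i * (S₁ * (E * ∏ j ∈ Finset.univ.erase i, (X - C (r j)))) ^ 4 *
            D.F - D.nu e₁ e₂) * mt ^ 3 := by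
      rw [D.F_eq]
      ring
    rw [e1]
    exact Dvd.dvd.mul_right (hc2 i) _
  · refine D.coprime_of hun _ fun j => ?_
    rw [eval_mul, eval_mul, map_mul, map_mul]
    exact mul_ne_zero (hS₁v j) (mul_ne_zero (hEv j) (D.hmt j))

variable (D₁ D₂ : SdE red Φ S G mt N)

theorem cmpZ (hun : ∀ x, red x ≠ 0 → IsUnit x)
    {S₁ : R[X]} {s₀ : R} (hS : S = C s₀ * S₁) (hs₀ : red s₀ ≠ 0) (hS₁ : S₁.Monic)
    (hmt : mt.Monic) {m : ℕ}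
    {χ : R} (hχ : red χ ≠ 0) {E : R[X]} {r : Fin m → R} (hEm : E.Monic)
    (hGE : G = C χ * (E * ∏ i, (X - C (r i)))) (hr : ∀ i j, i ≠ j → red (r i) ≠ red (r j))
    (hE : ∀ i, red (E.eval (r i)) ≠ 0) (hS₁r : ∀ i, red (S₁.eval (r i)) ≠ 0)
    (hmtr : ∀ i, red (mt.eval (r i)) ≠ 0) (hF₁r : ∀ i, red (D₁.F.eval (r i)) ≠ 0)
    (hF₂r : ∀ i, red (D₂.F.eval (r i)) ≠ 0)
    {w : R[X]} (hEw : (S₁ * (E * mt)) ^ 5 ∣ w) {n δ d C₀ : ℕ}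
    (hN : N + mt.natDegree = d * n) (hN1 : 1 ≤ N)
    (hcd : (D₁.nu e₁ e₂ * D₂.F - D₂.nu e₁ e₂ * D₁.F).natDegree ≤ (2 * d + 1) * n + 2 * δ + C₀)
    (hcw : w ∣ D₁.nu e₁ e₂ * D₂.F - D₂.nu e₁ e₂ * D₁.F)
    (h1 : n + 2 * δ + C₀ + 2 ≤ 4 * (E.natDegree + m))
    {z₁ z₂ : Fin N → R}
    (hz₁ : ∀ j, (S.eval (D₁.v j) * G.eval (D₁.v j)) ^ 2 * z₁ j = (D₁.H e₁ e₂).eval (D₁.v j))
    (hz₂ : ∀ j, (S.eval (D₂.v j) * G.eval (D₂.v j)) ^ 2 * z₂ j = (D₂.H e₁ e₂).eval (D₂.v j))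
    {Pr₁ Pr₂ : Fin m → R → Prop}
    (hl₁ : ∀ i, ∃ (c : R[X]) (l : R), c.natDegree < 4 ∧ c.coeff 3 = (s₀ * χ) ^ 4 * (2 * l) ∧
      (X - C (r i)) ^ 4 ∣ c * (S₁ * (E * ∏ j ∈ Finset.univ.erase i, (X - C (r j)))) ^ 4 * D₁.F -
        D₁.nu e₁ e₂ ∧ Pr₁ i l)
    (hl₂ : ∀ i, ∃ (c : R[X]) (l : R), c.natDegree < 4 ∧ c.coeff 3 = (s₀ * χ) ^ 4 * (2 * l) ∧
      (X - C (r i)) ^ 4 ∣ c * (S₁ * (E * ∏ j ∈ Finset.univ.erase i, (X - C (r j)))) ^ 4 * D₂.F -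
        D₂.nu e₁ e₂ ∧ Pr₂ i l) :
    ∃ l₁ l₂ : Fin m → R, (∀ i, Pr₁ i (l₁ i)) ∧ (∀ i, Pr₂ i (l₂ i)) ∧
      ∑ j, (z₁ j - z₁ j ^ 2) + 2 * ∑ i, (l₁ i - l₂ i) = ∑ j, (z₂ j - z₂ j ^ 2) := by
  classical
  obtain ⟨P₁, c₁, l₁, a1, a2, a3, a4, a5, a6, a7, a8⟩ :=
    rtSide D₁ hN1 hun hS hGE hF₁r e₁ e₂ hz₁ hl₁
  obtain ⟨P₂, c₂, l₂, b1, b2, b3, b4, b5, b6, b7, b8⟩ :=
    rtSide D₂ hN1 hun hS hGE hF₂r e₁ e₂ hz₂ hl₂
  have hpm : (∏ i, (X - C (r i))).Monic := monic_prod_of_monic _ _ fun i _ => monic_X_sub_C _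
  have hpd : (∏ i, (X - C (r i))).natDegree = m := by
    rw [natDegree_prod_of_monic _ _ fun i _ => monic_X_sub_C _]
    simp
  have hSEm : (S₁ * (E * mt)).Monic := hS₁.mul (hEm.mul hmt)
  have hSEd : (S₁ * (E * mt)).natDegree = S₁.natDegree + (E.natDegree + mt.natDegree) := by
    rw [hS₁.natDegree_mul (hEm.mul hmt), hEm.natDegree_mul hmt]
  have hdeg : ((S₁ * (E * mt) * ∏ i, (X - C (r i))) ^ 4 * D₁.Fo * D₂.Fo).natDegree =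
      4 * (S₁.natDegree + (E.natDegree + mt.natDegree) + m) + N + N := by
    have hB := hSEm.mul hpm
    rw [((hB.pow 4).mul D₁.Fo_monic).natDegree_mul D₂.Fo_monic,
      (hB.pow 4).natDegree_mul D₁.Fo_monic, hB.natDegree_pow, hSEm.natDegree_mul hpm, hSEd,
      hpd, D₁.Fo_deg, D₂.Fo_deg]
  have hcr : D₁.nu e₁ e₂ * mt ^ 3 * D₂.Fo - D₂.nu e₁ e₂ * mt ^ 3 * D₁.Fo =
      mt ^ 2 * (D₁.nu e₁ e₂ * D₂.F - D₂.nu e₁ e₂ * D₁.F) := by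
    rw [D₁.F_eq, D₂.F_eq]
    ring
  have key := rt R 4 (by norm_num) (Fin m) r (S₁ * (E * mt)) D₁.Fo D₂.Fo
    (D₁.nu e₁ e₂ * mt ^ 3) (D₂.nu e₁ e₂ * mt ^ 3) P₁ P₂ c₁ c₂ hSEm
    D₁.Fo_monic D₂.Fo_monic
    (fun i j hij => hun _ (by rw [map_sub]; exact sub_ne_zero.2 (hr i j hij)))
    (fun i => hun _ (by
      rw [eval_mul, eval_mul, map_mul, map_mul]
      exact mul_ne_zero (hS₁r i) (mul_ne_zero (hE i) (hmtr i))))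
    a7 b7 a8 b8 (by rw [D₁.Fo_deg]; omega) (by rw [D₂.Fo_deg]; omega)
    a1 b1 (by
      rw [hcr]
      exact Dvd.dvd.mul_left (((pow_dvd_pow _ (by norm_num : 4 ≤ 5)).trans hEw).trans hcw) _)
    (by
      rw [hdeg, hcr]
      have h4 := natDegree_mul_le (p := mt ^ 2) (q := D₁.nu e₁ e₂ * D₂.F - D₂.nu e₁ e₂ * D₁.F)
      have h5 : (mt ^ 2).natDegree = 2 * mt.natDegree := hmt.natDegree_pow 2
      have h6 : (2 * d + 1) * n = 2 * (d * n) + n := by ring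
      omega) a3 b3 a4 b4
  refine ⟨l₁, l₂, a6, b6, ?_⟩
  rw [a2, b2] at key
  have e1 : ∑ i, ((c₁ i).coeff (4 - 1) - (c₂ i).coeff (4 - 1)) =
      (s₀ * χ) ^ 4 * (2 * ∑ i, (l₁ i - l₂ i)) := by
    rw [Finset.mul_sum, Finset.mul_sum]
    refine Finset.sum_congr rfl fun i _ => ?_
    rw [show 4 - 1 = 3 from rfl, a5 i, b5 i]
    ring
  rw [e1] at key
  have hu : IsUnit ((s₀ * χ) ^ 4) := by
    apply hun
    rw [map_pow, map_mul]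
    exact pow_ne_zero _ (mul_ne_zero hs₀ hχ)
  apply hu.mul_left_cancel
  linear_combination key

theorem keyR [CharP k 2] (hun : ∀ x, red x ≠ 0 → IsUnit x)
    (hker : ∀ x, red x = 0 → ∃ y, x = 2 * y)
    (h20 : (2 : R) ≠ 0) (hB : BaseE Φ e₁ e₂ q₁ q₂ bb S)
    {S₁ : R[X]} {s₀ : R} (hS : S = C s₀ * S₁) (hs₀ : red s₀ ≠ 0) (hS₁ : S₁.Monic)
    (hmt : mt.Monic) {m : ℕ}
    {χ : R} (hχ : red χ ≠ 0) {E : R[X]} {r : Fin m → R} (hEm : E.Monic)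
    (hGE : G = C χ * (E * ∏ i, (X - C (r i)))) (hr : ∀ i j, i ≠ j → red (r i) ≠ red (r j))
    (hE : ∀ i, red (E.eval (r i)) ≠ 0) (hS₁r : ∀ i, red (S₁.eval (r i)) ≠ 0)
    (hmtr : ∀ i, red (mt.eval (r i)) ≠ 0) (hF₁r : ∀ i, red (D₁.F.eval (r i)) ≠ 0)
    (hF₂r : ∀ i, red (D₂.F.eval (r i)) ≠ 0)
    {w : R[X]} (hw : D₂.Z = D₁.Z + w ^ 2) (hEw : (S₁ * (E * mt)) ^ 5 ∣ w) {n δ d C₀ : ℕ}
    (hN : N + mt.natDegree = d * n) (hN1 : 1 ≤ N) (hμ : mt.natDegree ≤ N)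
    (hcd : (D₁.nu e₁ e₂ * D₂.F - D₂.nu e₁ e₂ * D₁.F).natDegree ≤ (2 * d + 1) * n + 2 * δ + C₀)
    (hcw : w ∣ D₁.nu e₁ e₂ * D₂.F - D₂.nu e₁ e₂ * D₁.F)
    (h1 : n + 2 * δ + C₀ + 2 ≤ 4 * (E.natDegree + m))
    {Pr₁ Pr₂ : Fin m → R → Prop}
    (hl₁ : ∀ i, ∃ (c : R[X]) (l : R), c.natDegree < 4 ∧ c.coeff 3 = (s₀ * χ) ^ 4 * (2 * l) ∧
      (X - C (r i)) ^ 4 ∣ c * (S₁ * (E * ∏ j ∈ Finset.univ.erase i, (X - C (r j)))) ^ 4 * D₁.F -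
        D₁.nu e₁ e₂ ∧ Pr₁ i l)
    (hl₂ : ∀ i, ∃ (c : R[X]) (l : R), c.natDegree < 4 ∧ c.coeff 3 = (s₀ * χ) ^ 4 * (2 * l) ∧
      (X - C (r i)) ^ 4 ∣ c * (S₁ * (E * ∏ j ∈ Finset.univ.erase i, (X - C (r j)))) ^ 4 * D₂.F -
        D₂.nu e₁ e₂ ∧ Pr₂ i l)
    (hv₂ : red (vdm D₂.v) ≠ 0) (hbb₂ : ∀ j, red ((bb.eval D₂.Z).eval (D₂.v j)) ≠ 0) :
    ∃ (l₁ l₂ : Fin m → R) (N₁ N₂ q : R), (∀ i, Pr₁ i (l₁ i)) ∧
      (∀ i, Pr₂ i (l₂ i)) ∧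
      ((vdm D₁.v * ∏ j, (bb.eval D₁.Z).eval (D₁.v j)) *
          ∏ j, (S.eval (D₂.v j) * G.eval (D₂.v j))) ^ 2 * N₂ =
        ((vdm D₂.v * ∏ j, (bb.eval D₂.Z).eval (D₂.v j)) *
          ∏ j, (S.eval (D₁.v j) * G.eval (D₁.v j))) ^ 2 * N₁ ∧ red N₂ = 1 ∧
      N₁ - N₂ - 4 * (-(∑ i, (l₁ i - l₂ i))) = 8 * q := by
  have htwo : (2 : k) = 0 := CharTwo.two_eq_zero
  obtain ⟨z₁, hz₁⟩ := D₁.exists_z hun e₁ e₂
  obtain ⟨z₂, hz₂⟩ := D₂.exists_z hun e₁ e₂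
  obtain ⟨l₁, l₂, L1, L2, hL⟩ := cmpZ D₁ D₂ hun hS hs₀ hS₁ hmt hχ hEm hGE hr hE hS₁r hmtr hF₁r
    hF₂r hEw hN hN1 hcd hcw h1 hz₁ hz₂ hl₁ hl₂
  have hd₁ := D₁.disc hB hz₁
  have hd₂ := D₂.disc hB hz₂
  have hmw : mt ∣ w := by
    refine (Dvd.dvd.trans ?_ hEw)
    refine Dvd.dvd.trans ?_ (dvd_pow_self _ (by norm_num))
    exact ⟨S₁ * E, by ring⟩
  have ht := prodmt D₁ D₂ hmt hw hmw hμ
  obtain ⟨ε₁, t₁, he₁, hp₁⟩ := Q.Alg.prod12 Finset.univ z₁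
  obtain ⟨ε₂, t₂, he₂, hp₂⟩ := Q.Alg.prod12 Finset.univ z₂
  have hsg : ((-1 : R) ^ (N * (N - 1) / 2)) * (-1) ^ (N * (N - 1) / 2) = 1 := by
    rw [← mul_pow]
    norm_num
  have hT : ∀ D : SdE red Φ S G mt N, red (∏ j, (S.eval (D.v j) * G.eval (D.v j))) ≠ 0 := by
    intro D
    rw [map_prod, Finset.prod_ne_zero_iff]
    intro j _
    rw [map_mul]
    exact mul_ne_zero (D.hS j) (D.hG j)
  have hBu : IsUnit (∏ j, mt.eval (D₁.v j)) := by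
    apply hun
    rw [map_prod]
    exact Finset.prod_ne_zero_iff.2 fun j _ => D₁.hmt j
  have hV₂ : red (vdm D₂.v * ∏ j, (bb.eval D₂.Z).eval (D₂.v j)) ≠ 0 := by
    rw [map_mul, map_prod]
    exact mul_ne_zero hv₂ (Finset.prod_ne_zero_iff.2 fun j _ => hbb₂ j)
  obtain ⟨N₁, q, hq1, hq2⟩ := eight red hker h20 hsg hBu
    (hun _ (by rw [map_mul]; exact mul_ne_zero hV₂ (hT D₁))) hd₁ hd₂ (t := 0)
    (by rw [mul_zero, add_zero]; exact ht) he₁ he₂ hp₁ hp₂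
    (L := ∑ i, (l₁ i - l₂ i)) (by
      rw [← Finset.sum_sub_distrib, ← Finset.sum_sub_distrib]
      exact hL)
  refine ⟨l₁, l₂, N₁, ∏ j, (1 + 2 * z₂ j), q, L1, L2, hq1, ?_, hq2⟩
  rw [map_prod]
  apply Finset.prod_eq_one
  intro j _
  rw [map_add, map_mul, map_ofNat, htwo, zero_mul, add_zero, map_one]

end SdE

end Pool.Agent.H140.E
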