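import Mathlib
import Pool.Agent.H140.E.CmpZ
import Pool.Agent.H140.Q.KeyW

/-!
# One side over the Witt vectors, and the base data
-/

set_option autoImplicit false

namespace Pool.Agent.H140.E

open Polynomial
open Pool.Agent.H985.Chow
open Pool.Agent.H140.Q (exists_half emap)
open Pool.Agent.H524 (red emb frobLift AC vdm two_dvd_iff isUnit_iff_red two_ne_zero_witt
  red_frobLift frobLift_emb red_emb)

section general

lemma dX_map {R R' : Type} [CommRing R] [CommRing R'] (φ : R →+* R') (p : R[X][X]) :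
    dX (p.map (mapRingHom φ)) = (dX p).map (mapRingHom φ) := by
  ext i : 1
  rw [coeff_dX, coeff_map, coeff_map, coeff_dX, coe_mapRingHom, derivative_map]

lemma map_eval2 {R R' : Type} [CommRing R] [CommRing R'] (φ : R →+* R') (p : R[X][X]) (Z : R[X]) :
    (p.eval Z).map φ = (p.map (mapRingHom φ)).eval (Z.map φ) := by
  have h := eval_map_apply (f := mapRingHom φ) (p := p) (x := Z)
  rw [coe_mapRingHom] at h
  exact h.symm

variable {K : Type} [Field K] [CharP K 2]

lemma two0 : (2 : K[X]) = 0 := CharTwo.two_eq_zero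

lemma dX_PhE (cp : K[X][X]) : dX (PhE cp) = 0 := by
  ext i : 1
  rw [coeff_dX, PhE, coeff_map, coeff_zero, frobenius_def, derivative_pow]
  have h : (C ((2 : ℕ) : K) : K[X]) = 0 := by
    rw [Nat.cast_ofNat, CharTwo.two_eq_zero, C_0]
  rw [h, zero_mul, zero_mul]

lemma PhE_monic {cp : K[X][X]} (h : cp.Monic) : (PhE cp).Monic := h.map _

lemma PhE_deg {cp : K[X][X]} (h : cp.Monic) : (PhE cp).natDegree = cp.natDegree :=
  h.natDegree_map _

lemma PhE_mul (p q : K[X][X]) : PhE (p * q) = PhE p * PhE q := Polynomial.map_mul _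

lemma PhE_add (p q : K[X][X]) : PhE (p + q) = PhE p + PhE q := Polynomial.map_add _

lemma PhE_C (a : K[X]) : PhE (C a) = C (a ^ 2) := by
  unfold PhE
  rw [map_C, frobenius_def]

lemma PhE_der (p : K[X][X]) : PhE (derivative p) = derivative (PhE p) := by
  unfold PhE
  rw [derivative_map]

lemma der_der (p : K[X][X]) : derivative (derivative p) = 0 := by
  induction p using Polynomial.induction_on' with
  | add p q hp hq => rw [derivative_add, derivative_add, hp, hq, add_zero]
  | monomial i a =>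
    rw [derivative_monomial, derivative_monomial]
    have h : ((i : K[X]) * ((i - 1 : ℕ) : K[X])) = 0 := by
      have h1 : 2 ∣ i * (i - 1) := by
        have := Nat.even_mul_pred_self i
        exact this.two_dvd
      obtain ⟨j, hj⟩ := h1
      rw [← Nat.cast_mul, hj, Nat.cast_mul, Nat.cast_ofNat, two0, zero_mul]
    rw [mul_assoc, h, mul_zero, monomial_zero_right]

/-- the derivative of `Φ` is a square -/
lemma exists_sqrt (cp : K[X][X]) : ∃ s : K[X][X], derivative (PhE cp) = s ^ 2 := by
  haveI : Fact (Nat.Prime 2) := ⟨Nat.prime_two⟩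
  refine ⟨contract 2 (derivative cp), ?_⟩
  have h1 : expand K[X] 2 (contract 2 (derivative cp)) = derivative cp :=
    expand_contract 2 (der_der cp) two_ne_zero
  have h2 := map_frobenius_expand 2 (contract 2 (derivative cp))
  rw [h1] at h2
  rw [← PhE_der]
  exact h2

/-- the polynomial `bb` over `K` -/
lemma exists_bbK {cp u v : K[X][X]} {N : K[X]} (h : SepE cp u v N) :
    ∃ bk qk : K[X][X], bk ^ 2 * derivative (PhE cp) = C ((N ^ 2) ^ 2) + PhE cp * qk := by
  obtain ⟨s, hs⟩ := exists_sqrt cp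
  refine ⟨PhE v * s, (PhE u) ^ 2 * PhE cp, ?_⟩
  have h1 := congrArg PhE h.2.2.2
  rw [PhE_add, PhE_mul, PhE_mul, PhE_C, PhE_der] at h1
  have h2 : (2 : K[X][X]) = 0 := by
    have : (2 : K[X][X]) = C 2 := (map_ofNat C 2).symm
    rw [this, two0, C_0]
  rw [C_pow]
  rw [mul_pow, ← hs]
  rw [← h1]
  linear_combination (- PhE u * PhE cp * PhE v * derivative (PhE cp) -
    (PhE u) ^ 2 * (PhE cp) ^ 2) * h2

lemma PhE_eval_sq (cp : K[X][X]) (x : K[X]) : (PhE cp).eval (x ^ 2) = (cp.eval x) ^ 2 := by
  have h := eval_map_apply (f := frobenius K[X] 2) (p := cp) (x := x)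
  rw [frobenius_def, frobenius_def] at h
  exact h

lemma der_Phi (cp : K[X][X]) (x y : K[X]) : derivative ((PhE cp).eval (x ^ 2 + X * y ^ 2)) =
    (derivative (PhE cp)).eval (x ^ 2 + X * y ^ 2) * y ^ 2 := by
  rw [derivative_eval, dX_PhE, eval_zero, zero_add, deriv_f]

/-- squarefreeness of `F / m` -/
lemma sqfE {cp u v : K[X][X]} {N x y m g : K[X]} (h : SepE cp u v N)
    (hm : (PhE cp).eval (x ^ 2 + X * y ^ 2) = m * g) (hN : IsCoprime g N) (hy : IsCoprime g y) :
    Squarefree g := by
  haveI : Fact (Nat.Prime 2) := ⟨Nat.prime_two⟩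
  apply Separable.squarefree
  rw [Separable]
  have h1 := congrArg PhE h.2.2.2
  rw [PhE_add, PhE_mul, PhE_mul, PhE_C, PhE_der] at h1
  have h2 := congrArg (eval (x ^ 2 + X * y ^ 2)) h1
  simp only [eval_add, eval_mul, eval_C] at h2
  have h3 : IsCoprime g ((derivative (PhE cp)).eval (x ^ 2 + X * y ^ 2)) := by
    obtain ⟨a, b, hab⟩ := hN.pow_right (n := 2)
    refine ⟨a + b * (PhE u).eval (x ^ 2 + X * y ^ 2) * m,
      b * (PhE v).eval (x ^ 2 + X * y ^ 2), ?_⟩
    rw [hm] at h2
    linear_combination hab + b * h2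
  have h4 : IsCoprime g (derivative ((PhE cp).eval (x ^ 2 + X * y ^ 2))) := by
    rw [der_Phi]
    exact h3.mul_right hy.pow_right
  rw [hm, derivative_mul] at h4
  have h5 : IsCoprime g (m * derivative g + g * derivative m) := by
    have e : m * derivative g + g * derivative m = derivative m * g + m * derivative g := by ring
    rw [e]
    exact h4
  exact (IsCoprime.add_mul_left_right_iff.mp h5).of_mul_right_right

end general

section witt

variable {K : Type} [Field K] [Fintype K] [CharP K 2]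

/-- one side -/
lemma sideWE (Φ : (WittVector 2 K)[X][X]) (S Gt mt Z V Fo : (WittVector 2 K)[X]) {N : ℕ}
    (hm : Φ.eval Z = mt * Fo) (hFm : Fo.Monic)
    (hFd : Fo.natDegree = N)
    (hr : Z.map (red K) = (V.map (red K)) ^ 2 + X * (Gt.map (red K)) ^ 2)
    (hsq : Squarefree (Fo.map (red K)))
    (hcG : IsCoprime (Fo.map (red K)) (Gt.map (red K)))
    (hcS : IsCoprime (Fo.map (red K)) (S.map (red K)))
    (hcm : IsCoprime (Fo.map (red K)) (mt.map (red K))) :
    ∃ (M : (WittVector 2 K)[X])
      (D : SdE (red (AC K)) (Φ.map (mapRingHom (emb K))) (S.map (emb K)) (Gt.map (emb K))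
        (mt.map (emb K)) N),
      D.Z = Z.map (emb K) ∧ D.V = V.map (emb K) ∧ D.M = M.map (emb K) ∧
      frobLift K (vdm D.v) = (((-1) ^ N * mob (Fo.map (red K)) : ℤ) : WittVector 2 (AC K)) *
        vdm D.v ∧
      red (AC K) (vdm D.v) ≠ 0 ∧
      (∀ P : (WittVector 2 K)[X], frobLift K (∏ j, (P.map (emb K)).eval (D.v j)) =
        ∏ j, (P.map (emb K)).eval (D.v j)) ∧
      (∀ P : (WittVector 2 K)[X], IsCoprime (Fo.map (red K)) (P.map (red K)) →
        ∀ j, red (AC K) ((P.map (emb K)).eval (D.v j)) ≠ 0) := by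
  classical
  obtain ⟨v, hv, hvinj, hvperm, hvσ⟩ := sgn K N Fo hFm hFd hsq
  obtain ⟨M, hM⟩ := exists_half (Z - V ^ 2 - X * Gt ^ 2) (by
    rw [Polynomial.map_sub, Polynomial.map_sub, hr, Polynomial.map_pow, Polynomial.map_mul,
      Polynomial.map_pow, map_X]
    ring)
  have hroot : ∀ j, (Fo.map (emb K)).eval (v j) = 0 := by
    intro j
    rw [hv, eval_prod]
    exact Finset.prod_eq_zero (Finset.mem_univ j) (by simp)
  have hne : ∀ P : (WittVector 2 K)[X], IsCoprime (Fo.map (red K)) (P.map (red K)) →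
      ∀ j, red (AC K) ((P.map (emb K)).eval (v j)) ≠ 0 := by
    intro P hP j h0
    have h1 : ((Fo.map (red K)).map (algebraMap K (AC K))).eval (red (AC K) (v j)) = 0 := by
      rw [← red_map_eval, hroot, map_zero]
    rw [red_map_eval] at h0
    exact coprime_eval hP _ h0 h1
  have hZe : Z = V ^ 2 + X * Gt ^ 2 + 2 * M := by linear_combination hM
  let D : SdE (red (AC K)) (Φ.map (mapRingHom (emb K))) (S.map (emb K)) (Gt.map (emb K))
        (mt.map (emb K)) N :=
    { Z := Z.map (emb K)
      V := V.map (emb K)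
      M := M.map (emb K)
      Fo := Fo.map (emb K)
      v := v
      hZ := by
        rw [hZe]
        simp only [Polynomial.map_add, Polynomial.map_mul, Polynomial.map_pow, map_X,
          Polynomial.map_ofNat]
      hm := by rw [← map_eval2, hm, Polynomial.map_mul]
      hv := hv
      hG := hne Gt hcG
      hS := hne S hcS
      hmt := hne mt hcm }
  choose π hπ using hvperm
  have hπinj : Function.Injective π := by
    intro i j hij
    apply hvinj
    apply frobLift_injective_red (K := K)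
    rw [hπ, hπ, hij]
  have hπbij : Function.Bijective π := Finite.injective_iff_bijective.mp hπinj
  refine ⟨M, D, rfl, rfl, rfl, ?_, ?_, ?_, hne⟩
  · show frobLift K (vdm v) = _
    rw [hvσ]
    push_cast
    rfl
  · show red (AC K) (vdm v) ≠ 0
    intro h0
    have h1 := Pool.Agent.H524.map_vdm (red (AC K)) v
    rw [h0] at h1
    rw [Pool.Agent.H524.vdm_eq] at h1
    have h2 := h1.symm
    rw [Finset.prod_eq_zero_iff] at h2
    obtain ⟨i, _, hi⟩ := h2
    rw [Finset.prod_eq_zero_iff] at hi
    obtain ⟨j, hj, hij⟩ := hi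
    rw [sub_eq_zero] at hij
    have := hvinj hij
    rw [Finset.mem_Ioi, this] at hj
    exact lt_irrefl _ hj
  · intro P
    show frobLift K (∏ j, (P.map (emb K)).eval (v j)) = _
    rw [map_prod]
    simp_rw [frob_map_eval, hπ]
    exact Function.Bijective.prod_comp hπbij (fun j => (P.map (emb K)).eval (v j))

/-- lifts of polynomials in two variables -/
noncomputable def tl2 (p : K[X][X]) : (WittVector 2 K)[X][X] :=
  ∑ i ∈ Finset.range (p.natDegree + 1), monomial i (tl (p.coeff i))

omit [Fintype K] [CharP K 2] in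
lemma tl_one' [CharP K 2] : tl (1 : K[X]) = 1 := by
  have h1 : (tl (1 : K[X])).Monic := tl_monic monic_one
  have h2 : (tl (1 : K[X])).natDegree = 0 := by
    rw [natDegree_tl monic_one, natDegree_one]
  exact h1.natDegree_eq_zero.1 h2

omit [Fintype K] in
lemma coeff_tl2 (p : K[X][X]) (i : ℕ) : (tl2 p).coeff i = tl (p.coeff i) := by
  rw [tl2, finsetSum_coeff]
  simp only [coeff_monomial]
  rw [Finset.sum_ite_eq']
  split_ifs with h
  · rfl
  · rw [Finset.mem_range, not_lt] at h
    rw [coeff_eq_zero_of_natDegree_lt (by omega), tl_zero]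

omit [Fintype K] in
lemma map_tl2 (p : K[X][X]) : (tl2 p).map (mapRingHom (red K)) = p := by
  ext i : 1
  rw [coeff_map, coeff_tl2, coe_mapRingHom, map_tl]

omit [Fintype K] in
lemma tl2_deg_le (p : K[X][X]) : (tl2 p).natDegree ≤ p.natDegree := by
  rw [natDegree_le_iff_coeff_eq_zero]
  intro i hi
  rw [coeff_tl2, coeff_eq_zero_of_natDegree_lt hi, tl_zero]

omit [Fintype K] in
lemma tl2_monic {p : K[X][X]} (hp : p.Monic) : (tl2 p).Monic := by
  apply monic_of_natDegree_le_of_coeff_eq_one p.natDegree (tl2_deg_le p)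
  rw [coeff_tl2, hp.coeff_natDegree, tl_one']

omit [Fintype K] in
lemma tl2_BD {p : K[X][X]} {a : ℕ} (h : BD a p) : BD a (tl2 p) := by
  intro i
  rw [coeff_tl2]
  exact (natDegree_tl_le _).trans (h i)

lemma exists_BD {R : Type} [CommRing R] (p : R[X][X]) : ∃ a, BD a p := by
  refine ⟨∑ i ∈ p.support, (p.coeff i).natDegree, fun i => ?_⟩
  by_cases h : i ∈ p.support
  · exact Finset.single_le_sum (f := fun i => (p.coeff i).natDegree) (fun _ _ => Nat.zero_le _) h
  · rw [notMem_support_iff.1 h, natDegree_zero]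
    exact Nat.zero_le _

lemma exists_half2 (P : (WittVector 2 K)[X][X]) (h : P.map (mapRingHom (red K)) = 0) :
    ∃ M : (WittVector 2 K)[X][X], P = 2 * M := by
  have e : (2 : (WittVector 2 K)[X][X]) = C 2 := (map_ofNat C 2).symm
  rw [e]
  have h1 : C (2 : (WittVector 2 K)[X]) ∣ P := by
    rw [C_dvd_iff_dvd_coeff]
    intro i
    have h2 := congrArg (fun p => p.coeff i) h
    simp only [coeff_map, coeff_zero, coe_mapRingHom] at h2
    obtain ⟨M, hM⟩ := exists_half _ h2
    exact ⟨M, hM⟩
  exact h1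

end witt

end Pool.Agent.H140.E
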