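import Mathlib
import Pool.Agent.H140.E.KeyW
import Pool.Agent.H140.E.Cross

/-!
# The base data of the key formula
-/

set_option autoImplicit false

namespace Pool.Agent.H140.E

open Polynomial
open Pool.Agent.H985.Chow
open Pool.Agent.H524 (red emb frobLift AC vdm two_dvd_iff isUnit_iff_red two_ne_zero_witt
  red_frobLift frobLift_emb red_emb)

section general

variable {R R' : Type} [CommRing R] [CommRing R']

lemma BaseE.map (φ : R →+* R') {Φ e₁ e₂ q₁ q₂ bb : R[X][X]} {S : R[X]}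
    (h : BaseE Φ e₁ e₂ q₁ q₂ bb S) : BaseE (Φ.map (mapRingHom φ)) (e₁.map (mapRingHom φ))
      (e₂.map (mapRingHom φ)) (q₁.map (mapRingHom φ)) (q₂.map (mapRingHom φ))
      (bb.map (mapRingHom φ)) (S.map φ) where
  h1 := by
    have h1 := congrArg (Polynomial.map (mapRingHom φ)) h.h1
    simp only [Polynomial.map_add, Polynomial.map_mul, Polynomial.map_pow, map_C,
      Polynomial.map_ofNat, coe_mapRingHom, Polynomial.map_pow] at h1
    rw [derivative_map]
    exact h1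
  h2 := by
    have h1 := congrArg (Polynomial.map (mapRingHom φ)) h.h2
    simp only [Polynomial.map_add, Polynomial.map_mul, Polynomial.map_pow,
      Polynomial.map_ofNat] at h1
    rw [dX_map]
    exact h1

lemma BD_map (φ : R →+* R') {P : R[X][X]} {a : ℕ} (h : BD a P) :
    BD a (P.map (mapRingHom φ)) := by
  intro i
  rw [coeff_map, coe_mapRingHom]
  exact natDegree_map_le.trans (h i)

lemma two_eq_C2 : (2 : R[X][X]) = C (C 2) := by
  have e1 : (2 : R[X]) = C 2 := (map_ofNat C 2).symm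
  have e2 : (2 : R[X][X]) = C 2 := (map_ofNat C 2).symm
  rw [e2, e1]

lemma BD_half [IsDomain R] (h2 : (2 : R) ≠ 0) {P : R[X][X]} {a : ℕ} (h : BD a (2 * P)) :
    BD a P := by
  intro i
  have h1 := h i
  rw [two_eq_C2, coeff_C_mul, natDegree_C_mul h2] at h1
  exact h1

lemma deg_half [IsDomain R] (h2 : (2 : R) ≠ 0) (P : R[X][X]) :
    (2 * P).natDegree = P.natDegree := by
  rw [two_eq_C2, natDegree_C_mul (C_ne_zero.2 h2)]

lemma mod_deg {Φ : R[X][X]} [Nontrivial R] (hΦ : Φ.Monic) (hd : 1 ≤ Φ.natDegree) (P : R[X][X]) :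
    (P %ₘ Φ).natDegree < Φ.natDegree := by
  apply natDegree_modByMonic_lt _ hΦ
  rintro rfl
  rw [natDegree_one] at hd
  omega

end general

section witt

variable {K : Type} [Field K] [Fintype K] [CharP K 2]

/-- the base data -/
lemma exists_base {cp u v : K[X][X]} {N : K[X]} (h : SepE cp u v N)
    (S : (WittVector 2 K)[X]) (hS : S.map (red K) = N ^ 2) (β : ℕ) :
    ∃ (bb : (WittVector 2 K)[X][X]) (β' : ℕ), S.natDegree ≤ β' ∧ β ≤ β' ∧
      ∀ Φ : (WittVector 2 K)[X][X], Φ.Monic → Φ.map (mapRingHom (red K)) = PhE cp → BD β Φ →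
      ∃ e₁ e₂ q₁ q₂ Ψ : (WittVector 2 K)[X][X], BaseE Φ e₁ e₂ q₁ q₂ bb S ∧ dX Φ = 2 * Ψ ∧
        BD β' e₁ ∧ BD β' e₂ ∧ e₁.natDegree < cp.natDegree ∧ e₂.natDegree < cp.natDegree := by
  obtain ⟨bk, qk, hbk⟩ := exists_bbK h
  have h20 := two_ne_zero_witt (E := K)
  obtain ⟨bb, hbb⟩ : ∃ bb, bb = tl2 bk := ⟨_, rfl⟩
  have hbbr : bb.map (mapRingHom (red K)) = bk := hbb ▸ map_tl2 bk
  obtain ⟨βb, hβb⟩ := exists_BD bb
  obtain ⟨t, ht⟩ : ∃ t, t = 2 * bb.natDegree + 1 := ⟨_, rfl⟩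
  refine ⟨bb, 2 * βb + β + 2 * S.natDegree + β * t, by omega, by omega, ?_⟩
  intro Φ hΦ hΦr hΦβ
  have hd : Φ.natDegree = cp.natDegree := by
    have h1 := hΦ.natDegree_map (mapRingHom (red K))
    rw [hΦr, PhE_deg h.1] at h1
    exact h1.symm
  have hd1 : 1 ≤ Φ.natDegree := by
    rw [hd]
    exact h.2.1
  -- `Ψ`
  obtain ⟨Ψ, hΨ⟩ := exists_half2 (dX Φ) (by rw [← dX_map, hΦr, dX_PhE])
  have hΨβ : BD β Ψ := BD_half h20 (by rw [← hΨ]; exact Crossx.bd_dX hΦβ)
  have hΨd : Ψ.natDegree ≤ Φ.natDegree := by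
    rw [← deg_half h20, ← hΨ]
    exact Crossx.natDegree_dX Φ
  have hb2 : BD (2 * βb) (bb ^ 2) := by
    rw [pow_two, two_mul]
    exact Crossx.bd_mul hβb hβb
  have hb2d : (bb ^ 2).natDegree ≤ 2 * bb.natDegree := natDegree_pow_le
  -- `e₁`
  obtain ⟨P₁, hP₁⟩ : ∃ P, P = bb ^ 2 * derivative Φ - C (S ^ 2) := ⟨_, rfl⟩
  have hP₁r : (P₁ %ₘ Φ).map (mapRingHom (red K)) = 0 := by
    rw [Polynomial.map_modByMonic _ hΦ, hΦr, hP₁, Polynomial.map_sub, Polynomial.map_mul,
      Polynomial.map_pow, hbbr, ← derivative_map, hΦr, map_C, coe_mapRingHom,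
      Polynomial.map_pow, hS, hbk]
    rw [add_sub_cancel_left, modByMonic_eq_zero_iff_dvd (PhE_monic h.1)]
    exact Dvd.intro _ rfl
  obtain ⟨e₁, he₁⟩ := exists_half2 _ hP₁r
  have hP₁β : BD (2 * βb + β + 2 * S.natDegree) P₁ := by
    rw [hP₁]
    refine Crossx.bd_sub (Crossx.bd_mono (Crossx.bd_mul hb2 (Crossx.bd_derivative hΦβ))
      (by omega)) (Crossx.bd_C ?_)
    have := natDegree_pow_le (p := S) (n := 2)
    omega
  have hP₁d : P₁.natDegree < cp.natDegree + t := by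
    rw [hP₁]
    refine lt_of_le_of_lt (natDegree_sub_le _ _) ?_
    rw [natDegree_C]
    have h1 := natDegree_mul_le (p := bb ^ 2) (q := derivative Φ)
    have h2 := natDegree_derivative_le Φ
    refine max_lt ?_ (by omega)
    omega
  have he₁β : BD (2 * βb + β + 2 * S.natDegree + β * t) e₁ :=
    BD_half h20 (by
      rw [← he₁]
      exact Crossx.bd_mod hΦ hd h.2.1 hΦβ t _ P₁ hP₁d hP₁β)
  have he₁d : e₁.natDegree < cp.natDegree := by
    rw [← deg_half h20, ← he₁, ← hd]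
    exact mod_deg hΦ hd1 _
  -- `e₂`
  have hP₂β : BD (2 * βb + β) (bb ^ 2 * Ψ) := Crossx.bd_mul hb2 hΨβ
  have hP₂d : (bb ^ 2 * Ψ).natDegree < cp.natDegree + t := by
    have h1 := natDegree_mul_le (p := bb ^ 2) (q := Ψ)
    omega
  have he₂β : BD (2 * βb + β + 2 * S.natDegree + β * t) ((bb ^ 2 * Ψ) %ₘ Φ) :=
    Crossx.bd_mono (Crossx.bd_mod hΦ hd h.2.1 hΦβ t _ _ hP₂d hP₂β) (by omega)
  have he₂d : ((bb ^ 2 * Ψ) %ₘ Φ).natDegree < cp.natDegree := by
    rw [← hd]
    exact mod_deg hΦ hd1 _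
  refine ⟨e₁, (bb ^ 2 * Ψ) %ₘ Φ, P₁ /ₘ Φ, 2 * ((bb ^ 2 * Ψ) /ₘ Φ), Ψ, ⟨?_, ?_⟩, hΨ, he₁β, he₂β,
    he₁d, he₂d⟩
  · have h1 := modByMonic_add_div P₁ Φ
    rw [he₁, hP₁] at h1
    rw [hP₁]
    linear_combination -h1
  · have h1 := modByMonic_add_div (bb ^ 2 * Ψ) Φ
    rw [hΨ]
    linear_combination (-2) * h1

end witt

section loc

variable {K : Type} [Field K] [Fintype K] [CharP K 2]

omit [Fintype K] [CharP K 2] in
lemma evA_apply (ρ : AC K) (p : K[X]) : evA ρ p = (p.map (algebraMap K (AC K))).eval ρ := rfl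

omit [Fintype K] [CharP K 2] in
lemma map_evA (ρ : AC K) (p : K[X][X]) :
    (p.map (mapRingHom (algebraMap K (AC K)))).map (evalRingHom ρ) = p.map (evA ρ) := by
  rw [Polynomial.map_map]
  rfl

/-- Frobenius and the evaluation at `ρ` -/
lemma frob_evA (ρ : AC K) (p : K[X]) :
    (evA ρ p) ^ Fintype.card K = evA (ρ ^ Fintype.card K) p := by
  rw [evA_apply, evA_apply, eval_map_algebraMap, eval_map_algebraMap, ← frob_apply, ← frob_apply,
    Polynomial.aeval_algHom_apply]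

lemma frob_eval2 (ρ α : AC K) (p : K[X][X]) :
    ((p.map (evA ρ)).eval α) ^ Fintype.card K =
      (p.map (evA (ρ ^ Fintype.card K))).eval (α ^ Fintype.card K) := by
  rw [← frob_apply, ← frob_apply, eval_map, eval_map]
  have h := hom_eval₂ p (evA ρ) (FiniteField.frobeniusAlgHom K (AC K)).toRingHom α
  have e : (FiniteField.frobeniusAlgHom K (AC K)).toRingHom.comp (evA ρ) =
      evA (FiniteField.frobeniusAlgHom K (AC K) ρ) := by
    refine RingHom.ext fun a => ?_
    show FiniteField.frobeniusAlgHom K (AC K) (evA ρ a) = _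
    rw [frob_apply, frob_apply, frob_evA]
  rw [e] at h
  exact h

open Classical in
/-- sums over the roots and Frobenius -/
lemma frob_roots (p : K[X][X]) (f : AC K → AC K → AC K)
    (hf : ∀ t α, (f t α) ^ Fintype.card K = f (t ^ Fintype.card K) (α ^ Fintype.card K))
    (hp : ∀ t : AC K, p.map (evA t) ≠ 0) (t : AC K) :
    (∑ α ∈ (p.map (evA t)).roots.toFinset, f t α) ^ Fintype.card K =
      ∑ α ∈ (p.map (evA (t ^ Fintype.card K))).roots.toFinset, f (t ^ Fintype.card K) α := by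
  rw [← frob_apply, map_sum]
  have hinj : Function.Injective (fun x : AC K => x ^ Fintype.card K) := by
    intro x y hxy
    have h1 : FiniteField.frobeniusAlgHom K (AC K) x = FiniteField.frobeniusAlgHom K (AC K) y := by
      rw [frob_apply, frob_apply]
      exact hxy
    exact (FiniteField.frobeniusAlgHom K (AC K)).toRingHom.injective h1
  have himg : (p.map (evA (t ^ Fintype.card K))).roots.toFinset =
      (p.map (evA t)).roots.toFinset.image (fun x => x ^ Fintype.card K) := by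
    ext β
    rw [Multiset.mem_toFinset, mem_roots (hp _), Finset.mem_image]
    constructor
    · intro h
      obtain ⟨α, hα⟩ : ∃ α : AC K, α ^ Fintype.card K = β :=
        IsAlgClosed.exists_pow_nat_eq β Fintype.card_pos
      refine ⟨α, ?_, hα⟩
      rw [Multiset.mem_toFinset, mem_roots (hp _)]
      have h1 := frob_eval2 t α p
      rw [hα, h.eq_zero] at h1
      exact pow_eq_zero_iff (Fintype.card_ne_zero) |>.1 h1
    · rintro ⟨α, hα, rfl⟩
      rw [Multiset.mem_toFinset, mem_roots (hp _)] at hα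
      show _ = _
      rw [← frob_eval2, hα.eq_zero, zero_pow Fintype.card_ne_zero]
  rw [himg, Finset.sum_image (fun x _ y _ hxy => hinj hxy)]
  refine Finset.sum_congr rfl fun α _ => ?_
  rw [frob_apply, hf]

end loc

end Pool.Agent.H140.E
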