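import Mathlib
import Pool.Agent.H140.E.KeyB
import Pool.Agent.H140.Q.Key

/-!
# The key formula for polynomials of any degree
-/

set_option autoImplicit false

namespace Pool.Agent.H140.E

open Polynomial
open Pool.Agent.H985.Chow
open Pool.Agent.H524 (red emb frobLift AC vdm two_dvd_iff isUnit_iff_red two_ne_zero_witt
  red_frobLift frobLift_emb red_emb)

section aux

variable {R : Type} [CommRing R]

lemma eval_monic [Nontrivial R] {Φ : R[X][X]} {β d n : ℕ} (hΦ : Φ.Monic) (hd : Φ.natDegree = d)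
    (hβ : BD β Φ) {Z : R[X]} (hZ : Z.Monic) (hn : Z.natDegree = n) (hβn : β < n) :
    (Φ.eval Z).Monic ∧ (Φ.eval Z).natDegree = d * n := by
  rw [eval_eq_sum_range, Finset.sum_range_succ, hΦ.coeff_natDegree, one_mul, hd]
  have h1 : (Z ^ d).Monic := hZ.pow d
  have h2 : (Z ^ d).natDegree = d * n := by rw [hZ.natDegree_pow, hn]
  by_cases hd0 : d = 0
  · subst hd0
    simp
  have h3 : (∑ i ∈ Finset.range d, Φ.coeff i * Z ^ i).natDegree < d * n := by
    obtain ⟨d', rfl⟩ : ∃ d', d = d' + 1 := ⟨d - 1, by omega⟩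
    refine lt_of_le_of_lt (natDegree_sum_le_of_forall_le (n := β + d' * n) _ _ fun i hi => ?_) ?_
    · refine natDegree_mul_le.trans (add_le_add (hβ i) ?_)
      rw [hZ.natDegree_pow, hn]
      have : i ≤ d' := Nat.lt_succ_iff.1 (Finset.mem_range.1 hi)
      exact Nat.mul_le_mul_right n this
    · have : (d' + 1) * n = d' * n + n := by ring
      omega
  have h4 : (∑ i ∈ Finset.range d, Φ.coeff i * Z ^ i).degree < (Z ^ d).degree :=
    degree_lt_degree (by omega)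
  refine ⟨h1.add_of_right h4, ?_⟩
  rw [natDegree_add_eq_right_of_natDegree_lt (by omega), h2]

end aux

section sums

variable {K : Type} [Field K] [Fintype K] [CharP K 2]

open Classical in
/-- the sum of the `κ` -/
noncomputable def kaf (cp Ψ Ph : K[X][X]) (x y M : K[X]) (t : AC K) : AC K :=
  ∑ α ∈ (cp.map (evA t)).roots.toFinset, kaE t (evA t x) (evA t (derivative x))
    (evA t (derivative y)) (evA t (derivative M)) α
    (((dX cp).map (evA t)).eval α / (derivative (cp.map (evA t))).eval α)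
    ((Ψ.map (evA t)).eval (α ^ 2) / ((derivative Ph).map (evA t)).eval (α ^ 2))

open Classical in
/-- the sum of the local terms -/
noncomputable def Waf (cp : K[X][X]) (x y : K[X]) (t : AC K) : AC K :=
  ∑ α ∈ (cp.map (evA t)).roots.toFinset, WE t (evA t x) (evA t (derivative x))
    (evA t (derivative y)) α
    (((dX cp).map (evA t)).eval α / (derivative (cp.map (evA t))).eval α)

omit [Fintype K] [CharP K 2] in
lemma Waf_eq (cp : K[X][X]) (x y : K[X]) (t : AC K) : Waf cp x y t =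
    Ws (cp.map (evA t)) ((dX cp).map (evA t)) (evA t (derivative y)) t
      (evA t x) (evA t (derivative x)) := by
  unfold Waf Ws
  refine Finset.sum_congr rfl fun α _ => ?_
  unfold WE Wl
  rfl

lemma frob_der (cp : K[X][X]) (t α : AC K) :
    ((derivative (cp.map (evA t))).eval α) ^ Fintype.card K =
      (derivative (cp.map (evA (t ^ Fintype.card K)))).eval (α ^ Fintype.card K) := by
  rw [derivative_map, derivative_map, frob_eval2]

lemma frob_kaE (ρ x0 x1 y1 m1 α α' ψφ : AC K) :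
    (kaE ρ x0 x1 y1 m1 α α' ψφ) ^ Fintype.card K = kaE (ρ ^ Fintype.card K)
      (x0 ^ Fintype.card K) (x1 ^ Fintype.card K) (y1 ^ Fintype.card K) (m1 ^ Fintype.card K)
      (α ^ Fintype.card K) (α' ^ Fintype.card K) (ψφ ^ Fintype.card K) := by
  simp only [← frob_apply, kaE, map_div₀, map_mul, map_add, map_pow]

lemma frob_WE (ρ x0 x1 y1 α α' : AC K) :
    (WE ρ x0 x1 y1 α α') ^ Fintype.card K = WE (ρ ^ Fintype.card K)
      (x0 ^ Fintype.card K) (x1 ^ Fintype.card K) (y1 ^ Fintype.card K)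
      (α ^ Fintype.card K) (α' ^ Fintype.card K) := by
  simp only [← frob_apply, WE, map_div₀, map_mul, map_add, map_pow]

lemma frob_kaf (cp Ψ Ph : K[X][X]) (x y M : K[X]) (hp : ∀ t : AC K, cp.map (evA t) ≠ 0)
    (t : AC K) :
    (kaf cp Ψ Ph x y M t) ^ Fintype.card K = kaf cp Ψ Ph x y M (t ^ Fintype.card K) := by
  classical
  refine frob_roots cp (fun t α => kaE t (evA t x) (evA t (derivative x))
    (evA t (derivative y)) (evA t (derivative M)) α
    (((dX cp).map (evA t)).eval α / (derivative (cp.map (evA t))).eval α)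
    ((Ψ.map (evA t)).eval (α ^ 2) / ((derivative Ph).map (evA t)).eval (α ^ 2))) ?_ hp t
  intro t α
  have h9 : (α ^ Fintype.card K) ^ 2 = (α ^ 2) ^ Fintype.card K := by
    rw [← pow_mul, ← pow_mul, mul_comm]
  rw [frob_kaE, div_pow, div_pow, frob_evA, frob_evA, frob_evA, frob_evA, frob_eval2, frob_der,
    frob_eval2, frob_eval2, h9]

lemma frob_Waf (cp : K[X][X]) (x y : K[X]) (hp : ∀ t : AC K, cp.map (evA t) ≠ 0)
    (t : AC K) :
    (Waf cp x y t) ^ Fintype.card K = Waf cp x y (t ^ Fintype.card K) := by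
  classical
  refine frob_roots cp (fun t α => WE t (evA t x) (evA t (derivative x))
    (evA t (derivative y)) α
    (((dX cp).map (evA t)).eval α / (derivative (cp.map (evA t))).eval α)) ?_ hp t
  intro t α
  rw [frob_WE, div_pow, frob_evA, frob_evA, frob_evA, frob_eval2, frob_der]

lemma red_emb2 (P : (WittVector 2 K)[X][X]) :
    (P.map (mapRingHom (emb K))).map (mapRingHom (red (AC K))) =
      (P.map (mapRingHom (red K))).map (mapRingHom (algebraMap K (AC K))) := by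
  ext i : 1
  rw [coeff_map, coeff_map, coeff_map, coeff_map, coe_mapRingHom, coe_mapRingHom, coe_mapRingHom,
    coe_mapRingHom, red_map_map]

lemma red_eval (P : (WittVector 2 K)[X]) (x : WittVector 2 (AC K)) :
    red (AC K) ((P.map (emb K)).eval x) = evA (red (AC K) x) (P.map (red K)) :=
  red_map_eval P x

lemma PhE_alg (cp : K[X][X]) : (PhE cp).map (mapRingHom (algebraMap K (AC K))) =
    (cp.map (mapRingHom (algebraMap K (AC K)))).map (frobenius (AC K)[X] 2) := by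
  ext i : 1
  rw [PhE, coeff_map, coeff_map, coeff_map, coeff_map, frobenius_def, frobenius_def, map_pow]

open Classical in
/-- the local statement at a node -/
lemma node (hlocr : S_locr) {cp : K[X][X]} (hcp : cp.Monic)
    {Φ Ψ e₁ e₂ q₁ q₂ bb : (WittVector 2 K)[X][X]} {S S₁ G mt V M : (WittVector 2 K)[X]}
    {s₀ : WittVector 2 K} {N : ℕ}
    (hΦ : Φ.Monic) (hΦr : Φ.map (mapRingHom (red K)) = PhE cp) (hΨ : dX Φ = 2 * Ψ)
    (hB : BaseE Φ e₁ e₂ q₁ q₂ bb S) (hS : S = C s₀ * S₁)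
    (D : SdE (red (AC K)) (Φ.map (mapRingHom (emb K))) (S.map (emb K)) (G.map (emb K))
        (mt.map (emb K)) N) (hDV : D.V = V.map (emb K)) (hDM : D.M = M.map (emb K))
    {r χ : WittVector 2 (AC K)} {B : (WittVector 2 (AC K))[X]}
    (hG : G.map (emb K) = C χ * (B * (X - C r))) (hχ : red (AC K) χ ≠ 0)
    (hs₀ : red (AC K) (emb K s₀) ≠ 0)
    (hS₁ : red (AC K) ((S₁.map (emb K)).eval r) ≠ 0) (hBr : red (AC K) (B.eval r) ≠ 0)
    (hF : red (AC K) (D.F.eval r) ≠ 0)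
    (hsepr : (cp.map (evA (red (AC K) r))).Separable) :
    ∃ (c : (WittVector 2 (AC K))[X]) (l : WittVector 2 (AC K)), c.natDegree < 4 ∧
      c.coeff 3 = (emb K s₀ * χ) ^ 4 * (2 * l) ∧
      (X - C r) ^ 4 ∣ c * (S₁.map (emb K) * B) ^ 4 * D.F -
        D.nu (e₁.map (mapRingHom (emb K))) (e₂.map (mapRingHom (emb K))) ∧
        red (AC K) l = kaf cp (Ψ.map (mapRingHom (red K))) (PhE cp) (V.map (red K))
          (G.map (red K)) (M.map (red K)) (red (AC K) r) +
          (kaf cp (Ψ.map (mapRingHom (red K))) (PhE cp) (V.map (red K))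
          (G.map (red K)) (M.map (red K)) (red (AC K) r)) ^ 2 +
          Waf cp (V.map (red K)) (G.map (red K)) (red (AC K) r) := by
  have hB' := hB.map (emb K)
  have hS' : S.map (emb K) = C (emb K s₀) * S₁.map (emb K) := by
    rw [hS, Polynomial.map_mul, map_C]
  have hderG : red (AC K) ((derivative (G.map (emb K))).eval r) ≠ 0 := by
    rw [hG, derivative_C_mul, derivative_mul, derivative_X_sub_C]
    simp only [eval_mul, eval_C, eval_add, eval_sub, eval_X, sub_self, mul_zero, mul_one,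
      zero_add]
    rw [map_mul]
    exact mul_ne_zero hχ hBr
  obtain ⟨c, l, h1, h2, h3, h4⟩ := hlocr (WittVector 2 (AC K)) (AC K) (red (AC K))
    (fun x hx => isUnit_iff_red x hx)
    (fun x hx => by
      obtain ⟨t, ht⟩ := (two_dvd_iff x).2 hx
      exact ⟨t, ht⟩)
    (two_ne_zero_witt (E := AC K))
    (fun x => ⟨WittVector.teichmuller 2 x, WittVector.teichmuller_coeff_zero 2 x⟩)
    (fun P a₀ hP ha hd => by
      have hH : HenselianRing (WittVector 2 (AC K))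
        (Ideal.span {((2 : ℕ) : WittVector 2 (AC K))}) := inferInstance
      obtain ⟨a, ha1, ha2⟩ := hH.is_henselian P hP a₀
        ((WittVector.mem_span_p_iff_coeff_zero_eq_zero (p := 2) _).mpr ha)
        ((isUnit_iff_red _ hd).map _)
      refine ⟨a, ha1, ?_⟩
      have h3 : red (AC K) (a - a₀) = 0 :=
        (WittVector.mem_span_p_iff_coeff_zero_eq_zero (p := 2) _).mp ha2
      rw [map_sub, sub_eq_zero] at h3
      exact h3)
    (Φ.map (mapRingHom (emb K))) (Ψ.map (mapRingHom (emb K))) (e₁.map (mapRingHom (emb K)))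
    (e₂.map (mapRingHom (emb K))) (q₁.map (mapRingHom (emb K))) (q₂.map (mapRingHom (emb K)))
    (bb.map (mapRingHom (emb K))) (cp.map (mapRingHom (algebraMap K (AC K))))
    (S₁.map (emb K)) D.V (G.map (emb K)) D.M D.Z B r (emb K s₀) χ (hΦ.map _)
    (by rw [dX_map, hΨ, Polynomial.map_mul, Polynomial.map_ofNat])
    (by rw [red_emb2, hΦr, PhE_alg]) (hcp.map _)
    (by rw [← hS']; exact hB'.h1) hB'.h2
    (by rw [map_evA]; exact hsepr) D.hZ hG hχ hs₀ hS₁ hBr hF hderG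
  refine ⟨c, l, h1, h2, ?_, ?_⟩
  · rw [← hS'] at h3
    exact h3
  · have hk : kaf cp (Ψ.map (mapRingHom (red K))) (PhE cp) (V.map (red K)) (G.map (red K))
            (M.map (red K)) (red (AC K) r) =
        ∑ α ∈ (cp.map (evA (red (AC K) r))).roots.toFinset,
        kaE (red (AC K) r) (evA (red (AC K) r) (V.map (red K)))
          (evA (red (AC K) r) (derivative (V.map (red K))))
          (evA (red (AC K) r) (derivative (G.map (red K))))
          (evA (red (AC K) r) (derivative (M.map (red K)))) α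
          (((dX cp).map (evA (red (AC K) r))).eval α /
            (derivative (cp.map (evA (red (AC K) r)))).eval α)
          (((Ψ.map (mapRingHom (red K))).map (evA (red (AC K) r))).eval (α ^ 2) /
            ((derivative (PhE cp)).map (evA (red (AC K) r))).eval (α ^ 2)) := rfl
    have hW : Waf cp (V.map (red K)) (G.map (red K)) (red (AC K) r) =
        ∑ α ∈ (cp.map (evA (red (AC K) r))).roots.toFinset,
        WE (red (AC K) r) (evA (red (AC K) r) (V.map (red K)))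
          (evA (red (AC K) r) (derivative (V.map (red K))))
          (evA (red (AC K) r) (derivative (G.map (red K)))) α
          (((dX cp).map (evA (red (AC K) r))).eval α /
            (derivative (cp.map (evA (red (AC K) r)))).eval α) := rfl
    have f1 : red (AC K) (D.V.eval r) = evA (red (AC K) r) (V.map (red K)) := by
      rw [hDV, red_eval]
    have f2 : red (AC K) ((derivative D.V).eval r) =
        evA (red (AC K) r) (derivative (V.map (red K))) := by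
      rw [hDV, derivative_map, red_eval, derivative_map]
    have f3 : red (AC K) ((derivative (G.map (emb K))).eval r) =
        evA (red (AC K) r) (derivative (G.map (red K))) := by
      rw [derivative_map, red_eval, derivative_map]
    have f4 : red (AC K) ((derivative D.M).eval r) =
        evA (red (AC K) r) (derivative (M.map (red K))) := by
      rw [hDM, derivative_map, red_eval, derivative_map]
    have f5 : (dX (cp.map (mapRingHom (algebraMap K (AC K))))).map (evalRingHom (red (AC K) r)) =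
        (dX cp).map (evA (red (AC K) r)) := by
      rw [dX_map, map_evA]
    have f6 : ((Ψ.map (mapRingHom (emb K))).map (mapRingHom (red (AC K)))).map
        (evalRingHom (red (AC K) r)) = (Ψ.map (mapRingHom (red K))).map (evA (red (AC K) r)) := by
      rw [red_emb2, map_evA]
    have f7 : (derivative ((Φ.map (mapRingHom (emb K))).map (mapRingHom (red (AC K))))).map
        (evalRingHom (red (AC K) r)) = (derivative (PhE cp)).map (evA (red (AC K) r)) := by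
      rw [red_emb2, hΦr, derivative_map, map_evA]
    rw [hk, hW, sum_pow_char 2, ← Finset.sum_add_distrib, ← Finset.sum_add_distrib, h4, map_evA]
    refine Finset.sum_congr rfl fun α _ => ?_
    rw [f1, f2, f3, f4, f5, f6, f7]

end sums


section main

open Classical in
/-- **The key formula.** -/
theorem keyE (hlocr : S_locr) : S_keyE := by
  intro K _ _ _ cp u v N μ₀ hsep
  have h2AC : (2 : AC K) = 0 := two_AC
  have hN0 : N ^ 2 ≠ 0 := pow_ne_zero 2 hsep.2.2.1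
  -- the monic part of `N ^ 2`
  obtain ⟨t₀, ht₀⟩ : ∃ t, t = (N ^ 2).leadingCoeff := ⟨_, rfl⟩
  have ht₀0 : t₀ ≠ 0 := by
    rw [ht₀]
    exact leadingCoeff_ne_zero.2 hN0
  obtain ⟨θ₁, hθ₁⟩ : ∃ t, t = N ^ 2 * C (t₀⁻¹) := ⟨_, rfl⟩
  have hθ₁m : θ₁.Monic := by
    rw [hθ₁, ht₀]
    exact monic_mul_leadingCoeff_inv hN0
  have hθe : N ^ 2 = C t₀ * θ₁ := by
    have e1 : C t₀ * C (t₀⁻¹) = (1 : K[X]) := by rw [← C_mul, mul_inv_cancel₀ ht₀0, C_1]
    rw [hθ₁]
    linear_combination (-(N ^ 2)) * e1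
  obtain ⟨s₀, hs₀⟩ : ∃ t, t = WittVector.teichmuller 2 t₀ := ⟨_, rfl⟩
  obtain ⟨S₁, hS₁⟩ : ∃ E, E = tl θ₁ := ⟨_, rfl⟩
  obtain ⟨S, hS⟩ : ∃ E, E = C s₀ * S₁ := ⟨_, rfl⟩
  have hs₀r : red K s₀ = t₀ := hs₀ ▸ WittVector.teichmuller_coeff_zero 2 _
  have hS₁m : S₁.Monic := hS₁ ▸ tl_monic hθ₁m
  have hS₁r : S₁.map (red K) = θ₁ := hS₁ ▸ map_tl θ₁
  have hSr : S.map (red K) = N ^ 2 := by
    rw [hS, Polynomial.map_mul, map_C, hS₁r, hs₀r, ← hθe]
  obtain ⟨β₀, hβ₀⟩ := exists_BD (PhE cp)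
  obtain ⟨bb, β', hβ1, hβ2, hbase⟩ := exists_base hsep S hSr (β₀ + μ₀)
  obtain ⟨C₀, hC₀⟩ := crossE cp.natDegree β'
  obtain ⟨d, hd⟩ : ∃ d, d = cp.natDegree := ⟨_, rfl⟩
  have hd1 : 1 ≤ d := hd ▸ hsep.2.1
  refine ⟨C₀ + 2 * β' + 2 * μ₀ + 4, ?_⟩
  intro n c x₁ x₂ e h m g₁ g₂ hc he hh hm hmμ hcop hsq hmNh hm₁ hd₁ hm₂ hd₂ hg₁ hg₂ hc₁ hc₂ hdvd
    hdeg hdeg2
  obtain ⟨uu, huu⟩ := hdvd
  have hehm : (e * h).Monic := he.mul hh
  have hehd : (e * h).natDegree = e.natDegree + h.natDegree := he.natDegree_mul hh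
  obtain ⟨y, hy⟩ : ∃ y, y = C c * (e * h) := ⟨_, rfl⟩
  rw [← hy] at hm₁ hd₁ hm₂ hd₂ hg₁ hg₂
  obtain ⟨u', hu'⟩ : ∃ u', u' = C (t₀ ^ 5) * uu := ⟨_, rfl⟩
  have hue : x₂ - x₁ = (θ₁ * (e * m)) ^ 5 * u' := by
    rw [huu, hu', hθe, C_pow]
    ring
  have hθem : (θ₁ * (e * m)).Monic := hθ₁m.mul (he.mul hm)
  -- lifts
  obtain ⟨ct, hct⟩ : ∃ t, t = WittVector.teichmuller 2 c := ⟨_, rfl⟩
  obtain ⟨Mt, hMt⟩ : ∃ E, E = tl m := ⟨_, rfl⟩
  obtain ⟨E, hE⟩ : ∃ E, E = tl e := ⟨_, rfl⟩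
  obtain ⟨H, hH⟩ : ∃ H, H = tl h := ⟨_, rfl⟩
  obtain ⟨Vu, hVu⟩ : ∃ U, U = tl u' := ⟨_, rfl⟩
  obtain ⟨V₁, hV₁⟩ : ∃ U, U = tl x₁ := ⟨_, rfl⟩
  obtain ⟨V₂, hV₂⟩ : ∃ U, U = tl x₂ := ⟨_, rfl⟩
  obtain ⟨Z₁, hZ₁⟩ : ∃ A, A = tl (x₁ ^ 2 + X * y ^ 2) := ⟨_, rfl⟩
  obtain ⟨w, hw⟩ : ∃ A, A = (S₁ * (E * Mt)) ^ 5 * Vu := ⟨_, rfl⟩
  obtain ⟨Z₂, hZ₂⟩ : ∃ A, A = Z₁ + w ^ 2 := ⟨_, rfl⟩
  obtain ⟨Gt, hGt⟩ : ∃ B, B = C ct * (E * H) := ⟨_, rfl⟩
  have hcr : red K ct = c := hct ▸ WittVector.teichmuller_coeff_zero 2 _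
  have hEm : E.Monic := hE ▸ tl_monic he
  have hHm : H.Monic := hH ▸ tl_monic hh
  have hMm : Mt.Monic := hMt ▸ tl_monic hm
  have hEd : E.natDegree = e.natDegree := hE ▸ natDegree_tl he
  have hHd : H.natDegree = h.natDegree := hH ▸ natDegree_tl hh
  have hMd : Mt.natDegree = m.natDegree := hMt ▸ natDegree_tl hm
  have hS₁d : S₁.natDegree = θ₁.natDegree := hS₁ ▸ natDegree_tl hθ₁m
  have hMr : Mt.map (red K) = m := hMt ▸ map_tl m
  have hEr : E.map (red K) = e := hE ▸ map_tl e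
  have hHr : H.map (red K) = h := hH ▸ map_tl h
  have hVur : Vu.map (red K) = u' := hVu ▸ map_tl u'
  have hV₁r : V₁.map (red K) = x₁ := hV₁ ▸ map_tl _
  have hV₂r : V₂.map (red K) = x₂ := hV₂ ▸ map_tl _
  have hZ₁r : Z₁.map (red K) = x₁ ^ 2 + X * y ^ 2 := hZ₁ ▸ map_tl _
  have hwr : w.map (red K) = x₂ - x₁ := by
    rw [hw, Polynomial.map_mul, Polynomial.map_pow, Polynomial.map_mul, Polynomial.map_mul, hEr,
      hVur, hS₁r, hMr, hue]
  have hZ₂r : Z₂.map (red K) = x₂ ^ 2 + X * y ^ 2 := by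
    rw [hZ₂, Polynomial.map_add, Polynomial.map_pow, hZ₁r, hwr]
    linear_combination (x₁ ^ 2 - x₁ * x₂) * two0 (K := K)
  have hGr : Gt.map (red K) = y := by
    rw [hGt, Polynomial.map_mul, Polynomial.map_mul, map_C, hEr, hHr, hcr, hy]
  -- degrees
  have hwn : w.natDegree ≤ (x₂ - x₁).natDegree := by
    rw [hw]
    by_cases hu0 : u' = 0
    · rw [hVu, hu0, tl_zero, mul_zero, natDegree_zero]; omega
    · have e1 : ((S₁ * (E * Mt)) ^ 5 * Vu).natDegree ≤
          5 * (S₁.natDegree + (E.natDegree + Mt.natDegree)) + Vu.natDegree := by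
        refine natDegree_mul_le.trans ?_
        have := natDegree_pow_le (p := (S₁ * (E * Mt))) (n := 5)
        rw [hS₁m.natDegree_mul (hEm.mul hMm), hEm.natDegree_mul hMm] at this
        omega
      have e2 : (x₂ - x₁).natDegree =
          5 * (θ₁.natDegree + (e.natDegree + m.natDegree)) + u'.natDegree := by
        rw [hue, natDegree_mul (pow_ne_zero 5 hθem.ne_zero) hu0, natDegree_pow,
          hθ₁m.natDegree_mul (he.mul hm), he.natDegree_mul hm]
      have e3 : Vu.natDegree ≤ u'.natDegree := hVu ▸ natDegree_tl_le u'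
      omega
  have hZ₁m : Z₁.Monic := hZ₁ ▸ tl_monic hm₁
  have hZ₁d : Z₁.natDegree = n := by rw [hZ₁, natDegree_tl hm₁, hd₁]
  have hw2 : (w ^ 2).natDegree < n := by
    have := natDegree_pow_le (p := w) (n := 2)
    omega
  have hZ₂m : Z₂.Monic := by
    rw [hZ₂]
    exact hZ₁m.add_of_left (degree_lt_degree (by omega))
  have hZ₂d : Z₂.natDegree = n := by
    rw [hZ₂, natDegree_add_eq_left_of_natDegree_lt (by omega), hZ₁d]
  have hyd : 2 * y.natDegree ≤ n := by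
    have hy0 : y ≠ 0 := by
      rw [hy]
      exact mul_ne_zero (C_ne_zero.2 hc) hehm.ne_zero
    have h1 := natDegree_f x₁ y hy0
    rw [hd₁] at h1
    omega
  have hGd : 2 * Gt.natDegree ≤ n := by
    have h1 : Gt.natDegree ≤ E.natDegree + H.natDegree := by
      rw [hGt]
      refine (natDegree_C_mul_le _ _).trans ?_
      exact natDegree_mul_le
    have h2 : y.natDegree = e.natDegree + h.natDegree := by
      rw [hy, natDegree_C_mul hc, hehd]
    omega
  -- the lift of `Φ`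
  obtain ⟨Φ0, hΦ0⟩ : ∃ P, P = tl2 (PhE cp) := ⟨_, rfl⟩
  have hΦ0r : Φ0.map (mapRingHom (red K)) = PhE cp := hΦ0 ▸ map_tl2 _
  have hΦ0m : Φ0.Monic := hΦ0 ▸ tl2_monic (PhE_monic hsep.1)
  have hΦ0d : Φ0.natDegree = d := by
    have h1 := hΦ0m.natDegree_map (mapRingHom (red K))
    rw [hΦ0r, PhE_deg hsep.1] at h1
    rw [hd]
    exact h1.symm
  have hΦ0β : BD β₀ Φ0 := hΦ0 ▸ tl2_BD hβ₀
  obtain ⟨F0, hF0⟩ : ∃ F, F = Φ0.eval Z₁ := ⟨_, rfl⟩
  have hF0r : F0.map (red K) = m * g₁ := by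
    rw [hF0, map_eval2, hΦ0r, hZ₁r, hg₁]
  have hR0 : (F0 %ₘ Mt).map (red K) = 0 := by
    rw [Polynomial.map_modByMonic _ hMm, hF0r, hMr, modByMonic_eq_zero_iff_dvd hm]
    exact Dvd.intro _ rfl
  obtain ⟨Φ, hΦ⟩ : ∃ P, P = Φ0 - C (F0 %ₘ Mt) := ⟨_, rfl⟩
  have hΦr : Φ.map (mapRingHom (red K)) = PhE cp := by
    rw [hΦ, Polynomial.map_sub, hΦ0r, map_C, coe_mapRingHom, hR0, C_0, sub_zero]
  have hCd : (C (F0 %ₘ Mt)).natDegree < Φ0.natDegree := by
    rw [natDegree_C, hΦ0d]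
    omega
  have hΦm : Φ.Monic := by
    rw [hΦ]
    exact hΦ0m.sub_of_left (degree_lt_degree hCd)
  have hΦd : Φ.natDegree = d := by
    rw [hΦ, natDegree_sub_eq_left_of_natDegree_lt hCd, hΦ0d]
  have hΦβ : BD (β₀ + μ₀) Φ := by
    rw [hΦ]
    refine Crossx.bd_sub (Crossx.bd_mono hΦ0β (by omega)) (Crossx.bd_C ?_)
    exact (natDegree_modByMonic_le _ hMm).trans (by omega)
  obtain ⟨e₁, e₂, q₁, q₂, Ψ, hB, hΨ, he₁β, he₂β, he₁d, he₂d⟩ := hbase Φ hΦm hΦr hΦβ
  -- the values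
  obtain ⟨Fo₁, hFo₁⟩ : ∃ F, F = F0 /ₘ Mt := ⟨_, rfl⟩
  have hFm₁ : Φ.eval Z₁ = Mt * Fo₁ := by
    have e1 := modByMonic_add_div F0 Mt
    rw [← hFo₁] at e1
    rw [hΦ, eval_sub, eval_C, ← hF0]
    linear_combination -e1
  obtain ⟨qd, hqd⟩ := sub_dvd_eval_sub Z₂ Z₁ Φ
  obtain ⟨Fo₂, hFo₂⟩ : ∃ F, F = Fo₁ + ((S₁ * E) ^ 5 * Mt ^ 4 * Vu) * w * qd := ⟨_, rfl⟩
  have hFm₂ : Φ.eval Z₂ = Mt * Fo₂ := by
    have e1 : Φ.eval Z₂ = Φ.eval Z₁ + w ^ 2 * qd := by
      rw [hZ₂] at hqd ⊢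
      linear_combination hqd
    rw [e1, hFm₁, hFo₂]
    linear_combination (w * qd) * hw
  have hβn : β₀ + μ₀ < n := by omega
  obtain ⟨hF₁m, hF₁d⟩ := eval_monic hΦm hΦd hΦβ hZ₁m hZ₁d hβn
  obtain ⟨hF₂m, hF₂d⟩ := eval_monic hΦm hΦd hΦβ hZ₂m hZ₂d hβn
  have hFo₁m : Fo₁.Monic := by
    rw [hFm₁] at hF₁m
    exact hMm.of_mul_monic_left hF₁m
  have hFo₂m : Fo₂.Monic := by
    rw [hFm₂] at hF₂m
    exact hMm.of_mul_monic_left hF₂m
  obtain ⟨Nn, hNn⟩ : ∃ N, N = d * n - m.natDegree := ⟨_, rfl⟩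
  have hdn : n ≤ d * n := Nat.le_mul_of_pos_left n hd1
  have hFo₁d : Fo₁.natDegree = Nn := by
    rw [hFm₁, hMm.natDegree_mul hFo₁m] at hF₁d
    omega
  have hFo₂d : Fo₂.natDegree = Nn := by
    rw [hFm₂, hMm.natDegree_mul hFo₂m] at hF₂d
    omega
  have hFo₁r : Fo₁.map (red K) = g₁ := by
    apply mul_left_cancel₀ hm.ne_zero
    rw [← hg₁]
    have h1 := congrArg (Polynomial.map (red K)) hFm₁
    rw [map_eval2, hΦr, hZ₁r, Polynomial.map_mul, hMr] at h1
    exact h1.symm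
  have hFo₂r : Fo₂.map (red K) = g₂ := by
    apply mul_left_cancel₀ hm.ne_zero
    rw [← hg₂]
    have h1 := congrArg (Polynomial.map (red K)) hFm₂
    rw [map_eval2, hΦr, hZ₂r, Polynomial.map_mul, hMr] at h1
    exact h1.symm
  -- coprimality
  have hcu : ∀ p : K[X], IsCoprime p (C c) := fun p =>
      ⟨0, C c⁻¹, by rw [zero_mul, zero_add, ← C_mul, inv_mul_cancel₀ hc, C_1]⟩
  have hg₁N : IsCoprime g₁ N := hc₁.of_mul_right_left.of_mul_right_right
  have hg₂N : IsCoprime g₂ N := hc₂.of_mul_right_left.of_mul_right_right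
  have hg₁m : IsCoprime g₁ m := hc₁.of_mul_right_left.of_mul_right_left
  have hg₂m : IsCoprime g₂ m := hc₂.of_mul_right_left.of_mul_right_left
  have hg₁y : IsCoprime g₁ y := by
    rw [hy]
    exact (hcu _).mul_right hc₁.of_mul_right_right
  have hg₂y : IsCoprime g₂ y := by
    rw [hy]
    exact (hcu _).mul_right hc₂.of_mul_right_right
  have hmh : IsCoprime m h := hmNh.of_mul_left_left
  have hNh : IsCoprime N h := hmNh.of_mul_left_right
  have hsq₁ : Squarefree g₁ := sqfE hsep hg₁ hg₁N hg₁y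
  have hsq₂ : Squarefree g₂ := sqfE hsep hg₂ hg₂N hg₂y
  obtain ⟨M₁, D₁, dZ₁, dV₁, dM₁, dv₁, dv₁0, dT₁, dT₁0⟩ :=
    sideWE Φ S Gt Mt Z₁ V₁ Fo₁ hFm₁ hFo₁m hFo₁d (by rw [hZ₁r, hV₁r, hGr])
      (by rw [hFo₁r]; exact hsq₁) (by rw [hFo₁r, hGr]; exact hg₁y)
      (by rw [hFo₁r, hSr]; exact hg₁N.pow_right) (by rw [hFo₁r, hMr]; exact hg₁m)
  obtain ⟨M₂, D₂, dZ₂, dV₂, dM₂, dv₂, dv₂0, dT₂, dT₂0⟩ :=
    sideWE Φ S Gt Mt Z₂ V₂ Fo₂ hFm₂ hFo₂m hFo₂d (by rw [hZ₂r, hV₂r, hGr])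
      (by rw [hFo₂r]; exact hsq₂) (by rw [hFo₂r, hGr]; exact hg₂y)
      (by rw [hFo₂r, hSr]; exact hg₂N.pow_right) (by rw [hFo₂r, hMr]; exact hg₂m)
  -- `bb` is prime to `g`
  have hbbc : ∀ (Z : (WittVector 2 K)[X]) (x g : K[X]), Z.map (red K) = x →
      (PhE cp).eval x = m * g → IsCoprime g N →
      IsCoprime g ((bb.eval Z).map (red K)) := by
    intro Z x g hZx hxg hgN
    have h1 := congrArg (fun P => (P.map (mapRingHom (red K))).eval x) hB.h1
    simp only [Polynomial.map_add, Polynomial.map_mul, Polynomial.map_pow, map_C, hΦr,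
      coe_mapRingHom, hSr, eval_add, eval_mul, eval_pow, eval_C, Polynomial.map_ofNat,
      eval_ofNat, two0, zero_mul, hxg] at h1
    have h2 : IsCoprime g (((bb.map (mapRingHom (red K))).eval x) ^ 2 *
        ((derivative Φ).map (mapRingHom (red K))).eval x) := by
      rw [h1]
      obtain ⟨a, b, hab⟩ := (hgN.pow_right (n := 2)).pow_right (n := 2)
      refine ⟨a - b * (m * (q₁.map (mapRingHom (red K))).eval x), b, ?_⟩
      linear_combination hab
    rw [map_eval2, hZx]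
    have h3 := h2.of_mul_right_left
    rw [pow_two] at h3
    exact h3.of_mul_right_left
  have hbb₁ := hbbc Z₁ _ g₁ hZ₁r hg₁ hg₁N
  have hbb₂ := hbbc Z₂ _ g₂ hZ₂r hg₂ hg₂N
  -- the nodes
  obtain ⟨r, hr, hrinj, hrperm, -⟩ := sgn K H.natDegree H hHm rfl (by rw [hHr]; exact hsq)
  have hHred : h.map (algebraMap K (AC K)) = ∏ i, (X - C (red (AC K) (r i))) := by
    rw [← hHr, ← red_map_map, hr, Polynomial.map_prod]
    simp only [Polynomial.map_sub, map_X, map_C]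
  have hhρ : ∀ i, (h.map (algebraMap K (AC K))).eval (red (AC K) (r i)) = 0 := by
    intro i
    rw [hHred, eval_prod]
    exact Finset.prod_eq_zero (Finset.mem_univ i) (by simp)
  have heρ : ∀ i, red (AC K) ((E.map (emb K)).eval (r i)) ≠ 0 := by
    intro i
    rw [red_map_eval, hEr]
    exact coprime_eval hcop _ (hhρ i)
  have hSρ : ∀ i, red (AC K) ((S₁.map (emb K)).eval (r i)) ≠ 0 := by
    intro i
    rw [red_map_eval, hS₁r]
    refine coprime_eval ?_ _ (hhρ i)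
    have h1 : IsCoprime (N ^ 2) h := hNh.pow_left
    rw [hθe] at h1
    exact h1.of_mul_left_right
  have hmρ : ∀ i, red (AC K) ((Mt.map (emb K)).eval (r i)) ≠ 0 := by
    intro i
    rw [red_map_eval, hMr]
    exact coprime_eval hmh _ (hhρ i)
  have hFρ : ∀ (Z Fo : (WittVector 2 K)[X]) (g : K[X]), Φ.eval Z = Mt * Fo →
      Fo.map (red K) = g → IsCoprime g (e * h) →
      ∀ i, red (AC K) (((Φ.eval Z).map (emb K)).eval (r i)) ≠ 0 := by
    intro Z Fo g hZ hFo hg i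
    rw [hZ, red_map_eval, Polynomial.map_mul, hMr, hFo, Polynomial.map_mul, eval_mul]
    exact mul_ne_zero (coprime_eval hmh _ (hhρ i))
      (coprime_eval hg.of_mul_right_right _ (hhρ i))
  have hF₁ρ : ∀ i, red (AC K) (D₁.F.eval (r i)) ≠ 0 := by
    intro i
    have h1 := hFρ Z₁ Fo₁ g₁ hFm₁ hFo₁r hc₁.of_mul_right_right i
    rw [map_eval2, ← dZ₁] at h1
    exact h1
  have hF₂ρ : ∀ i, red (AC K) (D₂.F.eval (r i)) ≠ 0 := by
    intro i
    have h1 := hFρ Z₂ Fo₂ g₂ hFm₂ hFo₂r hc₂.of_mul_right_right i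
    rw [map_eval2, ← dZ₂] at h1
    exact h1
  have hs₀e : red (AC K) (emb K s₀) ≠ 0 := by
    rw [red_emb, hs₀r]
    exact (_root_.map_ne_zero _).mpr ht₀0
  have hcte : red (AC K) (emb K ct) ≠ 0 := by
    rw [red_emb, hcr]
    exact (_root_.map_ne_zero _).mpr hc
  have hGE : Gt.map (emb K) = C (emb K ct) * (E.map (emb K) * ∏ i, (X - C (r i))) := by
    rw [hGt, Polynomial.map_mul, map_C, Polynomial.map_mul, hr]
  have hGB : ∀ i, Gt.map (emb K) = C (emb K ct) *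
      ((E.map (emb K) * ∏ j ∈ Finset.univ.erase i, (X - C (r j))) * (X - C (r i))) := by
    intro i
    rw [hGE, ← Finset.mul_prod_erase Finset.univ _ (Finset.mem_univ i)]
    ring
  have hBr : ∀ i, red (AC K) ((E.map (emb K) *
      ∏ j ∈ Finset.univ.erase i, (X - C (r j))).eval (r i)) ≠ 0 := by
    intro i
    rw [eval_mul, eval_prod, map_mul, map_prod]
    refine mul_ne_zero (heρ i) (Finset.prod_ne_zero_iff.2 fun j hj => ?_)
    simp only [eval_sub, eval_X, eval_C, map_sub]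
    exact sub_ne_zero.2 fun h0 => (Finset.ne_of_mem_erase hj) (hrinj h0).symm
  have hsepρ : ∀ i, (cp.map (evA (red (AC K) (r i)))).Separable := by
    intro i
    have hNρ : evA (red (AC K) (r i)) N ≠ 0 := coprime_eval hNh _ (hhρ i)
    have h1 := congrArg (Polynomial.map (evA (red (AC K) (r i)))) hsep.2.2.2
    rw [Polynomial.map_add, Polynomial.map_mul, Polynomial.map_mul, map_C, ← derivative_map] at h1
    refine ⟨C (evA (red (AC K) (r i)) N)⁻¹ * u.map (evA (red (AC K) (r i))),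
      C (evA (red (AC K) (r i)) N)⁻¹ * v.map (evA (red (AC K) (r i))), ?_⟩
    have h2 : C (evA (red (AC K) (r i)) N)⁻¹ * C (evA (red (AC K) (r i)) N) =
        (1 : (AC K)[X]) := by
      rw [← C_mul, inv_mul_cancel₀ hNρ, C_1]
    linear_combination C (evA (red (AC K) (r i)) N)⁻¹ * h1 + h2
  have hΦdE : (Φ.map (mapRingHom (emb K))).natDegree = cp.natDegree := by
    rw [hΦm.natDegree_map, hΦd, hd]
  obtain ⟨hcd, hcw⟩ := hC₀ (WittVector 2 (AC K)) (two_ne_zero_witt (E := AC K))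
    (Φ.map (mapRingHom (emb K))) (e₁.map (mapRingHom (emb K))) (e₂.map (mapRingHom (emb K)))
    (S.map (emb K)) (Gt.map (emb K)) D₁.Z D₂.Z D₁.hh D₂.hh (w.map (emb K)) n
    (x₂ - x₁).natDegree (hΦm.map _) hΦdE hsep.2.1
    (Crossx.bd_mono (BD_map _ hΦβ) hβ2) (BD_map _ he₁β) (BD_map _ he₂β)
    (lt_of_le_of_lt natDegree_map_le he₁d) (lt_of_le_of_lt natDegree_map_le he₂d)
    (natDegree_map_le.trans hβ1)
    (by
      have := natDegree_map_le (f := emb K) (p := Gt)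
      omega)
    (by rw [dZ₁]; exact natDegree_map_le.trans hZ₁d.le)
    (by rw [dZ₂]; exact natDegree_map_le.trans hZ₂d.le)
    (natDegree_map_le.trans hwn) (by omega)
    (by rw [dZ₁, dZ₂, hZ₂, Polynomial.map_add, Polynomial.map_pow])
    (by rw [D₁.dZ]; ring) (by rw [D₂.dZ]; ring)
  obtain ⟨l₁, l₂, N₁, N₂, q, L1, L2, hN', hN₂, hq⟩ := SdE.keyR D₁ D₂
    (fun x hx => isUnit_iff_red x hx)
    (fun x hx => by
      obtain ⟨t, ht⟩ := (two_dvd_iff x).2 hx
      exact ⟨t, ht⟩)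
    (two_ne_zero_witt (E := AC K)) (hB.map (emb K))
    (S₁ := S₁.map (emb K)) (s₀ := emb K s₀) (by rw [hS, Polynomial.map_mul, map_C])
    hs₀e (hS₁m.map _) (hMm.map _)
    (χ := emb K ct) hcte
    (E := E.map (emb K)) (r := r) (hEm.map _) hGE
    (fun i j hij h0 => hij (hrinj h0)) heρ hSρ hmρ hF₁ρ hF₂ρ
    (w := w.map (emb K)) (by rw [dZ₁, dZ₂, hZ₂, Polynomial.map_add, Polynomial.map_pow])
    (by
      rw [hw, Polynomial.map_mul, Polynomial.map_pow, Polynomial.map_mul, Polynomial.map_mul]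
      exact Dvd.intro _ rfl)
    (n := n) (δ := (x₂ - x₁).natDegree) (d := cp.natDegree) (C₀ := C₀)
    (by rw [hMm.natDegree_map, hMd, ← hd, hNn]; omega)
    (by rw [hNn]; omega) (by rw [hMm.natDegree_map, hMd, hNn]; omega)
    hcd hcw (by rw [hEm.natDegree_map, hEd, hHd]; omega)
    (fun i => node hlocr hsep.1 hΦm hΦr hΨ hB hS D₁ dV₁ dM₁ (hGB i) hcte hs₀e (hSρ i) (hBr i)
      (hF₁ρ i) (hsepρ i))
    (fun i => node hlocr hsep.1 hΦm hΦr hΨ hB hS D₂ dV₂ dM₂ (hGB i) hcte hs₀e (hSρ i) (hBr i)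
      (hF₂ρ i) (hsepρ i))
    dv₂0 (by
      intro j
      have h1 := dT₂0 (bb.eval Z₂) (by rw [hFo₂r]; exact hbb₂) j
      rw [map_eval2, ← dZ₂] at h1
      exact h1)
  -- the sign step
  have hpm : ∀ F : K[X], Squarefree F → ((-1) ^ Nn * mob F : ℤ) = 1 ∨
      ((-1) ^ Nn * mob F : ℤ) = -1 := by
    intro F hF
    rcases mob_pm hF with h | h <;> rcases neg_one_pow_eq_or ℤ Nn with h' | h' <;>
      rw [h, h'] <;> norm_num
  have hbbT : ∀ (D : SdE (red (AC K)) (Φ.map (mapRingHom (emb K))) (S.map (emb K))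
      (Gt.map (emb K)) (Mt.map (emb K)) Nn) (Z : (WittVector 2 K)[X]), D.Z = Z.map (emb K) →
      (∀ P : (WittVector 2 K)[X], frobLift K (∏ j, (P.map (emb K)).eval (D.v j)) =
        ∏ j, (P.map (emb K)).eval (D.v j)) →
      frobLift K (∏ j, ((bb.map (mapRingHom (emb K))).eval D.Z).eval (D.v j)) =
        ∏ j, ((bb.map (mapRingHom (emb K))).eval D.Z).eval (D.v j) := by
    intro D Z hZ hT
    have h1 := hT (bb.eval Z)
    rw [map_eval2, ← hZ] at h1
    exact h1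
  have hSGT : ∀ (D : SdE (red (AC K)) (Φ.map (mapRingHom (emb K))) (S.map (emb K))
      (Gt.map (emb K)) (Mt.map (emb K)) Nn),
      (∀ P : (WittVector 2 K)[X], frobLift K (∏ j, (P.map (emb K)).eval (D.v j)) =
        ∏ j, (P.map (emb K)).eval (D.v j)) →
      frobLift K (∏ j, ((S.map (emb K)).eval (D.v j) * (Gt.map (emb K)).eval (D.v j))) =
        ∏ j, ((S.map (emb K)).eval (D.v j) * (Gt.map (emb K)).eval (D.v j)) := by
    intro D hT
    have h1 := hT (S * Gt)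
    simp only [Polynomial.map_mul, eval_mul] at h1
    exact h1
  have hru : red (AC K) ((vdm D₂.v * ∏ j, ((bb.map (mapRingHom (emb K))).eval D₂.Z).eval (D₂.v j)) *
      ∏ j, ((S.map (emb K)).eval (D₁.v j) * (Gt.map (emb K)).eval (D₁.v j))) ≠ 0 := by
    rw [map_mul, map_mul, map_prod, map_prod]
    refine mul_ne_zero (mul_ne_zero dv₂0 (Finset.prod_ne_zero_iff.2 fun j _ => ?_))
      (Finset.prod_ne_zero_iff.2 fun j _ => ?_)
    · have h1 := dT₂0 (bb.eval Z₂) (by rw [hFo₂r]; exact hbb₂) j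
      rw [map_eval2, ← dZ₂] at h1
      exact h1
    · rw [map_mul]
      exact mul_ne_zero (D₁.hS j) (D₁.hG j)
  obtain ⟨x, hx, hxc⟩ := sign_step (K := K) _ _ N₁ N₂
    (-(∑ i, (l₁ i - l₂ i))) _ _
    (hpm (Fo₁.map (red K)) (by rw [hFo₁r]; exact hsq₁))
    (hpm (Fo₂.map (red K)) (by rw [hFo₂r]; exact hsq₂))
    (by rw [map_mul, map_mul, dv₁, hbbT D₁ Z₁ dZ₁ dT₁, hSGT D₂ dT₂]; ring)
    (by rw [map_mul, map_mul, dv₂, hbbT D₂ Z₂ dZ₂ dT₂, hSGT D₁ dT₁]; ring)
    hru hN' hN₂ ⟨q, hq⟩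
  have hsgn : ((-1) ^ Nn * mob (Fo₁.map (red K)) : ℤ) *
      ((-1) ^ Nn * mob (Fo₂.map (red K)) : ℤ) =
      mob (Fo₁.map (red K)) * mob (Fo₂.map (red K)) := by
    have : ((-1 : ℤ) ^ Nn) * (-1) ^ Nn = 1 := by
      rw [← mul_pow]; norm_num
    linear_combination (mob (Fo₁.map (red K)) * mob (Fo₂.map (red K))) * this
  rw [hsgn, hFo₁r, hFo₂r] at hxc
  -- the sums
  obtain ⟨f, hf⟩ : ∃ f : AC K → AC K, f = fun t =>
    kaf cp (Ψ.map (mapRingHom (red K))) (PhE cp) (V₁.map (red K)) (Gt.map (red K))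
      (M₁.map (red K)) t +
    kaf cp (Ψ.map (mapRingHom (red K))) (PhE cp) (V₂.map (red K)) (Gt.map (red K))
      (M₂.map (red K)) t := ⟨_, rfl⟩
  obtain ⟨g, hg⟩ : ∃ g : AC K → AC K, g = fun t =>
    Waf cp (V₁.map (red K)) (Gt.map (red K)) t + Waf cp (V₂.map (red K)) (Gt.map (red K)) t :=
    ⟨_, rfl⟩
  have hperm : ∀ i, ∃ j, (red (AC K) (r i)) ^ Fintype.card K = red (AC K) (r j) := by
    intro i
    obtain ⟨j, hj⟩ := hrperm i
    exact ⟨j, by rw [← red_frobLift, hj]⟩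
  have hcpne : ∀ t : AC K, cp.map (evA t) ≠ 0 := fun t => (hsep.1.map _).ne_zero
  have hys := frob_sum (fun i => red (AC K) (r i)) hrinj hperm f
    (fun t => by
      rw [hf]
      show (_ + _) ^ _ = _ + _
      rw [← frob_apply, map_add, frob_apply, frob_apply, frob_kaf _ _ _ _ _ _ hcpne,
        frob_kaf _ _ _ _ _ _ hcpne])
  have hwq := frob_sum (fun i => red (AC K) (r i)) hrinj hperm g
    (fun t => by
      rw [hg]
      show (_ + _) ^ _ = _ + _
      rw [← frob_apply, map_add, frob_apply, frob_apply, frob_Waf _ _ _ hcpne,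
        frob_Waf _ _ _ hcpne])
  have hz : red (AC K) (-(∑ i, (l₁ i - l₂ i))) = ∑ i, f (red (AC K) (r i)) +
      (∑ i, f (red (AC K) (r i))) ^ 2 + ∑ i, g (red (AC K) (r i)) := by
    have e3 : ∀ f : Fin H.natDegree → AC K, (∑ i, f i) ^ 2 = ∑ i, (f i) ^ 2 := fun f =>
      sum_pow_char 2 Finset.univ f
    rw [e3, ← Finset.sum_add_distrib, ← Finset.sum_add_distrib, map_neg, map_sum,
      ← Finset.sum_neg_distrib]
    refine Finset.sum_congr rfl fun i _ => ?_
    have f1 := L1 i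
    have f2 := L2 i
    rw [map_sub, f1, f2, hf, hg]
    beta_reduce
    generalize kaf cp (Ψ.map (mapRingHom (red K))) (PhE cp) (V₁.map (red K)) (Gt.map (red K))
      (M₁.map (red K)) (red (AC K) (r i)) = k₁
    generalize kaf cp (Ψ.map (mapRingHom (red K))) (PhE cp) (V₂.map (red K)) (Gt.map (red K))
      (M₂.map (red K)) (red (AC K) (r i)) = k₂
    generalize Waf cp (V₁.map (red K)) (Gt.map (red K)) (red (AC K) (r i)) = w₁
    generalize Waf cp (V₂.map (red K)) (Gt.map (red K)) (red (AC K) (r i)) = w₂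
    linear_combination (-k₁ - k₁ ^ 2 - w₁ - k₁ * k₂) * h2AC
  obtain ⟨w0, hw1, hw2'⟩ := last_step x _ _ _ _ hx hz hys hwq hxc
  refine ⟨w0, ?_, ?_⟩
  · rw [hw1, sum_roots h hh (fun i => red (AC K) (r i)) hrinj hHred, hg, hV₁r, hV₂r, hGr, hy]
    refine Finset.sum_congr rfl fun i _ => ?_
    beta_reduce
    rw [Waf_eq, Waf_eq]
  · rcases hw2' with ⟨h1, h2⟩ | ⟨h1, h2⟩
    · rw [h1, if_pos h2]
    · rw [h1, if_neg h2]

end main

end Pool.Agent.H140.E
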