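import Pool.Agent.H140.E.Stm
import Pool.Agent.H140.Q.LamM

/-!
# From `mobM` to the Liouville function, products (task LAME)
-/

set_option autoImplicit false

namespace Pool.Agent.H140.E

open Polynomial
open Pool.Agent.H985.Chow (mob MD)
open Pool.Agent.H694.Typ (Mn mem_Mn card_Mn)
open Pool.Agent.H524.Ext (mob_eq mob_of_not finsum_MD)
open Pool.Agent.H524.Cw (lio lio_mul lio_mob abs_lio ML mem_ML)
open Pool.Agent.H140.Q (mobM GM liou)
open Pool.Agent.H140.Q.LMM

namespace LME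

lemma abs_prod_le {ι : Type} (s : Finset ι) (a : ι → ℝ) (h : ∀ i ∈ s, |a i| ≤ 1) :
    |∏ i ∈ s, a i| ≤ 1 := by
  rw [Finset.abs_prod]
  exact Finset.prod_le_one (fun i _ => abs_nonneg _) h

end LME

open LME in
/-- **Task LAME** -/
theorem lamE : S_lamE := by
  classical
  intro hap ht K _ _ _ r cp u v N s t Q hr hsep htinj hQ η hη
  have hr0 : (0 : ℝ) < r := by exact_mod_cast hr
  have htl : ∀ j, ∃ D₀ n₀ : ℕ, ∀ n : ℕ, n₀ ≤ n →
      ((MD K n ∩ {g | ¬ ∃ m : K[X], m.natDegree ≤ D₀ ∧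
        GM (N j) m ((PhE (cp j)).eval (g + (s j ^ 2 + X * t j ^ 2)))}).ncard : ℝ) ≤
          η / (4 * r) * (Fintype.card K : ℝ) ^ n := fun j =>
    ht K (cp j) (u j) (v j) (N j) (s j ^ 2 + X * t j ^ 2) (hsep j) (η / (4 * r)) (by positivity)
  choose D n₁ hn₁ using htl
  set 𝓜 : Finset (Fin r → K[X]) := Fintype.piFinset (fun j => MM (N j) (D j)) with h𝓜
  set η' : ℝ := η / (2 * (𝓜.card + 1)) with hη'
  have hη0 : 0 < η' := by positivity
  set F : Fin r → K[X] → K[X] := fun j g =>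
    (PhE (cp j)).eval (g + (s j ^ 2 + X * t j ^ 2)) with hF
  have h1 : ∀ m : Fin r → K[X], ∃ n₀ : ℕ, m ∈ 𝓜 → ∀ n : ℕ, n₀ ≤ n → ∀ w : K[X] → ℝ,
      (∀ g, |w g| ≤ 1) → (∀ f, ∃ χ : AddChar K[X] ℝ, ∀ x, w (f + (Q * x) ^ 2) = w f * χ x) →
      |∑ᶠ g ∈ MD K n, w g * ∏ j, (mobM (m j) (N j) (F j g) : ℝ)| ≤
        η' * (Fintype.card K : ℝ) ^ n := by
    intro m
    by_cases hm : ∀ j, (m j).Monic
    · obtain ⟨n₀, hn₀⟩ := hap K r cp u v N m s t Q hr hsep hm htinj hQ η' hη0
      exact ⟨n₀, fun _ => hn₀⟩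
    · refine ⟨0, fun hmem => absurd (fun j => ?_) hm⟩
      rw [h𝓜, Fintype.mem_piFinset] at hmem
      have h2 := hmem j
      rw [MM, Finset.mem_filter, mem_ML] at h2
      exact h2.1.1
  choose N' hN using h1
  refine ⟨max (Finset.univ.sup n₁) (𝓜.sup N'), fun n hn w hw hwu => ?_⟩
  have hn1 : ∀ j, n₁ j ≤ n := fun j =>
    ((Finset.le_sup (Finset.mem_univ j)).trans (le_max_left _ _)).trans hn
  have hn2 : ∀ m ∈ 𝓜, N' m ≤ n := fun m hm =>
    ((Finset.le_sup hm).trans (le_max_right _ _)).trans hn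
  have hqn : (0 : ℝ) ≤ (Fintype.card K : ℝ) ^ n := by positivity
  rw [finsum_MD]
  -- the main term
  have hmain : |∑ g ∈ Mn K n, w g * ∏ j, (SS (N j) (D j) (F j g) : ℝ)| ≤
      η / 2 * (Fintype.card K : ℝ) ^ n := by
    have e1 : ∑ g ∈ Mn K n, w g * ∏ j, (SS (N j) (D j) (F j g) : ℝ) =
        ∑ m ∈ 𝓜, (∏ j, (liou (m j) : ℝ)) *
          ∑ g ∈ Mn K n, w g * ∏ j, (mobM (m j) (N j) (F j g) : ℝ) := by
      have e2 : ∀ g ∈ Mn K n, w g * ∏ j, (SS (N j) (D j) (F j g) : ℝ) =
          ∑ m ∈ 𝓜, (∏ j, (liou (m j) : ℝ)) *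
            (w g * ∏ j, (mobM (m j) (N j) (F j g) : ℝ)) := by
        intro g _
        have e3 : ∏ j, (SS (N j) (D j) (F j g) : ℝ) =
            ∑ m ∈ 𝓜, ∏ j, ((liou (m j) : ℝ) * (mobM (m j) (N j) (F j g) : ℝ)) := by
          unfold SS
          push_cast
          rw [Finset.prod_univ_sum]
        rw [e3, Finset.mul_sum]
        refine Finset.sum_congr rfl fun m _ => ?_
        rw [Finset.prod_mul_distrib]
        ring
      rw [Finset.sum_congr rfl e2, Finset.sum_comm]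
      refine Finset.sum_congr rfl fun m _ => ?_
      rw [Finset.mul_sum]
    rw [e1]
    calc |∑ m ∈ 𝓜, (∏ j, (liou (m j) : ℝ)) *
          ∑ g ∈ Mn K n, w g * ∏ j, (mobM (m j) (N j) (F j g) : ℝ)|
        ≤ ∑ m ∈ 𝓜, |(∏ j, (liou (m j) : ℝ)) *
          ∑ g ∈ Mn K n, w g * ∏ j, (mobM (m j) (N j) (F j g) : ℝ)| :=
          Finset.abs_sum_le_sum_abs _ _
      _ ≤ ∑ m ∈ 𝓜, η' * (Fintype.card K : ℝ) ^ n := by
          refine Finset.sum_le_sum fun m hm => ?_
          have h2 := hN m hm n (hn2 m hm) w hw hwu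
          rw [finsum_MD] at h2
          rw [abs_mul]
          calc |∏ j, (liou (m j) : ℝ)| *
                |∑ g ∈ Mn K n, w g * ∏ j, (mobM (m j) (N j) (F j g) : ℝ)|
              ≤ 1 * |∑ g ∈ Mn K n, w g * ∏ j, (mobM (m j) (N j) (F j g) : ℝ)| :=
                mul_le_mul_of_nonneg_right (abs_prod_le _ _ fun j _ => abs_liou (m j))
                  (abs_nonneg _)
            _ ≤ _ := by rw [one_mul]; exact h2
      _ = 𝓜.card * η' * (Fintype.card K : ℝ) ^ n := by
          rw [Finset.sum_const, nsmul_eq_mul]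
          ring
      _ ≤ _ := by
          apply mul_le_mul_of_nonneg_right _ hqn
          rw [hη', ← mul_div_assoc, div_le_iff₀ (by positivity)]
          nlinarith
  -- the error
  set Bd : Fin r → Finset K[X] := fun j => (Mn K n).filter
    (fun g => ¬ ∃ m : K[X], m.natDegree ≤ D j ∧ GM (N j) m (F j g)) with hBd
  have hbad : ∀ j, ((Bd j).card : ℝ) ≤ η / (4 * r) * (Fintype.card K : ℝ) ^ n := by
    intro j
    have h2 := hn₁ j n (hn1 j)
    have h3 : MD K n ∩ {g | ¬ ∃ m : K[X], m.natDegree ≤ D j ∧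
        GM (N j) m ((PhE (cp j)).eval (g + (s j ^ 2 + X * t j ^ 2)))} = (Bd j : Set K[X]) := by
      ext g
      rw [Finset.mem_coe, hBd, Finset.mem_filter, mem_Mn]
      rfl
    rw [h3, Set.ncard_coe_finset] at h2
    exact h2
  have herr : |∑ g ∈ Mn K n, w g * ((∏ j, (liou (F j g) : ℝ)) -
      ∏ j, (SS (N j) (D j) (F j g) : ℝ))| ≤ η / 2 * (Fintype.card K : ℝ) ^ n := by
    calc |∑ g ∈ Mn K n, w g * ((∏ j, (liou (F j g) : ℝ)) -
          ∏ j, (SS (N j) (D j) (F j g) : ℝ))|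
        ≤ ∑ g ∈ Mn K n, |w g * ((∏ j, (liou (F j g) : ℝ)) -
          ∏ j, (SS (N j) (D j) (F j g) : ℝ))| := Finset.abs_sum_le_sum_abs _ _
      _ ≤ ∑ g ∈ Mn K n, ∑ j, (if ¬ ∃ m : K[X], m.natDegree ≤ D j ∧ GM (N j) m (F j g)
            then (2 : ℝ) else 0) := by
          refine Finset.sum_le_sum fun g _ => ?_
          by_cases hall : ∀ j, ∃ m : K[X], m.natDegree ≤ D j ∧ GM (N j) m (F j g)
          · have h5 : ∏ j, (SS (N j) (D j) (F j g) : ℝ) = ∏ j, (liou (F j g) : ℝ) := by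
              refine Finset.prod_congr rfl fun j _ => ?_
              obtain ⟨m, h3, h4⟩ := hall j
              rw [SS_pos h3 h4]
            rw [h5, sub_self, mul_zero, abs_zero]
            refine Finset.sum_nonneg fun j _ => ?_
            split_ifs <;> norm_num
          · rw [not_forall] at hall
            obtain ⟨j₀, hj₀⟩ := hall
            have h6 : (2 : ℝ) ≤ ∑ j, (if ¬ ∃ m : K[X], m.natDegree ≤ D j ∧ GM (N j) m (F j g)
                then (2 : ℝ) else 0) := by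
              have h7 := Finset.single_le_sum (f := fun j => (if ¬ ∃ m : K[X],
                m.natDegree ≤ D j ∧ GM (N j) m (F j g) then (2 : ℝ) else 0))
                (s := Finset.univ) (fun j _ => by
                  show (0 : ℝ) ≤ if ¬ ∃ m : K[X], m.natDegree ≤ D j ∧ GM (N j) m (F j g)
                    then (2 : ℝ) else 0
                  split_ifs <;> norm_num) (Finset.mem_univ j₀)
              simp only [if_pos hj₀] at h7
              exact h7
            refine le_trans ?_ h6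
            rw [abs_mul]
            have h3 : |(∏ j, (liou (F j g) : ℝ)) - ∏ j, (SS (N j) (D j) (F j g) : ℝ)| ≤ 2 := by
              have h4 := abs_le.1 (abs_prod_le Finset.univ (fun j => (liou (F j g) : ℝ))
                fun j _ => abs_liou (F j g))
              have h5 := abs_le.1 (abs_prod_le Finset.univ (fun j => (SS (N j) (D j) (F j g) : ℝ))
                fun j _ => abs_SS (N j) (D j) (F j g))
              rw [abs_le]
              constructor <;> linarith [h4.1, h4.2, h5.1, h5.2]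
            calc |w g| * |(∏ j, (liou (F j g) : ℝ)) - ∏ j, (SS (N j) (D j) (F j g) : ℝ)|
                ≤ 1 * 2 := mul_le_mul (hw g) h3 (abs_nonneg _) zero_le_one
              _ = 2 := by norm_num
      _ = ∑ j, 2 * ((Bd j).card : ℝ) := by
          rw [Finset.sum_comm]
          refine Finset.sum_congr rfl fun j _ => ?_
          rw [← Finset.sum_filter, Finset.sum_const, nsmul_eq_mul, mul_comm]
      _ ≤ ∑ j : Fin r, 2 * (η / (4 * r) * (Fintype.card K : ℝ) ^ n) :=
          Finset.sum_le_sum fun j _ => mul_le_mul_of_nonneg_left (hbad j) zero_le_two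
      _ = η / 2 * (Fintype.card K : ℝ) ^ n := by
          rw [Finset.sum_const, Finset.card_univ, Fintype.card_fin, nsmul_eq_mul]
          field_simp
          ring
  have hsplit : ∑ g ∈ Mn K n, w g * ∏ j, (liou (F j g) : ℝ) =
      ∑ g ∈ Mn K n, w g * ∏ j, (SS (N j) (D j) (F j g) : ℝ) +
        ∑ g ∈ Mn K n, w g * ((∏ j, (liou (F j g) : ℝ)) -
          ∏ j, (SS (N j) (D j) (F j g) : ℝ)) := by
    rw [← Finset.sum_add_distrib]
    refine Finset.sum_congr rfl fun g _ => ?_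
    ring
  show |∑ g ∈ Mn K n, w g * ∏ j, (liou (F j g) : ℝ)| ≤ _
  rw [hsplit]
  refine (abs_add_le _ _).trans ?_
  linarith

end Pool.Agent.H140.E
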