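import Mathlib
import Pool.Agent.H140.E.StmK
import Pool.Agent.H140.Q.CmpA

/-!
# The local computation at a simple root of `G` (`S_tloc0`)
-/

set_option autoImplicit false

namespace Pool.Agent.H140.E

open Polynomial
open Pool.Agent.H140.Q.Local (cm0 cm1 cm2 cm3 cd c2 c4 elim HH der_two der_F)
open Pool.Agent.H140.Q.Alg (tay_der tay_HH tay_coeff3)

namespace Loc0

section main

variable {R : Type} [CommRing R] {k : Type} [Field k] [CharP k 2]

theorem loc (red : R →+* k) (hun : ∀ x, red x ≠ 0 → IsUnit x) (r : R)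
    (S a U G M g c F : R[X])
    (hF : F = U ^ 2 + (X + C r) * G ^ 2 + 2 * M) (hG : S * G = X * g)
    (hs : red (S.coeff 0) ≠ 0) (hU : red (U.coeff 0) ≠ 0) (hG1 : red (G.coeff 1) ≠ 0)
    (hc : X ^ 4 ∣ c * g ^ 4 * F -
      (Hp0 r S a U G M * (S * G) ^ 2 - (Hp0 r S a U G M) ^ 2) * derivative F) :
    ∃ l, c.coeff 3 = 2 * l ∧ ∀ κ W e0 e1 : k,
      e0 = red (U.coeff 0) * red (U.coeff 1) + red (M.coeff 1) →
      e1 = red (U.coeff 1) ^ 2 + red r * red (G.coeff 1) ^ 2 →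
      κ = e0 * e1 / (red (G.coeff 1) ^ 2 * red (U.coeff 0) ^ 2) →
      W = e1 ^ 3 / (red (G.coeff 1) ^ 4 * red (U.coeff 0) ^ 2) →
      red l = κ + κ ^ 2 + W := by
  have htwo : (2 : k) = 0 := CharTwo.two_eq_zero
  have h4 : (4 : k) = 0 := by linear_combination 2 * htwo
  have h3 : (3 : k) = 1 := by linear_combination htwo
  have h6 : (6 : k) = 0 := by linear_combination 3 * htwo
  obtain ⟨si, hsi⟩ := hun _ hs
  have hG0 : G.coeff 0 = 0 := by
    have h1 : (S * G).coeff 0 = (X * g).coeff 0 := by rw [hG]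
    rw [cm0 S G, coeff_X_mul_zero, ← hsi] at h1
    exact (Units.mul_right_eq_zero si).1 h1
  have hg0 : g.coeff 0 = S.coeff 0 * G.coeff 1 := by
    have h1 : (S * G).coeff 1 = (X * g).coeff 1 := by rw [hG]
    rw [cm1 S G, coeff_X_mul, hG0] at h1
    rw [← h1]
    ring
  have hg1 : g.coeff 1 = S.coeff 0 * G.coeff 2 + S.coeff 1 * G.coeff 1 := by
    have h1 : (S * G).coeff 2 = (X * g).coeff 2 := by rw [hG]
    rw [cm2 S G, coeff_X_mul, hG0] at h1
    rw [← h1]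
    ring
  obtain ⟨H, hH⟩ : ∃ H, H = Hp0 r S a U G M := ⟨_, rfl⟩
  rw [← hH] at hc
  obtain ⟨b, hb⟩ : ∃ b : R[X], b = S ^ 2 + 2 * a := ⟨_, rfl⟩
  have hdF := der_F r hF
  have hbF : b * derivative F = (X * g) ^ 2 + 2 * H := by
    rw [← hG, hH, hb, hdF]
    unfold Hp0
    ring
  obtain ⟨D, hD⟩ : ∃ D : R[X], D = g ^ 4 * (F * b) := ⟨_, rfl⟩
  have key : X ^ 4 ∣ c * D - (H ^ 2 * (X ^ 2 * g ^ 2) - 2 * H ^ 3) := by
    have e1 : c * D - (H ^ 2 * (X ^ 2 * g ^ 2) - 2 * H ^ 3) =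
      b * (c * g ^ 4 * F - (H * (S * G) ^ 2 - H ^ 2) * derivative F) +
        X ^ 4 * (H * g ^ 4) := by
      rw [hD, hG]
      linear_combination (H * (X * g) ^ 2 - H ^ 2) * hbF
    rw [e1]
    exact dvd_add (Dvd.dvd.mul_left hc b) (Dvd.intro _ rfl)
  rw [X_pow_dvd_iff] at key
  -- coefficients of `F`
  have F0 : F.coeff 0 = U.coeff 0 ^ 2 + 2 * M.coeff 0 := by
    rw [hF]
    simp only [coeff_add, pow_two, cm0, coeff_X_zero, coeff_C_zero, coeff_ofNat_zero, hG0]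
    ring
  have F1 : F.coeff 1 = 2 * (U.coeff 0 * U.coeff 1 + M.coeff 1) := by
    rw [hF]
    simp only [coeff_add, pow_two, cm0, cm1, coeff_X_zero, coeff_C_zero, coeff_X_one,
      coeff_C_succ, coeff_ofNat_zero, coeff_ofNat_succ, hG0]
    ring
  have F2 : F.coeff 2 = U.coeff 1 ^ 2 + r * G.coeff 1 ^ 2 +
      2 * (U.coeff 0 * U.coeff 2 + M.coeff 2) := by
    rw [hF]
    simp only [coeff_add, pow_two, cm0, cm1, cm2, coeff_X_zero, coeff_C_zero, coeff_X_one,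
      coeff_C_succ, coeff_ofNat_zero, coeff_ofNat_succ, coeff_X_of_ne_one, hG0, ne_eq,
      OfNat.ofNat_ne_one, not_false_eq_true]
    ring
  have F3 : F.coeff 3 = G.coeff 1 ^ 2 + 2 * (U.coeff 0 * U.coeff 3 + U.coeff 1 * U.coeff 2 +
      r * G.coeff 1 * G.coeff 2 + M.coeff 3) := by
    rw [hF]
    simp only [coeff_add, pow_two, cm0, cm1, cm2, cm3, coeff_X_zero, coeff_C_zero, coeff_X_one,
      coeff_C_succ, coeff_ofNat_zero, coeff_ofNat_succ, coeff_X_of_ne_one, hG0, ne_eq,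
      OfNat.ofNat_ne_one, not_false_eq_true]
    ring
  -- coefficients of `b`
  have b0 : b.coeff 0 = S.coeff 0 ^ 2 + 2 * a.coeff 0 := by
    rw [hb]
    simp only [coeff_add, pow_two, cm0, coeff_ofNat_zero]
  have b1 : b.coeff 1 = 2 * (S.coeff 0 * S.coeff 1 + a.coeff 1) := by
    rw [hb, coeff_add, c2, pow_two, cm1]
    ring
  have b2 : b.coeff 2 = S.coeff 1 ^ 2 + 2 * (S.coeff 0 * S.coeff 2 + a.coeff 2) := by
    rw [hb, coeff_add, c2, pow_two, cm2]
    ring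
  have b3 : b.coeff 3 = 2 * (S.coeff 0 * S.coeff 3 + S.coeff 1 * S.coeff 2 + a.coeff 3) := by
    rw [hb, coeff_add, c2, pow_two, cm3]
    ring
  -- coefficients of `HH`
  obtain ⟨hh, hhh⟩ : ∃ hh, hh = HH r U G M := ⟨_, rfl⟩
  have hh0 : hh.coeff 0 = U.coeff 0 * U.coeff 1 + M.coeff 1 := by
    rw [hhh]
    unfold HH
    simp only [coeff_add, cm0, cd, coeff_X_zero, coeff_C_zero, hG0]
    push_cast
    ring
  have hh1 : hh.coeff 1 = U.coeff 1 ^ 2 + r * G.coeff 1 ^ 2 +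
      2 * (U.coeff 0 * U.coeff 2 + M.coeff 2) := by
    rw [hhh]
    unfold HH
    simp only [coeff_add, cm0, cm1, cd, coeff_X_zero, coeff_C_zero, coeff_X_one,
      coeff_C_succ, hG0]
    push_cast
    ring
  have hh3 : hh.coeff 3 = G.coeff 1 * G.coeff 2 + 2 * (2 * U.coeff 0 * U.coeff 4 +
      2 * U.coeff 1 * U.coeff 3 + U.coeff 2 ^ 2 + G.coeff 1 * G.coeff 2 + r * G.coeff 2 ^ 2 +
      2 * r * G.coeff 1 * G.coeff 3 + 2 * M.coeff 4) := by
    rw [hhh]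
    unfold HH
    simp only [coeff_add, cm0, cm1, cm2, cm3, cd, coeff_X_zero, coeff_C_zero, coeff_X_one,
      coeff_C_succ, coeff_X_of_ne_one, hG0, ne_eq,
      OfNat.ofNat_ne_one, not_false_eq_true]
    push_cast
    ring
  have hHf : H = S ^ 2 * hh + a * G ^ 2 + 2 * (a * hh) := by
    rw [hH, hhh]
    unfold Hp0
    ring
  have H0 : H.coeff 0 = S.coeff 0 ^ 2 * (U.coeff 0 * U.coeff 1 + M.coeff 1) +
      2 * (a.coeff 0 * (U.coeff 0 * U.coeff 1 + M.coeff 1)) := by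
    rw [hHf]
    simp only [coeff_add, pow_two, cm0, coeff_ofNat_zero, hG0, hh0]
    ring
  have rhh0 : red (hh.coeff 0) = red (U.coeff 0) * red (U.coeff 1) + red (M.coeff 1) := by
    rw [hh0, map_add, map_mul]
  have rhh1 : red (hh.coeff 1) = red (U.coeff 1) ^ 2 + red r * red (G.coeff 1) ^ 2 := by
    rw [hh1]
    simp only [map_add, map_mul, map_pow, map_ofNat, htwo, zero_mul, add_zero]
  have rhh3 : red (hh.coeff 3) = red (G.coeff 1) * red (G.coeff 2) := by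
    rw [hh3]
    simp only [map_add, map_mul, map_pow, map_ofNat, htwo, zero_mul, add_zero]
  have rH0 : red (H.coeff 0) = red (S.coeff 0) ^ 2 * (red (U.coeff 0) * red (U.coeff 1) +
      red (M.coeff 1)) := by
    rw [H0]
    simp only [map_add, map_mul, map_pow, map_ofNat, htwo, zero_mul, add_zero]
  have rH1 : red (H.coeff 1) = red (S.coeff 0) ^ 2 * (red (U.coeff 1) ^ 2 +
      red r * red (G.coeff 1) ^ 2) := by
    rw [hHf]
    simp only [coeff_add, c2]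
    simp only [pow_two, cm0, cm1, hG0]
    simp only [map_add, map_mul, map_ofNat, htwo, zero_mul, add_zero, mul_zero, rhh1, rhh0]
    linear_combination (red (S.coeff 0) * red (S.coeff 1) * (red (U.coeff 0) * red (U.coeff 1) +
      red (M.coeff 1))) * htwo
  have rH3 : red (H.coeff 3) = red (S.coeff 0) ^ 2 * (red (G.coeff 1) * red (G.coeff 2)) +
      red (S.coeff 1) ^ 2 * (red (U.coeff 1) ^ 2 + red r * red (G.coeff 1) ^ 2) +
      red (a.coeff 1) * red (G.coeff 1) ^ 2 := by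
    rw [hHf]
    simp only [coeff_add, c2]
    simp only [pow_two, cm0, cm1, cm2, cm3, hG0]
    simp only [map_add, map_mul, map_ofNat, htwo, zero_mul, add_zero, mul_zero, zero_add, rhh3,
      rhh1, rhh0]
    linear_combination (red (a.coeff 0) * red (G.coeff 1) * red (G.coeff 2) +
      red (S.coeff 0) * red (S.coeff 1) * red (hh.coeff 2) +
      red (S.coeff 0) * red (S.coeff 2) * (red (U.coeff 1) * red (U.coeff 1) +
        red r * (red (G.coeff 1) * red (G.coeff 1))) +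
      (red (S.coeff 0) * red (S.coeff 3) + red (S.coeff 1) * red (S.coeff 2)) *
        (red (U.coeff 0) * red (U.coeff 1) + red (M.coeff 1))) * htwo
  -- coefficients of `D`
  have FB1 : (F * b).coeff 1 = 2 * (F.coeff 0 * (a.coeff 1 + S.coeff 0 * S.coeff 1) +
      (U.coeff 0 * U.coeff 1 + M.coeff 1) * (S.coeff 0 ^ 2 + 2 * a.coeff 0)) := by
    rw [cm1, b0, b1, F1]
    ring
  have D1 : D.coeff 1 = 2 * (g.coeff 0 ^ 4 * (F.coeff 0 * (a.coeff 1 + S.coeff 0 * S.coeff 1) +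
      (U.coeff 0 * U.coeff 1 + M.coeff 1) * (S.coeff 0 ^ 2 + 2 * a.coeff 0)) +
      2 * g.coeff 0 ^ 3 * g.coeff 1 *
        (F.coeff 0 * (S.coeff 0 ^ 2 + 2 * a.coeff 0))) := by
    rw [hD, cm1, FB1, cm0 F b, b0]
    simp only [show (4 : ℕ) = 2 * 2 from rfl, pow_mul, pow_two, cm0, cm1]
    ring
  have D0 : D.coeff 0 = g.coeff 0 ^ 4 * (F.coeff 0 * (S.coeff 0 ^ 2 + 2 * a.coeff 0)) := by
    rw [hD, cm0, cm0, b0]
    simp only [show (4 : ℕ) = 2 * 2 from rfl, pow_mul, pow_two, cm0]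
  have rg0 : red (g.coeff 0) = red (S.coeff 0) * red (G.coeff 1) := by
    rw [hg0, map_mul]
  have rD0 : red (D.coeff 0) = red (S.coeff 0) ^ 6 * red (G.coeff 1) ^ 4 *
      red (U.coeff 0) ^ 2 := by
    rw [D0, F0]
    simp only [map_add, map_mul, map_pow, map_ofNat, htwo, zero_mul, add_zero, rg0]
    ring
  have rD2 : red (D.coeff 2) = red (S.coeff 0) ^ 4 * red (G.coeff 1) ^ 4 *
      (red (S.coeff 0) ^ 2 * (red (U.coeff 1) ^ 2 + red r * red (G.coeff 1) ^ 2) +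
        red (U.coeff 0) ^ 2 * red (S.coeff 1) ^ 2) := by
    rw [hD]
    simp only [show (4 : ℕ) = 2 * 2 from rfl, pow_mul, pow_two, cm0, cm1, cm2, F0, F1, F2, b0,
      b1, b2]
    simp only [map_add, map_mul, map_ofNat, htwo, zero_mul, add_zero, mul_zero, rg0]
    ring_nf
    reduce_mod_char!
  have rD3 : red (D.coeff 3) = red (S.coeff 0) ^ 6 * red (G.coeff 1) ^ 6 := by
    rw [hD]
    simp only [show (4 : ℕ) = 2 * 2 from rfl, pow_mul, pow_two, cm0, cm1, cm2, cm3, F0, F1, F2,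
      F3, b0, b1, b2, b3]
    simp only [map_add, map_mul, map_ofNat, htwo, zero_mul, add_zero, mul_zero, zero_add, rg0]
    ring_nf
    reduce_mod_char!
  have hDu : IsUnit (D.coeff 0) := by
    apply hun
    rw [rD0]
    exact mul_ne_zero (mul_ne_zero (pow_ne_zero _ hs) (pow_ne_zero _ hG1)) (pow_ne_zero _ hU)
  obtain ⟨iD, hiD⟩ := hDu.exists_right_inv
  -- the right hand side
  have hX2 : ∀ i, (H ^ 2 * (X ^ 2 * g ^ 2)).coeff (i + 2) = (H ^ 2 * g ^ 2).coeff i := by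
    intro i
    rw [show H ^ 2 * (X ^ 2 * g ^ 2) = (H ^ 2 * g ^ 2) * X ^ 2 by ring, coeff_mul_X_pow]
  have hX20 : (H ^ 2 * (X ^ 2 * g ^ 2)).coeff 0 = 0 := by
    rw [show H ^ 2 * (X ^ 2 * g ^ 2) = (H ^ 2 * g ^ 2) * X ^ 2 by ring, coeff_mul_X_pow']
    simp
  have hX21 : (H ^ 2 * (X ^ 2 * g ^ 2)).coeff 1 = 0 := by
    rw [show H ^ 2 * (X ^ 2 * g ^ 2) = (H ^ 2 * g ^ 2) * X ^ 2 by ring, coeff_mul_X_pow']
    simp
  have P0 : (H ^ 2 * g ^ 2).coeff 0 = (H.coeff 0 * g.coeff 0) ^ 2 := by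
    simp only [pow_two, cm0]
    ring
  have P1 : (H ^ 2 * g ^ 2).coeff 1 = 2 * (H.coeff 0 * H.coeff 1 * g.coeff 0 ^ 2 +
      H.coeff 0 ^ 2 * g.coeff 0 * g.coeff 1) := by
    simp only [pow_two, cm0, cm1]
    ring
  have h30 : (H ^ 3).coeff 0 = H.coeff 0 ^ 3 := by
    simp only [pow_succ, pow_zero, one_mul, cm0]
  have h31 : (H ^ 3).coeff 1 = 3 * H.coeff 0 ^ 2 * H.coeff 1 := by
    simp only [pow_succ, pow_zero, one_mul, cm0, cm1]
    ring
  have h33 : red ((H ^ 3).coeff 3) = red (H.coeff 0) ^ 2 * red (H.coeff 3) +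
      red (H.coeff 1) ^ 3 := by
    simp only [pow_succ, pow_zero, one_mul, cm0, cm1, cm2, cm3]
    simp only [map_add, map_mul]
    ring_nf
    reduce_mod_char!
  have k0 := key 0 (by norm_num)
  have k1 := key 1 (by norm_num)
  have k2 := key 2 (by norm_num)
  have k3 := key 3 (by norm_num)
  simp only [coeff_sub, c2] at k0 k1 k2 k3
  rw [hX20, h30, cm0] at k0
  rw [hX21, h31, cm1, D1] at k1
  have hX22 : (H ^ 2 * (X ^ 2 * g ^ 2)).coeff 2 = (H ^ 2 * g ^ 2).coeff 0 := hX2 0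
  have hX23 : (H ^ 2 * (X ^ 2 * g ^ 2)).coeff 3 = (H ^ 2 * g ^ 2).coeff 1 := hX2 1
  rw [hX22, P0, cm2, D1] at k2
  rw [hX23, P1, cm3, D1] at k3
  obtain ⟨l, hl, hl2⟩ := elim red (D.coeff 0) (D.coeff 2) (D.coeff 3)
    (g.coeff 0 ^ 4 * (F.coeff 0 * (a.coeff 1 + S.coeff 0 * S.coeff 1) +
      (U.coeff 0 * U.coeff 1 + M.coeff 1) * (S.coeff 0 ^ 2 + 2 * a.coeff 0)) +
      2 * g.coeff 0 ^ 3 * g.coeff 1 *
        (F.coeff 0 * (S.coeff 0 ^ 2 + 2 * a.coeff 0))) iD (c.coeff 0) (c.coeff 1)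
    (c.coeff 2) (c.coeff 3) (H.coeff 0) (H.coeff 1) ((H ^ 3).coeff 2) ((H ^ 3).coeff 3)
    ((H.coeff 0 * g.coeff 0) ^ 2) (H.coeff 0 * H.coeff 1 * g.coeff 0 ^ 2 +
      H.coeff 0 ^ 2 * g.coeff 0 * g.coeff 1) 0 0 0 0 hiD
    (by linear_combination k0) (by linear_combination k1) (by linear_combination k2)
    (by linear_combination k3)
  refine ⟨l, hl, ?_⟩
  intro κ W e0 e1 he0 he1 hκ hW
  have riD : red iD = 1 / (red (S.coeff 0) ^ 6 * red (G.coeff 1) ^ 4 * red (U.coeff 0) ^ 2) := by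
    rw [eq_div_iff (mul_ne_zero (mul_ne_zero (pow_ne_zero _ hs) (pow_ne_zero _ hG1))
      (pow_ne_zero _ hU)), ← rD0, mul_comm, ← map_mul, hiD, map_one]
  rw [hl2, riD, rD2, rD3]
  simp only [map_add, map_mul, map_pow, map_ofNat, htwo, zero_mul, add_zero, h33, rH0, rH1, rH3,
    rg0]
  have rg1 : red (g.coeff 1) = red (S.coeff 0) * red (G.coeff 2) +
      red (S.coeff 1) * red (G.coeff 1) := by
    rw [hg1, map_add, map_mul, map_mul]
  have rF0 : red (F.coeff 0) = red (U.coeff 0) ^ 2 := by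
    rw [F0]
    simp only [map_add, map_mul, map_pow, map_ofNat, htwo, zero_mul, add_zero]
  rw [rg1, rF0, hκ, hW, ← he0, ← he1]
  generalize red (S.coeff 0) = s at *
  generalize red (S.coeff 1) = s1 at *
  generalize red (G.coeff 1) = g1 at *
  generalize red (G.coeff 2) = g2 at *
  generalize red (U.coeff 0) = u0 at *
  generalize red (a.coeff 1) = a1 at *
  have hfin : (1 / (s ^ 6 * g1 ^ 4 * u0 ^ 2) *
      (s ^ 2 * e0 * (s ^ 2 * e1) * (s * g1) ^ 2 + (s ^ 2 * e0) ^ 2 * (s * g1) *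
          (s * g2 + s1 * g1) +
        ((s ^ 2 * e0) ^ 2 * (s ^ 2 * (g1 * g2) + s1 ^ 2 * e1 + a1 * g1 ^ 2) +
          (s ^ 2 * e1) ^ 3) +
        1 / (s ^ 6 * g1 ^ 4 * u0 ^ 2) * (s ^ 2 * e0 * (s * g1)) ^ 2 *
          ((s * g1) ^ 4 * (u0 ^ 2 * (a1 + s * s1) + e0 * s ^ 2)) +
        1 / (s ^ 6 * g1 ^ 4 * u0 ^ 2) * (s ^ 2 * e0) ^ 2 * (s ^ 2 * e1) *
          (s ^ 4 * g1 ^ 4 * (s ^ 2 * e1 + u0 ^ 2 * s1 ^ 2)) +
        1 / (s ^ 6 * g1 ^ 4 * u0 ^ 2) * (s ^ 2 * e0) ^ 3 * (s ^ 6 * g1 ^ 6))) =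
      e0 * e1 / (g1 ^ 2 * u0 ^ 2) + (e0 * e1 / (g1 ^ 2 * u0 ^ 2)) ^ 2 +
        e1 ^ 3 / (g1 ^ 4 * u0 ^ 2) + 2 * (e0 ^ 2 * g2 / (g1 ^ 3 * u0 ^ 2) +
          e0 ^ 2 * a1 / (s ^ 2 * g1 ^ 2 * u0 ^ 2) + e0 ^ 3 / (g1 ^ 2 * u0 ^ 4) +
          e0 ^ 2 * s1 / (s * g1 ^ 2 * u0 ^ 2) + e0 ^ 2 * e1 * s1 ^ 2 /
            (s ^ 2 * g1 ^ 4 * u0 ^ 2)) := by
    field_simp
    ring
  rw [htwo, zero_mul, add_zero] at hfin
  rw [← hfin]

end main

section tay

variable {R : Type} [CommRing R]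

lemma tay_Hp0 (r : R) (S a U G M : R[X]) :
    taylor r (Hp0 0 S a U G M) =
      Hp0 r (taylor r S) (taylor r a) (taylor r U) (taylor r G) (taylor r M) := by
  unfold Hp0
  have h2 : (2 : R[X]) = C 2 := (map_ofNat C 2).symm
  rw [h2]
  simp only [map_add, taylor_mul, taylor_C, taylor_pow, tay_HH]

end tay

end Loc0

theorem tloc0 : S_tloc0 := by
  intro R _ k _ _ red hun r s₀ χ S₁ a U G M B c F hF hG hχ hs hs₁ hU hG1 hcd hc
  have hsχ : IsUnit (s₀ * χ) := by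
    apply hun
    rw [map_mul]
    exact mul_ne_zero hs hχ
  obtain ⟨t, ht⟩ := hsχ.exists_right_inv
  have hX : taylor r (X - C r) = X := by
    rw [map_sub, taylor_X, taylor_C]
    ring
  have h2 : taylor r (2 : R[X]) = 2 := by
    have h2 : (2 : R[X]) = C 2 := (map_ofNat C 2).symm
    rw [h2, taylor_C]
  have hF' : taylor r F = (taylor r U) ^ 2 + (X + C r) * (taylor r G) ^ 2 + 2 * taylor r M := by
    rw [hF]
    simp only [map_add, taylor_mul, taylor_pow, taylor_X, h2]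
  obtain ⟨S, hS⟩ : ∃ S, S = C s₀ * S₁ := ⟨_, rfl⟩
  rw [← hS] at hc
  have hS' : taylor r S = C s₀ * taylor r S₁ := by rw [hS, taylor_mul, taylor_C]
  have hG' : taylor r S * taylor r G = X * (C (s₀ * χ) * taylor r (S₁ * B)) := by
    rw [hG, hS', taylor_mul, taylor_mul, taylor_C, hX, C_mul, taylor_mul]
    ring
  obtain ⟨B', hB'⟩ : ∃ B', B' = S₁ * B := ⟨_, rfl⟩
  rw [← hB'] at hc hG'
  have hc' : X ^ 4 ∣ (C (t ^ 4) * taylor r c) * (C (s₀ * χ) * taylor r B') ^ 4 *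
        taylor r F -
      (Hp0 r (taylor r S) (taylor r a) (taylor r U) (taylor r G) (taylor r M) *
        (taylor r S * taylor r G) ^ 2 -
        (Hp0 r (taylor r S) (taylor r a) (taylor r U) (taylor r G) (taylor r M)) ^ 2) *
          derivative (taylor r F) := by
    obtain ⟨q, hq⟩ := hc
    have h0 := congrArg (taylor r) hq
    have h1 : X ^ 4 ∣ taylor r c * taylor r B' ^ 4 * taylor r F -
        (Hp0 r (taylor r S) (taylor r a) (taylor r U) (taylor r G) (taylor r M) *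
        (taylor r S * taylor r G) ^ 2 -
        (Hp0 r (taylor r S) (taylor r a) (taylor r U) (taylor r G) (taylor r M)) ^ 2) *
          derivative (taylor r F) := by
      refine ⟨taylor r q, ?_⟩
      rw [map_sub, taylor_mul, taylor_mul, taylor_pow, taylor_mul, map_sub, taylor_mul,
        taylor_pow, taylor_pow, taylor_mul, Loc0.tay_Hp0, tay_der, taylor_mul, taylor_pow,
        hX] at h0
      exact h0
    have e2 : (C (t ^ 4) * taylor r c) * (C (s₀ * χ) * taylor r B') ^ 4 * taylor r F =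
        taylor r c * taylor r B' ^ 4 * taylor r F := by
      have e3 : C (t ^ 4) * C (s₀ * χ) ^ 4 = (1 : R[X]) := by
        rw [← C_pow, ← C_mul, ← mul_pow, mul_comm t, ht, one_pow, C_1]
      linear_combination (taylor r c * taylor r B' ^ 4 * taylor r F) * e3
    rw [e2]
    exact h1
  obtain ⟨l, hl, hl2⟩ := Loc0.loc red hun r (taylor r S) (taylor r a) (taylor r U)
    (taylor r G) (taylor r M)
    (C (s₀ * χ) * taylor r B') (C (t ^ 4) * taylor r c) (taylor r F) hF' hG'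
    (by
      rw [taylor_coeff_zero, hS, eval_mul, eval_C, map_mul]
      exact mul_ne_zero hs hs₁)
    (by rwa [taylor_coeff_zero]) (by rwa [taylor_coeff_one]) hc'
  refine ⟨l, ?_, ?_⟩
  · rw [coeff_C_mul, tay_coeff3 r hcd] at hl
    have h5 : (s₀ * χ) ^ 4 * t ^ 4 = 1 := by rw [← mul_pow, ht, one_pow]
    linear_combination (s₀ * χ) ^ 4 * hl - c.coeff 3 * h5
  · intro κ W e0 e1 he0 he1 hκ hW
    refine hl2 κ W e0 e1 ?_ ?_ ?_ ?_
    · rw [he0, taylor_coeff_zero, taylor_coeff_one, taylor_coeff_one]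
    · rw [he1, taylor_coeff_one, taylor_coeff_one]
    · rw [hκ, taylor_coeff_zero, taylor_coeff_one]
    · rw [hW, taylor_coeff_zero, taylor_coeff_one]

end Pool.Agent.H140.E
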