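import Pool.Agent.H140.E.Stm
import Pool.Agent.H985.FC.Lock

/-!
# Chowla's conjecture for polynomials over `F_q[X]`, `q` even (helper140): task LOCE
-/

set_option autoImplicit false

namespace Pool.Agent.H140.E

open Finset Polynomial
open Pool.Agent.H524 (AC)
open Pool.Agent.H985.Chow (Wl)
open Pool.Agent.H985.KP (sg)
open Pool.Agent.H985.KP.Loc2 (sg_sq sg_zero sg_add sg_pm sg_congr exists_sq sgChar sgChar_apply
  sgChar_ne_one)
open Pool.Agent.H985.Chow.Loc (Ph Ph_apply Ph_bij psi_norm sum_lin)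
open Pool.Agent.H985.FC.LockLocf (prod_sg sum_split)

namespace LocEAux

/-- the elements fixed by the Frobenius map -/
theorem mem_range {F L : Type*} [Field F] [Fintype F] [Field L] [Algebra F L] {z : L}
    (h : z ^ Fintype.card F = z) : ∃ y : F, algebraMap F L y = z := by
  classical
  have hq : 1 < Fintype.card F := Fintype.one_lt_card
  by_contra hne
  push Not at hne
  have hf0 : (X ^ Fintype.card F - X : L[X]) ≠ 0 := FiniteField.X_pow_card_sub_X_ne_zero _ hq
  have hdeg : (X ^ Fintype.card F - X : L[X]).natDegree = Fintype.card F :=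
    FiniteField.X_pow_card_sub_X_natDegree_eq _ hq
  have hsub : insert z (univ.image (algebraMap F L)) ⊆
      (X ^ Fintype.card F - X : L[X]).roots.toFinset := by
    intro w hw
    rw [Multiset.mem_toFinset, mem_roots hf0, IsRoot.def, eval_sub, eval_pow, eval_X, sub_eq_zero]
    rw [mem_insert] at hw
    rcases hw with rfl | hw
    · exact h
    · obtain ⟨y, -, rfl⟩ := mem_image.1 hw
      rw [← map_pow, FiniteField.pow_card]
  have h1 := card_le_card hsub
  rw [card_insert_of_notMem, card_image_of_injective _ (algebraMap F L).injective, card_univ] at h1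
  · have h2 := (Multiset.toFinset_card_le _).trans
      (Polynomial.card_roots' (X ^ Fintype.card F - X : L[X]))
    rw [hdeg] at h2
    omega
  · intro hz
    obtain ⟨y, -, hy⟩ := mem_image.1 hz
    exact hne y hy

section

variable {F : Type} [Field F]

open Classical in
/-- the roots in the algebraic closure -/
noncomputable def RR (c : F[X]) : Finset (AC F) :=
  (c.map (algebraMap F (AC F))).roots.toFinset

theorem mem_RR {c : F[X]} (hc : c ≠ 0) (α : AC F) :
    α ∈ RR c ↔ (c.map (algebraMap F (AC F))).eval α = 0 := by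
  classical
  unfold RR
  rw [Multiset.mem_toFinset, mem_roots ((Polynomial.map_ne_zero_iff
    (algebraMap F (AC F)).injective).2 hc), IsRoot.def]

theorem card_RR (c : F[X]) : (RR c).card ≤ c.natDegree := by
  classical
  unfold RR
  refine (Multiset.toFinset_card_le _).trans ((Polynomial.card_roots' _).trans ?_)
  rw [natDegree_map]

variable [Fintype F]

theorem eval_frob (c : F[X]) (α : AC F) :
    (c.map (algebraMap F (AC F))).eval α ^ Fintype.card F =
      (c.map (algebraMap F (AC F))).eval (α ^ Fintype.card F) := by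
  have h1 := Polynomial.aeval_algHom_apply (FiniteField.frobeniusAlgHom F (AC F)) α c
  rw [FiniteField.frobeniusAlgHom_apply, FiniteField.frobeniusAlgHom_apply] at h1
  rw [eval_map_algebraMap, eval_map_algebraMap]
  exact h1.symm

/-- sums over the roots of equivariant functions are rational -/
theorem descend {c : F[X]} (hc : c ≠ 0) (h : AC F → AC F)
    (hh : ∀ α, h α ^ Fintype.card F = h (α ^ Fintype.card F)) :
    ∃ p : F, algebraMap F (AC F) p = ∑ α ∈ RR c, h α := by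
  classical
  apply mem_range
  have hinj : Function.Injective (FiniteField.frobeniusAlgHom F (AC F)) :=
    RingHom.injective (FiniteField.frobeniusAlgHom F (AC F)).toRingHom
  have h1 : (∑ α ∈ RR c, h α) ^ Fintype.card F =
      FiniteField.frobeniusAlgHom F (AC F) (∑ α ∈ RR c, h α) := rfl
  rw [h1, map_sum]
  have h2 : (RR c).image (FiniteField.frobeniusAlgHom F (AC F)) = RR c := by
    apply eq_of_subset_of_card_le
    · intro β hβ
      obtain ⟨α, hα, rfl⟩ := mem_image.1 hβ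
      rw [mem_RR hc] at hα ⊢
      rw [FiniteField.frobeniusAlgHom_apply, ← eval_frob, hα, zero_pow Fintype.card_ne_zero]
    · rw [card_image_of_injective _ hinj]
  conv_rhs => rw [← h2]
  rw [sum_image fun a _ b _ hab => hinj hab]
  refine Finset.sum_congr rfl fun α _ => ?_
  rw [FiniteField.frobeniusAlgHom_apply, FiniteField.frobeniusAlgHom_apply, hh]

/-- the derivative quotient -/
noncomputable def rr (c : F[X]) (A : F) : F := (derivative c).eval A / c.eval A

variable [CharP F 2]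

omit [Fintype F] in
theorem sum_inv {c : F[X]} (hs : c.Separable) {A : F} (hA : c.eval A ≠ 0) :
    ∑ α ∈ RR c, 1 / (algebraMap F (AC F) A + α) = algebraMap F (AC F) (rr c A) := by
  classical
  have hA' : (c.map (algebraMap F (AC F))).eval (algebraMap F (AC F) A) ≠ 0 := by
    rw [eval_map_algebraMap, aeval_algebraMap_apply, coe_aeval_eq_eval]
    exact fun h => hA ((algebraMap F (AC F)).injective (by rw [h, map_zero]))
  have h1 := (IsAlgClosed.splits (c.map (algebraMap F (AC F)))).eval_derivative_div_eval_of_ne_zero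
    hA'
  have h2 : (c.map (algebraMap F (AC F))).roots.Nodup :=
    Polynomial.nodup_roots (hs.map)
  unfold RR rr
  rw [map_div₀]
  have h3 : algebraMap F (AC F) ((derivative c).eval A) =
      (derivative (c.map (algebraMap F (AC F)))).eval (algebraMap F (AC F) A) := by
    rw [derivative_map, eval_map_algebraMap, aeval_algebraMap_apply, coe_aeval_eq_eval]
  have h4 : algebraMap F (AC F) (c.eval A) =
      (c.map (algebraMap F (AC F))).eval (algebraMap F (AC F) A) := by
    rw [eval_map_algebraMap, aeval_algebraMap_apply, coe_aeval_eq_eval]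
  rw [h3, h4, h1]
  have h5 : ∀ α : AC F, 1 / (algebraMap F (AC F) A + α) = 1 / (algebraMap F (AC F) A - α) := by
    intro α
    rw [CharTwo.sub_eq_add]
  simp only [h5]
  show ((c.map (algebraMap F (AC F))).roots.toFinset.val.map fun α =>
    1 / (algebraMap F (AC F) A - α)).sum = _
  rw [Multiset.toFinset_val, Multiset.dedup_eq_self.2 h2]

/-- the cubic normal form -/
noncomputable def cub (r q₁ q₂ q₃ β y : F) : F := (r * y ^ 3 + q₁ * y ^ 2 + q₂ * y + q₃) / β ^ 2

omit [Fintype F] [CharP F 2] in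
theorem ga (c cX : F[X]) (β x A A' : F) :
    Ws (c.map (algebraMap F (AC F))) (cX.map (algebraMap F (AC F)))
        (algebraMap F (AC F) β) (algebraMap F (AC F) x) (algebraMap F (AC F) A)
        (algebraMap F (AC F) A') =
      ∑ α ∈ RR c, Wl (algebraMap F (AC F) β) (algebraMap F (AC F) x)
        (algebraMap F (AC F) A + α) (algebraMap F (AC F) A' +
          (cX.map (algebraMap F (AC F))).eval α /
            (derivative (c.map (algebraMap F (AC F)))).eval α) := rfl

theorem normal {c : F[X]} (hc : c ≠ 0) (hs : c.Separable) (cX : F[X]) {β : F} (x : F)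
    {A : F} (hA : c.eval A ≠ 0) :
    ∃ q₁ q₂ q₃ : F, ∀ y : F, gE c cX β x A y = sg (cub (rr c A) q₁ q₂ q₃ β y) := by
  classical
  obtain ⟨s, hsq⟩ := exists_sq (F := F)
  have h2 : (2 : AC F) = 0 := CharTwo.two_eq_zero
  set ι := algebraMap F (AC F) with hι
  set a : AC F → AC F := fun α => ((cX.map ι).eval α / (derivative (c.map ι)).eval α) ^ 2 +
    ι x * ι β ^ 2 with ha
  have hfix : ∀ t : F, ι t ^ Fintype.card F = ι t := fun t => by
    rw [← map_pow, FiniteField.pow_card]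
  have haddp : ∀ u v : AC F, (u + v) ^ Fintype.card F = u ^ Fintype.card F + v ^ Fintype.card F :=
    fun u v => map_add (FiniteField.frobeniusAlgHom F (AC F)) u v
  have hder : ∀ α, (derivative (c.map ι)).eval α ^ Fintype.card F =
      (derivative (c.map ι)).eval (α ^ Fintype.card F) := by
    intro α
    rw [derivative_map]
    exact eval_frob (derivative c) α
  have hac : ∀ α, a α ^ Fintype.card F = a (α ^ Fintype.card F) := by
    intro α
    simp only [ha]
    rw [haddp, ← pow_mul, mul_comm 2 (Fintype.card F), pow_mul, div_pow, eval_frob, hder, mul_pow,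
      hfix, ← pow_mul, mul_comm 2 (Fintype.card F), pow_mul, hfix]
  have hden : ∀ α, (ι A + α) ^ Fintype.card F = ι A + α ^ Fintype.card F := by
    intro α
    rw [haddp, hfix]
  have hk : ∀ k : ℕ, ∃ p : F, ι p = ∑ α ∈ RR c, a α ^ k / (ι A + α) ^ 2 := by
    intro k
    apply descend hc
    intro α
    rw [div_pow, ← pow_mul, mul_comm k, pow_mul, hac, ← pow_mul, mul_comm 2, pow_mul, hden]
  obtain ⟨p₁, hp₁⟩ := hk 1
  obtain ⟨p₂, hp₂⟩ := hk 2
  obtain ⟨p₃, hp₃⟩ := hk 3
  have hp₀ : ι (rr c A ^ 2) = ∑ α ∈ RR c, 1 / (ι A + α) ^ 2 := by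
    rw [map_pow, ← sum_inv hs hA, ← frobenius_def, map_sum]
    refine Finset.sum_congr rfl fun α _ => ?_
    rw [frobenius_def, div_pow, one_pow]
  refine ⟨s p₁, s p₂, s p₃, fun y => ?_⟩
  unfold gE
  rw [if_neg hA, ga]
  have hW : ∑ α ∈ RR c, Wl (ι β) (ι x) (ι A + α) (ι y +
          (cX.map ι).eval α / (derivative (c.map ι)).eval α) =
      ι (cub (rr c A) (s p₁) (s p₂) (s p₃) β y ^ 2) := by
    have h3 : cub (rr c A) (s p₁) (s p₂) (s p₃) β y ^ 2 =
        (rr c A ^ 2 * y ^ 6 + p₁ * y ^ 4 + p₂ * y ^ 2 + p₃) / β ^ 4 := by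
      have h2' : (2 : F) = 0 := CharTwo.two_eq_zero
      unfold cub
      rw [div_pow, ← pow_mul]
      congr 1
      have e1 := hsq p₁
      have e2 := hsq p₂
      have e3 := hsq p₃
      linear_combination y ^ 4 * e1 + y ^ 2 * e2 + e3 + (rr c A * y ^ 3 * (s p₁ * y ^ 2) +
        rr c A * y ^ 3 * (s p₂ * y) + rr c A * y ^ 3 * s p₃ + s p₁ * y ^ 2 * (s p₂ * y) +
        s p₁ * y ^ 2 * s p₃ + s p₂ * y * s p₃) * h2'
    rw [h3, map_div₀, map_add, map_add, map_add, map_mul, map_mul, map_mul, hp₀, hp₁, hp₂, hp₃,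
      map_pow, map_pow, map_pow, map_pow, Finset.sum_mul, Finset.sum_mul, Finset.sum_mul,
      ← Finset.sum_add_distrib, ← Finset.sum_add_distrib, ← Finset.sum_add_distrib,
      Finset.sum_div]
    refine Finset.sum_congr rfl fun α _ => ?_
    unfold Wl
    set e := (cX.map ι).eval α / (derivative (c.map ι)).eval α with he
    have h4 : (ι y + e) ^ 2 + ι x * ι β ^ 2 = ι y ^ 2 + a α := by
      simp only [ha]
      rw [← he]
      linear_combination (ι y * e) * h2
    rw [h4]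
    have h5 : (ι y ^ 2 + a α) ^ 3 = ι y ^ 6 + ι y ^ 4 * a α + ι y ^ 2 * a α ^ 2 + a α ^ 3 := by
      linear_combination (ι y ^ 4 * a α + ι y ^ 2 * a α ^ 2) * h2
    rw [h5, mul_comm (ι β ^ 4), ← div_div]
    congr 1
    rw [pow_one]
    ring
  rw [hW]
  rw [← sg_sq]
  unfold sg
  have hiff : (∃ z : F, ι (z ^ 2 + z) = ι (cub (rr c A) (s p₁) (s p₂) (s p₃) β y ^ 2)) ↔
      ∃ z : F, z ^ 2 + z = cub (rr c A) (s p₁) (s p₂) (s p₃) β y ^ 2 := by
    constructor
    · rintro ⟨z, hz⟩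
      exact ⟨z, ι.injective hz⟩
    · rintro ⟨z, hz⟩
      exact ⟨z, by rw [hz]⟩
  by_cases h6 : ∃ z : F, z ^ 2 + z = cub (rr c A) (s p₁) (s p₂) (s p₃) β y ^ 2
  · rw [if_pos h6, if_pos (hiff.2 h6)]
  · rw [if_neg h6, if_neg fun h7 => h6 (hiff.1 h7)]

theorem normal' {c : F[X]} (hc : c ≠ 0) (hs : c.Separable) (cX : F[X]) {β : F}
    (x : F) : ∃ q₁ q₂ q₃ : F → F, ∀ A, c.eval A ≠ 0 → ∀ y : F,
      gE c cX β x A y = sg (cub (rr c A) (q₁ A) (q₂ A) (q₃ A) β y) := by
  have h : ∀ A : F, ∃ q₁ q₂ q₃ : F, c.eval A ≠ 0 → ∀ y : F,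
      gE c cX β x A y = sg (cub (rr c A) q₁ q₂ q₃ β y) := by
    intro A
    by_cases hA : c.eval A = 0
    · exact ⟨0, 0, 0, fun h => absurd hA h⟩
    · obtain ⟨q₁, q₂, q₃, hq⟩ := normal hc hs cX x hA
      exact ⟨q₁, q₂, q₃, fun _ => hq⟩
  choose q₁ q₂ q₃ hq using h
  exact ⟨q₁, q₂, q₃, hq⟩

omit [Fintype F] in
theorem cubes' (r q₁ q₂ q₃ β z a b c : F) :
    cub r q₁ q₂ q₃ β z + cub r q₁ q₂ q₃ β (a + z) +
      (cub r q₁ q₂ q₃ β (b + z) + cub r q₁ q₂ q₃ β (a + (b + z))) +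
      (cub r q₁ q₂ q₃ β (c + z) + cub r q₁ q₂ q₃ β (a + (c + z)) +
        (cub r q₁ q₂ q₃ β (b + (c + z)) + cub r q₁ q₂ q₃ β (a + (b + (c + z))))) = 0 := by
  have h2 : (2 : F) = 0 := CharTwo.two_eq_zero
  unfold cub
  linear_combination ((r * (4 * z ^ 3 + 6 * z ^ 2 * (a + b + c) +
    6 * z * (a ^ 2 + b ^ 2 + c ^ 2 + a * b + b * c + c * a) + 2 * (a ^ 3 + b ^ 3 + c ^ 3) +
    3 * (a ^ 2 * b + a * b ^ 2 + a ^ 2 * c + a * c ^ 2 + b ^ 2 * c + b * c ^ 2) +
    3 * (a * b * c)) + q₁ * (4 * z ^ 2 + 4 * z * (a + b + c) + 2 * (a ^ 2 + b ^ 2 + c ^ 2) +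
    2 * (a * b + b * c + c * a)) + q₂ * (4 * z + 2 * (a + b + c)) + 4 * q₃) / β ^ 2) * h2

open Classical in
/-- the roots in the field -/
noncomputable def Z0 (c : F[X]) : Finset F := c.roots.toFinset

omit [Fintype F] [CharP F 2] in
theorem mem_Z0 {c : F[X]} (hc : c ≠ 0) (A : F) : A ∈ Z0 c ↔ c.eval A = 0 := by
  classical
  unfold Z0
  rw [Multiset.mem_toFinset, mem_roots hc, IsRoot.def]

omit [Fintype F] [CharP F 2] in
theorem card_Z0 (c : F[X]) : (Z0 c).card ≤ c.natDegree := by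
  classical
  exact (Multiset.toFinset_card_le _).trans (Polynomial.card_roots' _)

theorem lockE {c : F[X]} (hc : c ≠ 0) (hs : c.Separable) (cX : F[X]) {β : F}
    (x' : F) (Λ : Type) [Fintype Λ] [DecidableEq Λ] (x₀ y₀ : F) (x y : Λ → F) (l : Fin 3 → Λ)
    (hl : Function.Injective l) (hx : ∀ i, x (l i) = 0)
    (hX : ∀ A : Finset Λ, x₀ + ∑ j ∈ A, x j ∉ Z0 c) :
    ∏ A : Finset Λ, gE c cX β x' (x₀ + ∑ j ∈ A, x j) (y₀ + ∑ j ∈ A, y j) = 1 := by
  obtain ⟨q₁, q₂, q₃, hq⟩ := normal' hc hs cX (β := β) x'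
  have h01 : l 0 ≠ l 1 := fun h => absurd (hl h) (by decide)
  have h02 : l 0 ≠ l 2 := fun h => absurd (hl h) (by decide)
  have h12 : l 1 ≠ l 2 := fun h => absurd (hl h) (by decide)
  rw [Finset.prod_congr rfl fun A _ => hq _ (fun h => hX A ((mem_Z0 hc _).2 h)) _, prod_sg]
  suffices h : ∑ A : Finset Λ, cub (rr c (x₀ + ∑ j ∈ A, x j)) (q₁ (x₀ + ∑ j ∈ A, x j))
      (q₂ (x₀ + ∑ j ∈ A, x j)) (q₃ (x₀ + ∑ j ∈ A, x j)) β (y₀ + ∑ j ∈ A, y j) = 0 by
    rw [h, sg_zero]
  rw [← Finset.powerset_univ, sum_split univ (l 0) (mem_univ _),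
    sum_split (univ.erase (l 0)) (l 1) (mem_erase.2 ⟨h01.symm, mem_univ _⟩),
    sum_split ((univ.erase (l 0)).erase (l 1)) (l 2)
      (mem_erase.2 ⟨h12.symm, mem_erase.2 ⟨h02.symm, mem_univ _⟩⟩)]
  refine Finset.sum_eq_zero fun A hA => ?_
  rw [mem_powerset] at hA
  have n2 : l 2 ∉ A := fun h => by
    have := hA h
    simp at this
  have n1 : l 1 ∉ A := fun h => by
    have := hA h
    simp at this
  have n0 : l 0 ∉ A := fun h => by
    have := hA h
    simp at this
  have n12 : l 1 ∉ insert (l 2) A := by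
    rw [mem_insert]; push Not; exact ⟨h12, n1⟩
  have n01 : l 0 ∉ insert (l 1) A := by
    rw [mem_insert]; push Not; exact ⟨h01, n0⟩
  have n02 : l 0 ∉ insert (l 2) A := by
    rw [mem_insert]; push Not; exact ⟨h02, n0⟩
  have n012 : l 0 ∉ insert (l 1) (insert (l 2) A) := by
    rw [mem_insert]; push Not; exact ⟨h01, n02⟩
  simp only [sum_insert n0, sum_insert n1, sum_insert n2, sum_insert n12, sum_insert n01,
    sum_insert n02, sum_insert n012, hx, zero_add]
  have hcomm : ∀ t : F, y₀ + (t + ∑ j ∈ A, y j) = t + (y₀ + ∑ j ∈ A, y j) := fun t => by ring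
  have key := cubes' (rr c (x₀ + ∑ j ∈ A, x j)) (q₁ (x₀ + ∑ j ∈ A, x j))
      (q₂ (x₀ + ∑ j ∈ A, x j)) (q₃ (x₀ + ∑ j ∈ A, x j)) β (y₀ + ∑ j ∈ A, y j) (y (l 0)) (y (l 1))
      (y (l 2))
  have e1 : ∀ t u : F, y₀ + (t + (u + ∑ j ∈ A, y j)) = t + (u + (y₀ + ∑ j ∈ A, y j)) :=
    fun t u => by ring
  have e2 : ∀ t u v : F, y₀ + (t + (u + (v + ∑ j ∈ A, y j))) =
      t + (u + (v + (y₀ + ∑ j ∈ A, y j))) := fun t u v => by ring
  rw [hcomm, hcomm, hcomm, e1, e1, e1, e2]
  rw [← key]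

/-- the differences of the roots which lie in the field -/
noncomputable def DD (c : F[X]) : Finset F :=
  open Classical in univ.filter fun δ => ∃ α ∈ RR c, ∃ α' ∈ RR c, algebraMap F (AC F) δ = α - α'

omit [CharP F 2] in
theorem card_DD (c : F[X]) : (DD c).card ≤ c.natDegree ^ 2 := by
  classical
  have h1 : ((DD c).image (algebraMap F (AC F))) ⊆
      (RR c ×ˢ RR c).image (fun p => p.1 - p.2) := by
    intro δ hδ
    obtain ⟨d, hd, rfl⟩ := mem_image.1 hδ
    obtain ⟨α, hα, α', hα', h⟩ := (mem_filter.1 hd).2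
    rw [mem_image]
    exact ⟨(α, α'), mem_product.2 ⟨hα, hα'⟩, h.symm⟩
  have h2 := card_le_card h1
  rw [card_image_of_injective _ (algebraMap F (AC F)).injective] at h2
  refine h2.trans (card_image_le.trans ?_)
  rw [card_product, pow_two]
  exact Nat.mul_le_mul (card_RR c) (card_RR c)

omit [CharP F 2] in
theorem coprime_shift {c : F[X]} (hc : c ≠ 0) {κ κ' : F} (h : κ - κ' ∉ DD c) :
    IsCoprime (c.comp (X + C κ)) (c.comp (X + C κ')) := by
  classical
  refine (Polynomial.isCoprime_iff_aeval_ne_zero_of_isAlgClosed (k := F) (AC F) _ _).2 ?_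
  intro a
  by_contra hcon
  push Not at hcon
  obtain ⟨h1, h2⟩ := hcon
  apply h
  rw [aeval_comp, map_add, aeval_X, aeval_C] at h1 h2
  unfold DD
  rw [mem_filter]
  refine ⟨mem_univ _, a + algebraMap F (AC F) κ, ?_, a + algebraMap F (AC F) κ', ?_, ?_⟩
  · rw [mem_RR hc, eval_map_algebraMap]
    exact h1
  · rw [mem_RR hc, eval_map_algebraMap]
    exact h2
  · rw [map_sub]
    ring

variable {ι : Type} [Fintype ι]

/-- the product of the translates -/
noncomputable def PP (c : F[X]) (κ : ι → F) : F[X] := ∏ i, c.comp (X + C (κ i))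

omit [CharP F 2] in
theorem sep_PP {c : F[X]} (hc : c ≠ 0) (hs : c.Separable) {κ : ι → F}
    (h : ∀ i j, i ≠ j → κ i - κ j ∉ DD c) : (PP c κ).Separable := by
  unfold PP
  apply Polynomial.separable_prod
  · intro i j hij
    exact coprime_shift hc (h i j hij)
  · intro i
    have h1 := IsCoprime.map (f := compRingHom (X + C (κ i))) hs
    unfold Separable
    rw [derivative_comp]
    have h2 : derivative (X + C (κ i)) = 1 := by simp
    rw [h2, one_mul]
    exact h1

omit [Fintype F] [CharP F 2] in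
theorem deg_PP (c : F[X]) (κ : ι → F) : (PP c κ).natDegree ≤ c.natDegree * Fintype.card ι := by
  unfold PP
  refine (natDegree_prod_le _ _).trans ?_
  refine (Finset.sum_le_sum (g := fun _ => c.natDegree) fun i _ => ?_).trans ?_
  · refine natDegree_comp_le.trans ?_
    rw [natDegree_X_add_C, mul_one]
  · rw [Finset.sum_const, card_univ, smul_eq_mul, mul_comm]

omit [Fintype F] [CharP F 2] in
theorem der_PP (c : F[X]) (κ : ι → F) {a : F} (ha : ∀ i, c.eval (κ i + a) ≠ 0) :
    (derivative (PP c κ)).eval a = (PP c κ).eval a * ∑ i, rr c (κ i + a) := by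
  classical
  unfold PP
  have h1 : ∀ i, (c.comp (X + C (κ i))).eval a = c.eval (κ i + a) := by
    intro i
    rw [eval_comp, eval_add, eval_X, eval_C, add_comm]
  have h2 : ∀ i, (derivative (c.comp (X + C (κ i)))).eval a = (derivative c).eval (κ i + a) := by
    intro i
    rw [derivative_comp]
    have h2 : derivative (X + C (κ i)) = 1 := by simp
    rw [h2, one_mul, eval_comp, eval_add, eval_X, eval_C, add_comm]
  rw [derivative_prod_finset, eval_finsetSum, Finset.mul_sum]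
  refine Finset.sum_congr rfl fun i hi => ?_
  rw [eval_mul, h2, eval_prod, eval_prod, ← Finset.mul_prod_erase univ _ hi, h1]
  unfold rr
  have := ha i
  field_simp

omit [CharP F 2] in
/-- the sum of the derivative quotients takes every value a bounded number of times -/
theorem card_val [DecidableEq F] [Nonempty ι] {c : F[X]} (hc : c ≠ 0) (hs : c.Separable)
    (hd : 0 < c.natDegree) {κ : ι → F} (h : ∀ i j, i ≠ j → κ i - κ j ∉ DD c) (s0 : F) :
    (univ.filter fun a => (∀ i, c.eval (κ i + a) ≠ 0) ∧ ∑ i, rr c (κ i + a) = s0).card ≤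
      c.natDegree * Fintype.card ι := by
  classical
  set P : F[X] := derivative (PP c κ) - C s0 * PP c κ with hP
  have hP0 : P ≠ 0 := by
    intro h0
    have h1 : derivative (PP c κ) = C s0 * PP c κ := sub_eq_zero.1 h0
    have h2 := sep_PP hc hs h
    unfold Separable at h2
    rw [h1] at h2
    have h3 : IsUnit (PP c κ) := h2.isUnit_of_dvd' dvd_rfl (dvd_mul_left _ _)
    obtain ⟨i₀⟩ := ‹Nonempty ι›
    have h4 : IsUnit (c.comp (X + C (κ i₀))) :=
      isUnit_of_dvd_unit (Finset.dvd_prod_of_mem (fun i => c.comp (X + C (κ i))) (mem_univ i₀)) h3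
    have h5 := natDegree_eq_zero_of_isUnit h4
    rw [natDegree_comp, natDegree_X_add_C, mul_one] at h5
    omega
  have hdeg : P.natDegree ≤ c.natDegree * Fintype.card ι := by
    refine (natDegree_sub_le _ _).trans (max_le ?_ ?_)
    · exact (natDegree_derivative_le _).trans ((Nat.sub_le _ _).trans (deg_PP c κ))
    · exact (natDegree_C_mul_le _ _).trans (deg_PP c κ)
  have hsub : (univ.filter fun a => (∀ i, c.eval (κ i + a) ≠ 0) ∧
      ∑ i, rr c (κ i + a) = s0) ⊆ P.roots.toFinset := by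
    intro a ha
    obtain ⟨-, ha1, ha2⟩ := mem_filter.1 ha
    rw [Multiset.mem_toFinset, mem_roots hP0, IsRoot.def, hP, eval_sub, eval_mul, eval_C,
      der_PP c κ ha1, ha2]
    ring
  exact (card_le_card hsub).trans ((Multiset.toFinset_card_le _).trans
    ((Polynomial.card_roots' _).trans hdeg))

/-- the number of the first digits with a nonzero sum over the second digit -/
theorem card_leE [DecidableEq F] [Nonempty ι] {c : F[X]} (hc : c ≠ 0) (hs : c.Separable)
    (hd : 0 < c.natDegree) {κ : ι → F} (h : ∀ i j, i ≠ j → κ i - κ j ∉ DD c) {β τ t : F}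
    (hβ : β ≠ 0) (hτ : τ ≠ 0) {a : F → F}
    (ha : ∀ x, a x ^ 2 = (∑ i, rr c (κ i + x)) / β ^ 2) (w : F) :
    (univ.filter (fun x => (∀ i, c.eval (κ i + x) ≠ 0) ∧
      t * a x + τ ^ 2 * a x ^ 2 + w = 0)).card ≤ 2 * (c.natDegree * Fintype.card ι) := by
  have h2 : (2 : F) = 0 := CharTwo.two_eq_zero
  set S := univ.filter (fun x => (∀ i, c.eval (κ i + x) ≠ 0) ∧
    t * a x + τ ^ 2 * a x ^ 2 + w = 0) with hS
  by_cases hne : S = ∅
  · rw [hne]; simp
  obtain ⟨x₀, hx₀⟩ := Finset.nonempty_iff_ne_empty.2 hne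
  rw [hS, mem_filter] at hx₀
  have hsub : S ⊆ (univ.filter fun x => (∀ i, c.eval (κ i + x) ≠ 0) ∧
        ∑ i, rr c (κ i + x) = a x₀ ^ 2 * β ^ 2) ∪
      (univ.filter fun x => (∀ i, c.eval (κ i + x) ≠ 0) ∧
        ∑ i, rr c (κ i + x) = (a x₀ + t / τ ^ 2) ^ 2 * β ^ 2) := by
    intro x hx
    rw [hS, mem_filter] at hx
    rw [mem_union, mem_filter, mem_filter]
    have hax : ∑ i, rr c (κ i + x) = a x ^ 2 * β ^ 2 := by
      rw [ha x, div_mul_cancel₀ _ (pow_ne_zero 2 hβ)]
    have h3 : (a x + a x₀) * (t + τ ^ 2 * (a x + a x₀)) = 0 := by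
      linear_combination hx.2.2 - hx₀.2.2 + (a x₀ * t + a x₀ ^ 2 * τ ^ 2 + a x * a x₀ * τ ^ 2) * h2
    rcases mul_eq_zero.1 h3 with h4 | h4
    · left
      refine ⟨mem_univ _, hx.2.1, ?_⟩
      rw [hax]
      have : a x = a x₀ := by linear_combination h4 - a x₀ * h2
      rw [this]
    · right
      refine ⟨mem_univ _, hx.2.1, ?_⟩
      rw [hax]
      have : a x = a x₀ + t / τ ^ 2 := by
        have h5 : τ ^ 2 * a x = τ ^ 2 * (a x₀ + t / τ ^ 2) := by
          rw [mul_add, mul_div_cancel₀ t (pow_ne_zero 2 hτ)]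
          linear_combination h4 - (t + τ ^ 2 * a x₀) * h2
        exact mul_left_cancel₀ (pow_ne_zero 2 hτ) h5
      rw [this]
  refine (card_le_card hsub).trans ((card_union_le _ _).trans ?_)
  have h5 := card_val hc hs hd h (a x₀ ^ 2 * β ^ 2)
  have h6 := card_val hc hs hd h ((a x₀ + t / τ ^ 2) ^ 2 * β ^ 2)
  omega

/-- the constant term -/
noncomputable def SE (c : F[X]) (q₁ q₂ : F → F) (β τ : F) (κ σ : ι → F) (x : F) : F :=
  ∑ i, (rr c (κ i + x) * (σ i ^ 2 * τ + σ i * τ ^ 2 + τ ^ 3) + q₁ (κ i + x) * τ ^ 2 +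
    q₂ (κ i + x) * τ) / β ^ 2

theorem prod_eqE {c : F[X]} {cX : F[X]} {β ρ τ t a : F} {q₁ q₂ q₃ : F → F}
    (hq : ∀ A, c.eval A ≠ 0 → ∀ y : F,
      gE c cX β ρ A y = sg (cub (rr c A) (q₁ A) (q₂ A) (q₃ A) β y)) (κ σ : ι → F)
    {x : F} (y : F) (hx : ∀ i, c.eval (κ i + x) ≠ 0) (ht : t ^ 2 = τ)
    (ha : a ^ 2 = (∑ i, rr c (κ i + x)) / β ^ 2) :
    ∏ i, (gE c cX β ρ (κ i + x) (σ i + y) * gE c cX β ρ (κ i + x) (σ i + y + τ)) =
      sg ((t * a + τ ^ 2 * a ^ 2) * y + SE c q₁ q₂ β τ κ σ x) := by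
  have h2 : (2 : F) = 0 := CharTwo.two_eq_zero
  have h0 : ∀ i ∈ univ, gE c cX β ρ (κ i + x) (σ i + y) * gE c cX β ρ (κ i + x) (σ i + y + τ) =
      sg ((τ * y ^ 2 + τ ^ 2 * y) * (rr c (κ i + x) / β ^ 2) +
        (rr c (κ i + x) * (σ i ^ 2 * τ + σ i * τ ^ 2 + τ ^ 3) + q₁ (κ i + x) * τ ^ 2 +
          q₂ (κ i + x) * τ) / β ^ 2) := by
    intro i _
    rw [hq _ (hx i), hq _ (hx i), ← sg_add]
    congr 1
    unfold cub
    rw [← add_div, mul_div_assoc', ← add_div]
    congr 1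
    set r := rr c (κ i + x)
    set b := q₁ (κ i + x)
    set d := q₂ (κ i + x)
    set e := q₃ (κ i + x)
    set z := σ i
    linear_combination (r * ((z + y) ^ 3 + (z + y) ^ 2 * τ + (z + y) * τ ^ 2 + z * y * τ) +
      b * ((z + y) ^ 2 + (z + y) * τ) + d * (z + y) + e) * h2
  rw [Finset.prod_congr rfl h0, prod_sg, Finset.sum_add_distrib, ← Finset.mul_sum,
    ← Finset.sum_div]
  rw [← ha]
  unfold SE
  refine sg_congr (Y := t * a * y) ?_
  rw [← ht]
  linear_combination (-(t * a * y)) * h2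

/-- the Fourier transform -/
theorem hat_eqE [DecidableEq F] {c : F[X]} {cX : F[X]} {β ρ τ t : F} {q₁ q₂ q₃ : F → F}
    (hq : ∀ A, c.eval A ≠ 0 → ∀ y : F,
      gE c cX β ρ A y = sg (cub (rr c A) (q₁ A) (q₂ A) (q₃ A) β y)) (κ σ : ι → F)
    (ht : t ^ 2 = τ) {a : F → F} (ha : ∀ x, a x ^ 2 = (∑ i, rr c (κ i + x)) / β ^ 2)
    (u w : F) :
    ∑ v : F × F, ((∏ i, (gE c cX β ρ (κ i + v.1) (σ i + v.2) *
        gE c cX β ρ (κ i + v.1) (σ i + v.2 + τ)) : ℝ) : ℂ) * Ph (sgChar F) (u, w) v =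
      ∑ x ∈ univ.filter (fun x => (∀ i, c.eval (κ i + x) ≠ 0) ∧
          t * a x + τ ^ 2 * a x ^ 2 + w = 0),
        sgChar F (SE c q₁ q₂ β τ κ σ x + u * x) * Fintype.card F := by
  rw [Fintype.sum_prod_type]
  have h1 : ∀ x : F, ∑ y : F, ((∏ i, (gE c cX β ρ (κ i + (x, y).1) (σ i + (x, y).2) *
      gE c cX β ρ (κ i + (x, y).1) (σ i + (x, y).2 + τ)) : ℝ) : ℂ) *
        Ph (sgChar F) (u, w) (x, y) =
      if (∀ i, c.eval (κ i + x) ≠ 0) ∧ t * a x + τ ^ 2 * a x ^ 2 + w = 0 then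
        sgChar F (SE c q₁ q₂ β τ κ σ x + u * x) * Fintype.card F else 0 := by
    intro x
    by_cases hx : ∀ i, c.eval (κ i + x) ≠ 0
    · have h3 : ∀ y : F, ((∏ i, (gE c cX β ρ (κ i + (x, y).1) (σ i + (x, y).2) *
          gE c cX β ρ (κ i + (x, y).1) (σ i + (x, y).2 + τ)) : ℝ) : ℂ) *
            Ph (sgChar F) (u, w) (x, y) =
          sgChar F (SE c q₁ q₂ β τ κ σ x + u * x) *
            sgChar F ((t * a x + τ ^ 2 * a x ^ 2 + w) * y) := by
        intro y
        have h4 := prod_eqE hq κ σ y hx ht (ha x)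
        dsimp only
        rw [h4, ← sgChar_apply, Ph_apply, ← AddChar.map_add_eq_mul, ← AddChar.map_add_eq_mul]
        congr 1
        dsimp only
        ring
      rw [Finset.sum_congr rfl fun y _ => h3 y, ← Finset.mul_sum, sum_lin sgChar_ne_one]
      by_cases hw : t * a x + τ ^ 2 * a x ^ 2 + w = 0
      · rw [if_pos hw, if_pos ⟨hx, hw⟩]
      · rw [if_neg hw, if_neg fun h => hw h.2, mul_zero]
    · rw [if_neg fun h => hx h.1]
      refine Finset.sum_eq_zero fun y _ => ?_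
      push Not at hx
      obtain ⟨i, hi⟩ := hx
      have h3 : ∏ i, (gE c cX β ρ (κ i + (x, y).1) (σ i + (x, y).2) *
          gE c cX β ρ (κ i + (x, y).1) (σ i + (x, y).2 + τ)) = 0 := by
        refine Finset.prod_eq_zero (mem_univ i) ?_
        have : gE c cX β ρ (κ i + (x, y).1) (σ i + (x, y).2) = 0 := by
          unfold gE
          exact if_pos hi
        rw [this, zero_mul]
      rw [h3]
      simp
  rw [Finset.sum_congr rfl fun x _ => h1 x, Finset.sum_filter]

end

end LocEAux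

open LocEAux in
theorem locE : S_locE := by
  classical
  intro F _ _ _ c cX β x hmon hs hd hβ
  have hc : c ≠ 0 := hmon.ne_zero
  refine ⟨?_, ?_, ?_⟩
  · intro v
    show |gE c cX β x v.1 v.2| ≤ 1
    unfold gE
    split_ifs
    · simp
    · simp
    · simp
  · refine ⟨Z0 c, card_Z0 c, ?_, ?_⟩
    · intro v hv
      show gE c cX β x v.1 v.2 = 0
      unfold gE
      exact if_pos ((mem_Z0 hc _).1 hv)
    · intro Λ _ _ x₀ y₀ x' y' l hl hx hX
      exact lockE hc hs cX x Λ x₀ y₀ x' y' l hl hx hX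
  · refine ⟨DD c, card_DD c, ?_⟩
    intro ι _ _ τ κ σ hτ hκ χ
    obtain ⟨q₁, q₂, q₃, hq⟩ := normal' hc hs cX (β := β) x
    obtain ⟨s, hsq⟩ := exists_sq (F := F)
    have hbij := Ph_bij (F := F) sgChar_ne_one
    obtain ⟨⟨u, w⟩, rfl⟩ := hbij.2 χ
    have h1 := hat_eqE hq κ σ (hsq τ) (a := fun x => s ((∑ i, rr c (κ i + x)) / β ^ 2))
      (fun x => hsq _) u w
    show ‖∑ v : F × F, ((∏ i, (gE c cX β x (κ i + v.1) (σ i + v.2) *
        gE c cX β x (κ i + v.1) (σ i + v.2 + τ)) : ℝ) : ℂ) * Ph (sgChar F) (u, w) v‖ ≤ _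
    rw [h1]
    refine (norm_sum_le _ _).trans ?_
    have h3 : ∀ x ∈ univ.filter (fun x => (∀ i, c.eval (κ i + x) ≠ 0) ∧
          s τ * s ((∑ i, rr c (κ i + x)) / β ^ 2) +
            τ ^ 2 * s ((∑ i, rr c (κ i + x)) / β ^ 2) ^ 2 + w = 0),
        ‖sgChar F (SE c q₁ q₂ β τ κ σ x + u * x) * (Fintype.card F : ℂ)‖ =
          (Fintype.card F : ℝ) := by
      intro x _
      rw [norm_mul, psi_norm, one_mul, Complex.norm_natCast]
    rw [Finset.sum_congr rfl h3, Finset.sum_const, nsmul_eq_mul]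
    refine mul_le_mul_of_nonneg_right ?_ (Nat.cast_nonneg _)
    have h4 := card_leE hc hs hd hκ (t := s τ) hβ hτ
      (a := fun x => s ((∑ i, rr c (κ i + x)) / β ^ 2)) (fun x => hsq _) w
    have h5 : (2:ℝ) * c.natDegree * Fintype.card ι =
        ((2 * (c.natDegree * Fintype.card ι) : ℕ) : ℝ) := by
      push_cast
      ring
    rw [h5]
    exact_mod_cast h4

end Pool.Agent.H140.E
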