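import Mathlib
import Pool.Agent.H140.E.StmK

set_option autoImplicit false
set_option linter.unusedSectionVars false

namespace Pool.Agent.H140.E

open Polynomial
open Pool.Agent.H140.Q.Local (HH)

namespace LocR

section deriv
variable {R : Type*} [CommRing R]

lemma coeff_dX (p : R[X][X]) (i : ℕ) : (dX p).coeff i = derivative (p.coeff i) := by
  unfold dX
  rw [Polynomial.sum, finsetSum_coeff]
  simp only [coeff_monomial]
  rw [Finset.sum_ite_eq']
  split_ifs with h
  · rfl
  · rw [notMem_support_iff.1 h, derivative_zero]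

lemma dX_add (p q : R[X][X]) : dX (p + q) = dX p + dX q := by
  ext1 i
  rw [coeff_add, coeff_dX, coeff_dX, coeff_dX, coeff_add, derivative_add]

lemma dX_monomial (n : ℕ) (a : R[X]) : dX (monomial n a) = monomial n (derivative a) := by
  ext1 i
  rw [coeff_dX, coeff_monomial, coeff_monomial]
  split_ifs
  · rfl
  · rw [derivative_zero]

lemma deriv_eval (Φ : R[X][X]) (T : R[X]) :
    derivative (Φ.eval T) = (dX Φ).eval T + (derivative Φ).eval T * derivative T := by
  induction Φ using Polynomial.induction_on' with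
  | add p q hp hq =>
    rw [eval_add, derivative_add, hp, hq, dX_add, derivative_add, eval_add, eval_add]
    ring
  | monomial n a =>
    rw [dX_monomial, derivative_monomial, eval_monomial, eval_monomial, eval_monomial,
      derivative_mul, derivative_pow]
    rw [C_eq_natCast]
    ring

lemma dvd_deriv (r : R) (f : R[X]) (h : (X - C r) ^ 5 ∣ f) : (X - C r) ^ 4 ∣ derivative f := by
  obtain ⟨g, rfl⟩ := h
  refine ⟨5 * g + (X - C r) * derivative g, ?_⟩
  have h5 : (C ((5 : ℕ) : R) : R[X]) = 5 := by rw [map_natCast]; rfl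
  rw [derivative_mul, derivative_X_sub_C_pow, h5]
  ring

end deriv

section dom
variable {R : Type*} [CommRing R] [IsDomain R]

lemma pow_dvd_cancel (r : R) (n : ℕ) (a b : R[X]) (ha : a.eval r ≠ 0)
    (h : (X - C r) ^ n ∣ a * b) : (X - C r) ^ n ∣ b := by
  refine (prime_X_sub_C r).pow_dvd_of_dvd_mul_left n ?_ h
  intro h1
  exact ha (dvd_iff_isRoot.1 h1)

lemma inv_mod (r : R) (n : ℕ) (w : R[X]) (hw : IsUnit (w.eval r)) :
    ∃ w', (X - C r) ^ n ∣ w * w' - 1 := by
  obtain ⟨u, hu⟩ := hw.exists_left_inv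
  have h1 : X - C r ∣ w - C (w.eval r) := by
    rw [dvd_iff_isRoot, IsRoot, eval_sub, eval_C, sub_self]
  obtain ⟨g, hg⟩ := h1
  have h2 : IsCoprime (X - C r) w := by
    refine ⟨-(C u * g), C u, ?_⟩
    have h3 : w = (X - C r) * g + C (w.eval r) := by rw [← hg]; ring
    have h4 : C u * C (w.eval r) = 1 := by rw [← C_mul, hu, C_1]
    linear_combination C u * h3 + h4
  obtain ⟨a, b, hab⟩ := (h2.pow_left (m := n))
  exact ⟨b, -a, by linear_combination hab⟩

/-- uniqueness of the roots -/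
lemma newton_unique (r : R) (n : ℕ) (Φ : R[X][X]) (T T' : R[X]) (h : (X - C r) ^ n ∣ Φ.eval T)
    (h' : (X - C r) ^ n ∣ Φ.eval T') (he : T.eval r = T'.eval r)
    (hu : ((derivative Φ).eval T).eval r ≠ 0) : (X - C r) ^ n ∣ T' - T := by
  obtain ⟨k, hk⟩ := binomExpansion Φ T (T' - T)
  rw [add_sub_cancel] at hk
  refine pow_dvd_cancel r n ((derivative Φ).eval T + k * (T' - T)) _ ?_ ?_
  · rw [eval_add, eval_mul, eval_sub, he, sub_self, mul_zero, add_zero]
    exact hu
  · have h1 := dvd_sub h' h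
    have h2 : Φ.eval T' - Φ.eval T =
        ((derivative Φ).eval T + k * (T' - T)) * (T' - T) := by
      rw [hk]
      ring
    rwa [h2] at h1

/-- existence of the roots -/
lemma newton_exists (r : R) (Φ : R[X][X]) (b : R) (h : (Φ.eval (C b)).eval r = 0)
    (hu : IsUnit (((derivative Φ).eval (C b)).eval r)) (n : ℕ) :
    ∃ T : R[X], (X - C r) ^ (n + 1) ∣ Φ.eval T ∧ T.eval r = b := by
  induction n with
  | zero =>
    refine ⟨C b, ?_, eval_C⟩
    rw [zero_add, pow_one, dvd_iff_isRoot]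
    exact h
  | succ n ih =>
    obtain ⟨T, ⟨g, hg⟩, hT⟩ := ih
    have hder : ((derivative Φ).eval T).eval r = ((derivative Φ).eval (C b)).eval r := by
      have h1 := sub_dvd_eval_sub T (C b) (derivative Φ)
      have h2 : X - C r ∣ T - C b := by
        rw [dvd_iff_isRoot, IsRoot, eval_sub, eval_C, hT, sub_self]
      have h3 := dvd_iff_isRoot.1 (h2.trans h1)
      rw [IsRoot, eval_sub, sub_eq_zero] at h3
      exact h3
    obtain ⟨w, hw⟩ := hu.exists_left_inv
    obtain ⟨k, hk⟩ := binomExpansion Φ T ((X - C r) ^ (n + 1) * C (-(g.eval r) * w))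
    refine ⟨T + (X - C r) ^ (n + 1) * C (-(g.eval r) * w), ?_, ?_⟩
    · rw [hk, hg]
      have h4 : X - C r ∣ g + (derivative Φ).eval T * C (-(g.eval r) * w) := by
        rw [dvd_iff_isRoot, IsRoot, eval_add, eval_mul, eval_C, hder]
        linear_combination -(g.eval r) * hw
      obtain ⟨g', hg'⟩ := h4
      refine ⟨g' + k * (X - C r) ^ n * C (-(g.eval r) * w) ^ 2, ?_⟩
      have h5 : g = (X - C r) * g' - (derivative Φ).eval T * C (-(g.eval r) * w) := by
        rw [← hg']; ring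
      generalize C (-(g.eval r) * w) = y at h5 ⊢
      rw [h5]
      ring
    · rw [eval_add, eval_mul, eval_pow, eval_sub, eval_X, eval_C, sub_self,
        zero_pow (Nat.succ_ne_zero n), zero_mul, add_zero, hT]

end dom

section interp
variable {A : Type*} [CommRing A] [Nontrivial A] {ι : Type*} [Fintype ι] [DecidableEq ι]

lemma nodal_dvd (v : ι → A) (hv : ∀ i j, i ≠ j → IsUnit (v i - v j)) (Q : A[X])
    (hQ : ∀ i, Q.eval (v i) = 0) : Lagrange.nodal Finset.univ v ∣ Q := by
  rw [Lagrange.nodal_eq]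
  refine Finset.prod_dvd_of_coprime ?_ ?_
  · intro i _ j _ hij
    exact isCoprime_X_sub_C_of_isUnit_sub (hv i j hij)
  · intro i _
    exact dvd_iff_isRoot.2 (hQ i)

lemma eq_zero_of_roots (v : ι → A) (hv : ∀ i j, i ≠ j → IsUnit (v i - v j)) (Q : A[X])
    (hQ : ∀ i, Q.eval (v i) = 0) (hd : Q.degree < Fintype.card ι) : Q = 0 := by
  by_contra h0
  have h1 := nodal_dvd v hv Q hQ
  refine (Lagrange.nodal_monic (s := Finset.univ) (v := v)).not_dvd_of_degree_lt h0 ?_ h1
  rw [Lagrange.degree_nodal, Finset.card_univ]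
  exact hd

lemma eq_nodal (v : ι → A) (hv : ∀ i j, i ≠ j → IsUnit (v i - v j)) (Q : A[X])
    (hQ : ∀ i, Q.eval (v i) = 0) (hm : Q.Monic) (hd : Q.natDegree = Fintype.card ι) :
    Q = Lagrange.nodal Finset.univ v := by
  have h1 := nodal_dvd v hv Q hQ
  refine eq_of_monic_of_dvd_of_natDegree_le (Lagrange.nodal_monic (s := Finset.univ) (v := v))
    hm h1 ?_
  rw [Lagrange.natDegree_nodal, Finset.card_univ, hd]

/-- the interpolation formula -/
lemma interp (v : ι → A) (hv : ∀ i j, i ≠ j → IsUnit (v i - v j)) (Φ N : A[X]) (y : ι → A)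
    (hΦ : ∀ i, Φ.eval (v i) = 0) (hm : Φ.Monic) (hd : Φ.natDegree = Fintype.card ι)
    (hN : N.degree < Φ.degree) (hy : ∀ i, N.eval (v i) = y i * (derivative Φ).eval (v i))
    (z : A) : N.eval z = ∑ i, y i * ∏ l ∈ Finset.univ.erase i, (z - v l) := by
  have h1 := eq_nodal v hv Φ hΦ hm hd
  have h2 : N = ∑ i, C (y i) * Lagrange.nodal (Finset.univ.erase i) v := by
    rw [← sub_eq_zero]
    refine eq_zero_of_roots v hv _ ?_ ?_
    · intro j
      rw [eval_sub, hy, h1, Lagrange.eval_nodal_derivative_eval_node_eq (Finset.mem_univ j),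
        eval_finsetSum, Finset.sum_eq_single j]
      · rw [eval_mul, eval_C, sub_self]
      · intro i _ hij
        rw [eval_mul, Lagrange.eval_nodal_at_node
          (Finset.mem_erase.2 ⟨Ne.symm hij, Finset.mem_univ j⟩), mul_zero]
      · intro h
        exact absurd (Finset.mem_univ j) h
    · refine (degree_sub_le _ _).trans_lt (max_lt ?_ ?_)
      · rw [h1, Lagrange.degree_nodal, Finset.card_univ] at hN
        exact hN
      · refine (degree_sum_le _ _).trans_lt ?_
        rw [Finset.sup_lt_iff (WithBot.bot_lt_coe _)]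
        intro i _
        refine (degree_mul_le _ _).trans_lt ?_
        rw [Lagrange.degree_nodal, Finset.card_erase_of_mem (Finset.mem_univ i),
          Finset.card_univ]
        have h3 : 0 < Fintype.card ι := Fintype.card_pos_iff.2 ⟨i⟩
        refine (add_le_add_left degree_C_le _).trans_lt ?_
        rw [zero_add]
        exact_mod_cast Nat.sub_lt h3 one_pos
  rw [h2, eval_finsetSum]
  refine Finset.sum_congr rfl fun i _ => ?_
  rw [eval_mul, eval_C, Lagrange.eval_nodal]

end interp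

section data
variable {R : Type*} [CommRing R] [IsDomain R] {k : Type*} [Field k] [CharP k 2]

lemma ev_eval {S : Type*} [CommRing S] (P : S[X][X]) (T : S[X]) (r : S) :
    (P.eval T).eval r = (P.map (evalRingHom r)).eval (T.eval r) := by
  have h := (eval_map_apply (p := P) (f := evalRingHom r) T)
  rw [coe_evalRingHom] at h
  exact h.symm

omit [IsDomain R] [CharP k 2] in
lemma red_ev (red : R →+* k) (P : R[X][X]) (a r : R) :
    red ((P.map (evalRingHom r)).eval a) =
      ((P.map (mapRingHom red)).map (evalRingHom (red r))).eval (red a) := by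
  rw [← eval_map_apply, map_map, map_map]
  have h : red.comp (evalRingHom r) = (evalRingHom (red r)).comp (mapRingHom red) := by
    refine RingHom.ext fun x => ?_
    rw [RingHom.comp_apply, RingHom.comp_apply, coe_evalRingHom, coe_evalRingHom,
      coe_mapRingHom, eval_map_apply]
  rw [h]

omit [IsDomain R] [CharP k 2] in
lemma red_eval (red : R →+* k) (x : R[X]) (r : R) :
    red (x.eval r) = (x.map red).eval (red r) :=
  (eval_map_apply (p := x) (f := red) r).symm

lemma frob_ev (c : k[X][X]) (ρ α : k) :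
    ((c.map (frobenius k[X] 2)).map (evalRingHom ρ)).eval (α ^ 2) =
      ((c.map (evalRingHom ρ)).eval α) ^ 2 := by
  have h : (evalRingHom ρ).comp (frobenius k[X] 2) = (frobenius k 2).comp (evalRingHom ρ) :=
    RingHom.frobenius_comm (evalRingHom ρ) 2
  rw [map_map, h, ← map_map]
  have h2 := eval_map_apply (p := c.map (evalRingHom ρ)) (f := frobenius k 2) α
  rw [frobenius_def, frobenius_def] at h2
  exact h2

lemma frob_der (c : k[X][X]) (ρ α : k) :
    ((derivative (c.map (frobenius k[X] 2))).map (evalRingHom ρ)).eval (α ^ 2) =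
      ((derivative (c.map (evalRingHom ρ))).eval α) ^ 2 := by
  rw [derivative_map, frob_ev, derivative_map]

/-- the lift of a root -/
structure RD (red : R →+* k) (Φ Ψ : R[X][X]) (cpk : k[X][X]) (r : R) (α : k) (T A Y : R[X]) :
    Prop where
  root : (X - C r) ^ 5 ∣ Φ.eval T
  eq : T = A ^ 2 + 2 * Y
  redT : red (T.eval r) = α ^ 2
  redA : red (A.eval r) = α
  redA' : red ((derivative A).eval r) = ((dX cpk).map (evalRingHom (red r))).eval α /
    (derivative (cpk.map (evalRingHom (red r)))).eval α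
  tt : (X - C r) ^ 4 ∣ Ψ.eval T + (derivative Φ).eval T * (A * derivative A + derivative Y)
  redt : red ((A * derivative A + derivative Y).eval r) =
    ((Ψ.map (mapRingHom red)).map (evalRingHom (red r))).eval (α ^ 2) /
      ((derivative (Φ.map (mapRingHom red))).map (evalRingHom (red r))).eval (α ^ 2)

lemma eval_zero_of_dvd {S : Type*} [CommRing S] (r : S) (n : ℕ) (f : S[X])
    (h : (X - C r) ^ (n + 1) ∣ f) : f.eval r = 0 := by
  obtain ⟨g, rfl⟩ := h
  rw [eval_mul, eval_pow, eval_sub, eval_X, eval_C, sub_self, zero_pow (Nat.succ_ne_zero n),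
    zero_mul]

lemma two_dvd (red : R →+* k) (h2 : ∀ x, red x = 0 → ∃ y, x = 2 * y) (P : R[X])
    (hP : P.map red = 0) : ∃ Y, P = 2 * Y := by
  have h1 : C (2 : R) ∣ P := by
    rw [C_dvd_iff_dvd_coeff]
    intro i
    have h3 := congrArg (fun x : k[X] => x.coeff i) hP
    simp only [coeff_map, coeff_zero] at h3
    obtain ⟨y, hy⟩ := h2 _ h3
    exact ⟨y, hy⟩
  obtain ⟨Y, hY⟩ := h1
  refine ⟨Y, ?_⟩
  rw [hY]
  congr 1

lemma root_data (red : R →+* k) (hun : ∀ x, red x ≠ 0 → IsUnit x)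
    (h2 : ∀ x, red x = 0 → ∃ y, x = 2 * y) (h20 : (2 : R) ≠ 0) (hsur : Function.Surjective red)
    (hen : ∀ (P : R[X]) (a₀ : R), P.Monic → red (P.eval a₀) = 0 →
      red ((derivative P).eval a₀) ≠ 0 → ∃ a, P.eval a = 0 ∧ red a = red a₀)
    (Φ Ψ : R[X][X]) (cpk : k[X][X]) (r : R) (hm : Φ.Monic) (hdX : dX Φ = 2 * Ψ)
    (hΦ : Φ.map (mapRingHom red) = cpk.map (frobenius k[X] 2)) (α : k)
    (hα : (cpk.map (evalRingHom (red r))).eval α = 0)
    (hα' : (derivative (cpk.map (evalRingHom (red r)))).eval α ≠ 0) :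
    ∃ T A Y : R[X], RD red Φ Ψ cpk r α T A Y := by
  -- the value of the derivative
  have hder : ∀ b : R, red b = α ^ 2 →
      red (((derivative Φ).map (evalRingHom r)).eval b) =
        ((derivative (cpk.map (evalRingHom (red r)))).eval α) ^ 2 := by
    intro b hb
    rw [red_ev, hb, ← derivative_map, hΦ, frob_der]
  obtain ⟨a₀, ha₀⟩ := hsur (α ^ 2)
  obtain ⟨b, hb, hbr⟩ := hen (Φ.map (evalRingHom r)) a₀ (hm.map _)
    (by rw [red_ev, ha₀, hΦ, frob_ev, hα, zero_pow two_ne_zero])
    (by rw [derivative_map, hder a₀ ha₀]; exact pow_ne_zero 2 hα')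
  rw [ha₀] at hbr
  obtain ⟨T₀, hT₀, hT₀r⟩ := newton_exists r Φ b (by rw [ev_eval, eval_C]; exact hb)
    (by
      rw [ev_eval, eval_C]
      refine hun _ ?_
      rw [hder b hbr]
      exact pow_ne_zero 2 hα') 4
  obtain ⟨Ab, hAb, hAbr⟩ := newton_exists (red r) cpk α (by rw [ev_eval, eval_C]; exact hα)
    (by
      rw [ev_eval, eval_C, ← derivative_map]
      exact isUnit_iff_ne_zero.2 hα') 4
  obtain ⟨A, hA⟩ := Polynomial.map_surjective red hsur Ab
  -- uniqueness
  have h5 : (X - C (red r)) ^ 5 ∣ (Φ.map (mapRingHom red)).eval (T₀.map red) := by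
    have h6 : (Φ.map (mapRingHom red)).eval (T₀.map red) = (Φ.eval T₀).map red := by
      have h7 := eval_map_apply (p := Φ) (f := mapRingHom red) T₀
      rw [coe_mapRingHom] at h7
      exact h7
    rw [h6]
    have h8 := Polynomial.map_dvd red hT₀
    rwa [Polynomial.map_pow, Polynomial.map_sub, map_X, map_C] at h8
  have h6 : (X - C (red r)) ^ 5 ∣ (Φ.map (mapRingHom red)).eval (Ab ^ 2) := by
    rw [hΦ]
    have h7 := eval_map_apply (p := cpk) (f := frobenius k[X] 2) Ab
    rw [frobenius_def, frobenius_def] at h7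
    rw [h7, sq]
    exact hAb.mul_right _
  have h7 : (X - C (red r)) ^ 5 ∣ Ab ^ 2 - T₀.map red := by
    refine newton_unique (red r) 5 (Φ.map (mapRingHom red)) _ _ h5 h6 ?_ ?_
    · rw [← red_eval, hT₀r, hbr, eval_pow, hAbr]
    · rw [ev_eval, ← red_eval, hT₀r, hbr, hΦ, frob_der]
      exact pow_ne_zero 2 hα'
  obtain ⟨wb, hwb⟩ := h7
  obtain ⟨w, hw⟩ := Polynomial.map_surjective red hsur wb
  obtain ⟨T, hT⟩ : ∃ T, T = T₀ + (X - C r) ^ 5 * w := ⟨_, rfl⟩
  have hTr : T.eval r = b := by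
    rw [hT, eval_add, eval_mul, eval_pow, eval_sub, eval_X, eval_C, sub_self,
      zero_pow (by norm_num), zero_mul, add_zero, hT₀r]
  obtain ⟨Y, hY⟩ := two_dvd red h2 (T - A ^ 2) (by
    rw [Polynomial.map_sub, Polynomial.map_pow, hA, hT, Polynomial.map_add, Polynomial.map_mul,
      Polynomial.map_pow, Polynomial.map_sub, map_X, map_C, hw, ← hwb]
    ring)
  have hTY : T = A ^ 2 + 2 * Y := by rw [← hY]; ring
  have hroot : (X - C r) ^ 5 ∣ Φ.eval T := by
    have h8 := sub_dvd_eval_sub T T₀ Φ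
    have h9 : (X - C r) ^ 5 ∣ T - T₀ := ⟨w, by rw [hT]; ring⟩
    have h10 := dvd_add (h9.trans h8) hT₀
    rwa [sub_add_cancel] at h10
  have hdT : derivative T = 2 * (A * derivative A + derivative Y) := by
    have hh : derivative (2 * Y) = 2 * derivative Y := by
      rw [derivative_mul, derivative_ofNat, zero_mul, zero_add]
    rw [hTY, derivative_add, hh, derivative_pow]
    have : (C ((2 : ℕ) : R) : R[X]) = 2 := by rw [map_natCast]; rfl
    rw [this]
    ring
  have htt : (X - C r) ^ 4 ∣ Ψ.eval T +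
      (derivative Φ).eval T * (A * derivative A + derivative Y) := by
    have h8 := dvd_deriv r _ hroot
    rw [deriv_eval, hdX, hdT] at h8
    refine pow_dvd_cancel r 4 2 _ ?_ ?_
    · rw [eval_ofNat]
      exact h20
    · have h9 : (2 * Ψ).eval T = 2 * Ψ.eval T := by rw [eval_mul, eval_ofNat]
      rw [h9] at h8
      have h10 : 2 * (Ψ.eval T + (derivative Φ).eval T * (A * derivative A + derivative Y)) =
        2 * Ψ.eval T + (derivative Φ).eval T * (2 * (A * derivative A + derivative Y)) := by ring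
      rw [h10]
      exact h8
  have hAr : red (A.eval r) = α := by rw [red_eval, hA, hAbr]
  refine ⟨T, A, Y, ⟨hroot, hTY, by rw [hTr, hbr], hAr, ?_, htt, ?_⟩⟩
  · have h8 := eval_zero_of_dvd (red r) 3 _ (dvd_deriv (red r) _ hAb)
    rw [deriv_eval, eval_add, eval_mul, ev_eval, ev_eval, hAbr, ← derivative_map] at h8
    have h9 : red ((derivative A).eval r) = (derivative Ab).eval (red r) := by
      rw [red_eval, ← derivative_map, hA]
    rw [h9, eq_div_iff hα', mul_comm]
    exact CharTwo.add_eq_zero.1 (by rw [add_comm]; exact h8)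
  · have h8 := eval_zero_of_dvd r 3 _ htt
    rw [eval_add, eval_mul, ev_eval, ev_eval, hTr] at h8
    have h9 := congrArg red h8
    rw [map_add, map_mul, map_zero, red_ev, red_ev, hbr] at h9
    have h10 : ((derivative (Φ.map (mapRingHom red))).map (evalRingHom (red r))).eval (α ^ 2)
        ≠ 0 := by
      rw [hΦ, frob_der]
      exact pow_ne_zero 2 hα'
    rw [eq_div_iff h10, mul_comm, derivative_map]
    exact CharTwo.add_eq_zero.1 (by rw [add_comm]; exact h9)

end data

section main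
variable {R : Type} [CommRing R] [IsDomain R] {k : Type} [Field k] [CharP k 2]

omit [IsDomain R] in
lemma der_two' (Y : R[X]) : derivative (2 * Y) = 2 * derivative Y := by
  rw [derivative_mul, derivative_ofNat, zero_mul, zero_add]

omit [IsDomain R] in
lemma der_sq (A : R[X]) : derivative (A ^ 2) = 2 * (A * derivative A) := by
  rw [derivative_pow]
  have : (C ((2 : ℕ) : R) : R[X]) = 2 := by rw [map_natCast]; rfl
  rw [this]
  ring

omit [IsDomain R] in
lemma HH_eq (V G M A Y : R[X]) : HH 0 (V + A) G (M - V * A - A ^ 2 - Y) =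
    HH 0 V G M - (A * derivative A + derivative Y) := by
  unfold HH
  rw [derivative_add, derivative_sub, derivative_sub, derivative_sub, derivative_mul, der_sq]
  ring

omit [IsDomain R] in
lemma der_Z (V G M Z : R[X]) (hZ : Z = V ^ 2 + X * G ^ 2 + 2 * M) :
    derivative Z = G ^ 2 + 2 * HH 0 V G M := by
  refine Pool.Agent.H140.Q.Local.der_F 0 ?_
  rw [hZ, C_0, add_zero]

/-- everything at one root -/
lemma one_root (hloc : S_tloc0) (red : R →+* k) (hun : ∀ x, red x ≠ 0 → IsUnit x)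
    (h20 : (2 : R) ≠ 0) (Φ Ψ e₁ e₂ q₁ q₂ bb : R[X][X]) (cpk : k[X][X])
    (S₁ V G M Z B : R[X]) (r s₀ χ : R) (hdX : dX Φ = 2 * Ψ)
    (h1 : bb ^ 2 * derivative Φ = C ((C s₀ * S₁) ^ 2) + 2 * e₁ + Φ * q₁)
    (h2 : bb ^ 2 * dX Φ = 2 * e₂ + Φ * q₂)
    (hZ : Z = V ^ 2 + X * G ^ 2 + 2 * M) (hG : G = C χ * (B * (X - C r)))
    (hχ : red χ ≠ 0) (hs₀ : red s₀ ≠ 0) (hS₁ : red (S₁.eval r) ≠ 0)
    (hB : red (B.eval r) ≠ 0) (hΦZ : red ((Φ.eval Z).eval r) ≠ 0)
    (hG' : red ((derivative G).eval r) ≠ 0) (α : k) (T A Y : R[X])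
    (hD : RD red Φ Ψ cpk r α T A Y) :
    ∃ (c : R[X]) (l : R), c.natDegree < 4 ∧ c.coeff 3 = (s₀ * χ) ^ 4 * (2 * l) ∧
      (∃ Hp : R[X], (X - C r) ^ 4 ∣ (HT e₁ e₂ (C s₀ * S₁) (HH 0 V G M) (derivative Z)).eval T - Hp ∧
        (X - C r) ^ 4 ∣ c * (S₁ * B) ^ 4 * (Z - T) -
          (Hp * (C s₀ * S₁ * G) ^ 2 - Hp ^ 2) * derivative (Z - T)) ∧
      derivative T = 2 * (A * derivative A + derivative Y) ∧
      red l =
        (kaE (red r) (red (V.eval r)) (red ((derivative V).eval r))
            (red ((derivative G).eval r)) (red ((derivative M).eval r)) α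
            (((dX cpk).map (evalRingHom (red r))).eval α /
              (derivative (cpk.map (evalRingHom (red r)))).eval α)
            (((Ψ.map (mapRingHom red)).map (evalRingHom (red r))).eval (α ^ 2) /
              ((derivative (Φ.map (mapRingHom red))).map (evalRingHom (red r))).eval (α ^ 2)) +
          kaE (red r) (red (V.eval r)) (red ((derivative V).eval r))
            (red ((derivative G).eval r)) (red ((derivative M).eval r)) α
            (((dX cpk).map (evalRingHom (red r))).eval α /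
              (derivative (cpk.map (evalRingHom (red r)))).eval α)
            (((Ψ.map (mapRingHom red)).map (evalRingHom (red r))).eval (α ^ 2) /
              ((derivative (Φ.map (mapRingHom red))).map (evalRingHom (red r))).eval (α ^ 2)) ^ 2 +
          WE (red r) (red (V.eval r)) (red ((derivative V).eval r))
            (red ((derivative G).eval r)) α
            (((dX cpk).map (evalRingHom (red r))).eval α /
              (derivative (cpk.map (evalRingHom (red r)))).eval α)) := by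
  have h2k : (2 : k) = 0 := CharTwo.two_eq_zero
  have hGr : G.eval r = 0 := by
    rw [hG, eval_mul, eval_mul, eval_sub, eval_X, eval_C, eval_C, sub_self, mul_zero, mul_zero]
  have hT' : derivative T = 2 * (A * derivative A + derivative Y) := by
    rw [hD.eq, derivative_add, der_two', der_sq]
    ring
  obtain ⟨t, ht⟩ : ∃ t, t = A * derivative A + derivative Y := ⟨_, rfl⟩
  obtain ⟨S, hS⟩ : ∃ S, S = C s₀ * S₁ := ⟨_, rfl⟩
  obtain ⟨hh, hhh⟩ : ∃ hh, hh = HH 0 V G M := ⟨_, rfl⟩
  obtain ⟨U, hU⟩ : ∃ U, U = V + A := ⟨_, rfl⟩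
  obtain ⟨M', hM'⟩ : ∃ M', M' = M - V * A - A ^ 2 - Y := ⟨_, rfl⟩
  obtain ⟨a, ha⟩ : ∃ a, a = e₁.eval T := ⟨_, rfl⟩
  obtain ⟨F, hF⟩ : ∃ F, F = Z - T := ⟨_, rfl⟩
  have hFU : F = U ^ 2 + X * G ^ 2 + 2 * M' := by
    rw [hF, hZ, hD.eq, hU, hM']
    ring
  have hHH : HH 0 U G M' = hh - t := by rw [hU, hM', HH_eq, hhh, ht]
  have hZ' : derivative Z = G ^ 2 + 2 * hh := by rw [der_Z V G M Z hZ, hhh]
  -- the relations at the root
  have g1 := congrArg (fun P : R[X][X] => P.eval T) h1
  have g2 := congrArg (fun P : R[X][X] => P.eval T) h2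
  simp only [eval_mul, eval_add, eval_pow, eval_C, hdX, eval_ofNat] at g1 g2
  rw [← hS, ← ha] at g1
  have htt := hD.tt
  rw [← ht] at htt
  have he2 : (X - C r) ^ 4 ∣ e₂.eval T + (S ^ 2 + 2 * a) * t := by
    refine pow_dvd_cancel r 4 2 _ (by rw [eval_ofNat]; exact h20) ?_
    have h3 : 2 * (e₂.eval T + (S ^ 2 + 2 * a) * t) =
        (Ψ.eval T + (derivative Φ).eval T * t) * (2 * (bb.eval T) ^ 2) -
          Φ.eval T * (q₂.eval T + 2 * t * q₁.eval T) := by
      linear_combination (-(2 * t)) * g1 - g2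
    rw [h3]
    refine dvd_sub (htt.mul_right _) (Dvd.dvd.mul_right ?_ _)
    exact (pow_dvd_pow _ (by norm_num)).trans hD.root
  obtain ⟨Hp, hHp⟩ : ∃ Hp, Hp = Hp0 0 S a U G M' := ⟨_, rfl⟩
  have hHpe : Hp = S ^ 2 * (hh - t) + a * (G ^ 2 + 2 * (hh - t)) := by
    rw [hHp, Hp0, hHH]
  have hHT : (X - C r) ^ 4 ∣ (HT e₁ e₂ S hh (derivative Z)).eval T - Hp := by
    have h3 : (HT e₁ e₂ S hh (derivative Z)).eval T - Hp = e₂.eval T + (S ^ 2 + 2 * a) * t := by
      rw [HT, hHpe, hZ', eval_add, eval_add, eval_mul, eval_C, eval_C, ← ha]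
      ring
    rw [h3]
    exact he2
  -- values
  have hFr : red (F.eval r) ≠ 0 := by
    intro h0
    apply hΦZ
    have h3 := sub_dvd_eval_sub Z T Φ
    have h4 : F ∣ Φ.eval Z - Φ.eval T := by rw [hF]; exact h3
    obtain ⟨x, hx⟩ := h4
    have h5 := congrArg (fun x : R[X] => x.eval r) hx
    simp only [eval_sub, eval_mul] at h5
    rw [eval_zero_of_dvd r 4 _ hD.root, sub_zero] at h5
    rw [h5, map_mul, h0, zero_mul]
  have hUr : red (U.eval r) ≠ 0 := by
    intro h0
    apply hFr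
    rw [hFU, eval_add, eval_add, eval_mul, eval_pow, eval_pow, hGr, eval_mul, eval_ofNat, map_add,
      map_add, map_mul, map_pow, h0, map_mul, map_ofNat, h2k]
    simp
  -- the polynomial c
  obtain ⟨w', hw'⟩ := inv_mod r 4 ((S₁ * B) ^ 4 * F) (by
    refine hun _ ?_
    rw [eval_mul, eval_pow, eval_mul, map_mul, map_pow, map_mul]
    exact mul_ne_zero (pow_ne_zero _ (mul_ne_zero hS₁ hB)) hFr)
  obtain ⟨Qf, hQf⟩ : ∃ Qf, Qf = (Hp * (S * G) ^ 2 - Hp ^ 2) * derivative F := ⟨_, rfl⟩
  obtain ⟨c, hc⟩ : ∃ c, c = (w' * Qf) %ₘ ((X - C r) ^ 4) := ⟨_, rfl⟩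
  have hmon : ((X - C r) ^ 4 : R[X]).Monic := (monic_X_sub_C r).pow 4
  have hnd : ((X - C r) ^ 4 : R[X]).natDegree = 4 := by
    rw [(monic_X_sub_C r).natDegree_pow, natDegree_X_sub_C]
  have hcd : c.natDegree < 4 := by
    have h3 := natDegree_modByMonic_lt (w' * Qf) hmon (by
      intro h4
      rw [h4, natDegree_one] at hnd
      omega)
    rwa [hnd, ← hc] at h3
  have hcdiv : (X - C r) ^ 4 ∣ c * (S₁ * B) ^ 4 * F - Qf := by
    have h3 := modByMonic_add_div (w' * Qf) ((X - C r) ^ 4)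
    rw [← hc] at h3
    obtain ⟨x, hx⟩ := hw'
    refine ⟨x * Qf - (w' * Qf) /ₘ (X - C r) ^ 4 * ((S₁ * B) ^ 4 * F), ?_⟩
    have h4 : c = w' * Qf - (X - C r) ^ 4 * ((w' * Qf) /ₘ (X - C r) ^ 4) := by
      rw [eq_sub_iff_add_eq]
      exact h3
    generalize (w' * Qf) /ₘ (X - C r) ^ 4 = y at h4 ⊢
    rw [h4]
    linear_combination Qf * hx
  obtain ⟨l, hl1, hl2⟩ := hloc R k red hun r s₀ χ S₁ a U G M' B c F hFU hG hχ hs₀ hS₁ hUr hG' hcd
    (by
      rw [← hS, ← hHp, ← hQf]
      exact hcdiv)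
  refine ⟨c, l, hcd, hl1, ⟨Hp, ?_, ?_⟩, hT', ?_⟩
  · rw [← hS, ← hhh]
    exact hHT
  · rw [← hS, ← hF, ← hQf]
    exact hcdiv
  · obtain ⟨α', hα'⟩ : ∃ x, x = ((dX cpk).map (evalRingHom (red r))).eval α /
      (derivative (cpk.map (evalRingHom (red r)))).eval α := ⟨_, rfl⟩
    obtain ⟨ψφ, hψφ⟩ : ∃ x, x = ((Ψ.map (mapRingHom red)).map (evalRingHom (red r))).eval (α ^ 2) /
      ((derivative (Φ.map (mapRingHom red))).map (evalRingHom (red r))).eval (α ^ 2) := ⟨_, rfl⟩
    rw [← hα', ← hψφ]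
    have hA := hD.redA
    have hA' := hD.redA'
    have htr := hD.redt
    rw [← hα'] at hA'
    rw [← hψφ, eval_add, eval_mul, map_add, map_mul, hA, hA'] at htr
    have hU1 : red (U.eval r) = red (V.eval r) + α := by rw [hU, eval_add, map_add, hA]
    have hU2 : red ((derivative U).eval r) = red ((derivative V).eval r) + α' := by
      rw [hU, derivative_add, eval_add, map_add, hA']
    have hM1 : red ((derivative M').eval r) = red ((derivative M).eval r) -
        (red ((derivative V).eval r) * α + red (V.eval r) * α') - ψφ + α * α' := by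
      rw [hM', derivative_sub, derivative_sub, derivative_sub, derivative_mul, der_sq]
      simp only [eval_sub, eval_add, eval_mul, eval_ofNat, map_sub, map_add, map_mul, map_ofNat,
        hA, hA']
      rw [← htr, h2k]
      ring
    refine hl2 _ _ (red (V.eval r) * red ((derivative V).eval r) +
      red ((derivative M).eval r) + ψφ) ((red ((derivative V).eval r) + α') ^ 2 +
        red r * red ((derivative G).eval r) ^ 2) ?_ ?_ ?_ ?_
    · rw [hU1, hU2, hM1]
      have hh2 : ψφ = -ψφ := (CharTwo.neg_eq ψφ).symm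
      have hh3 : α * α' + α * α' = 0 := CharTwo.add_self_eq_zero _
      linear_combination hh2 - hh3
    · rw [hU2]
    · rw [kaE, hU1]
    · rw [WE, hU1]

end main

end LocR

open LocR in
/-- **Task K2.** -/
theorem locr (h : S_tloc0) : S_locr := by
  classical
  intro R _ _ k _ _ _ red hun h2 h20 hsur hen Φ Ψ e₁ e₂ q₁ q₂ bb cpk S₁ V G M Z B r s₀ χ hm hdX
    hΦ hcm hr1 hr2 hsep hZ hG hχ hs₀ hS₁ hB hΦZ hG'
  obtain ⟨cρ, hcρ⟩ : ∃ cρ, cρ = cpk.map (evalRingHom (red r)) := ⟨_, rfl⟩
  have hcρm : cρ.Monic := by rw [hcρ]; exact hcm.map _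
  have hroot : ∀ α : {α // α ∈ cρ.roots.toFinset}, cρ.eval (α : k) = 0 := by
    intro α
    have h3 := α.2
    rw [Multiset.mem_toFinset, mem_roots hcρm.ne_zero] at h3
    exact h3
  rw [← hcρ] at hsep
  have hder : ∀ α : {α // α ∈ cρ.roots.toFinset}, (derivative cρ).eval (α : k) ≠ 0 := by
    intro α
    intro h0
    obtain ⟨a, b, hab⟩ := hsep
    have h3 := congrArg (fun x : k[X] => x.eval (α : k)) hab
    simp only [eval_add, eval_mul, hroot α, h0, mul_zero, add_zero, eval_one] at h3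
    exact zero_ne_one h3
  have hdata := fun α : {α // α ∈ cρ.roots.toFinset} =>
    root_data red hun h2 h20 hsur hen Φ Ψ cpk r hm hdX hΦ (α : k)
      (by rw [← hcρ]; exact hroot α) (by rw [← hcρ]; exact hder α)
  choose T A Y hD using hdata
  have hone := fun α : {α // α ∈ cρ.roots.toFinset} =>
    one_root h red hun h20 Φ Ψ e₁ e₂ q₁ q₂ bb cpk S₁ V G M Z B r s₀ χ hdX hr1 hr2 hZ hG hχ hs₀ hS₁
      hB hΦZ hG' (α : k) (T α) (A α) (Y α) (hD α)
  choose c l hcd hcl hHp hT' hl using hone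
  choose Hp hHp1 hHp2 using hHp
  -- the quotient
  have hcard : Φ.natDegree = Fintype.card {α // α ∈ cρ.roots.toFinset} := by
    rw [Fintype.card_coe, Multiset.toFinset_card_of_nodup (nodup_roots hsep)]
    have h3 : Φ.natDegree = cpk.natDegree := by
      rw [← hm.natDegree_map (mapRingHom red), hΦ, hcm.natDegree_map]
    rw [h3, ← hcm.natDegree_map (evalRingHom (red r)), ← hcρ]
    exact (splits_iff_card_roots.1 (IsAlgClosed.splits cρ)).symm
  obtain ⟨I, hI⟩ : ∃ I : Ideal R[X], I = Ideal.span {(X - C r) ^ 4} := ⟨_, rfl⟩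
  have hzero : ∀ x : R[X], Ideal.Quotient.mk I x = 0 ↔ (X - C r) ^ 4 ∣ x := by
    intro x
    rw [Ideal.Quotient.eq_zero_iff_mem, hI, Ideal.mem_span_singleton]
  have hnt : Nontrivial (R[X] ⧸ I) := by
    refine ⟨⟨0, 1, fun h0 => ?_⟩⟩
    have h3 := (hzero 1).1 (by rw [map_one]; exact h0.symm)
    have h4 := eval_zero_of_dvd r 3 _ h3
    rw [eval_one] at h4
    exact one_ne_zero h4
  obtain ⟨π, hπ⟩ : ∃ π : R[X] →+* R[X] ⧸ I, π = Ideal.Quotient.mk I := ⟨_, rfl⟩
  rw [← hπ] at hzero
  have hTdiff : ∀ i j, i ≠ j → IsUnit (π (T i) - π (T j)) := by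
    intro i j hij
    obtain ⟨w, hw⟩ := inv_mod r 4 (T i - T j) (by
      refine hun _ ?_
      rw [eval_sub, map_sub, (hD i).redT, (hD j).redT]
      refine sub_ne_zero.2 fun h0 => hij (Subtype.ext (frobenius_inj k 2 ?_))
      rw [frobenius_def, frobenius_def]
      exact h0)
    have h3 := (hzero _).2 hw
    rw [map_sub, map_mul, map_one, sub_eq_zero, map_sub] at h3
    exact IsUnit.of_mul_eq_one _ h3
  have hΦT : ∀ i, π (Φ.eval (T i)) = 0 := fun i =>
    (hzero _).2 ((pow_dvd_pow _ (by norm_num)).trans (hD i).root)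
  have hΦi : ∀ i, (Φ.map π).eval (π (T i)) = 0 := fun i => by
    rw [eval_map_apply, hΦT]
  have hΦm : (Φ.map π).Monic := hm.map π
  have hΦd : (Φ.map π).natDegree = Fintype.card {α // α ∈ cρ.roots.toFinset} := by
    rw [hm.natDegree_map, hcard]
  obtain ⟨P, hP⟩ : ∃ P, P = (HT e₁ e₂ (C s₀ * S₁) (HH 0 V G M) (derivative Z) *
      C ((C s₀ * S₁ * G) ^ 2) - HT e₁ e₂ (C s₀ * S₁) (HH 0 V G M) (derivative Z) ^ 2) *
      (derivative Φ * C (derivative Z) + dX Φ) := ⟨_, rfl⟩
  obtain ⟨N, hN⟩ : ∃ N, N = NT Φ e₁ e₂ (C s₀ * S₁) G (HH 0 V G M) (derivative Z) := ⟨_, rfl⟩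
  have hNP : N = P %ₘ Φ := by rw [hN, NT, hP]
  have hNT : ∀ i, π (N.eval (T i)) = π ((Hp i * (C s₀ * S₁ * G) ^ 2 - Hp i ^ 2) *
      derivative (Z - T i)) * π ((derivative Φ).eval (T i)) := by
    intro i
    have h3 := congrArg (fun x : R[X][X] => π (x.eval (T i))) (modByMonic_add_div P Φ)
    simp only [eval_add, eval_mul, map_add, map_mul, hΦT, zero_mul, add_zero] at h3
    rw [hNP, h3, hP]
    have h4 := (hzero _).2 (hHp1 i)
    rw [map_sub, sub_eq_zero] at h4
    have h5 := (hzero _).2 (hD i).tt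
    rw [map_add, map_mul] at h5
    have h6 : π (Ψ.eval (T i)) = -(π ((derivative Φ).eval (T i)) *
        π (A i * derivative (A i) + derivative (Y i))) := by
      rw [eq_neg_iff_add_eq_zero]
      exact h5
    have h7 : derivative (Z - T i) = derivative Z -
        2 * (A i * derivative (A i) + derivative (Y i)) := by
      rw [derivative_sub, hT']
    rw [h7, hdX]
    simp only [eval_add, eval_sub, eval_mul, eval_pow, eval_C, eval_ofNat, map_mul, map_sub,
      map_add, map_pow, map_ofNat] at h4 h6 ⊢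
    rw [h4, h6]
    ring
  have hint := interp (fun i => π (T i)) hTdiff (Φ.map π) (N.map π)
    (fun i => π ((Hp i * (C s₀ * S₁ * G) ^ 2 - Hp i ^ 2) * derivative (Z - T i))) hΦi hΦm hΦd
    (by
      rw [hm.degree_map]
      refine degree_map_le.trans_lt ?_
      rw [hNP]
      exact degree_modByMonic_lt P hm)
    (fun i => by rw [eval_map_apply, hNT, derivative_map, eval_map_apply]) (π Z)
  rw [eval_map_apply] at hint
  have hΦZe : π (Φ.eval Z) = ∏ i, (π Z - π (T i)) := by
    rw [← eval_map_apply, eq_nodal (fun i => π (T i)) hTdiff (Φ.map π) hΦi hΦm hΦd,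
      Lagrange.eval_nodal]
  refine ⟨∑ i, c i, ∑ i, l i, ?_, ?_, ?_, ?_⟩
  · refine (natDegree_sum_le _ _).trans_lt ?_
    rw [Finset.fold_max_lt]
    exact ⟨by norm_num, fun i _ => hcd i⟩
  · rw [finsetSum_coeff, Finset.mul_sum, Finset.mul_sum]
    exact Finset.sum_congr rfl fun i _ => hcl i
  · rw [← hN, ← hzero, map_sub, sub_eq_zero, hint, map_mul, hΦZe, map_mul, map_sum,
      Finset.sum_mul, Finset.sum_mul]
    refine Finset.sum_congr rfl fun i _ => ?_
    have h3 := (hzero _).2 (hHp2 i)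
    rw [map_sub, sub_eq_zero] at h3
    rw [← h3, ← Finset.mul_prod_erase Finset.univ _ (Finset.mem_univ i), map_mul, map_mul,
      map_sub]
    ring
  · have h3 : (cpk.map (evalRingHom (red r))).roots.toFinset = cρ.roots.toFinset := by rw [hcρ]
    rw [map_sum, h3, ← Finset.sum_coe_sort cρ.roots.toFinset]
    exact Finset.sum_congr rfl fun i _ => hl i

end Pool.Agent.H140.E
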