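import Mathlib
import Pool.Agent.H140.E.Stm
import Pool.Agent.H140.Q.TailM

/-!
# Task TAILE: for almost all `g` the part `m` of `Φ(g + C0)` has bounded degree

Adapted from `Pool/Agent/H140/Q/TailM.lean` (helper650) by helper115.
-/

set_option autoImplicit false

namespace Pool.Agent.H140.E

open Polynomial
open Pool.Agent.H985.Chow (mob MD)
open Pool.Agent.H140.Q (mobM GM liou)
open Pool.Agent.H140.Q.TailMAux

open Classical in
theorem tailE (hcnt : S_cntE) (hbig0 : S_bigE) : S_tailE := by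
  intro K _ _ _ cp u v N C0 hS0 η hη
  have hN : N ≠ 0 := hS0.2.2.1
  have hd0 : (0 : ℝ) ≤ (cp.natDegree : ℝ) := Nat.cast_nonneg _
  have hq2 : (2 : ℝ) ≤ (Fintype.card K : ℝ) := by
    have : 2 ≤ Fintype.card K := Fintype.one_lt_card
    exact_mod_cast this
  set q : ℝ := (Fintype.card K : ℝ) with hq
  obtain ⟨B, nb, hbig⟩ := hbig0 K cp u v N C0 hS0
  obtain ⟨tB, htB⟩ := exists_half B (η / 3) (by positivity) (by positivity)
  obtain ⟨tM, htM⟩ := exists_half (cp.natDegree : ℝ) (η / 3) hd0 (by positivity)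
  set M₁ : ℕ := max tM (max N.natDegree 1) with hM₁
  -- the small primes
  have hSfin : {P : K[X] | P.Monic ∧ Irreducible P ∧ P.natDegree ≤ M₁}.Finite := by
    refine Set.Finite.subset
      (Set.Finite.biUnion (Finset.range (M₁ + 1)).finite_toSet fun d _ => MD_finite (K := K) d) ?_
    intro P hP
    refine Set.mem_biUnion (x := P.natDegree) ?_ ⟨hP.1, rfl⟩
    simp only [Finset.coe_range, Set.mem_Iio]
    have := hP.2.2
    omega
  set S : Finset K[X] := hSfin.toFinset with hS
  have hSmem : ∀ P : K[X], P ∈ S ↔ P.Monic ∧ Irreducible P ∧ P.natDegree ≤ M₁ := by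
    intro P
    rw [hS, Set.Finite.mem_toFinset]
    rfl
  set τ : ℕ := (N ^ 2).natDegree with hτ
  obtain ⟨tS, htS⟩ := exists_half ((cp.natDegree : ℝ) * q ^ (τ * M₁) * (S.card : ℝ)) (η / 3)
    (by positivity) (by positivity)
  set K₁ : ℕ := τ + (tS + 1) with hK₁
  refine ⟨K₁ * ∑ P ∈ S, P.natDegree, max (max nb (2 * tB)) ((tS + 1) * M₁), fun n hn => ?_⟩
  have hn1 : nb ≤ n := by omega
  have hn2 : tB ≤ n / 2 := by omega
  have hn3 : (tS + 1) * M₁ ≤ n := by omega
  -- everything as finsets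
  set G : Finset K[X] := (MD_finite (K := K) n).toFinset with hG
  have hcard : ∀ (p : K[X] → Prop) [DecidablePred p],
      (MD K n ∩ {g | p g}).ncard = (G.filter p).card := by
    intro p _
    rw [← Set.ncard_coe_finset]
    congr 1
    ext g
    simp [hG]
  rw [hcard]
  set A : Finset K[X] := S.biUnion fun P =>
    G.filter fun g => P ^ K₁ ∣ (PhE cp).eval (g + C0) with hA
  set Bs : Finset K[X] := (Finset.Ioc M₁ (n / 2)).biUnion fun d =>
    ((MD_finite (K := K) d).toFinset.filter Irreducible).biUnion fun P =>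
      G.filter fun g => P ^ 2 ∣ (PhE cp).eval (g + C0) with hBs
  set Cs : Finset K[X] := G.filter fun g => ∃ P : K[X], Irreducible P ∧ n < 2 * P.natDegree ∧
    P ^ 2 ∣ (PhE cp).eval (g + C0) with hCs
  have hsub : (G.filter fun g => ¬ ∃ m : K[X], m.natDegree ≤ K₁ * ∑ P ∈ S, P.natDegree ∧
      GM N m ((PhE cp).eval (g + C0))) ⊆ A ∪ (Bs ∪ Cs) := by
    intro g hg
    obtain ⟨hgG, hgm⟩ := Finset.mem_filter.1 hg
    by_contra hno
    rw [Finset.mem_union, Finset.mem_union] at hno
    push Not at hno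
    obtain ⟨hnA, hnB, hnC⟩ := hno
    apply hgm
    have hA' : ∀ P : K[X], P.Monic → Irreducible P → P.natDegree ≤ M₁ →
        ¬ P ^ K₁ ∣ (PhE cp).eval (g + C0) := by
      intro P h1 h2 h3 h4
      exact hnA (Finset.mem_biUnion.2 ⟨P, (hSmem P).2 ⟨h1, h2, h3⟩,
        Finset.mem_filter.2 ⟨hgG, h4⟩⟩)
    have hF : (PhE cp).eval (g + C0) ≠ 0 := by
      intro h0
      apply hA' X monic_X irreducible_X (by rw [natDegree_X]; omega)
      rw [h0]
      exact dvd_zero _
    refine ⟨mp N ((PhE cp).eval (g + C0)), ?_, GM_mp N _ hF⟩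
    refine natDegree_mp N _ hF hN M₁ K₁ (by omega) S
      (fun P h1 h2 h3 => (hSmem P).2 ⟨h1, h2, h3⟩) ?_ hA'
    intro P h1 h2 h3
    by_contra hlt
    push Not at hlt
    by_cases h4 : n < 2 * P.natDegree
    · exact hnC (Finset.mem_filter.2 ⟨hgG, P, h2, h4, h3⟩)
    · apply hnB
      rw [hBs, Finset.mem_biUnion]
      refine ⟨P.natDegree, Finset.mem_Ioc.2 ⟨hlt, by omega⟩, ?_⟩
      rw [Finset.mem_biUnion]
      refine ⟨P, Finset.mem_filter.2 ⟨?_, h2⟩, Finset.mem_filter.2 ⟨hgG, h3⟩⟩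
      rw [Set.Finite.mem_toFinset]
      exact ⟨h1, rfl⟩
  -- the three bounds
  have hAb : (A.card : ℝ) ≤ η / 3 * q ^ n := by
    have h1 : ∀ P ∈ S, ((G.filter fun g => P ^ K₁ ∣ (PhE cp).eval (g + C0)).card : ℝ) ≤
        (cp.natDegree : ℝ) * q ^ (τ * M₁) * (q ^ n * (1 / 2) ^ (tS + 1)) := by
      intro P hP
      obtain ⟨hPm, hPi, hPd⟩ := (hSmem P).1 hP
      have hPd1 : 1 ≤ P.natDegree := hPi.natDegree_pos
      have hle : (K₁ - τ) * P.natDegree ≤ n := by
        have h2 : K₁ - τ = tS + 1 := by omega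
        rw [h2]
        exact (Nat.mul_le_mul_left _ hPd).trans hn3
      have h3 := hcnt K cp u v N C0 P τ K₁ n hS0 hPi (by
        intro hd
        have h4 := natDegree_le_of_dvd hd (pow_ne_zero 2 hN)
        rw [natDegree_pow] at h4
        have h5 : τ + 1 ≤ (τ + 1) * P.natDegree := Nat.le_mul_of_pos_right _ hPd1
        omega) (by omega) hle
      rw [hcard] at h3
      have h4 : ((G.filter fun g => P ^ K₁ ∣ (PhE cp).eval (g + C0)).card : ℝ) ≤
          (cp.natDegree : ℝ) * q ^ (τ * P.natDegree) * q ^ (n - (K₁ - τ) * P.natDegree) := by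
        rw [hq]
        exact_mod_cast h3
      refine h4.trans (mul_le_mul ?_ ?_ (by positivity) (by positivity))
      · exact mul_le_mul_of_nonneg_left (pow_le_pow_right₀ (by linarith)
          (Nat.mul_le_mul_left _ hPd)) hd0
      refine pow_le_half hq2 hle ?_
      have h2 : K₁ - τ = tS + 1 := by omega
      rw [h2]
      exact Nat.le_mul_of_pos_right _ hPd1
    calc (A.card : ℝ) ≤
          ∑ P ∈ S, ((G.filter fun g => P ^ K₁ ∣ (PhE cp).eval (g + C0)).card : ℝ) := by
          exact_mod_cast Finset.card_biUnion_le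
      _ ≤ ∑ P ∈ S, (cp.natDegree : ℝ) * q ^ (τ * M₁) * (q ^ n * (1 / 2) ^ (tS + 1)) :=
          Finset.sum_le_sum h1
      _ = ((cp.natDegree : ℝ) * q ^ (τ * M₁) * (S.card : ℝ) * (1 / 2) ^ (tS + 1)) * q ^ n := by
          rw [Finset.sum_const, nsmul_eq_mul]
          ring
      _ ≤ η / 3 * q ^ n :=
          mul_le_mul_of_nonneg_right (htS (tS + 1) (by omega)) (by positivity)
  have hBb : (Bs.card : ℝ) ≤ η / 3 * q ^ n := by
    have h1 : ∀ d ∈ Finset.Ioc M₁ (n / 2),
        ((((MD_finite (K := K) d).toFinset.filter Irreducible).biUnion fun P =>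
          G.filter fun g => P ^ 2 ∣ (PhE cp).eval (g + C0)).card : ℝ) ≤
            (cp.natDegree : ℝ) * q ^ n * (1 / 2) ^ d := by
      intro d hd
      obtain ⟨hd1, hd2⟩ := Finset.mem_Ioc.1 hd
      have h2 : ∀ P ∈ (MD_finite (K := K) d).toFinset.filter Irreducible,
          ((G.filter fun g => P ^ 2 ∣ (PhE cp).eval (g + C0)).card : ℝ) ≤
            (cp.natDegree : ℝ) * q ^ (n - 2 * d) := by
        intro P hP
        obtain ⟨hPm, hPi⟩ := Finset.mem_filter.1 hP
        rw [Set.Finite.mem_toFinset] at hPm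
        have h3 := hcnt K cp u v N C0 P 0 2 n hS0 hPi (by
          intro hdv
          rw [zero_add, pow_one] at hdv
          have h4 := natDegree_le_of_dvd (hPi.prime.dvd_of_dvd_pow hdv) hN
          rw [hPm.2] at h4
          omega) (by omega) (by rw [hPm.2]; omega)
        rw [hcard, hPm.2, Nat.sub_zero, zero_mul, pow_zero, mul_one] at h3
        rw [hq]
        exact_mod_cast h3
      have h5 : (((MD_finite (K := K) d).toFinset.filter Irreducible).card : ℝ) ≤ q ^ d := by
        have h6 : ((MD_finite (K := K) d).toFinset.filter Irreducible).card ≤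
            Fintype.card K ^ d :=
          (Finset.card_filter_le _ _).trans (by
            rw [← Set.ncard_eq_toFinset_card _ (MD_finite (K := K) d)]
            exact MD_ncard d)
        rw [hq]
        exact_mod_cast h6
      calc ((((MD_finite (K := K) d).toFinset.filter Irreducible).biUnion fun P =>
          G.filter fun g => P ^ 2 ∣ (PhE cp).eval (g + C0)).card : ℝ)
          ≤ ∑ P ∈ (MD_finite (K := K) d).toFinset.filter Irreducible,
            ((G.filter fun g => P ^ 2 ∣ (PhE cp).eval (g + C0)).card : ℝ) := by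
            exact_mod_cast Finset.card_biUnion_le
        _ ≤ ∑ P ∈ (MD_finite (K := K) d).toFinset.filter Irreducible,
            (cp.natDegree : ℝ) * q ^ (n - 2 * d) :=
            Finset.sum_le_sum h2
        _ = (((MD_finite (K := K) d).toFinset.filter Irreducible).card : ℝ) *
            ((cp.natDegree : ℝ) * q ^ (n - 2 * d)) := by rw [Finset.sum_const, nsmul_eq_mul]
        _ ≤ q ^ d * ((cp.natDegree : ℝ) * q ^ (n - 2 * d)) := mul_le_mul_of_nonneg_right h5 (by positivity)
        _ = (cp.natDegree : ℝ) * q ^ (n - d) := by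
            have h7 : n - d = d + (n - 2 * d) := by omega
            rw [h7, pow_add]
            ring
        _ ≤ (cp.natDegree : ℝ) * (q ^ n * (1 / 2) ^ d) :=
            mul_le_mul_of_nonneg_left (pow_le_half hq2 (by omega) le_rfl) hd0
        _ = (cp.natDegree : ℝ) * q ^ n * (1 / 2) ^ d := by ring
    calc (Bs.card : ℝ) ≤ ∑ d ∈ Finset.Ioc M₁ (n / 2),
          ((((MD_finite (K := K) d).toFinset.filter Irreducible).biUnion fun P =>
          G.filter fun g => P ^ 2 ∣ (PhE cp).eval (g + C0)).card : ℝ) := by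
          exact_mod_cast Finset.card_biUnion_le
      _ ≤ ∑ d ∈ Finset.Ioc M₁ (n / 2), (cp.natDegree : ℝ) * q ^ n * (1 / 2) ^ d := Finset.sum_le_sum h1
      _ = (cp.natDegree : ℝ) * q ^ n * ∑ d ∈ Finset.Ioc M₁ (n / 2), (1 / 2 : ℝ) ^ d := by
          rw [Finset.mul_sum]
      _ ≤ (cp.natDegree : ℝ) * q ^ n * (1 / 2) ^ M₁ :=
          mul_le_mul_of_nonneg_left (sum_half _ _) (by positivity)
      _ = ((cp.natDegree : ℝ) * (1 / 2) ^ M₁) * q ^ n := by ring
      _ ≤ η / 3 * q ^ n :=
          mul_le_mul_of_nonneg_right (htM M₁ (le_max_left _ _)) (by positivity)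
  have hCb : (Cs.card : ℝ) ≤ η / 3 * q ^ n := by
    have h1 := hbig n hn1
    rw [hcard] at h1
    have h2 : (Cs.card : ℝ) ≤ B * q ^ (n / 2) := by
      rw [hq]
      exact_mod_cast h1
    have h3 : n / 2 = n - (n - n / 2) := by omega
    have h4 : q ^ (n / 2) ≤ q ^ n * (1 / 2) ^ (n / 2) := by
      conv_lhs => rw [h3]
      exact pow_le_half hq2 (by omega) (by omega)
    calc (Cs.card : ℝ) ≤ B * q ^ (n / 2) := h2
      _ ≤ B * (q ^ n * (1 / 2) ^ (n / 2)) := mul_le_mul_of_nonneg_left h4 (by positivity)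
      _ = (B * (1 / 2) ^ (n / 2)) * q ^ n := by ring
      _ ≤ η / 3 * q ^ n := mul_le_mul_of_nonneg_right (htB _ hn2) (by positivity)
  have htot : ((G.filter fun g => ¬ ∃ m : K[X], m.natDegree ≤ K₁ * ∑ P ∈ S, P.natDegree ∧
      GM N m ((PhE cp).eval (g + C0))).card : ℝ) ≤ (A.card : ℝ) + ((Bs.card : ℝ) + (Cs.card : ℝ)) := by
    have h1 := (Finset.card_le_card hsub).trans ((Finset.card_union_le _ _).trans
      (Nat.add_le_add_left (Finset.card_union_le _ _) _))
    exact_mod_cast h1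
  calc _ ≤ (A.card : ℝ) + ((Bs.card : ℝ) + (Cs.card : ℝ)) := htot
    _ ≤ η / 3 * q ^ n + (η / 3 * q ^ n + η / 3 * q ^ n) := add_le_add hAb (add_le_add hBb hCb)
    _ = η * q ^ n := by ring

end Pool.Agent.H140.E
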