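import Mathlib
import Pool.Agent.H140.E.Stm
import Pool.Agent.H604.FC.Win4e

/-!
# Window bound for products of abstract local functions, part a (local functions)

Adapted from `Pool.Agent.H604.FC.Win4b`.
-/

set_option autoImplicit false
set_option linter.unusedSectionVars false

namespace Pool.Agent.H140.E

open Polynomial
open Pool.Agent.H604.FC (rp)
open Pool.Agent.H604.FC.W4 (rp_add)

namespace W4E

section loc

variable {K : Type} [Field K] {r : ℕ} {Λ : Type} [Fintype Λ]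

/-- the product over all the shifts of the local function of index `j` at `P` -/
noncomputable def psi (E : K[X]) (Z : Fin r → K[X])
    (φ : Fin r → ∀ P : K[X], AdjoinRoot P × AdjoinRoot P → ℝ) (w : Λ → K[X]) (w0 : K[X])
    (j : Fin r) (P : K[X]) (x : AdjoinRoot P × AdjoinRoot P) : ℝ :=
  ∏ A : Finset Λ, (φ j P (rp P (Z j + E * ∑ l ∈ A, w l) + x) *
    φ j P (rp P (Z j + E * (w0 + ∑ l ∈ A, w l)) + x))

open Classical in
/-- the local function at `P` of the product over all the shifts -/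
noncomputable def phiW (E : K[X]) (hh Z : Fin r → K[X])
    (φ : Fin r → ∀ P : K[X], AdjoinRoot P × AdjoinRoot P → ℝ) (w : Λ → K[X]) (w0 : K[X])
    (P : K[X]) (x : AdjoinRoot P × AdjoinRoot P) : ℝ :=
  ∏ j ∈ Finset.univ.filter (fun j => P ∣ hh j), psi E Z φ w w0 j P x

lemma abs_psi {E : K[X]} {Z : Fin r → K[X]}
    {φ : Fin r → ∀ P : K[X], AdjoinRoot P × AdjoinRoot P → ℝ} {w : Λ → K[X]} {w0 : K[X]}
    {j : Fin r} {P : K[X]} (h : ∀ v, |φ j P v| ≤ 1) (x : AdjoinRoot P × AdjoinRoot P) :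
    |psi E Z φ w w0 j P x| ≤ 1 := by
  unfold psi
  rw [Finset.abs_prod]
  refine Finset.prod_le_one (fun _ _ => abs_nonneg _) fun A _ => ?_
  rw [abs_mul]
  exact mul_le_one₀ (h _) (abs_nonneg _) (h _)

lemma abs_phiW {E : K[X]} {hh Z : Fin r → K[X]}
    {φ : Fin r → ∀ P : K[X], AdjoinRoot P × AdjoinRoot P → ℝ} {w : Λ → K[X]} {w0 : K[X]}
    {P : K[X]} (h : ∀ j, P ∣ hh j → ∀ v, |φ j P v| ≤ 1) (x : AdjoinRoot P × AdjoinRoot P) :
    |phiW E hh Z φ w w0 P x| ≤ 1 := by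
  classical
  unfold phiW
  rw [Finset.abs_prod]
  refine Finset.prod_le_one (fun _ _ => abs_nonneg _) fun j hj => ?_
  exact abs_psi (h j (Finset.mem_filter.1 hj).2) x

lemma phiW_single {E : K[X]} {hh Z : Fin r → K[X]}
    {φ : Fin r → ∀ P : K[X], AdjoinRoot P × AdjoinRoot P → ℝ} {w : Λ → K[X]} {w0 : K[X]}
    {P : K[X]} {j : Fin r} (hj : ∀ i, P ∣ hh i ↔ i = j) (x : AdjoinRoot P × AdjoinRoot P) :
    phiW E hh Z φ w w0 P x = psi E Z φ w w0 j P x := by
  classical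
  unfold phiW
  have hf : Finset.univ.filter (fun i => P ∣ hh i) = {j} := by
    ext i
    rw [Finset.mem_filter, Finset.mem_singleton, hj]
    simp
  rw [hf, Finset.prod_singleton]

lemma lock_aux {P : K[X]} {f : AdjoinRoot P × AdjoinRoot P → ℝ} {Zs : Finset (AdjoinRoot P)}
    (hZ : ∀ (Λ : Type) [Fintype Λ] [DecidableEq Λ] (x₀ y₀ : AdjoinRoot P)
      (x y : Λ → AdjoinRoot P) (l : Fin 3 → Λ), Function.Injective l → (∀ i, x (l i) = 0) →
      (∀ A : Finset Λ, x₀ + ∑ j ∈ A, x j ∉ Zs) →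
      ∏ A : Finset Λ, f (x₀ + ∑ j ∈ A, x j, y₀ + ∑ j ∈ A, y j) = 1)
    (E W : K[X]) (w : Λ → K[X]) (x : AdjoinRoot P × AdjoinRoot P)
    (l : Fin 3 → Λ) (hl : Function.Injective l) (hw : ∀ m, P ∣ w (l m))
    (hn : ∀ A : Finset Λ, AdjoinRoot.mk P (W + E * ∑ l ∈ A, w l) + x.1 ∉ Zs) :
    ∏ A : Finset Λ, f (rp P (W + E * ∑ l ∈ A, w l) + x) = 1 := by
  classical
  have e1 : ∀ A : Finset Λ, AdjoinRoot.mk P (W + E * ∑ l ∈ A, w l) + x.1 =
      (AdjoinRoot.mk P W + x.1) + ∑ j ∈ A, AdjoinRoot.mk P (E * w j) := by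
    intro A
    rw [Finset.mul_sum, map_add, map_sum]
    ring
  have e2 : ∀ A : Finset Λ, AdjoinRoot.mk P (derivative (W + E * ∑ l ∈ A, w l)) + x.2 =
      (AdjoinRoot.mk P (derivative W) + x.2) + ∑ j ∈ A, AdjoinRoot.mk P (derivative (E * w j)) := by
    intro A
    rw [Finset.mul_sum, derivative_add, derivative_sum, map_add, map_sum]
    ring
  have h1 := hZ Λ (AdjoinRoot.mk P W + x.1) (AdjoinRoot.mk P (derivative W) + x.2)
    (fun j => AdjoinRoot.mk P (E * w j)) (fun j => AdjoinRoot.mk P (derivative (E * w j))) l hl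
    (fun m => by
      show AdjoinRoot.mk P (E * w (l m)) = 0
      rw [AdjoinRoot.mk_eq_zero]
      exact (hw m).mul_left _)
    (fun A => by
      rw [← e1]
      exact hn A)
  rw [← h1]
  refine Finset.prod_congr rfl fun A _ => ?_
  show f (AdjoinRoot.mk P (W + E * ∑ l ∈ A, w l) + x.1,
    AdjoinRoot.mk P (derivative (W + E * ∑ l ∈ A, w l)) + x.2) = _
  rw [e1, e2]

/-- at the killed primes the product is the indicator function of the complement of a small set -/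
lemma psi_killed {E : K[X]} {Z : Fin r → K[X]}
    {φ : Fin r → ∀ P : K[X], AdjoinRoot P × AdjoinRoot P → ℝ} {w : Λ → K[X]} {w0 : K[X]}
    {j : Fin r} {P : K[X]} [hP : Fact (Irreducible P)] [Fintype (AdjoinRoot P)] {d : ℕ}
    (hφ : LocF (AdjoinRoot P) d (φ j P)) (l : Fin 3 → Λ) (hl : Function.Injective l)
    (hw : ∀ m, P ∣ w (l m)) :
    ∃ S : Finset (AdjoinRoot P), S.card ≤ 2 * (d * 2 ^ Fintype.card Λ) ∧
      ∀ z ζ, (z ∈ S → psi E Z φ w w0 j P (z, ζ) = 0) ∧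
        (z ∉ S → psi E Z φ w w0 j P (z, ζ) = 1) := by
  classical
  obtain ⟨Zs, hZc, hZ0, hZ1⟩ := hφ.lock
  refine ⟨(Zs ×ˢ (Finset.univ : Finset (Finset Λ))).image
      (fun p => p.1 - AdjoinRoot.mk P (Z j + E * ∑ l ∈ p.2, w l)) ∪
    (Zs ×ˢ (Finset.univ : Finset (Finset Λ))).image
      (fun p => p.1 - AdjoinRoot.mk P (Z j + E * (w0 + ∑ l ∈ p.2, w l))), ?_, ?_⟩
  · have h1 : (Zs ×ˢ (Finset.univ : Finset (Finset Λ))).card ≤ d * 2 ^ Fintype.card Λ := by
      rw [Finset.card_product, Finset.card_univ, Fintype.card_finset]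
      exact Nat.mul_le_mul_right _ hZc
    have h2 := Finset.card_image_le (s := Zs ×ˢ (Finset.univ : Finset (Finset Λ)))
      (f := fun p => p.1 - AdjoinRoot.mk P (Z j + E * ∑ l ∈ p.2, w l))
    have h3 := Finset.card_image_le (s := Zs ×ˢ (Finset.univ : Finset (Finset Λ)))
      (f := fun p => p.1 - AdjoinRoot.mk P (Z j + E * (w0 + ∑ l ∈ p.2, w l)))
    refine (Finset.card_union_le _ _).trans ?_
    omega
  · intro z ζ
    constructor
    · intro hz
      rw [Finset.mem_union, Finset.mem_image, Finset.mem_image] at hz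
      rcases hz with ⟨⟨ξ, A⟩, hp, hA⟩ | ⟨⟨ξ, A⟩, hp, hA⟩
      · unfold psi
        apply Finset.prod_eq_zero (Finset.mem_univ A)
        have e : (rp P (Z j + E * ∑ l ∈ A, w l) + (z, ζ)).1 = ξ := by
          show AdjoinRoot.mk P (Z j + E * ∑ l ∈ A, w l) + z = ξ
          rw [← hA]
          ring
        have h4 := hZ0 (rp P (Z j + E * ∑ l ∈ A, w l) + (z, ζ))
          (by rw [e]; exact (Finset.mem_product.1 hp).1)
        rw [h4, zero_mul]
      · unfold psi
        apply Finset.prod_eq_zero (Finset.mem_univ A)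
        have e : (rp P (Z j + E * (w0 + ∑ l ∈ A, w l)) + (z, ζ)).1 = ξ := by
          show AdjoinRoot.mk P (Z j + E * (w0 + ∑ l ∈ A, w l)) + z = ξ
          rw [← hA]
          ring
        have h4 := hZ0 (rp P (Z j + E * (w0 + ∑ l ∈ A, w l)) + (z, ζ))
          (by rw [e]; exact (Finset.mem_product.1 hp).1)
        rw [h4, mul_zero]
    · intro hz
      rw [Finset.mem_union, Finset.mem_image, Finset.mem_image] at hz
      push Not at hz
      obtain ⟨hz1, hz2⟩ := hz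
      unfold psi
      rw [Finset.prod_mul_distrib]
      have h1 : ∏ A : Finset Λ, φ j P (rp P (Z j + E * ∑ l ∈ A, w l) + (z, ζ)) = 1 := by
        apply lock_aux hZ1 E (Z j) w (z, ζ) l hl hw
        intro A hA
        refine hz1 (_, A) (Finset.mem_product.2 ⟨hA, Finset.mem_univ A⟩) ?_
        show AdjoinRoot.mk P (Z j + E * ∑ l ∈ A, w l) + z -
          AdjoinRoot.mk P (Z j + E * ∑ l ∈ A, w l) = z
        ring
      have h2 : ∏ A : Finset Λ, φ j P (rp P (Z j + E * (w0 + ∑ l ∈ A, w l)) + (z, ζ)) = 1 := by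
        have e : ∀ A : Finset Λ, Z j + E * (w0 + ∑ l ∈ A, w l) =
            (Z j + E * w0) + E * ∑ l ∈ A, w l := fun A => by ring
        rw [Finset.prod_congr rfl fun A _ => by rw [e A]]
        apply lock_aux hZ1 E (Z j + E * w0) w (z, ζ) l hl hw
        intro A hA
        rw [← e] at hA
        refine hz2 (_, A) (Finset.mem_product.2 ⟨hA, Finset.mem_univ A⟩) ?_
        show AdjoinRoot.mk P (Z j + E * (w0 + ∑ l ∈ A, w l)) + z -
          AdjoinRoot.mk P (Z j + E * (w0 + ∑ l ∈ A, w l)) = z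
        ring
      rw [h1, h2, mul_one]

/-- the linear property with lifts of the exceptional differences -/
def LinP (P : K[X]) [Fact (Irreducible P)] [Fintype (AdjoinRoot P)] (d : ℕ)
    (f : AdjoinRoot P × AdjoinRoot P → ℝ) (DL : Finset K[X]) : Prop :=
  ∀ (ι : Type) [Fintype ι] [Nonempty ι] (τ : AdjoinRoot P) (κ σ : ι → AdjoinRoot P), τ ≠ 0 →
      (∀ i j, i ≠ j → ∀ δ ∈ DL, κ i - κ j ≠ AdjoinRoot.mk P δ) →
      ∀ χ : AddChar (AdjoinRoot P × AdjoinRoot P) ℂ,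
      ‖∑ v : AdjoinRoot P × AdjoinRoot P, ((∏ i, (f (κ i + v.1, σ i + v.2) *
        f (κ i + v.1, σ i + v.2 + τ)) : ℝ) : ℂ) * χ v‖ ≤
        2 * d * Fintype.card ι * Fintype.card (AdjoinRoot P)

lemma lin_lift {P : K[X]} [Fact (Irreducible P)] [Fintype (AdjoinRoot P)] {d : ℕ}
    {f : AdjoinRoot P × AdjoinRoot P → ℝ} (hφ : LocF (AdjoinRoot P) d f) :
    ∃ DL : Finset K[X], DL.card ≤ d ^ 2 ∧ LinP P d f DL := by
  classical
  obtain ⟨D, hD1, hD2⟩ := hφ.lin
  refine ⟨D.image (Function.surjInv (AdjoinRoot.mk_surjective (g := P))),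
    Finset.card_image_le.trans hD1, ?_⟩
  intro ι _ _ τ κ σ hτ hκ χ
  refine hD2 ι τ κ σ hτ (fun i j hij hmem => ?_) χ
  refine hκ i j hij _ (Finset.mem_image_of_mem _ hmem) ?_
  exact (Function.surjInv_eq AdjoinRoot.mk_surjective _).symm

lemma psi_linear {E : K[X]} {Z : Fin r → K[X]}
    {φ : Fin r → ∀ P : K[X], AdjoinRoot P × AdjoinRoot P → ℝ} {w : Λ → K[X]} {w0 : K[X]}
    {j : Fin r} {P : K[X]} [hP : Fact (Irreducible P)] [Fintype (AdjoinRoot P)] {d : ℕ}
    {DL : Finset K[X]} (hφ : LinP P d (φ j P) DL) (hw0 : P ∣ w0)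
    (hw0' : ¬ P ∣ derivative (E * w0))
    (hinj : ∀ A A', A ≠ A' → ∀ δ ∈ DL, ¬ P ∣ E * (∑ l ∈ A, w l - ∑ l ∈ A', w l) - δ)
    (χ : AddChar (AdjoinRoot P × AdjoinRoot P) ℂ) :
    ‖∑ x, (psi E Z φ w w0 j P x : ℂ) * χ x‖ ≤
      2 * (d * 2 ^ Fintype.card Λ : ℝ) * (Fintype.card (AdjoinRoot P) : ℝ) := by
  classical
  have h1 := hφ (Finset Λ) (AdjoinRoot.mk P (derivative (E * w0)))
    (fun A => AdjoinRoot.mk P (Z j + E * ∑ l ∈ A, w l))
    (fun A => AdjoinRoot.mk P (derivative (Z j + E * ∑ l ∈ A, w l)))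
    (by rwa [Ne, AdjoinRoot.mk_eq_zero]) ?_ χ
  swap
  · intro A A' hA δ hδ h
    apply hinj A A' hA δ hδ
    rw [← AdjoinRoot.mk_eq_zero, map_sub, ← h, ← map_sub, ← map_sub]
    have e : E * (∑ l ∈ A, w l - ∑ l ∈ A', w l) -
        (Z j + E * ∑ l ∈ A, w l - (Z j + E * ∑ l ∈ A', w l)) = 0 := by ring
    rw [e, map_zero]
  have h2 : ∀ x : AdjoinRoot P × AdjoinRoot P, psi E Z φ w w0 j P x =
      ∏ A : Finset Λ, (φ j P (AdjoinRoot.mk P (Z j + E * ∑ l ∈ A, w l) + x.1,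
        AdjoinRoot.mk P (derivative (Z j + E * ∑ l ∈ A, w l)) + x.2) *
        φ j P (AdjoinRoot.mk P (Z j + E * ∑ l ∈ A, w l) + x.1,
        AdjoinRoot.mk P (derivative (Z j + E * ∑ l ∈ A, w l)) + x.2 +
          AdjoinRoot.mk P (derivative (E * w0)))) := by
    intro x
    unfold psi
    refine Finset.prod_congr rfl fun A _ => ?_
    have e0 : AdjoinRoot.mk P (E * w0) = 0 := by
      rw [AdjoinRoot.mk_eq_zero]
      exact hw0.mul_left _
    have e1 : rp P (Z j + E * (w0 + ∑ l ∈ A, w l)) + x =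
        (AdjoinRoot.mk P (Z j + E * ∑ l ∈ A, w l) + x.1,
        AdjoinRoot.mk P (derivative (Z j + E * ∑ l ∈ A, w l)) + x.2 +
          AdjoinRoot.mk P (derivative (E * w0))) := by
      refine Prod.ext ?_ ?_
      · show AdjoinRoot.mk P (Z j + E * (w0 + ∑ l ∈ A, w l)) + x.1 = _
        rw [mul_add, map_add, map_add, e0, map_add]
        ring
      · show AdjoinRoot.mk P (derivative (Z j + E * (w0 + ∑ l ∈ A, w l))) + x.2 = _
        simp only [mul_add, map_add]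
        ring
    rw [e1]
    rfl
  have h3 : ∑ x, (psi E Z φ w w0 j P x : ℂ) * χ x = _ :=
    Finset.sum_congr rfl fun x _ => by rw [h2 x]
  rw [h3]
  refine h1.trans (le_of_eq ?_)
  rw [Fintype.card_finset]
  push_cast
  ring

end loc

end W4E

end Pool.Agent.H140.E
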