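import Mathlib
import Pool.Agent.H140.E.Win4a

/-!
# Window bound for products of abstract local functions, part b (coincidences, fixed shifts)

Adapted from `Pool.Agent.H604.FC.Win4c` and `Pool.Agent.H604.FC.Win4d`.
-/

set_option autoImplicit false
set_option linter.unusedSectionVars false

namespace Pool.Agent.H140.E

open Polynomial
open Pool.Agent.H985.KP (PA S_cnt)
open Pool.Agent.H604.FC (rp S_fin S_badt)
open Pool.Agent.H604.FC.W4 (Hk Hk_kill not_dvd_w0 not_dvd_of_cop)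
open Pool.Agent.H985.Chow.Win (facs card_P ftP)

namespace W4E

section bad

variable {K : Type} [Field K] {Λ : Type} [Fintype Λ] [DecidableEq Λ] {D : ℕ}

/-- the part of the relation without the coordinate `l` -/
noncomputable def rest (E : K[X]) (H : Λ → K[X]) (l : Λ)
    (t : Λ → degreeLT K D) (p : (Finset Λ × Finset Λ) × K[X]) : K[X] :=
  E * (∑ m ∈ p.1.1.erase l, H m * (t m : K[X]) - ∑ m ∈ p.1.2.erase l, H m * (t m : K[X])) - p.2

open Classical in
/-- the representative of the bad class -/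
noncomputable def zb (E : K[X]) (H : Λ → K[X]) (l : Λ)
    (t : Λ → degreeLT K D) (P : K[X]) (p : (Finset Λ × Finset Λ) × K[X]) : K[X] :=
  if h : ∃ z : K[X], P ∣ E * (H l * z) + rest E H l t p then h.choose else 0

open Classical in
/-- the bad classes -/
noncomputable def BB (E : K[X]) (H : Λ → K[X]) (DL : K[X] → Finset K[X]) (l : Λ)
    (t : Λ → degreeLT K D) (P : K[X]) : Finset K[X] :=
  ((Finset.univ : Finset (Finset Λ × Finset Λ)) ×ˢ DL P).image (zb E H l t P)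

lemma BB_card (E : K[X]) (H : Λ → K[X]) {DL : K[X] → Finset K[X]} {d : ℕ}
    (hDL : ∀ P, (DL P).card ≤ d ^ 2) (l : Λ) (t : Λ → degreeLT K D) (P : K[X]) :
    (BB E H DL l t P).card ≤ (2 ^ Fintype.card Λ * 2 ^ Fintype.card Λ) * d ^ 2 := by
  classical
  unfold BB
  refine Finset.card_image_le.trans ?_
  rw [Finset.card_product, Finset.card_univ, Fintype.card_prod, Fintype.card_finset]
  exact Nat.mul_le_mul_left _ (hDL P)

lemma rest_indep (E : K[X]) (H : Λ → K[X]) (l : Λ)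
    (t t' : Λ → degreeLT K D) (h : ∀ j, j ≠ l → t j = t' j)
    (p : (Finset Λ × Finset Λ) × K[X]) :
    rest E H l t p = rest E H l t' p := by
  unfold rest
  have h1 : ∀ A : Finset Λ, ∑ m ∈ A.erase l, H m * (t m : K[X]) =
      ∑ m ∈ A.erase l, H m * (t' m : K[X]) := by
    intro A
    refine Finset.sum_congr rfl fun m hm => ?_
    rw [h m (Finset.ne_of_mem_erase hm)]
  rw [h1, h1]

lemma BB_indep (E : K[X]) (H : Λ → K[X]) (DL : K[X] → Finset K[X]) (l : Λ)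
    (t t' : Λ → degreeLT K D) (h : ∀ j, j ≠ l → t j = t' j) (P : K[X]) :
    BB E H DL l t P = BB E H DL l t' P := by
  have h1 : rest E H l t = rest E H l t' := funext fun p => rest_indep E H l t t' h p
  have h2 : zb E H l t P = zb E H l t' P := by
    unfold zb
    rw [h1]
  unfold BB
  rw [h2]

lemma bad_aux {E : K[X]} {H : Λ → K[X]} {DL : K[X] → Finset K[X]} {P : K[X]}
    (hP : Irreducible P) (hE : ¬ P ∣ E) (hH : ∀ l, ¬ P ∣ H l) (t : Λ → degreeLT K D)
    {l : Λ} {p : (Finset Λ × Finset Λ) × K[X]} (hp : p.2 ∈ DL P)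
    (h : P ∣ E * (H l * (t l : K[X])) + rest E H l t p) :
    ∃ z ∈ BB E H DL l t P, P ∣ (t l : K[X]) - z := by
  classical
  have hex : ∃ z : K[X], P ∣ E * (H l * z) + rest E H l t p := ⟨_, h⟩
  refine ⟨zb E H l t P p, ?_, ?_⟩
  · unfold BB
    exact Finset.mem_image_of_mem _ (Finset.mem_product.2 ⟨Finset.mem_univ _, hp⟩)
  · have h1 : P ∣ E * (H l * zb E H l t P p) + rest E H l t p := by
      unfold zb
      rw [dif_pos hex]
      exact hex.choose_spec
    have h2 := dvd_sub h h1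
    have e : E * (H l * (t l : K[X])) + rest E H l t p -
        (E * (H l * zb E H l t P p) + rest E H l t p) =
        E * (H l * ((t l : K[X]) - zb E H l t P p)) := by ring
    rw [e] at h2
    rcases hP.prime.dvd_or_dvd h2 with h3 | h3
    · exact absurd h3 hE
    rcases hP.prime.dvd_or_dvd h3 with h4 | h4
    · exact absurd h4 (hH l)
    · exact h4

/-- a coincidence gives a bad coordinate -/
lemma bad_rel [CharP K 2] {E : K[X]} {H : Λ → K[X]} {DL : K[X] → Finset K[X]} {P : K[X]}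
    (hP : Irreducible P) (hE : ¬ P ∣ E) (hH : ∀ l, ¬ P ∣ H l) (t : Λ → degreeLT K D)
    {A A' : Finset Λ} (hA : A ≠ A') {δ : K[X]} (hδ : δ ∈ DL P)
    (h : P ∣ E * (∑ l ∈ A, H l * (t l : K[X]) - ∑ l ∈ A', H l * (t l : K[X])) - δ) :
    ∃ l, ∃ z ∈ BB E H DL l t P, P ∣ (t l : K[X]) - z := by
  classical
  have hex : ∃ l, (l ∈ A ∧ l ∉ A') ∨ (l ∉ A ∧ l ∈ A') := by
    by_contra hc
    push Not at hc
    apply hA
    ext l
    constructor
    · intro h1
      exact (hc l).1 h1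
    · intro h1
      by_contra h2
      exact (hc l).2 h2 h1
  obtain ⟨l, hl⟩ := hex
  refine ⟨l, bad_aux hP hE hH t (p := ((A, A'), δ)) hδ ?_⟩
  have er : rest E H l t ((A, A'), δ) =
    E * (∑ m ∈ A.erase l, H m * (t m : K[X]) - ∑ m ∈ A'.erase l, H m * (t m : K[X])) - δ := rfl
  rw [er]
  rcases hl with ⟨h1, h2⟩ | ⟨h1, h2⟩
  · have e1 := Finset.add_sum_erase A (fun m => H m * (t m : K[X])) h1
    rw [Finset.erase_eq_of_notMem h2]
    have e2 : E * (∑ l ∈ A, H l * (t l : K[X]) - ∑ l ∈ A', H l * (t l : K[X])) - δ =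
      E * (H l * (t l : K[X])) + (E * (∑ m ∈ A.erase l, H m * (t m : K[X]) -
        ∑ m ∈ A', H m * (t m : K[X])) - δ) := by
      rw [← e1]
      ring
    rwa [e2] at h
  · have e1 := Finset.add_sum_erase A' (fun m => H m * (t m : K[X])) h2
    rw [Finset.erase_eq_of_notMem h1]
    have e2 : E * (∑ l ∈ A, H l * (t l : K[X]) - ∑ l ∈ A', H l * (t l : K[X])) - δ =
      E * (H l * (t l : K[X])) + (E * (∑ m ∈ A, H m * (t m : K[X]) -
        ∑ m ∈ A'.erase l, H m * (t m : K[X])) - δ) := by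
      rw [← e1]
      have h2K : (2 : K[X]) = 0 := CharTwo.two_eq_zero
      linear_combination (- E * (H l * (t l : K[X]))) * h2K
    rwa [e2] at h

end bad

section fix

variable {K : Type} [Field K] [Fintype K] [CharP K 2]

/-- the hypotheses on the moduli -/
structure Hyp {r : ℕ} (L D : ℕ) (E : K[X]) (h' h'' : Fin r → K[X]) (j₀ : Fin r) : Prop where
  h1 : ∀ j, (h' j).Monic ∧ (h'' j).Monic ∧ Squarefree (h' j * h'' j) ∧
      IsCoprime E (h' j * h'' j) ∧ (h' j).natDegree + D ≤ L ∧ (h'' j).natDegree + D ≤ L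
  h2 : ∀ i j, i ≠ j → IsCoprime (h' i * h'' i) (h' j * h'' j)
  h5 : L ≤ 2 * (h'' j₀).natDegree

variable {r L D d : ℕ} {E : K[X]} {h' h'' Z : Fin r → K[X]} {j₀ : Fin r}
  {φ : Fin r → ∀ P : K[X], AdjoinRoot P × AdjoinRoot P → ℝ} {DL : K[X] → Finset K[X]}

lemma Hk_deg (H : Hyp L D E h' h'' j₀) (p : Fin r × Bool × Fin 3) :
    (Hk h' h'' j₀ p).natDegree + D ≤ L := by
  unfold Hk
  split_ifs
  · exact (H.h1 p.1).2.2.2.2.2
  · exact (H.h1 p.1).2.2.2.2.1

lemma Hk_cop (H : Hyp L D E h' h'' j₀) {P : K[X]} (hP : Irreducible P)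
    (hd : P ∣ h'' j₀) (p : Fin r × Bool × Fin 3) : ¬ P ∣ Hk h' h'' j₀ p := by
  intro h
  unfold Hk at h
  have hd' : P ∣ h' j₀ * h'' j₀ := hd.mul_left _
  split_ifs at h with h0
  · have h3 : P ∣ h' p.1 * h'' p.1 := h.mul_left _
    exact hP.not_isUnit ((H.h2 _ _ h0.2).isUnit_of_dvd' h3 hd')
  · by_cases hj : p.1 = j₀
    · rw [hj] at h
      exact hP.not_isUnit ((H.h1 j₀).2.2.1 P (mul_dvd_mul h hd))
    · have h3 : P ∣ h' p.1 * h'' p.1 := h.mul_right _
      exact hP.not_isUnit ((H.h2 _ _ hj).isUnit_of_dvd' h3 hd')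

lemma uniq (H : Hyp L D E h' h'' j₀) {P : K[X]} (hP : Irreducible P) {j : Fin r}
    (hd : P ∣ h' j * h'' j) (i : Fin r) : P ∣ h' i * h'' i ↔ i = j := by
  constructor
  · intro h
    by_contra hne
    exact hP.not_isUnit ((H.h2 _ _ hne).isUnit_of_dvd' h hd)
  · rintro rfl
    exact hd

open Classical in
/-- **The bound for fixed shifts.** -/
lemma fixed (hfin : S_fin) (H : Hyp L D E h' h'' j₀)
    (hloc : ∀ j, ∀ P ∈ PA (h' j * h'' j), ∀ (_ : Fact (Irreducible P))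
      (_ : Fintype (AdjoinRoot P)), LocF (AdjoinRoot P) d (φ j P))
    (hlin : ∀ P ∈ PA (h'' j₀), ∀ (_ : Fact (Irreducible P)) (_ : Fintype (AdjoinRoot P)),
      LinP P d (φ j₀ P) (DL P))
    {Is : Fin r → Finset K[X]} {Il : Finset K[X]}
    (hIs : ∀ j P, P ∈ Is j ↔ P.Monic ∧ Irreducible P ∧ P ∣ h' j * h'' j)
    (hIl : ∀ P, P ∈ Il ↔ P.Monic ∧ Irreducible P ∧ P ∣ h'' j₀) (hIlp : ∏ P ∈ Il, P = h'' j₀)
    (t : Fin r × Bool × Fin 3 → degreeLT K D) (t₀ : degreeLT K D) :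
    |∑ᶠ u ∈ {u : K[X] | u.degree < (L : WithBot ℕ)}, ∏ P ∈ Finset.univ.biUnion Is,
        phiW E (fun j => h' j * h'' j) Z φ (fun l => Hk h' h'' j₀ l * (t l : K[X]))
          (h'' j₀ * (t₀ : K[X])) P (rp P (E * u))| ≤
      (2 * (2 * (d * 2 ^ (6 * r)) : ℕ) + 1 : ℝ) ^ ((Finset.univ.biUnion Is) \ Il).card *
        (2 * (d * 2 ^ (6 * r) : ℝ) + 1) ^ Il.card *
        (Fintype.card K : ℝ) ^ ((h'' j₀).natDegree +
          (∑ P ∈ Il with (∃ l, ∃ z ∈ BB E (Hk h' h'' j₀) DL l t P, P ∣ (t l : K[X]) - z),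
            P.natDegree + ∑ P ∈ Il with P ∣ (t₀ : K[X]), P.natDegree)) := by
  classical
  have hcard : Fintype.card (Fin r × Bool × Fin 3) = 6 * r := by
    rw [Fintype.card_prod, Fintype.card_prod, Fintype.card_fin, Fintype.card_bool,
      Fintype.card_fin]
    ring
  set I := Finset.univ.biUnion Is with hI
  have hIm : ∀ P, P ∈ I ↔ ∃ j, P.Monic ∧ Irreducible P ∧ P ∣ h' j * h'' j := by
    intro P
    rw [hI, Finset.mem_biUnion]
    constructor
    · rintro ⟨j, -, hj⟩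
      exact ⟨j, (hIs j P).1 hj⟩
    · rintro ⟨j, hj⟩
      exact ⟨j, Finset.mem_univ j, (hIs j P).2 hj⟩
  have hdeg : ∑ P ∈ Il, P.natDegree = (h'' j₀).natDegree := by
    rw [← hIlp]
    exact (natDegree_prod_of_monic _ _ fun P hP => ((hIl P).1 hP).1).symm
  set Ib : Finset K[X] := Il.filter (fun P => (∃ l, ∃ z ∈ BB E (Hk h' h'' j₀) DL l t P,
    P ∣ (t l : K[X]) - z) ∨ P ∣ (t₀ : K[X])) with hIb
  have key := hfin K L (2 * (d * 2 ^ (6 * r))) (2 * (d * 2 ^ (6 * r) : ℝ) + 1) E I Il Ib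
    (fun P => phiW E (fun j => h' j * h'' j) Z φ (fun l => Hk h' h'' j₀ l * (t l : K[X]))
          (h'' j₀ * (t₀ : K[X])) P) ?_ ?_ ?_ ?_ ?_ ?_ ?_ ?_ ?_
  · refine key.trans ?_
    rw [hdeg]
    have hq : (1 : ℝ) ≤ (Fintype.card K : ℝ) := by exact_mod_cast Fintype.card_pos
    have h1 : ∑ P ∈ Ib, P.natDegree ≤
        ∑ P ∈ Il with (∃ l, ∃ z ∈ BB E (Hk h' h'' j₀) DL l t P, P ∣ (t l : K[X]) - z),
            P.natDegree + ∑ P ∈ Il with P ∣ (t₀ : K[X]), P.natDegree := by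
      rw [hIb, Finset.filter_or]
      have h2 := Finset.sum_union_inter (s₁ := Il.filter (fun P => ∃ l, ∃ z ∈
        BB E (Hk h' h'' j₀) DL l t P, P ∣ (t l : K[X]) - z))
        (s₂ := Il.filter (fun P => P ∣ (t₀ : K[X]))) (f := fun P : K[X] => P.natDegree)
      omega
    have h3 : (Fintype.card K : ℝ) ^ ((h'' j₀).natDegree + ∑ P ∈ Ib, P.natDegree) ≤
        (Fintype.card K : ℝ) ^ ((h'' j₀).natDegree +
          (∑ P ∈ Il with (∃ l, ∃ z ∈ BB E (Hk h' h'' j₀) DL l t P, P ∣ (t l : K[X]) - z),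
            P.natDegree + ∑ P ∈ Il with P ∣ (t₀ : K[X]), P.natDegree)) :=
      pow_le_pow_right₀ hq (Nat.add_le_add_left h1 _)
    gcongr
  · have : (0 : ℝ) ≤ (d * 2 ^ (6 * r) : ℝ) := by positivity
    linarith
  · intro P hP
    obtain ⟨j, hj⟩ := (hIm P).1 hP
    exact ⟨hj.1, hj.2.1⟩
  · intro P hP
    obtain ⟨h1, h2, h3⟩ := (hIl P).1 hP
    exact (hIm P).2 ⟨j₀, h1, h2, h3.mul_left _⟩
  · exact Finset.filter_subset _ _
  · intro P hP
    obtain ⟨h1, h2, h3⟩ := (hIl P).1 hP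
    exact not_dvd_of_cop h2 (H.h1 j₀).2.2.2.1 (h3.mul_left _)
  · intro P hP v
    obtain ⟨j, hj1, hj2, hj3⟩ := (hIm P).1 hP
    have := Fact.mk hj2
    refine abs_phiW (fun i hi => ?_) v
    exact (hloc i P ⟨hj1, hj2, hi⟩ inferInstance (ftP P)).abs
  · intro P hP hPl
    obtain ⟨j, hj1, hj2, hj3⟩ := (hIm P).1 hP
    have := Fact.mk hj2
    have hn : ¬ P ∣ h'' j₀ := fun h => hPl ((hIl P).2 ⟨hj1, hj2, h⟩)
    obtain ⟨l, hl1, hl2⟩ := Hk_kill (h' := h') (h'' := h'') (j₀ := j₀) j hj3 hj2 hn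
    obtain ⟨S, hS1, hS2⟩ := psi_killed (E := E) (Z := Z) (φ := φ)
      (w := fun l => Hk h' h'' j₀ l * (t l : K[X])) (w0 := h'' j₀ * (t₀ : K[X])) (j := j) (P := P)
      (hloc j P ⟨hj1, hj2, hj3⟩ inferInstance (ftP P)) l hl1 (fun m => (hl2 m).mul_right _)
    have hs := fun x => phiW_single (E := E) (hh := fun j => h' j * h'' j) (Z := Z) (φ := φ)
      (w := fun l => Hk h' h'' j₀ l * (t l : K[X])) (w0 := h'' j₀ * (t₀ : K[X])) (P := P)
      (uniq H hj2 hj3) x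
    refine ⟨fun z ζ ζ' => ?_, S, ?_, fun z ζ hz => ?_⟩
    · show phiW E (fun j => h' j * h'' j) Z φ _ _ P (z, ζ) =
        phiW E (fun j => h' j * h'' j) Z φ _ _ P (z, ζ')
      rw [hs, hs]
      by_cases hz : z ∈ S
      · rw [(hS2 z ζ).1 hz, (hS2 z ζ').1 hz]
      · rw [(hS2 z ζ).2 hz, (hS2 z ζ').2 hz]
    · rwa [hcard] at hS1
    · show phiW E (fun j => h' j * h'' j) Z φ _ _ P (z, ζ) = 1
      rw [hs]
      exact (hS2 z ζ).2 hz
  · intro P hP hPb hF hFt χ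
    obtain ⟨h1, h2, h3⟩ := (hIl P).1 hP
    have hs := fun x => phiW_single (E := E) (hh := fun j => h' j * h'' j) (Z := Z) (φ := φ)
      (w := fun l => Hk h' h'' j₀ l * (t l : K[X])) (w0 := h'' j₀ * (t₀ : K[X])) (P := P)
      (uniq H h2 (h3.mul_left _)) x
    have hb := psi_linear (E := E) (Z := Z) (φ := φ)
      (w := fun l => Hk h' h'' j₀ l * (t l : K[X])) (w0 := h'' j₀ * (t₀ : K[X])) (j := j₀)
      (P := P) (hlin P ⟨h1, h2, h3⟩ hF hFt) ?_ ?_ ?_ χ
    · simp only [hs]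
      refine hb.trans ?_
      rw [hcard]
      have hc : @Fintype.card (AdjoinRoot P) hFt = Fintype.card K ^ P.natDegree := by
        exact (@Fintype.card_congr _ _ hFt (Pool.Agent.H985.Chow.Win.ftP P) (Equiv.refl _)).trans
          (card_P P)
      rw [hc]
      push_cast
      have : (0 : ℝ) ≤ (Fintype.card K : ℝ) ^ P.natDegree := by positivity
      nlinarith
    · exact h3.mul_right _
    · refine not_dvd_w0 h2 ((H.h1 j₀).2.2.1.squarefree_of_dvd (Dvd.intro_left _ rfl)) h3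
        (not_dvd_of_cop h2 (H.h1 j₀).2.2.2.1 (h3.mul_left _)) ?_
      intro h
      apply hPb
      rw [hIb, Finset.mem_filter]
      exact ⟨hP, Or.inr h⟩
    · intro A A' hA δ hδ h
      apply hPb
      rw [hIb, Finset.mem_filter]
      exact ⟨hP, Or.inl (bad_rel h2 (not_dvd_of_cop h2 (H.h1 j₀).2.2.2.1 (h3.mul_left _))
        (Hk_cop H h2 h3) t hA hδ h)⟩
  · rw [hdeg]
    exact H.h5

end fix

end W4E

end Pool.Agent.H140.E
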