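import Mathlib
import Pool.Agent.H140.E.Win4b

/-!
# Window bound for products of abstract local functions: task WIN4E

Adapted from `Pool.Agent.H604.FC.Win4e` and `Pool.Agent.H604.FC.Win4f`.
-/

set_option autoImplicit false
set_option linter.unusedSectionVars false

namespace Pool.Agent.H140.E

open Polynomial
open Pool.Agent.H985.KP (PA S_cnt)
open Pool.Agent.H985.FC (S_gcs)
open Pool.Agent.H604.FC (rp S_fin S_badt)
open Pool.Agent.H604.FC.W4 (rp_add chi_abs box Hk mh card_dl fsum_eq set_eq numer split_sum)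
open Pool.Agent.H985.Chow.Win (facs ftP)

namespace W4E

section prod

variable {K : Type} [Field K] [Fintype K] [CharP K 2] {r : ℕ} {Λ : Type} [Fintype Λ]

open Classical in
/-- the summand as a product over the primes -/
lemma f_eq (E : K[X]) (hh Z : Fin r → K[X])
    (φ : Fin r → ∀ P : K[X], AdjoinRoot P × AdjoinRoot P → ℝ) {Is : Fin r → Finset K[X]}
    (hIs : ∀ j P, P ∈ Is j ↔ P.Monic ∧ Irreducible P ∧ P ∣ hh j) (u : K[X]) :
    ∏ j, ∏ᶠ P ∈ PA (hh j), φ j P (rp P (Z j + E * u)) =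
      ∏ P ∈ Finset.univ.biUnion Is, ∏ j ∈ Finset.univ.filter (fun j => P ∣ hh j),
        φ j P (rp P (Z j + E * u)) := by
  have h1 : ∀ j, PA (hh j) = ↑(Is j) := by
    intro j
    ext P
    rw [Finset.mem_coe, hIs]
    rfl
  have h2 : ∀ j, ∏ᶠ P ∈ PA (hh j), φ j P (rp P (Z j + E * u)) =
      ∏ P ∈ Is j, φ j P (rp P (Z j + E * u)) := by
    intro j
    rw [h1, finprod_mem_coe_finset]
  rw [Finset.prod_congr rfl fun j _ => h2 j]
  apply Finset.prod_comm'
  intro j P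
  rw [Finset.mem_filter, Finset.mem_biUnion, hIs]
  constructor
  · rintro ⟨h3, h4, h5, h6⟩
    exact ⟨⟨h3, h6⟩, j, Finset.mem_univ _, (hIs _ _).2 ⟨h4, h5, h6⟩⟩
  · rintro ⟨⟨h3, h6⟩, j, -, h7⟩
    obtain ⟨h4, h5, -⟩ := (hIs _ _).1 h7
    exact ⟨h3, h4, h5, h6⟩

open Classical in
/-- the product over all the shifts -/
lemma F_eq (E : K[X]) (hh Z : Fin r → K[X])
    (φ : Fin r → ∀ P : K[X], AdjoinRoot P × AdjoinRoot P → ℝ) {Is : Fin r → Finset K[X]}
    (hIs : ∀ j P, P ∈ Is j ↔ P.Monic ∧ Irreducible P ∧ P ∣ hh j) (χ : AddChar K[X] ℝ)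
    (w : Λ → K[X]) (w0 u : K[X]) (f : K[X] → ℝ)
    (hf : ∀ u, f u = χ u * ∏ j, ∏ᶠ P ∈ PA (hh j), φ j P (rp P (Z j + E * u))) :
    (∏ A : Finset Λ, f (u + ∑ l ∈ A, w l)) * ∏ A : Finset Λ, f (u + w0 + ∑ l ∈ A, w l) =
      χ w0 ^ (Fintype.card (Finset Λ)) * ∏ P ∈ Finset.univ.biUnion Is,
        phiW E hh Z φ w w0 P (rp P (E * u)) := by
  have hterm : ∀ A : Finset Λ, f (u + ∑ l ∈ A, w l) * f (u + w0 + ∑ l ∈ A, w l) =
      χ w0 * ∏ P ∈ Finset.univ.biUnion Is, ∏ j ∈ Finset.univ.filter (fun j => P ∣ hh j),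
        (φ j P (rp P (Z j + E * ∑ l ∈ A, w l) + rp P (E * u)) *
        φ j P (rp P (Z j + E * (w0 + ∑ l ∈ A, w l)) + rp P (E * u))) := by
    intro A
    rw [hf, hf, f_eq E hh Z φ hIs, f_eq E hh Z φ hIs]
    have hχ : χ (u + ∑ l ∈ A, w l) * χ (u + w0 + ∑ l ∈ A, w l) = χ w0 := by
      rw [← AddChar.map_add_eq_mul]
      congr 1
      have h2K : (2 : K[X]) = 0 := CharTwo.two_eq_zero
      linear_combination (u + ∑ l ∈ A, w l) * h2K
    have e1 : ∀ (P : K[X]) (j : Fin r), rp P (Z j + E * (u + ∑ l ∈ A, w l)) =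
        rp P (Z j + E * ∑ l ∈ A, w l) + rp P (E * u) := by
      intro P j
      rw [← rp_add]
      congr 1
      ring
    have e2 : ∀ (P : K[X]) (j : Fin r), rp P (Z j + E * (u + w0 + ∑ l ∈ A, w l)) =
        rp P (Z j + E * (w0 + ∑ l ∈ A, w l)) + rp P (E * u) := by
      intro P j
      rw [← rp_add]
      congr 1
      ring
    simp only [e1, e2, Finset.prod_mul_distrib]
    rw [← hχ]
    ring
  rw [← Finset.prod_mul_distrib, Finset.prod_congr rfl fun A _ => hterm A,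
    Finset.prod_mul_distrib, Finset.prod_const, Finset.card_univ]
  congr 1
  rw [Finset.prod_comm]
  refine Finset.prod_congr rfl fun P _ => ?_
  unfold phiW psi
  rw [Finset.prod_comm]

lemma abs_f (hh Z : Fin r → K[X]) {φ : Fin r → ∀ P : K[X], AdjoinRoot P × AdjoinRoot P → ℝ}
    {Is : Fin r → Finset K[X]} (E : K[X])
    (hIs : ∀ j P, P ∈ Is j ↔ P.Monic ∧ Irreducible P ∧ P ∣ hh j)
    (hφ : ∀ j, ∀ P ∈ PA (hh j), ∀ v, |φ j P v| ≤ 1) (χ : AddChar K[X] ℝ) (u : K[X]) :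
    |χ u * ∏ j, ∏ᶠ P ∈ PA (hh j), φ j P (rp P (Z j + E * u))| ≤ 1 := by
  classical
  rw [abs_mul, chi_abs, one_mul, f_eq E hh Z φ hIs, Finset.abs_prod]
  refine Finset.prod_le_one (fun _ _ => abs_nonneg _) fun P hP => ?_
  rw [Finset.abs_prod]
  refine Finset.prod_le_one (fun _ _ => abs_nonneg _) fun j hj => ?_
  rw [Finset.mem_biUnion] at hP
  obtain ⟨i, -, hi⟩ := hP
  obtain ⟨h1, h2, -⟩ := (hIs _ _).1 hi
  exact hφ j P ⟨h1, h2, (Finset.mem_filter.1 hj).2⟩ _

end prod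

end W4E

open W4E

/-- **Task WIN4E.** -/
theorem win4E (hgcs : S_gcs) (hfin : S_fin) (hbadt : S_badt) (hcnt : S_cnt) : S_win4E := by
  intro r d
  rcases Nat.eq_zero_or_pos r with rfl | hr
  · exact ⟨1, le_rfl, fun K _ _ _ L D T E h' h'' Z j₀ => j₀.elim0⟩
  obtain ⟨M2, hM2, hbad⟩ := hbadt (6 * r) ((2 ^ (6 * r) * 2 ^ (6 * r)) * d ^ 2) (by omega)
  set X1 : ℝ := (2 * (2 * (d * 2 ^ (6 * r)) : ℕ) + 1 : ℝ) with hX1
  set X2 : ℝ := (2 * (d * 2 ^ (6 * r) : ℝ) + 1) with hX2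
  have hX1' : 1 ≤ X1 := by
    rw [hX1]
    have : (0 : ℝ) ≤ ((2 * (d * 2 ^ (6 * r)) : ℕ) : ℝ) := Nat.cast_nonneg _
    linarith
  have hX2' : 1 ≤ X2 := by
    rw [hX2]
    have : (0 : ℝ) ≤ (d * 2 ^ (6 * r) : ℝ) := by positivity
    linarith
  set M1 : ℝ := X1 * X2 with hM1
  have hM1' : 1 ≤ M1 := one_le_mul_of_one_le_of_one_le hX1' hX2'
  refine ⟨2 * M2 + 4 + M1, by linarith, ?_⟩
  intro K _ _ _ L D T E h' h'' Z j₀ χ φ c1 c2 c3 c5 c6
  classical
  have H : Hyp L D E h' h'' j₀ := ⟨c1, c2, c5⟩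
  -- the lifts of the exceptional differences
  have hex : ∀ P : K[X], ∃ DP : Finset K[X], DP.card ≤ d ^ 2 ∧ (P ∈ PA (h'' j₀) →
      ∀ (_ : Fact (Irreducible P)) (_ : Fintype (AdjoinRoot P)), LinP P d (φ j₀ P) DP) := by
    intro P
    by_cases hP : P ∈ PA (h'' j₀)
    · have hP' : P ∈ PA (h' j₀ * h'' j₀) := ⟨hP.1, hP.2.1, hP.2.2.mul_left _⟩
      have := Fact.mk hP.2.1
      obtain ⟨DP, h1, h2⟩ := lin_lift (c3 j₀ P hP' inferInstance (ftP P))
      refine ⟨DP, h1, fun _ hF hFt => ?_⟩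
      have e : hFt = ftP P := Subsingleton.elim _ _
      rw [e]
      exact h2
    · exact ⟨∅, by simp, fun h => absurd h hP⟩
  choose DL hDL hlin using hex
  choose Is hIs hIsp using fun j => facs ((c1 j).1.mul (c1 j).2.1) (c1 j).2.2.1
  obtain ⟨Il, hIl, hIlp⟩ := facs (c1 j₀).2.1
    ((c1 j₀).2.2.1.squarefree_of_dvd (Dvd.intro_left _ rfl))
  let _ : Fintype (degreeLT K L) := Fintype.ofFinite _
  let _ : Fintype (degreeLT K D) := Fintype.ofFinite _
  set q : ℝ := (Fintype.card K : ℝ) with hq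
  have hq1 : 1 ≤ q := by
    rw [hq]
    exact_mod_cast Fintype.card_pos
  have hq0 : 0 < q := by linarith
  set f : K[X] → ℝ := fun u => χ u * ∏ j, ∏ᶠ P ∈ PA (h' j * h'' j),
    φ j P (rp P (Z j + E * u)) with hf
  have hφ1 : ∀ j, ∀ P ∈ PA (h' j * h'' j), ∀ v, |φ j P v| ≤ 1 := by
    intro j P hP
    have := Fact.mk hP.2.1
    exact (c3 j P hP inferInstance (ftP P)).abs
  have hfabs : ∀ u, |f u| ≤ 1 := fun u => abs_f (fun j => h' j * h'' j) Z E hIs hφ1 χ u
  set ω : ℕ := ∑ j, (PA (h' j * h'' j)).ncard with hω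
  have hPA : ∀ j, PA (h' j * h'' j) = ↑(Is j) := by
    intro j
    ext P
    rw [Finset.mem_coe, hIs]
    rfl
  have hPAl : PA (h'' j₀) = ↑Il := by
    ext P
    rw [Finset.mem_coe, hIl]
    rfl
  have hIω : (Finset.univ.biUnion Is).card ≤ ω := by
    refine Finset.card_biUnion_le.trans (le_of_eq ?_)
    rw [hω]
    refine Finset.sum_congr rfl fun j _ => ?_
    rw [hPA, Set.ncard_coe_finset]
  have hIlI : Il ⊆ Finset.univ.biUnion Is := by
    intro P hP
    obtain ⟨h1, h2, h3⟩ := (hIl P).1 hP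
    rw [Finset.mem_biUnion]
    exact ⟨j₀, Finset.mem_univ _, (hIs _ _).2 ⟨h1, h2, h3.mul_left _⟩⟩
  have hIlω : Il.card ≤ ω := (Finset.card_le_card hIlI).trans hIω
  have hcU : Fintype.card (degreeLT K L) = Fintype.card K ^ L := card_dl L
  have hcD : Fintype.card (degreeLT K D) = Fintype.card K ^ D := card_dl D
  have hcU' : (Fintype.card (degreeLT K L) : ℝ) = q ^ L := by rw [hcU]; push_cast; rfl
  have hcD' : (Fintype.card (degreeLT K D) : ℝ) = q ^ D := by rw [hcD]; push_cast; rfl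
  rw [fsum_eq]
  have htriv : ∀ F : degreeLT K L → ℝ, (∀ u, |F u| ≤ 1) → |∑ u, F u| ≤ q ^ L := by
    intro F hF
    refine (Finset.abs_sum_le_sum_abs _ _).trans ((Finset.sum_le_sum fun u _ => hF u).trans ?_)
    rw [Finset.sum_const, Finset.card_univ, nsmul_eq_mul, mul_one, hcU']
  have hT0 : T ≤ (6 * r + 3) * T := Nat.le_mul_of_pos_left _ (by omega)
  have hDL' : (h'' j₀).natDegree + D ≤ L := (c1 j₀).2.2.2.2.2
  have hexp : (q ^ L) ^ (2 ^ (6 * r + 1)) = q ^ (L * 2 ^ (6 * r + 1)) := by rw [pow_mul]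
  by_cases hω0 : ω = 0
  · have hIl0 : Il = ∅ := Finset.card_eq_zero.1 (by omega)
    have hdeg0 : (h'' j₀).natDegree = 0 := by
      rw [← hIlp, hIl0, Finset.prod_empty, natDegree_one]
    have hT : T = 0 := by omega
    rw [hT, hω0, pow_zero, pow_zero, one_mul, div_one, ← hexp]
    exact pow_le_pow_left₀ (abs_nonneg _) (htriv _ fun u => hfabs _) _
  have hω1 : 1 ≤ ω := Nat.one_le_iff_ne_zero.2 hω0
  have hcΛ : Fintype.card (Fin r × Bool × Fin 3) = 6 * r := by
    rw [Fintype.card_prod, Fintype.card_prod, Fintype.card_fin, Fintype.card_bool,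
      Fintype.card_fin]
    ring
  have hbox := box hgcs (U := degreeLT K L) (T := degreeLT K D) (Λ := Fin r × Bool × Fin 3)
    (fun l => mh (Hk h' h'' j₀ l) (Hk_deg H l)) (mh (h'' j₀) hDL') (fun u => f u.1)
    (fun u => hfabs _) (B := (2 * M2 + 4 + M1) ^ ω / q ^ T) ?_
  · rw [hcΛ, hcU', hexp] at hbox
    refine hbox.trans (le_of_eq ?_)
    ring
  -- the main estimate
  have hterm : ∀ (t : Fin r × Bool × Fin 3 → degreeLT K D) (t₀ : degreeLT K D)
      (u : degreeLT K L),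
      (∏ A : Finset (Fin r × Bool × Fin 3), f ((u + ∑ l ∈ A, mh (Hk h' h'' j₀ l) (Hk_deg H l) (t l) :
        degreeLT K L) : K[X])) *
      ∏ A : Finset (Fin r × Bool × Fin 3), f ((u + mh (h'' j₀) hDL' t₀ +
        ∑ l ∈ A, mh (Hk h' h'' j₀ l) (Hk_deg H l) (t l) : degreeLT K L) : K[X]) =
      χ (h'' j₀ * (t₀ : K[X])) ^ (Fintype.card (Finset (Fin r × Bool × Fin 3))) *
        ∏ P ∈ Finset.univ.biUnion Is, phiW E (fun j => h' j * h'' j) Z φ
          (fun l => Hk h' h'' j₀ l * (t l : K[X])) (h'' j₀ * (t₀ : K[X])) P (rp P (E * u)) := by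
    intro t t₀ u
    rw [← F_eq E (fun j => h' j * h'' j) Z φ hIs χ
      (fun l => Hk h' h'' j₀ l * (t l : K[X])) (h'' j₀ * (t₀ : K[X])) u f (fun u => rfl)]
    congr 1
    · refine Finset.prod_congr rfl fun A _ => ?_
      congr 1
      rw [Submodule.coe_add, Submodule.coe_sum]
      rfl
    · refine Finset.prod_congr rfl fun A _ => ?_
      congr 1
      rw [Submodule.coe_add, Submodule.coe_add, Submodule.coe_sum]
      rfl
  set p : (Fin r × Bool × Fin 3 → degreeLT K D) → Prop := fun t => 6 * r * T ≤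
    ∑ P ∈ Il with (∃ l, ∃ z ∈ BB E (Hk h' h'' j₀) DL l t P, P ∣ (t l : K[X]) - z),
      P.natDegree with hp
  set p₀ : degreeLT K D → Prop := fun t₀ => T ≤ ∑ P ∈ Il with P ∣ (t₀ : K[X]), P.natDegree
    with hp₀
  have hsplit := split_sum p p₀ (fun t t₀ => |∑ u : degreeLT K L,
      (∏ A : Finset (Fin r × Bool × Fin 3), f ((u + ∑ l ∈ A, mh (Hk h' h'' j₀ l) (Hk_deg H l) (t l) :
        degreeLT K L) : K[X])) *
      ∏ A : Finset (Fin r × Bool × Fin 3), f ((u + mh (h'' j₀) hDL' t₀ +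
        ∑ l ∈ A, mh (Hk h' h'' j₀ l) (Hk_deg H l) (t l) : degreeLT K L) : K[X])|)
    (A := q ^ L) (z := M1 ^ (Finset.univ.biUnion Is).card *
      q ^ ((h'' j₀).natDegree + (6 * r * T + T))) (by positivity) (by positivity) ?_ ?_
  · refine hsplit.trans ?_
    have hcΛT : (Fintype.card (Fin r × Bool × Fin 3 → degreeLT K D) : ℝ) = q ^ (D * (6 * r)) := by
      rw [Fintype.card_fun, hcΛ, Nat.cast_pow, hcD', ← pow_mul]
    rw [hcΛT, hcD', hcΛ, hcU']
    have hx : ((Finset.univ.filter p).card : ℝ) ≤ M2 ^ (PA (h'' j₀)).ncard * q ^ (D * (6 * r)) *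
        (1 / q ^ T + 1 / q ^ D) := by
      have h1 := hbad K (Fin r × Bool × Fin 3) D T (h'' j₀)
        (fun l t P => BB E (Hk h' h'' j₀) DL l t P)
        (le_of_eq hcΛ) (c1 j₀).2.1 ((c1 j₀).2.2.1.squarefree_of_dvd (Dvd.intro_left _ rfl))
        (fun l t P => by
          have := BB_card E (Hk h' h'' j₀) hDL l t P
          rwa [hcΛ] at this)
        (fun l t t' h P => BB_indep E (Hk h' h'' j₀) DL l t t' h P)
      rw [hcΛ] at h1
      have h2 : {t : Fin r × Bool × Fin 3 → degreeLT K D | 6 * r * T ≤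
          ∑ᶠ P ∈ PA (h'' j₀) ∩ {P | ∃ l, ∃ z ∈ BB E (Hk h' h'' j₀) DL l t P,
            P ∣ (t l : K[X]) - z}, P.natDegree} = ↑(Finset.univ.filter p) := by
        ext t
        rw [Finset.coe_filter, Set.mem_ofPred_eq, Set.mem_ofPred_eq]
        have h3 : PA (h'' j₀) ∩ {P | ∃ l, ∃ z ∈ BB E (Hk h' h'' j₀) DL l t P,
            P ∣ (t l : K[X]) - z} = ↑(Il.filter (fun P => ∃ l, ∃ z ∈ BB E (Hk h' h'' j₀) DL l t P,
            P ∣ (t l : K[X]) - z)) := by
          rw [Finset.coe_filter, hPAl]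
          rfl
        rw [h3, finsum_mem_coe_finset]
        simp only [Finset.mem_univ, true_and]
        rfl
      rw [h2, Set.ncard_coe_finset] at h1
      exact h1
    have hy : ((Finset.univ.filter p₀).card : ℝ) ≤ 2 ^ (PA (h'' j₀)).ncard *
        (q ^ D / q ^ T + 1) := by
      have h1 := hcnt K D T 1 (h'' j₀) le_rfl (c1 j₀).2.1
        ((c1 j₀).2.2.1.squarefree_of_dvd (Dvd.intro_left _ rfl)) (fun _ => {0})
        (fun P _ => by simp)
      have h2 : ((Finset.univ.filter p₀).card : ℝ) ≤ ({y : K[X] | y.degree < (D : WithBot ℕ) ∧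
          T ≤ ∑ᶠ P ∈ PA (h'' j₀) ∩ {P | ∃ z ∈ ({0} : Finset K[X]), P ∣ y - z},
            P.natDegree}.ncard : ℝ) := by
        have h4 : (Finset.univ.filter p₀).card =
            (((Finset.univ.filter p₀).image (fun t : degreeLT K D => (t : K[X])) :
              Finset K[X]) : Set K[X]).ncard := by
          rw [Set.ncard_coe_finset, Finset.card_image_of_injective _ Subtype.val_injective]
        rw [h4]
        have hfinD : {y : K[X] | y.degree < (D : WithBot ℕ)}.Finite := by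
          rw [set_eq]
          exact Set.toFinite _
        have hsub : (((Finset.univ.filter p₀).image (fun t : degreeLT K D => (t : K[X])) :
            Finset K[X]) : Set K[X]) ⊆ {y : K[X] | y.degree < (D : WithBot ℕ) ∧
            T ≤ ∑ᶠ P ∈ PA (h'' j₀) ∩ {P | ∃ z ∈ ({0} : Finset K[X]), P ∣ y - z},
            P.natDegree} := by
          intro y hy
          rw [Finset.mem_coe, Finset.mem_image] at hy
          obtain ⟨t₀, ht₀, rfl⟩ := hy
          rw [Finset.mem_filter] at ht₀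
          refine ⟨mem_degreeLT.1 t₀.2, ?_⟩
          have h3 : PA (h'' j₀) ∩ {P | ∃ z ∈ ({0} : Finset K[X]), P ∣ (t₀ : K[X]) - z} =
              ↑(Il.filter (fun P => P ∣ (t₀ : K[X]))) := by
            rw [Finset.coe_filter, hPAl]
            ext P
            simp
          rw [h3, finsum_mem_coe_finset]
          exact ht₀.2
        have h5 := Set.ncard_le_ncard hsub (hfinD.subset fun y hy => hy.1)
        exact_mod_cast h5
      refine h2.trans (h1.trans (le_of_eq ?_))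
      rw [Nat.cast_one, mul_one]
    have h6 := numer (q := q) (M1 := M1) (M2 := M2) (M := 2 * M2 + 4 + M1) (D := D) (L := L)
      (T := T) (n := 6 * r * T + T) (d := (h'' j₀).natDegree) (ω := ω) (a := 6 * r)
      (b'' := (Finset.univ.biUnion Is).card) (a1 := (PA (h'' j₀)).ncard)
      (a2 := (PA (h'' j₀)).ncard) hq1 hM1' hM2 rfl hω1
      (by rw [hPAl, Set.ncard_coe_finset]; exact hIlω)
      (by rw [hPAl, Set.ncard_coe_finset]; exact hIlω) hIω (by omega)
      (by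
        have : (6 * r + 3) * T = 6 * r * T + 3 * T := by ring
        omega) (by omega) hx hy le_rfl
    refine h6.trans (le_of_eq ?_)
    rw [← pow_mul, mul_add, mul_one]
  · intro t t₀
    refine htriv _ fun u => ?_
    rw [abs_mul, Finset.abs_prod, Finset.abs_prod]
    exact mul_le_one₀ (Finset.prod_le_one (fun _ _ => abs_nonneg _) fun A _ => hfabs _)
      (Finset.prod_nonneg fun _ _ => abs_nonneg _)
      (Finset.prod_le_one (fun _ _ => abs_nonneg _) fun A _ => hfabs _)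
  · intro t t₀ ht ht₀
    rw [Finset.sum_congr rfl fun u _ => hterm t t₀ u, ← Finset.mul_sum, abs_mul, abs_pow, chi_abs,
      one_pow, one_mul]
    have h1 := fixed (Z := Z) (φ := φ) (DL := DL) hfin H c3 hlin hIs hIl hIlp t t₀
    rw [fsum_eq] at h1
    refine h1.trans ?_
    have h2 : X1 ^ ((Finset.univ.biUnion Is) \ Il).card * X2 ^ Il.card ≤
        M1 ^ (Finset.univ.biUnion Is).card := by
      have h3 : ((Finset.univ.biUnion Is) \ Il).card + Il.card = (Finset.univ.biUnion Is).card :=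
        Finset.card_sdiff_add_card_eq_card hIlI
      rw [← h3, hM1, pow_add]
      have h4 : X1 ≤ X1 * X2 := le_mul_of_one_le_right (by linarith) hX2'
      have h5 : X2 ≤ X1 * X2 := le_mul_of_one_le_left (by linarith) hX1'
      gcongr
    have h3 : q ^ ((h'' j₀).natDegree +
          (∑ P ∈ Il with (∃ l, ∃ z ∈ BB E (Hk h' h'' j₀) DL l t P, P ∣ (t l : K[X]) - z),
            P.natDegree + ∑ P ∈ Il with P ∣ (t₀ : K[X]), P.natDegree)) ≤
        q ^ ((h'' j₀).natDegree + (6 * r * T + T)) := by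
      apply pow_le_pow_right₀ hq1
      rw [hp] at ht
      rw [hp₀] at ht₀
      simp only [not_le] at ht ht₀
      omega
    exact mul_le_mul h2 h3 (by positivity) (by positivity)

end Pool.Agent.H140.E
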