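import Mathlib
import Pool.Agent.H140.E.Stm
import Pool.Agent.H985.Chow.Win

/-!
# Chowla's conjecture for polynomials of any degree, `q` even: task WIN5E
-/

set_option autoImplicit false
set_option linter.unusedSectionVars false

namespace Pool.Agent.H140.E

open Polynomial
open Pool.Agent.H524 (AC)
open Pool.Agent.H985.Chow (mob MD Wl S_cmp)
open Pool.Agent.H985.KP (PA S_typ2 S_cnt)
open Pool.Agent.H985.FC (S_gcs)
open Pool.Agent.H604.FC (rp S_fin S_badt)
open Pool.Agent.H140.Q (mobM GM liou)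
open Pool.Agent.H985.Chow.Win (be_ne)

namespace W5

/-- the conditions on the local functions are monotone in `d` -/
lemma locF_mono {F : Type} [Field F] [Fintype F] {d d' : ℕ} {φ : F × F → ℝ} (hd : d ≤ d')
    (h : LocF F d φ) : LocF F d' φ := by
  refine ⟨h.abs, ?_, ?_⟩
  · obtain ⟨Z, hZ, h1, h2⟩ := h.lock
    exact ⟨Z, hZ.trans hd, h1, h2⟩
  · obtain ⟨D, hD, h1⟩ := h.lin
    refine ⟨D, hD.trans (Nat.pow_le_pow_left hd 2), ?_⟩
    intro ι _ _ τ κ σ hτ hκ χ
    refine (h1 ι τ κ σ hτ hκ χ).trans ?_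
    have hd' : (d : ℝ) ≤ d' := Nat.cast_le.2 hd
    gcongr

lemma locF_GE (hloc : S_locE) {K : Type} [Field K] [CharP K 2] {cp u v : K[X][X]}
    {N : K[X]} (hsep : SepE cp u v N) {b P : K[X]} (hP : Irreducible P)
    (hN : AdjoinRoot.mk P N ≠ 0) (hb : AdjoinRoot.mk P (derivative b) ≠ 0)
    [hF : Fact (Irreducible P)] [Fintype (AdjoinRoot P)] :
    LocF (AdjoinRoot P) cp.natDegree (GE cp b P) := by
  have hch : CharP (AdjoinRoot P) 2 := charP_of_injective_algebraMap' K 2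
  have hmon : (cp.map (AdjoinRoot.mk P)).Monic := hsep.1.map _
  have hdeg : (cp.map (AdjoinRoot.mk P)).natDegree = cp.natDegree := hsep.1.natDegree_map _
  have hs : (cp.map (AdjoinRoot.mk P)).Separable := by
    have h1 := congrArg (Polynomial.map (AdjoinRoot.mk P)) hsep.2.2.2
    rw [Polynomial.map_add, Polynomial.map_mul, Polynomial.map_mul, ← derivative_map,
      Polynomial.map_C] at h1
    refine ⟨C (AdjoinRoot.mk P N)⁻¹ * u.map (AdjoinRoot.mk P),
      C (AdjoinRoot.mk P N)⁻¹ * v.map (AdjoinRoot.mk P), ?_⟩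
    rw [mul_assoc, mul_assoc, ← mul_add, h1, ← C_mul, inv_mul_cancel₀ hN, C_1]
  have h2 := hloc (AdjoinRoot P) (cp.map (AdjoinRoot.mk P)) ((dX cp).map (AdjoinRoot.mk P))
    (AdjoinRoot.mk P (derivative b)) (AdjoinRoot.root P) hmon hs (by rw [hdeg]; exact hsep.2.1) hb
  rw [hdeg] at h2
  have h3 : GE cp b P = fun v => gE (cp.map (AdjoinRoot.mk P)) ((dX cp).map (AdjoinRoot.mk P))
      (AdjoinRoot.mk P (derivative b)) (AdjoinRoot.root P) v.1 v.2 := by
    funext w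
    unfold GE
    rw [dif_pos hP]
  rw [h3]
  exact h2

end W5

open W5

/-- **Task WIN5E.** -/
theorem win5E (hwinF : S_winFE) (hwin4 : S_win4E) (hloc : S_locE) : S_win5E := by
  intro K _ _ _ r cp u v N μ₀ hsep
  have hw := fun j => hwinF K (cp j) (u j) (v j) (N j) μ₀ (hsep j)
  choose c₀ hc₀ using hw
  obtain ⟨M, hM1, hM⟩ := hwin4 r (∑ j, (cp j).natDegree)
  refine ⟨M, ∑ j, c₀ j, hM1, ?_⟩
  intro n L D T c a E e h' h'' s m j₀ χ hc hE hL c1 cn c2 c3 c7 c8
  have hle : ∀ j, c₀ j ≤ ∑ j, c₀ j := fun j =>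
    Finset.single_le_sum (f := c₀) (fun i _ => Nat.zero_le _) (Finset.mem_univ j)
  have hld : ∀ j, (cp j).natDegree ≤ ∑ j, (cp j).natDegree := fun j =>
    Finset.single_le_sum (f := fun j => (cp j).natDegree) (fun i _ => Nat.zero_le _)
      (Finset.mem_univ j)
  have hwin : ∀ j, ∃ η : ℝ, |η| ≤ 1 ∧ ∀ x : K[X], x.degree < (L : WithBot ℕ) →
      (mobM (m j) (N j) ((PhE (cp j)).eval ((a + s j + E * x) ^ 2 +
          X * (C c * (e j * (h' j * h'' j))) ^ 2)) : ℝ) =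
      η * ∏ᶠ P ∈ PA (h' j * h'' j),
        GE (cp j) (C c * (e j * (h' j * h'' j))) P (rp P (a + s j + E * x)) := by
    intro j
    obtain ⟨d1, d2, d3, d4, d5, d6, d7, d8, d9, d10, d11, d12⟩ := c1 j
    have := hle j
    exact hc₀ j n L c (a + s j) (e j) (h' j * h'' j) (m j) E hc d1 (d2.mul d3) d4 d5 d6 d7 d8
      hE d9 hL (c3 j).1 (c3 j).2 (by omega) (by omega)
  choose η hη1 hη2 using hwin
  have hterm : ∀ x ∈ {x : K[X] | x.degree < (L : WithBot ℕ)}, χ x * ∏ j,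
        (mobM (m j) (N j) ((PhE (cp j)).eval ((a + s j + E * x) ^ 2 +
          X * (C c * (e j * (h' j * h'' j))) ^ 2)) : ℝ) =
      (∏ j, η j) * (χ x * ∏ j, ∏ᶠ P ∈ PA (h' j * h'' j),
        GE (cp j) (C c * (e j * (h' j * h'' j))) P (rp P (a + s j + E * x))) := by
    intro x hx
    rw [Finset.prod_congr rfl fun j _ => hη2 j x hx, Finset.prod_mul_distrib]
    ring
  rw [finsum_mem_congr rfl hterm, ← mul_finsum_mem, abs_mul]
  have hη : |∏ j, η j| ≤ 1 := by
    rw [Finset.abs_prod]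
    exact Finset.prod_le_one (fun j _ => abs_nonneg _) (fun j _ => hη1 j)
  have h4 := hM K L D T E h' h'' (fun j => a + s j) j₀ χ
    (fun j P => GE (cp j) (C c * (e j * (h' j * h'' j))) P) ?_ c2 ?_ c7 c8
  · refine le_trans (pow_le_pow_left₀ (by positivity) ?_ _) h4
    exact mul_le_of_le_one_left (abs_nonneg _) hη
  · intro j
    obtain ⟨d1, d2, d3, d4, d5, d6, d7, d8, d9, d10, d11, d12⟩ := c1 j
    exact ⟨d2, d3, d7, d8, d10, d11⟩
  · intro j P hP inst1 inst2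
    obtain ⟨d1, d2, d3, d4, d5, d6, d7, d8, d9, d10, d11, d12⟩ := c1 j
    refine locF_mono (hld j) (locF_GE hloc (hsep j) hP.2.1 ?_ ?_)
    · rw [Ne, AdjoinRoot.mk_eq_zero]
      intro h1
      have h2 : P ∣ E := by
        have h3 : N j ∣ (e j * N j ^ 2 * m j) ^ 5 :=
          ((Dvd.intro_left (e j) rfl : N j ^ 2 ∣ e j * N j ^ 2).trans
            (Dvd.intro (m j) rfl) |>.trans (dvd_pow_self _ (by norm_num))) |>
            (dvd_pow_self (N j) (by norm_num : (2 : ℕ) ≠ 0)).trans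
        exact h1.trans (h3.trans d9)
      exact hP.2.1.not_isUnit (d8.isUnit_of_dvd' h2 hP.2.2)
    · exact be_ne P hc d6 d7 hP.2.2

end Pool.Agent.H140.E
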