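import Mathlib
import Pool.Agent.H140.E.Stm
import Pool.Agent.H985.FC.WinF

/-!
# The product formula in a window (task WINFE), part a: the local terms
-/

set_option autoImplicit false
set_option linter.unusedSectionVars false

namespace Pool.Agent.H140.E

open Polynomial
open Pool.Agent.H524 (AC)
open Pool.Agent.H985.Chow (mob Wl)
open Pool.Agent.H985.Chow.Win
open Pool.Agent.H985.KP (sg PA)

namespace WFE

section field

lemma Wl_map {k k' : Type*} [Field k] [Field k'] (τ : k →+* k') (β x a α : k) :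
    τ (Wl β x a α) = Wl (τ β) (τ x) (τ a) (τ α) := by
  unfold Wl
  simp only [map_div₀, map_pow, map_add, map_mul]

lemma Ws_map {k k' : Type*} [Field k] [Field k'] (τ : k →+* k') {c : k[X]} (hs : c.Splits)
    (cX : k[X]) (β x A A' : k) :
    Ws (c.map τ) (cX.map τ) (τ β) (τ x) (τ A) (τ A') = τ (Ws c cX β x A A') := by
  classical
  unfold Ws
  rw [hs.roots_map, Multiset.toFinset_map, Finset.sum_image (fun a _ b _ h => τ.injective h),
    map_sum]
  refine Finset.sum_congr rfl fun α _ => ?_
  rw [Wl_map, derivative_map, eval_map, eval_map, eval₂_at_apply, eval₂_at_apply, map_add, map_add,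
    map_div₀]

variable {F : Type} [Field F]

/-- the local term over the algebraic closure, for data over `F` -/
noncomputable def WA (c cX : F[X]) (β x A A' : F) : AC F :=
  Ws (c.map (algebraMap F (AC F))) (cX.map (algebraMap F (AC F)))
    (algebraMap F (AC F) β) (algebraMap F (AC F) x) (algebraMap F (AC F) A)
    (algebraMap F (AC F) A')

lemma transport {k' : Type} [Field k'] [IsAlgClosed k'] (s : F →+* k') (c cX : F[X])
    (β x A A' z : F) (hz : algebraMap F (AC F) z = WA c cX β x A A') :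
    s z = Ws (c.map s) (cX.map s) (s β) (s x) (s A) (s A') := by
  let _ : Algebra F k' := s.toAlgebra
  let τ : AC F →ₐ[F] k' := IsAlgClosed.lift
  have hτ : ∀ y : F, τ (algebraMap F (AC F) y) = s y := fun y => τ.commutes y
  have hτ' : (τ : AC F →+* k').comp (algebraMap F (AC F)) = s := RingHom.ext hτ
  have h1 := Ws_map (τ : AC F →+* k') (c := c.map (algebraMap F (AC F))) (IsAlgClosed.splits _)
    (cX.map (algebraMap F (AC F))) (algebraMap F (AC F) β) (algebraMap F (AC F) x)
    (algebraMap F (AC F) A) (algebraMap F (AC F) A')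
  rw [Polynomial.map_map, Polynomial.map_map, hτ'] at h1
  have h2 : (τ : AC F →+* k') (Ws (c.map (algebraMap F (AC F))) (cX.map (algebraMap F (AC F)))
    (algebraMap F (AC F) β) (algebraMap F (AC F) x) (algebraMap F (AC F) A)
    (algebraMap F (AC F) A')) = s z := by
    show τ (WA c cX β x A A') = s z
    rw [← hz, hτ]
  rw [← h2, ← h1]
  show Ws (c.map s) (cX.map s) (τ (algebraMap F (AC F) β)) (τ (algebraMap F (AC F) x))
    (τ (algebraMap F (AC F) A)) (τ (algebraMap F (AC F) A')) = _
  rw [hτ, hτ, hτ, hτ]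

lemma mem_range_of_pow [Fintype F] (w : AC F) (h : w ^ Fintype.card F = w) :
    ∃ z : F, algebraMap F (AC F) z = w := by
  have h1 : (X ^ Fintype.card F - X : F[X]).Splits := by
    rw [splits_iff_card_roots, FiniteField.roots_X_pow_card_sub_X,
      FiniteField.X_pow_card_sub_X_natDegree_eq F Fintype.one_lt_card]
    rfl
  have h2 : (X ^ Fintype.card F - X : F[X]) ≠ 0 :=
    FiniteField.X_pow_card_sub_X_ne_zero F Fintype.one_lt_card
  have h3 : ((X ^ Fintype.card F - X : F[X]).map (algebraMap F (AC F))).IsRoot w := by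
    rw [IsRoot.def, Polynomial.map_sub, Polynomial.map_pow, map_X, eval_sub, eval_pow, eval_X, h,
      sub_self]
  exact h1.mem_range_of_isRoot h2 h3

lemma exists_w [Fintype F] (c cX : F[X]) (β x A A' : F) :
    ∃ z : F, algebraMap F (AC F) z = WA c cX β x A A' := by
  apply mem_range_of_pow
  let τ : AC F →ₐ[F] AC F := FiniteField.frobeniusAlgHom F (AC F)
  have hτ : ∀ y : F, τ (algebraMap F (AC F) y) = algebraMap F (AC F) y := fun y => τ.commutes y
  have hτ' : (τ : AC F →+* AC F).comp (algebraMap F (AC F)) = algebraMap F (AC F) :=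
    RingHom.ext hτ
  have h1 := Ws_map (τ : AC F →+* AC F) (c := c.map (algebraMap F (AC F))) (IsAlgClosed.splits _)
    (cX.map (algebraMap F (AC F))) (algebraMap F (AC F) β) (algebraMap F (AC F) x)
    (algebraMap F (AC F) A) (algebraMap F (AC F) A')
  rw [Polynomial.map_map, Polynomial.map_map, hτ'] at h1
  show τ (WA c cX β x A A') = WA c cX β x A A'
  refine Eq.trans h1.symm ?_
  show Ws (c.map (algebraMap F (AC F))) (cX.map (algebraMap F (AC F)))
    (τ (algebraMap F (AC F) β)) (τ (algebraMap F (AC F) x))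
    (τ (algebraMap F (AC F) A)) (τ (algebraMap F (AC F) A')) = _
  rw [hτ, hτ, hτ, hτ]
  rfl

/-- the local term -/
noncomputable def wE [Fintype F] (c cX : F[X]) (β x A A' : F) : F :=
  (exists_w c cX β x A A').choose

lemma wE_spec [Fintype F] (c cX : F[X]) (β x A A' : F) :
    algebraMap F (AC F) (wE c cX β x A A') = WA c cX β x A A' :=
  (exists_w c cX β x A A').choose_spec

lemma gE_zero (c cX : F[X]) (β x A A' : F) (h : c.eval A = 0) : gE c cX β x A A' = 0 := by
  unfold gE
  rw [if_pos h]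

lemma gE_ne [Fintype F] (c cX : F[X]) (β x A A' : F) (h : c.eval A ≠ 0) :
    gE c cX β x A A' = sg (wE c cX β x A A') := by
  unfold gE sg
  rw [if_neg h]
  have h1 : (∃ y : F, algebraMap F (AC F) (y ^ 2 + y) =
      Ws (c.map (algebraMap F (AC F))) (cX.map (algebraMap F (AC F)))
        (algebraMap F (AC F) β) (algebraMap F (AC F) x) (algebraMap F (AC F) A)
        (algebraMap F (AC F) A')) ↔ ∃ y : F, y ^ 2 + y = wE c cX β x A A' := by
    constructor
    · rintro ⟨y, hy⟩
      refine ⟨y, (algebraMap F (AC F)).injective ?_⟩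
      rw [wE_spec]
      exact hy
    · rintro ⟨y, hy⟩
      refine ⟨y, ?_⟩
      rw [hy, wE_spec]
      rfl
  by_cases h2 : ∃ y : F, y ^ 2 + y = wE c cX β x A A'
  · rw [if_pos (h1.2 h2), if_pos h2]
  · rw [if_neg fun h3 => h2 (h1.1 h3), if_neg h2]

end field

section trace

variable {K : Type} [Field K] [Fintype K] [CharP K 2] (P : K[X]) [hP : Fact (Irreducible P)]

/-- the local term at `P` -/
noncomputable def TlE (cp : K[X][X]) (b x : K[X]) : AdjoinRoot P :=
  wE (cp.map (AdjoinRoot.mk P)) ((dX cp).map (AdjoinRoot.mk P)) (AdjoinRoot.mk P (derivative b))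
    (AdjoinRoot.root P) (AdjoinRoot.mk P x) (AdjoinRoot.mk P (derivative x))

/-- the local term at the root `ρ` -/
noncomputable def WrE (cp : K[X][X]) (b x : K[X]) (ρ : AC K) : AC K :=
  Ws (cp.map (evA ρ)) ((dX cp).map (evA ρ)) (evA ρ (derivative b)) ρ (evA ρ x)
    (evA ρ (derivative x))

lemma evA_eq (σ : AdjoinRoot P →ₐ[K] AC K) :
    evA (σ (AdjoinRoot.root P)) = (σ : AdjoinRoot P →+* AC K).comp (AdjoinRoot.mk P) := by
  refine RingHom.ext fun g => ?_
  show (evalRingHom (σ (AdjoinRoot.root P))) (g.map (algebraMap K (AC K))) =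
    σ (AdjoinRoot.mk P g)
  rw [alg_mk, coe_evalRingHom, aeval_def, eval_map]

open Classical in
lemma sum_WrE (cp : K[X][X]) (b x : K[X]) :
    algebraMap K (AC K) (Algebra.trace K (AdjoinRoot P) (TlE P cp b x)) =
      ∑ ρ ∈ (P.aroots (AC K)).toFinset, WrE cp b x ρ := by
  apply sum_trace
  intro σ
  have h1 := transport (σ : AdjoinRoot P →+* AC K) (cp.map (AdjoinRoot.mk P))
    ((dX cp).map (AdjoinRoot.mk P)) (AdjoinRoot.mk P (derivative b)) (AdjoinRoot.root P)
    (AdjoinRoot.mk P x) (AdjoinRoot.mk P (derivative x)) (TlE P cp b x) (wE_spec _ _ _ _ _ _)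
  unfold WrE
  rw [evA_eq]
  rw [Polynomial.map_map, Polynomial.map_map] at h1
  exact h1

end trace

section sign

variable {K : Type} [Field K] [Fintype K] [CharP K 2]

open Classical in
/-- the sign of the local term -/
noncomputable def TSE (cp : K[X][X]) (P b x : K[X]) : ℝ :=
  if hP : Irreducible P then (letI := Fact.mk hP; sg (TlE P cp b x)) else 1

lemma TSE_eq (cp : K[X][X]) (P : K[X]) [hP : Fact (Irreducible P)] (b x : K[X]) :
    TSE cp P b x = sg (TlE P cp b x) := by
  unfold TSE
  rw [dif_pos hP.out]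

lemma TSE_pm (cp : K[X][X]) (P b x : K[X]) : TSE cp P b x = 1 ∨ TSE cp P b x = -1 := by
  unfold TSE
  split_ifs with h
  · have : Fact (Irreducible P) := ⟨h⟩
    exact Pool.Agent.H985.FC.WF.sg_pm (F := AdjoinRoot P) _
  · exact Or.inl rfl

lemma TSE_sq (cp : K[X][X]) (P b x : K[X]) : TSE cp P b x * TSE cp P b x = 1 := by
  rcases TSE_pm cp P b x with h | h <;> rw [h] <;> norm_num

/-- the value of the local function -/
lemma GE_eq (cp : K[X][X]) (P b x : K[X]) [hP : Fact (Irreducible P)] :
    GE cp b P (Pool.Agent.H604.FC.rp P x) =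
      gE (cp.map (AdjoinRoot.mk P)) ((dX cp).map (AdjoinRoot.mk P))
        (AdjoinRoot.mk P (derivative b)) (AdjoinRoot.root P) (AdjoinRoot.mk P x)
        (AdjoinRoot.mk P (derivative x)) := by
  unfold GE
  rw [dif_pos hP.out]
  rfl

lemma eval_mk (cp : K[X][X]) (P x : K[X]) :
    (cp.map (AdjoinRoot.mk P)).eval (AdjoinRoot.mk P x) = AdjoinRoot.mk P (cp.eval x) := by
  rw [eval_map, eval₂_at_apply]

lemma GE_zero (cp : K[X][X]) {P b x : K[X]} (hP : Irreducible P) (h : P ∣ cp.eval x) :
    GE cp b P (Pool.Agent.H604.FC.rp P x) = 0 := by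
  have := Fact.mk hP
  rw [GE_eq]
  apply gE_zero
  rw [eval_mk, AdjoinRoot.mk_eq_zero]
  exact h

lemma GE_ne (cp : K[X][X]) {P b x : K[X]} (hP : Irreducible P) (h : ¬ P ∣ cp.eval x) :
    GE cp b P (Pool.Agent.H604.FC.rp P x) = TSE cp P b x := by
  have := Fact.mk hP
  rw [GE_eq, TSE_eq]
  apply gE_ne
  rw [eval_mk, Ne, AdjoinRoot.mk_eq_zero]
  exact h

end sign

end WFE

end Pool.Agent.H140.E
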