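import Mathlib
import Pool.Agent.H140.E.WinFa
import Pool.Agent.H140.Q.WinM

/-!
# The product formula in a window (task WINFE)

Adapted from `Pool.Agent.H985.FC.WinF` and `Pool.Agent.H140.Q.WinM`.
-/

set_option autoImplicit false
set_option linter.unusedSectionVars false

namespace Pool.Agent.H140.E

open Polynomial
open Pool.Agent.H524 (AC)
open Pool.Agent.H985.Chow (mob Wl)
open Pool.Agent.H985.Chow.Win
open Pool.Agent.H985.KP (sg PA)
open Pool.Agent.H604.FC (rp)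
open Pool.Agent.H140.Q (mobM)
open Pool.Agent.H140.Q.WinM (mobM_mul mobM_mul0 cop_g1 cop_g2)

namespace WFE

section key

variable {K : Type} [Field K] [Fintype K] [CharP K 2]

lemma sum_h {cp : K[X][X]} {h : K[X]} (hh : h.Monic) (b x : K[X]) {I : Finset K[X]}
    (hI : ∀ P ∈ I, P.Monic ∧ Irreducible P) (hp : ∏ P ∈ I, P = h)
    [inst : ∀ i : {P // P ∈ I}, Fact (Irreducible i.1)] [DecidableEq (AC K)] :
    ∑ ρ ∈ (h.aroots (AC K)).toFinset, WrE cp b x ρ =
      algebraMap K (AC K) (∑ i : {P // P ∈ I}, Algebra.trace K (AdjoinRoot i.1)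
        (TlE i.1 cp b x)) := by
  classical
  have h1 := roots_union hh.ne_zero hI hp (WrE cp b x)
  have h2 : ∑ ρ ∈ (h.aroots (AC K)).toFinset, WrE cp b x ρ =
      ∑ P ∈ I, ∑ ρ ∈ (P.aroots (AC K)).toFinset, WrE cp b x ρ := by
    refine Eq.trans ?_ (h1.trans ?_)
    · exact Finset.sum_congr (by ext; simp) fun _ _ => rfl
    · exact Finset.sum_congr rfl fun _ _ => Finset.sum_congr (by ext; simp) fun _ _ => rfl
  rw [h2, map_sum, ← Finset.sum_coe_sort I]
  refine Finset.sum_congr rfl fun i _ => ?_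
  refine Eq.trans ?_ (sum_WrE i.1 cp b x).symm
  exact Finset.sum_congr (by ext; simp) fun _ _ => rfl

/-- the sign of the sum of the traces -/
lemma psi_prod (cp : K[X][X]) (b x : K[X]) {I : Finset K[X]}
    [inst : ∀ i : {P // P ∈ I}, Fact (Irreducible i.1)] :
    psiK K (∑ i : {P // P ∈ I}, Algebra.trace K (AdjoinRoot i.1) (TlE i.1 cp b x)) =
      ((∏ P ∈ I, TSE cp P b x : ℝ) : ℂ) := by
  rw [char_sum]
  push_cast
  rw [← Finset.prod_coe_sort I]
  refine Finset.prod_congr rfl fun i _ => ?_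
  rw [← psiP_apply, Pool.Agent.H985.FC.WF.psiP_sg, TSE_eq]

end key

section phi

variable {K : Type} [Field K] [CharP K 2]

/-- the derivative of a value of `Φ`: the coefficients of `Φ` are squares -/
lemma der_PhE (cp : K[X][X]) (G : K[X]) :
    derivative ((PhE cp).eval G) = (derivative (PhE cp)).eval G * derivative G := by
  unfold PhE
  induction cp using Polynomial.induction_on' with
  | add p q hp hq =>
    rw [Polynomial.map_add, eval_add, derivative_add, derivative_add, hp, hq, eval_add]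
    ring
  | monomial n a =>
    rw [map_monomial, eval_monomial, derivative_monomial, eval_monomial, derivative_mul,
      derivative_pow, frobenius_def, derivative_pow]
    have h2 : (C ((2 : ℕ) : K) : K[X]) = 0 := by
      have h : ((2 : ℕ) : K) = 0 := CharP.cast_eq_zero K 2
      rw [h, C_0]
    rw [h2]
    have h3 : (C ((n : ℕ) : K) : K[X]) = (n : K[X]) := by
      rw [map_natCast]
    rw [h3]
    ring

lemma der_G (x b : K[X]) : derivative (x ^ 2 + X * b ^ 2) = b ^ 2 := by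
  rw [derivative_add, derivative_mul, derivative_X, derivative_pow, derivative_pow]
  have h2 : (C ((2 : ℕ) : K) : K[X]) = 0 := by
    have h : ((2 : ℕ) : K) = 0 := CharP.cast_eq_zero K 2
    rw [h, C_0]
  rw [h2]
  ring

lemma eval_sq (cp : K[X][X]) (x : K[X]) : (PhE cp).eval (x ^ 2) = (cp.eval x) ^ 2 := by
  have h := eval₂_at_apply (p := cp) (frobenius K[X] 2) x
  rw [← eval_map] at h
  exact h

/-- the value of `Φ` modulo a divisor of `b` -/
lemma dvd_iff (cp : K[X][X]) {P x b : K[X]} (hP : Irreducible P) (hb : P ∣ b) :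
    P ∣ (PhE cp).eval (x ^ 2 + X * b ^ 2) ↔ P ∣ cp.eval x := by
  have h1 : P ∣ (PhE cp).eval (x ^ 2 + X * b ^ 2) - (PhE cp).eval (x ^ 2) := by
    refine Dvd.dvd.trans ?_ (sub_dvd_eval_sub _ _ _)
    have e : x ^ 2 + X * b ^ 2 - x ^ 2 = X * b ^ 2 := by ring
    rw [e]
    exact (dvd_pow hb two_ne_zero).mul_left X
  rw [eval_sq] at h1
  constructor
  · intro h
    exact hP.prime.dvd_of_dvd_pow ((dvd_sub_right h).1 h1)
  · intro h
    exact (dvd_sub_left (dvd_pow h two_ne_zero)).1 h1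

/-- a value of `Φ` divisible by a prime divisor of `b` is divisible by its square -/
lemma sq_dvd_of [Fintype K] (cp : K[X][X]) {P x b : K[X]} (hP : Irreducible P) (hb : P ∣ b)
    (h : P ∣ (PhE cp).eval (x ^ 2 + X * b ^ 2)) :
    P ^ 2 ∣ (PhE cp).eval (x ^ 2 + X * b ^ 2) := by
  have := Fact.mk hP
  apply Pool.Agent.H985.Chow.Win.sq_dvd P
  unfold rr
  have h1 : P ∣ derivative ((PhE cp).eval (x ^ 2 + X * b ^ 2)) := by
    rw [der_PhE, der_G]
    exact (dvd_pow hb two_ne_zero).mul_left _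
  rw [AdjoinRoot.mk_eq_zero.2 h, AdjoinRoot.mk_eq_zero.2 h1]
  rfl

lemma mob0 [Fintype K] (cp : K[X][X]) {P x b m g : K[X]}
    (hf : (PhE cp).eval (x ^ 2 + X * b ^ 2) = m * g) (hP : Irreducible P) (hb : P ∣ b)
    (h : P ∣ g) (hm : ¬ P ∣ m) : mob g = 0 := by
  unfold mob
  rw [if_neg]
  intro hs
  have h4 : P ^ 2 ∣ m * g := by
    rw [← hf]
    apply sq_dvd_of cp hP hb
    rw [hf]
    exact h.mul_left m
  have h3 : IsCoprime P m := hP.coprime_iff_not_dvd.2 hm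
  have h5 : P ^ 2 ∣ g := (h3.pow_left (m := 2)).dvd_of_dvd_mul_left h4
  rw [sq] at h5
  exact hP.not_isUnit (hs P h5)

/-- the shift of the window -/
lemma shift (cp : K[X][X]) {Z b e m N E : K[X]} (h : (e * N ^ 2 * m) ^ 5 ∣ E) (u : K[X]) :
    ∃ s : K[X], (PhE cp).eval ((Z + E * u) ^ 2 + X * b ^ 2) =
      (PhE cp).eval (Z ^ 2 + X * b ^ 2) + m * ((e * (m * N)) * s) := by
  obtain ⟨t, ht⟩ := h
  obtain ⟨s, hs⟩ := sub_dvd_eval_sub ((Z + E * u) ^ 2 + X * b ^ 2) (Z ^ 2 + X * b ^ 2) (PhE cp)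
  have h2 : (2 : K[X]) = 0 := by
    have h : ((2 : ℕ) : K) = 0 := CharP.cast_eq_zero K 2
    have h3 : (C ((2 : ℕ) : K) : K[X]) = (2 : K[X]) := by
      rw [Nat.cast_ofNat]
      exact map_ofNat C 2
    rw [← h3, h, C_0]
  refine ⟨e ^ 9 * N ^ 19 * m ^ 8 * t ^ 2 * u ^ 2 * s, ?_⟩
  have e1 : (Z + E * u) ^ 2 + X * b ^ 2 - (Z ^ 2 + X * b ^ 2) = (E * u) ^ 2 := by
    linear_combination (Z * (E * u)) * h2
  rw [e1] at hs
  rw [sub_eq_iff_eq_add.1 hs, ht]
  ring

end phi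

end WFE

open WFE

/-- **Task WINFE.** -/
theorem winFE (hkey : S_keyE) : S_winFE := by
  intro K _ _ _ cp u₁ v₁ N μ₀ hS
  obtain ⟨c₀, hk⟩ := hkey K cp u₁ v₁ N μ₀ hS
  refine ⟨c₀ + 1, ?_⟩
  intro n L c Z e h m E hc he hh hm hmd heh hs hEh hE0 h5 hL m1 d1 k1 k2
  classical
  obtain ⟨b, hb⟩ : ∃ b, b = C c * (e * h) := ⟨_, rfl⟩
  have hm0 : m ≠ 0 := hm.ne_zero
  -- the prime divisors of `h`
  obtain ⟨I, hI, hp⟩ := facs hh hs
  have hI' : ∀ P ∈ I, P.Monic ∧ Irreducible P := fun P hP =>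
    ⟨((hI P).1 hP).1, ((hI P).1 hP).2.1⟩
  have inst : ∀ i : {P // P ∈ I}, Fact (Irreducible i.1) := fun i => ⟨(hI' i.1 i.2).2⟩
  have hPA : PA h = ↑I := by
    ext P
    rw [Finset.mem_coe, hI]
    rfl
  have hGE : ∀ u : K[X], ∏ᶠ P ∈ PA h, GE cp (C c * (e * h)) P (rp P (Z + E * u)) =
      ∏ P ∈ I, GE cp b P (rp P (Z + E * u)) := by
    intro u
    rw [hPA, finprod_mem_coe_finset, hb]
  have hmN : m * N ∣ E := by
    refine Dvd.dvd.trans ?_ h5
    exact ⟨e ^ 5 * N ^ 9 * m ^ 4, by ring⟩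
  have hmNh : IsCoprime (m * N) h := hEh.of_isCoprime_of_dvd_left hmN
  have hPb : ∀ P ∈ I, P ∣ b := by
    intro P hP
    rw [hb]
    exact (((hI P).1 hP).2.2.mul_left _).mul_left _
  have heb : e ∣ b := by
    rw [hb]
    exact (Dvd.intro _ rfl : e ∣ e * h).mul_left _
  choose s hs' using fun u => shift cp (Z := Z) (b := b) h5 u
  simp only [hGE]
  by_cases hdm : m ∣ (PhE cp).eval (Z ^ 2 + X * b ^ 2)
  swap
  · refine ⟨0, by norm_num, fun u hu => ?_⟩
    have h0 : mobM m N ((PhE cp).eval ((Z + E * u) ^ 2 + X * (C c * (e * h)) ^ 2)) = 0 := by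
      unfold mobM
      rw [if_neg]
      rintro ⟨h1, -⟩
      apply hdm
      rw [← hb, hs' u] at h1
      exact (dvd_add_left (Dvd.intro _ rfl)).1 h1
    rw [h0, zero_mul, Int.cast_zero]
  obtain ⟨g₀, hg₀⟩ := hdm
  obtain ⟨g, hgdef⟩ : ∃ g : K[X] → K[X], ∀ u, g u = g₀ + (e * (m * N)) * s u :=
    ⟨fun u => g₀ + (e * (m * N)) * s u, fun _ => rfl⟩
  have hgu : ∀ u, (PhE cp).eval ((Z + E * u) ^ 2 + X * b ^ 2) = m * g u := by
    intro u
    rw [hs' u, hg₀, hgdef]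
    ring
  by_cases hc0 : IsCoprime g₀ (m * N)
  swap
  · refine ⟨0, by norm_num, fun u hu => ?_⟩
    have h1 : ¬ IsCoprime (g u) (m * N) := by
      rw [hgdef, cop_g1]
      exact hc0
    rw [← hb, hgu, mobM_mul0 hm0 h1, zero_mul, Int.cast_zero]
  have hcu : ∀ u, IsCoprime (g u) (m * N) := by
    intro u
    rw [hgdef, cop_g1]
    exact hc0
  have hmu : ∀ u, mobM m N ((PhE cp).eval ((Z + E * u) ^ 2 + X * (C c * (e * h)) ^ 2)) =
      mob (g u) := by
    intro u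
    rw [← hb, hgu, mobM_mul hm0 (hcu u)]
  simp only [hmu]
  by_cases hA : IsCoprime g₀ e
  swap
  · refine ⟨0, by norm_num, fun u hu => ?_⟩
    have h1 : ¬ IsCoprime (g u) e := by
      rw [hgdef, cop_g2]
      exact hA
    have h2 : ∃ P, Irreducible P ∧ P ∣ g u ∧ P ∣ e := by
      by_contra hcon
      apply h1
      apply isCoprime_of_irreducible_dvd
      · exact fun h => he.ne_zero h.2
      · exact fun z hz h2 h3 => hcon ⟨z, hz, h2, h3⟩
    obtain ⟨P, hP, hPg, hPe⟩ := h2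
    have h3 : ¬ P ∣ m := fun h3 => hP.not_isUnit ((hcu u).isUnit_of_dvd' hPg (h3.mul_right N))
    rw [mob0 cp (hgu u) hP (hPe.trans heb) hPg h3, zero_mul, Int.cast_zero]
  have hAu : ∀ u, IsCoprime (g u) e := by
    intro u
    rw [hgdef, cop_g2]
    exact hA
  -- the bad `u`
  have hmP : ∀ P ∈ I, ¬ P ∣ m := by
    intro P hP h3
    exact (hI' P hP).2.not_isUnit (hmNh.isUnit_of_dvd' (h3.mul_right N) ((hI P).1 hP).2.2)
  have hiff : ∀ u, ∀ P ∈ I, (P ∣ g u ↔ P ∣ cp.eval (Z + E * u)) := by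
    intro u P hP
    rw [← dvd_iff cp (hI' P hP).2 (hPb P hP), hgu]
    constructor
    · intro h1
      exact h1.mul_left m
    · intro h1
      exact ((hI' P hP).2.prime.dvd_or_dvd h1).resolve_left (hmP P hP)
  have bad : ∀ u : K[X], ¬ IsCoprime (g u) h →
      ((mob (g u) : ℤ) : ℝ) = 0 ∧ ∏ P ∈ I, GE cp b P (rp P (Z + E * u)) = 0 := by
    intro u hu
    obtain ⟨i, hi⟩ := not_cop hI' hp hu
    constructor
    · rw [mob0 cp (hgu u) (hI' i.1 i.2).2 (hPb i.1 i.2) hi (hmP i.1 i.2), Int.cast_zero]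
    · exact Finset.prod_eq_zero i.2 (GE_zero cp (hI' i.1 i.2).2 ((hiff u i.1 i.2).1 hi))
  by_cases hg : ∃ u₀ : K[X], u₀.degree < (L : WithBot ℕ) ∧ IsCoprime (g u₀) h
  swap
  · refine ⟨0, by norm_num, fun u hu => ?_⟩
    rw [zero_mul]
    exact (bad u fun h1 => hg ⟨u, hu, h1⟩).1
  obtain ⟨u₀, hu₀, g1⟩ := hg
  -- degrees
  have hEu : ∀ u : K[X], u.degree < (L : WithBot ℕ) →
      (E * u).natDegree ≤ E.natDegree + (L - 1) := fun u hu =>
    natDegree_mul_le.trans (Nat.add_le_add_left (nd_lt hL hu) _)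
  have md1 : ∀ u : K[X], u.degree < (L : WithBot ℕ) →
      ((Z + E * u) ^ 2 + X * (C c * (e * h)) ^ 2).Monic ∧
      ((Z + E * u) ^ 2 + X * (C c * (e * h)) ^ 2).natDegree = n := by
    intro u hu
    have e1 : (Z + E * u) ^ 2 + X * (C c * (e * h)) ^ 2 =
        (Z ^ 2 + X * (C c * (e * h)) ^ 2) + (E * u) ^ 2 := by
      rw [sq_add]
      ring
    rw [e1]
    refine win_mon m1 d1 ?_
    rw [natDegree_pow]
    have := hEu u hu
    omega
  have hcop : ∀ u, IsCoprime (g u) h → IsCoprime (g u) (m * N * (e * h)) := fun u hu =>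
    (hcu u).mul_right ((hAu u).mul_right hu)
  -- the key formula
  have K1 : ∀ u : K[X], u.degree < (L : WithBot ℕ) → IsCoprime (g u) h →
      ((mob (g u₀) : ℤ) : ℝ) * ((mob (g u) : ℤ) : ℝ) =
      (∏ P ∈ I, TSE cp P b (Z + E * u₀)) * ∏ P ∈ I, TSE cp P b (Z + E * u) := by
    intro u hu hgu'
    have e1 : (Z + E * u) - (Z + E * u₀) = E * (u - u₀) := by ring
    have hE2 := hEu (u - u₀) ((degree_sub_le u u₀).trans_lt (max_lt hu hu₀))
    obtain ⟨w, hw, hmob⟩ := hk n c (Z + E * u₀) (Z + E * u) e h m (g u₀) (g u) hc he hh hm hmd heh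
      hs hmNh (md1 u₀ hu₀).1 (md1 u₀ hu₀).2 (md1 u hu).1 (md1 u hu).2
      (by rw [← hb]; exact hgu u₀) (by rw [← hb]; exact hgu u) (hcop u₀ g1) (hcop u hgu')
      (by rw [e1]; exact h5.mul_right _) (by rw [e1]; omega) (by rw [e1]; omega)
    have hw' : w = (∑ i : {P // P ∈ I}, Algebra.trace K (AdjoinRoot i.1)
        (TlE i.1 cp b (Z + E * u₀))) + ∑ i : {P // P ∈ I}, Algebra.trace K (AdjoinRoot i.1)
        (TlE i.1 cp b (Z + E * u)) := by
      apply (algebraMap K (AC K)).injective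
      refine Eq.trans ?_ (RingHom.map_add (algebraMap K (AC K)) _ _).symm
      rw [hw, ← sum_h hh b _ hI' hp, ← sum_h hh b _ hI' hp, ← Finset.sum_add_distrib, hb]
      rfl
    have hps : ((if ∃ x : K, x ^ 2 + x = w then (1 : ℤ) else -1 : ℤ) : ℂ) = psiK K w := by
      rw [psiK_apply]
      split_ifs <;> simp
    have h3 : ((((mob (g u₀) : ℤ) : ℝ) * ((mob (g u) : ℤ) : ℝ) : ℝ) : ℂ) =
        (((∏ P ∈ I, TSE cp P b (Z + E * u₀)) * ∏ P ∈ I, TSE cp P b (Z + E * u) : ℝ) : ℂ) := by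
      rw [Complex.ofReal_mul, Complex.ofReal_mul, ← psi_prod, ← psi_prod,
        ← AddChar.map_add_eq_mul, ← hw', ← hps, ← hmob]
      push_cast
      rfl
    exact_mod_cast h3
  have P0 := K1 u₀ hu₀ g1
  have hXX : ∀ A : K[X], (∏ P ∈ I, TSE cp P b A) * ∏ P ∈ I, TSE cp P b A = 1 := by
    intro A
    rw [← Finset.prod_mul_distrib]
    exact Finset.prod_eq_one fun P _ => TSE_sq cp P b A
  rw [hXX] at P0
  generalize hM0 : ((mob (g u₀) : ℤ) : ℝ) = M0 at *
  have Q0 := hXX (Z + E * u₀)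
  generalize hX0 : ∏ P ∈ I, TSE cp P b (Z + E * u₀) = X0 at *
  have abs1 : ∀ z : ℝ, z * z = 1 → |z| = 1 := by
    intro z hz
    have : |z| * |z| = 1 := by rw [← abs_mul, hz, abs_one]
    nlinarith [abs_nonneg z]
  refine ⟨M0 * X0, ?_, fun u hu => ?_⟩
  · rw [abs_mul, abs1 _ P0, abs1 _ Q0]; norm_num
  by_cases hcw : IsCoprime (g u) h
  · have h1 := K1 u hu hcw
    have h2 : ∏ P ∈ I, GE cp b P (rp P (Z + E * u)) = ∏ P ∈ I, TSE cp P b (Z + E * u) := by
      refine Finset.prod_congr rfl fun P hP => ?_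
      apply GE_ne cp (hI' P hP).2
      intro h3
      exact (hI' P hP).2.not_isUnit (hcw.isUnit_of_dvd' ((hiff u P hP).2 h3) ((hI P).1 hP).2.2)
    rw [h2]
    linear_combination M0 * h1 - ((mob (g u) : ℤ) : ℝ) * P0
  · obtain ⟨h1, h2⟩ := bad u hcw
    rw [h1, h2, mul_zero]

end Pool.Agent.H140.E
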