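import Mathlib
import Pool.Agent.H604.FC.Final
import Pool.Agent.H140.E.Key
import Pool.Agent.H140.E.Loc0
import Pool.Agent.H140.E.LocR
import Pool.Agent.H140.E.WinF
import Pool.Agent.H140.E.Win5
import Pool.Agent.H140.E.Win4
import Pool.Agent.H140.E.LocE
import Pool.Agent.H140.E.Asm
import Pool.Agent.H140.E.Cnt
import Pool.Agent.H140.E.Tail
import Pool.Agent.H140.E.Lam
import Pool.Agent.H140.E.Fin

/-!
# Chowla's conjecture for polynomials of any degree over `F_q[X]`, `q` even: final assembly
-/

set_option autoImplicit false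

namespace Pool.Agent.H140.E

open Pool.Agent.H985.Chow (cmp)
open Pool.Agent.H985.KP (cnt typ2)
open Pool.Agent.H604.FC (fin_ badt)

theorem s_keyE : S_keyE := keyE (locr tloc0)

theorem s_win5E : S_win5E :=
  win5E (winFE s_keyE) (win4E Pool.Agent.H914.FC.gcs (fin_ cmp) (badt cnt) cnt) locE

theorem s_apE : S_apE := asmE s_win5E typ2

theorem s_lioE : S_lioE := lamE s_apE (tailE cntE bigE)

theorem s_E : S_E := finE s_lioE

end Pool.Agent.H140.E
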