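import Mathlib
import Pool.Agent.H140.E.StmF

/-!
# From `μ θ + s = σ ^ 2`, `σ` separable, to the product form
-/

set_option autoImplicit false

namespace Pool.Agent.H140.E

open Polynomial
open scoped IntermediateField

section lemmas

theorem intrA_key {F Om : Type} [Field F] [CharP F 2] [Field Om] [Algebra F Om]
    (p : F[X]) (hp : Irreducible p) (hm : p.Monic) (θ σ : Om) (μ s : F) (hμ : μ ≠ 0)
    (hθ : aeval θ p = 0) (hσ : IsSeparable F σ)
    (h : σ ^ 2 = algebraMap F Om μ * θ + algebraMap F Om s) :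
    ((minpoly F σ).map (frobenius F 2)).comp (C μ * X + C s) =
      C (μ ^ (minpoly F σ).natDegree) * p := by
  have hO : CharP Om 2 := charP_of_injective_algebraMap (algebraMap F Om).injective 2
  have hint : IsIntegral F σ := hσ.isIntegral
  have hpm : p = minpoly F θ := minpoly.eq_of_irreducible_of_monic hp hθ hm
  have hθi : IsIntegral F θ := ⟨p, hm, by rw [← aeval_def]; exact hθ⟩
  set m := minpoly F σ with hmdef
  have hmm : m.Monic := minpoly.monic hint
  have hmf : (m.map (frobenius F 2)).Monic := hmm.map _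
  set L := (m.map (frobenius F 2)).comp (C μ * X + C s) with hL
  have hlin : (C μ * X + C s : F[X]).natDegree = 1 := natDegree_linear hμ
  have hdeg : L.natDegree = m.natDegree := by
    rw [hL, natDegree_comp, hlin, mul_one, hmm.natDegree_map]
  have hlc : L.leadingCoeff = μ ^ m.natDegree := by
    rw [hL, leadingCoeff_comp (by rw [hlin]; exact one_ne_zero), hmf.leadingCoeff, one_mul,
      leadingCoeff_linear hμ, hmm.natDegree_map]
  have hLθ : aeval θ L = 0 := by
    rw [hL, aeval_comp]
    have e1 : aeval θ (C μ * X + C s : F[X]) = frobenius Om 2 σ := by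
      rw [frobenius_def, h]; simp
    rw [e1, aeval_def, eval₂_map]
    have e2 : (algebraMap F Om).comp (frobenius F 2) = (frobenius Om 2).comp (algebraMap F Om) := by
      ext x
      simp [frobenius_def]
    rw [e2, ← hom_eval₂, ← aeval_def, hmdef, minpoly.aeval, map_zero]
  have hfr : F⟮σ⟯ = F⟮σ ^ 2⟯ :=
    IntermediateField.adjoin_simple_eq_adjoin_pow_expChar_of_isSeparable F Om hσ 2
  have hθσ : F⟮σ ^ 2⟯ = F⟮θ⟯ := by
    apply le_antisymm
    · rw [IntermediateField.adjoin_simple_le_iff, h]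
      exact add_mem (mul_mem (IntermediateField.algebraMap_mem _ _)
        (IntermediateField.mem_adjoin_simple_self F θ)) (IntermediateField.algebraMap_mem _ _)
    · rw [IntermediateField.adjoin_simple_le_iff]
      have : θ = (algebraMap F Om μ)⁻¹ * (σ ^ 2 - algebraMap F Om s) := by
        rw [h, add_sub_cancel_right, ← mul_assoc, inv_mul_cancel₀, one_mul]
        exact (_root_.map_ne_zero _).2 hμ
      rw [this, ← map_inv₀]
      exact mul_mem (IntermediateField.algebraMap_mem _ _)
        (sub_mem (IntermediateField.mem_adjoin_simple_self F _)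
          (IntermediateField.algebraMap_mem _ _))
  have hdp : p.natDegree = m.natDegree := by
    rw [hpm, ← IntermediateField.adjoin.finrank hθi, hmdef, ← IntermediateField.adjoin.finrank hint,
      hfr, hθσ]
  have hdvd : p ∣ L := by
    rw [hpm]; exact minpoly.dvd F θ hLθ
  obtain ⟨q, hq⟩ := hdvd
  have hL0 : L ≠ 0 := by
    intro h0
    rw [h0, leadingCoeff_zero] at hlc
    exact pow_ne_zero _ hμ hlc.symm
  have hq0 : q ≠ 0 := by
    rintro rfl
    rw [mul_zero] at hq
    exact hL0 hq
  have hqd : q.natDegree = 0 := by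
    have := congrArg natDegree hq
    rw [natDegree_mul hm.ne_zero hq0, hdeg, hdp] at this
    omega
  obtain ⟨t, ht⟩ := natDegree_eq_zero.1 hqd
  have ht2 : t = μ ^ m.natDegree := by
    rw [← hlc, hq, ← ht, leadingCoeff_mul, hm.leadingCoeff, one_mul, leadingCoeff_C]
  rw [hq, ← ht, ht2, mul_comm]

theorem intrA_scale {F : Type} [Field F] [CharP F 2] (m Z : F[X]) (δ : F) :
    ((scaleRoots m δ).map (frobenius F 2)).comp (C (δ ^ 2) * Z) =
      C ((δ ^ 2) ^ m.natDegree) * (m.map (frobenius F 2)).comp Z := by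
  have h := scaleRoots_eval₂_mul (p := m) ((C : F →+* F[X]).comp (frobenius F 2)) Z δ
  have e : ((C : F →+* F[X]).comp (frobenius F 2)) δ = C (δ ^ 2) := by
    simp [frobenius_def]
  rw [e] at h
  rw [comp, eval₂_map, h, comp, eval₂_map, ← C_pow]

theorem intrA_lift {K : Type} [Field K] (m : (RatFunc K)[X]) (hm : m.Monic) (δ : K[X])
    (h : ∀ i, algebraMap K[X] (RatFunc K) δ * m.coeff i ∈
      Set.range (algebraMap K[X] (RatFunc K))) :
    ∃ q : K[X][X], q.map (algebraMap K[X] (RatFunc K)) =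
      scaleRoots m (algebraMap K[X] (RatFunc K) δ) := by
  rw [← mem_lifts, lifts_iff_coeff_lifts]
  intro i
  rw [coeff_scaleRoots]
  rcases lt_trichotomy i m.natDegree with hi | hi | hi
  · obtain ⟨k, hk⟩ : ∃ k, m.natDegree - i = k + 1 := ⟨m.natDegree - i - 1, by omega⟩
    obtain ⟨y, hy⟩ := h i
    refine ⟨y * δ ^ k, ?_⟩
    rw [hk, map_mul, hy, map_pow]
    ring
  · refine ⟨1, ?_⟩
    rw [hi, Nat.sub_self, pow_zero, mul_one, map_one, hm.coeff_natDegree]
  · refine ⟨0, ?_⟩
    rw [coeff_eq_zero_of_natDegree_lt hi, zero_mul, map_zero]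

end lemmas

open Classical in
theorem intrA : S_intrA := by
  intro K _ _ _ f u v μ N hμ hN hf0 hsep hroot
  set A := algebraMap K[X] (RatFunc K) with hA
  have hAinj : Function.Injective A := IsFractionRing.injective K[X] (RatFunc K)
  have hF : CharP (RatFunc K) 2 := charP_of_injective_algebraMap hAinj 2
  have hA0 : ∀ x : K[X], A x = 0 ↔ x = 0 := fun x => by
    rw [← map_zero A]; exact hAinj.eq_iff
  set fb := f.map A with hfb
  have hfn : f ≠ 0 := by rintro rfl; simp at hf0
  have hfbd : fb.natDegree = f.natDegree := natDegree_map_eq_of_injective hAinj f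
  have hfb0 : fb ≠ 0 := by
    intro h0
    rw [h0, natDegree_zero] at hfbd
    omega
  have hlcfb : fb.leadingCoeff = A f.leadingCoeff := leadingCoeff_map_of_injective hAinj f
  set l := (UniqueFactorizationMonoid.normalizedFactors fb).toList with hl
  have hlprod : C (A f.leadingCoeff) * l.prod = fb := by
    rw [hl, Multiset.prod_toList, ← hlcfb]
    exact leadingCoeff_mul_prod_normalizedFactors fb
  have hmem : ∀ j : Fin l.length, Irreducible (l.get j) ∧ (l.get j).Monic ∧ (l.get j) ∣ fb := by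
    intro j
    have h1 := List.get_mem l j
    have h2 : l.get j ∈ UniqueFactorizationMonoid.normalizedFactors fb :=
      Multiset.mem_toList.1 h1
    exact (Polynomial.mem_normalizedFactors_iff hfb0).1 h2
  have hdat : ∀ j : Fin l.length, ∃ (m : (RatFunc K)[X]) (s : RatFunc K), m.Monic ∧
      (m.map (frobenius (RatFunc K) 2)).comp (C (A μ) * X + C s) =
        C ((A μ) ^ m.natDegree) * l.get j ∧ 0 < m.natDegree := by
    intro j
    obtain ⟨hirr, hmon, hdvd⟩ := hmem j
    obtain ⟨θ, hθ⟩ := IsAlgClosed.exists_aeval_eq_zero (AlgebraicClosure (RatFunc K)) (l.get j)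
      (degree_pos_of_irreducible hirr).ne'
    have hθf : aeval θ f = 0 := by
      rw [← aeval_map_algebraMap (RatFunc K)]
      obtain ⟨w, hw⟩ := hdvd
      rw [← hA, ← hfb, hw, map_mul, hθ, zero_mul]
    obtain ⟨s, σ, hσ, hs⟩ := hroot θ hθf
    refine ⟨minpoly (RatFunc K) σ, s, minpoly.monic hσ.isIntegral, ?_,
      minpoly.natDegree_pos hσ.isIntegral⟩
    refine intrA_key (l.get j) hirr hmon θ σ (A μ) s ?_ hθ hσ ?_
    · rw [Ne, hA0]; exact hμ
    · rw [hs, hA, ← IsScalarTower.algebraMap_apply]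
  choose m s hmm hms hmd using hdat
  -- common denominator
  obtain ⟨b, hb⟩ := IsLocalization.exist_integer_multiples_of_finset (nonZeroDivisors K[X])
    ((Finset.univ.biUnion fun j => (m j).coeffs) ∪ Finset.univ.image s)
  have hb0 : (b : K[X]) ≠ 0 := nonZeroDivisors.coe_ne_zero b
  have hlc0 : f.leadingCoeff ≠ 0 := leadingCoeff_ne_zero.2 hfn
  obtain ⟨δ, hδ⟩ : ∃ δ : K[X], δ = (b : K[X]) * f.leadingCoeff := ⟨_, rfl⟩
  have hδ0 : δ ≠ 0 := by rw [hδ]; exact mul_ne_zero hb0 hlc0
  have hrange : ∀ x ∈ ((Finset.univ.biUnion fun j => (m j).coeffs) ∪ Finset.univ.image s),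
      A δ * x ∈ Set.range A := by
    intro x hx
    obtain ⟨y, hy⟩ := hb x hx
    refine ⟨f.leadingCoeff * y, ?_⟩
    rw [map_mul, hA, hy, hδ, map_mul, Algebra.smul_def]
    ring
  have hcoef : ∀ j i, A δ * (m j).coeff i ∈ Set.range A := by
    intro j i
    by_cases h0 : (m j).coeff i = 0
    · exact ⟨0, by rw [h0, mul_zero, map_zero]⟩
    · apply hrange
      rw [Finset.mem_union, Finset.mem_biUnion]
      exact Or.inl ⟨j, Finset.mem_univ _, coeff_mem_coeffs h0⟩
  have hs' : ∀ j, ∃ a : K[X], A a = A δ ^ 2 * s j := by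
    intro j
    obtain ⟨y, hy⟩ := hrange (s j) (Finset.mem_union_right _
      (Finset.mem_image_of_mem s (Finset.mem_univ j)))
    refine ⟨δ * y, ?_⟩
    rw [map_mul, hy]
    ring
  choose a ha using hs'
  choose cp hcp using fun j => intrA_lift (m j) (hmm j) δ (hcoef j)
  -- exponent
  set E := ∑ j, (m j).natDegree with hE
  have hEpos : 0 < E := by
    have hlen : 0 < l.length := by
      rw [List.length_pos_iff]
      intro hnil
      rw [hnil, List.prod_nil, mul_one] at hlprod
      rw [← hlprod, natDegree_C] at hfbd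
      omega
    have := Finset.single_le_sum (f := fun j => (m j).natDegree) (fun j _ => Nat.zero_le _)
      (Finset.mem_univ (⟨0, hlen⟩ : Fin l.length))
    exact lt_of_lt_of_le (hmd ⟨0, hlen⟩) this
  refine ⟨l.length, cp, a, (b : K[X]) * (δ * μ) * (δ ^ 2 * μ) ^ (E - 1), δ, ?_, hδ0, ?_⟩
  · exact mul_ne_zero (mul_ne_zero hb0 (mul_ne_zero hδ0 hμ))
      (pow_ne_zero _ (mul_ne_zero (pow_ne_zero _ hδ0) hμ))
  apply Polynomial.map_injective A hAinj
  have hcomm : A.comp (frobenius K[X] 2) = (frobenius (RatFunc K) 2).comp A := by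
    ext x
    · simp [frobenius_def]
    · simp [frobenius_def]
  have hterm : ∀ j, (((cp j).map (frobenius K[X] 2)).comp (C (δ ^ 2 * μ) * X + C (a j))).map A =
      C ((A δ ^ 2 * A μ) ^ (m j).natDegree) * l.get j := by
    intro j
    rw [Polynomial.map_comp, Polynomial.map_map, hcomm, ← Polynomial.map_map, hcp j]
    have e : (C (δ ^ 2 * μ) * X + C (a j) : K[X][X]).map A =
        C ((A δ) ^ 2) * (C (A μ) * X + C (s j)) := by
      simp only [Polynomial.map_add, Polynomial.map_mul, Polynomial.map_pow, map_C, map_X,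
        map_mul, map_pow, ha j]
      ring
    rw [e, intrA_scale, hms j, ← mul_assoc, ← C_mul, ← mul_pow]
  rw [Polynomial.map_prod, Finset.prod_congr rfl (fun j _ => hterm j), Finset.prod_mul_distrib,
    ← map_prod, Finset.prod_pow_eq_pow_sum, ← hE]
  have hlp : ∏ j, l.get j = l.prod := by
    rw [← List.prod_ofFn, List.ofFn_get]
  rw [hlp, Polynomial.map_mul, map_C, ← hfb, ← hlprod, ← mul_assoc, ← C_mul]
  congr 2
  simp only [map_mul, map_pow]
  have hE1 : E = (E - 1) + 1 := by omega
  have hδA : A δ = A (b : K[X]) * A f.leadingCoeff := by rw [hδ, map_mul]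
  calc A (b : K[X]) * (A δ * A μ) * (A δ ^ 2 * A μ) ^ (E - 1) * A f.leadingCoeff
      = (A δ ^ 2 * A μ) ^ (E - 1) * (A (b : K[X]) * A f.leadingCoeff * A δ * A μ) := by ring
    _ = (A δ ^ 2 * A μ) ^ (E - 1) * (A δ * A δ * A μ) := by rw [← hδA]
    _ = (A δ ^ 2 * A μ) ^ (E - 1 + 1) := by rw [pow_succ]; ring
    _ = (A δ ^ 2 * A μ) ^ E := by rw [← hE1]

end Pool.Agent.H140.E

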