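import Mathlib
import Pool.Agent.H140.E.StmF
import Pool.Agent.H140.E.Fin
import Pool.Agent.H140.E.Tail

/-!
# Task MOBE: from the Liouville function to the Möbius function

By helper627; adapted from `E/Fin.lean` and `E/Tail.lean`.
-/

set_option autoImplicit false

namespace Pool.Agent.H140.E

open Polynomial
open Pool.Agent.H985.Chow (mob MD)
open Pool.Agent.H140.Q (liou)
open Pool.Agent.H140.Q.FinM (liou_ne liou_zero liou_mul liou_self liou_unit liou_C abs_liou)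
open Pool.Agent.H140.Q.TailMAux

namespace MobE

open FinE

open Classical in
/-- squares of large primes -/
theorem tail2 (hcnt : S_cntE) (hbig0 : S_bigE) (K : Type) [Field K] [Fintype K] [CharP K 2]
    (cp u v : K[X][X]) (N C0 : K[X]) (hS0 : SepE cp u v N) (η : ℝ) (hη : 0 < η) :
    ∃ M₀ : ℕ, ∀ M₁ : ℕ, M₀ ≤ M₁ → ∃ n₀ : ℕ, ∀ n : ℕ, n₀ ≤ n →
      ((MD K n ∩ {g | ∃ P : K[X], Irreducible P ∧ M₁ < P.natDegree ∧
        P ^ 2 ∣ (PhE cp).eval (g + C0)}).ncard : ℝ) ≤ η * (Fintype.card K : ℝ) ^ n := by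
  have hN : N ≠ 0 := hS0.2.2.1
  have hd0 : (0 : ℝ) ≤ (cp.natDegree : ℝ) := Nat.cast_nonneg _
  have hq2 : (2 : ℝ) ≤ (Fintype.card K : ℝ) := by
    have : 2 ≤ Fintype.card K := Fintype.one_lt_card
    exact_mod_cast this
  set q : ℝ := (Fintype.card K : ℝ) with hq
  obtain ⟨B, nb, hbig⟩ := hbig0 K cp u v N C0 hS0
  obtain ⟨tB, htB⟩ := exists_half B (η / 2) (by positivity) (by positivity)
  obtain ⟨tM, htM⟩ := exists_half (cp.natDegree : ℝ) (η / 2) hd0 (by positivity)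
  refine ⟨max tM (max N.natDegree 1), fun M₁ hM₁ => ⟨max nb (2 * tB), fun n hn => ?_⟩⟩
  have hn1 : nb ≤ n := by omega
  have hn2 : tB ≤ n / 2 := by omega
  -- everything as finsets
  set G : Finset K[X] := (MD_finite (K := K) n).toFinset with hG
  have hcard : ∀ (p : K[X] → Prop) [DecidablePred p],
      (MD K n ∩ {g | p g}).ncard = (G.filter p).card := by
    intro p _
    rw [← Set.ncard_coe_finset]
    congr 1
    ext g
    simp [hG]
  rw [hcard]
  set Bs : Finset K[X] := (Finset.Ioc M₁ (n / 2)).biUnion fun d =>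
    ((MD_finite (K := K) d).toFinset.filter Irreducible).biUnion fun P =>
      G.filter fun g => P ^ 2 ∣ (PhE cp).eval (g + C0) with hBs
  set Cs : Finset K[X] := G.filter fun g => ∃ P : K[X], Irreducible P ∧ n < 2 * P.natDegree ∧
    P ^ 2 ∣ (PhE cp).eval (g + C0) with hCs
  have hsub : (G.filter fun g => ∃ P : K[X], Irreducible P ∧ M₁ < P.natDegree ∧
        P ^ 2 ∣ (PhE cp).eval (g + C0)) ⊆ Bs ∪ Cs := by
    intro g hg
    obtain ⟨hgG, P, h2, hlt, h3⟩ := Finset.mem_filter.1 hg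
    rw [Finset.mem_union]
    by_cases h4 : n < 2 * P.natDegree
    · exact Or.inr (Finset.mem_filter.2 ⟨hgG, P, h2, h4, h3⟩)
    · left
      rw [hBs, Finset.mem_biUnion]
      refine ⟨P.natDegree, Finset.mem_Ioc.2 ⟨hlt, by omega⟩, ?_⟩
      rw [Finset.mem_biUnion]
      have h5 : Associated (normalize P) P := normalize_associated P
      refine ⟨normalize P, Finset.mem_filter.2 ⟨?_, (h5.irreducible_iff).2 h2⟩,
        Finset.mem_filter.2 ⟨hgG, ?_⟩⟩
      · rw [Set.Finite.mem_toFinset]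
        exact ⟨monic_normalize h2.ne_zero, natDegree_eq_of_degree_eq
          (degree_eq_degree_of_associated h5)⟩
      · exact ((h5.pow_pow (n := 2)).dvd).trans h3
  have hBb : (Bs.card : ℝ) ≤ η / 2 * q ^ n := by
    have h1 : ∀ d ∈ Finset.Ioc M₁ (n / 2),
        ((((MD_finite (K := K) d).toFinset.filter Irreducible).biUnion fun P =>
          G.filter fun g => P ^ 2 ∣ (PhE cp).eval (g + C0)).card : ℝ) ≤
            (cp.natDegree : ℝ) * q ^ n * (1 / 2) ^ d := by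
      intro d hd
      obtain ⟨hd1, hd2⟩ := Finset.mem_Ioc.1 hd
      have h2 : ∀ P ∈ (MD_finite (K := K) d).toFinset.filter Irreducible,
          ((G.filter fun g => P ^ 2 ∣ (PhE cp).eval (g + C0)).card : ℝ) ≤
            (cp.natDegree : ℝ) * q ^ (n - 2 * d) := by
        intro P hP
        obtain ⟨hPm, hPi⟩ := Finset.mem_filter.1 hP
        rw [Set.Finite.mem_toFinset] at hPm
        have h3 := hcnt K cp u v N C0 P 0 2 n hS0 hPi (by
          intro hdv
          rw [zero_add, pow_one] at hdv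
          have h4 := natDegree_le_of_dvd (hPi.prime.dvd_of_dvd_pow hdv) hN
          rw [hPm.2] at h4
          omega) (by omega) (by rw [hPm.2]; omega)
        rw [hcard, hPm.2, Nat.sub_zero, zero_mul, pow_zero, mul_one] at h3
        rw [hq]
        exact_mod_cast h3
      have h5 : (((MD_finite (K := K) d).toFinset.filter Irreducible).card : ℝ) ≤ q ^ d := by
        have h6 : ((MD_finite (K := K) d).toFinset.filter Irreducible).card ≤
            Fintype.card K ^ d :=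
          (Finset.card_filter_le _ _).trans (by
            rw [← Set.ncard_eq_toFinset_card _ (MD_finite (K := K) d)]
            exact MD_ncard d)
        rw [hq]
        exact_mod_cast h6
      calc ((((MD_finite (K := K) d).toFinset.filter Irreducible).biUnion fun P =>
          G.filter fun g => P ^ 2 ∣ (PhE cp).eval (g + C0)).card : ℝ)
          ≤ ∑ P ∈ (MD_finite (K := K) d).toFinset.filter Irreducible,
            ((G.filter fun g => P ^ 2 ∣ (PhE cp).eval (g + C0)).card : ℝ) := by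
            exact_mod_cast Finset.card_biUnion_le
        _ ≤ ∑ P ∈ (MD_finite (K := K) d).toFinset.filter Irreducible,
            (cp.natDegree : ℝ) * q ^ (n - 2 * d) :=
            Finset.sum_le_sum h2
        _ = (((MD_finite (K := K) d).toFinset.filter Irreducible).card : ℝ) *
            ((cp.natDegree : ℝ) * q ^ (n - 2 * d)) := by rw [Finset.sum_const, nsmul_eq_mul]
        _ ≤ q ^ d * ((cp.natDegree : ℝ) * q ^ (n - 2 * d)) :=
            mul_le_mul_of_nonneg_right h5 (by positivity)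
        _ = (cp.natDegree : ℝ) * q ^ (n - d) := by
            have h7 : n - d = d + (n - 2 * d) := by omega
            rw [h7, pow_add]
            ring
        _ ≤ (cp.natDegree : ℝ) * (q ^ n * (1 / 2) ^ d) :=
            mul_le_mul_of_nonneg_left (pow_le_half hq2 (by omega) le_rfl) hd0
        _ = (cp.natDegree : ℝ) * q ^ n * (1 / 2) ^ d := by ring
    calc (Bs.card : ℝ) ≤ ∑ d ∈ Finset.Ioc M₁ (n / 2),
          ((((MD_finite (K := K) d).toFinset.filter Irreducible).biUnion fun P =>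
          G.filter fun g => P ^ 2 ∣ (PhE cp).eval (g + C0)).card : ℝ) := by
          exact_mod_cast Finset.card_biUnion_le
      _ ≤ ∑ d ∈ Finset.Ioc M₁ (n / 2), (cp.natDegree : ℝ) * q ^ n * (1 / 2) ^ d :=
          Finset.sum_le_sum h1
      _ = (cp.natDegree : ℝ) * q ^ n * ∑ d ∈ Finset.Ioc M₁ (n / 2), (1 / 2 : ℝ) ^ d := by
          rw [Finset.mul_sum]
      _ ≤ (cp.natDegree : ℝ) * q ^ n * (1 / 2) ^ M₁ :=
          mul_le_mul_of_nonneg_left (sum_half _ _) (by positivity)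
      _ = ((cp.natDegree : ℝ) * (1 / 2) ^ M₁) * q ^ n := by ring
      _ ≤ η / 2 * q ^ n :=
          mul_le_mul_of_nonneg_right (htM M₁ ((le_max_left _ _).trans hM₁)) (by positivity)
  have hCb : (Cs.card : ℝ) ≤ η / 2 * q ^ n := by
    have h1 := hbig n hn1
    rw [hcard] at h1
    have h2 : (Cs.card : ℝ) ≤ B * q ^ (n / 2) := by
      rw [hq]
      exact_mod_cast h1
    have h3 : n / 2 = n - (n - n / 2) := by omega
    have h4 : q ^ (n / 2) ≤ q ^ n * (1 / 2) ^ (n / 2) := by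
      conv_lhs => rw [h3]
      exact pow_le_half hq2 (by omega) (by omega)
    calc (Cs.card : ℝ) ≤ B * q ^ (n / 2) := h2
      _ ≤ B * (q ^ n * (1 / 2) ^ (n / 2)) := mul_le_mul_of_nonneg_left h4 (by positivity)
      _ = (B * (1 / 2) ^ (n / 2)) * q ^ n := by ring
      _ ≤ η / 2 * q ^ n := mul_le_mul_of_nonneg_right (htB _ hn2) (by positivity)
  have htot : ((G.filter fun g => ∃ P : K[X], Irreducible P ∧ M₁ < P.natDegree ∧
        P ^ 2 ∣ (PhE cp).eval (g + C0)).card : ℝ) ≤ (Bs.card : ℝ) + (Cs.card : ℝ) := by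
    have h1 := (Finset.card_le_card hsub).trans (Finset.card_union_le _ _)
    exact_mod_cast h1
  calc _ ≤ (Bs.card : ℝ) + (Cs.card : ℝ) := htot
    _ ≤ η / 2 * q ^ n + η / 2 * q ^ n := add_le_add hBb hCb
    _ = η * q ^ n := by ring

open Classical in
/-- the factorisation of `f` -/
theorem setup (K : Type) [Field K] [Fintype K] [CharP K 2] (r : ℕ) (cp : Fin r → K[X][X])
    (Cc : Fin r → K[X]) (f u v : K[X][X]) (c μ N : K[X]) (hc : c ≠ 0) (hμ : μ ≠ 0) (hN : N ≠ 0)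
    (hf : C c * f = ∏ j, ((cp j).map (frobenius K[X] 2)).comp (C μ * X + C (Cc j)))
    (hdeg : 0 < f.natDegree) (hsep : u * f + v * derivative f = C N) :
    ∃ (I : Finset K[X]) (cq G : K[X] → K[X][X]) (M a b : K[X]),
      M.Monic ∧ a ≠ 0 ∧ b ≠ 0 ∧
      C (a ^ 2) * ∏ τ ∈ I, G τ = C (b ^ 2) * (C c * f) ∧
      (∀ τ ∈ I, ∃ (u v : K[X][X]) (N : K[X]), SepE (cq τ) u v N) ∧
      ∀ τ g, (G τ).eval g = (PhE (cq τ)).eval (M * g + X * τ ^ 2) := by
  have hf0 : f ≠ 0 := by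
    rintro rfl
    simp at hdeg
  have hcp : ∀ j, cp j ≠ 0 := by
    intro j hj
    have h1 : ∏ j, ((cp j).map (frobenius K[X] 2)).comp (C μ * X + C (Cc j)) = 0 :=
      Finset.prod_eq_zero (Finset.mem_univ j) (by rw [hj, Polynomial.map_zero, zero_comp])
    rw [← hf] at h1
    exact mul_ne_zero (C_ne_zero.2 hc) hf0 h1
  obtain ⟨l₀, hl₀⟩ : ∃ l₀ : K[X], l₀ = ∏ j, (cp j).leadingCoeff := ⟨_, rfl⟩
  have hl₀0 : l₀ ≠ 0 := by
    rw [hl₀]
    exact Finset.prod_ne_zero_iff.2 fun j _ => leadingCoeff_ne_zero.2 (hcp j)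
  have hlm0 : l₀ ^ 2 * μ ≠ 0 := mul_ne_zero (pow_ne_zero 2 hl₀0) hμ
  obtain ⟨κ, hκ⟩ : ∃ κ : K, κ ^ 2 = (l₀ ^ 2 * μ).leadingCoeff⁻¹ := by
    have h1 : Function.Surjective (frobenius K 2) :=
      Finite.injective_iff_surjective.mp (frobenius_inj K 2)
    obtain ⟨κ, hκ⟩ := h1 (l₀ ^ 2 * μ).leadingCoeff⁻¹
    exact ⟨κ, hκ⟩
  have hκ0 : κ ≠ 0 := by
    rintro rfl
    rw [zero_pow two_ne_zero] at hκ
    exact inv_ne_zero (leadingCoeff_ne_zero.2 hlm0) hκ.symm
  obtain ⟨l, hl⟩ : ∃ l : K[X], l = C κ * l₀ := ⟨_, rfl⟩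
  have hl0 : l ≠ 0 := by
    rw [hl]
    exact mul_ne_zero (C_ne_zero.2 hκ0) hl₀0
  obtain ⟨M, hM⟩ : ∃ M : K[X], M = l ^ 2 * μ := ⟨_, rfl⟩
  have hMm : M.Monic := by
    have h1 : M = C ((l₀ ^ 2 * μ).leadingCoeff⁻¹) * (l₀ ^ 2 * μ) := by
      rw [hM, hl, ← hκ, C_pow]
      ring
    rw [h1]
    apply Polynomial.monic_C_mul_of_mul_leadingCoeff_eq_one
    rw [inv_mul_cancel₀ (leadingCoeff_ne_zero.2 hlm0)]
  have hM0 : M ≠ 0 := hMm.ne_zero
  have hdvd : ∀ j, (cp j).leadingCoeff ∣ l := by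
    intro j
    rw [hl, hl₀]
    exact Dvd.dvd.mul_left (Finset.dvd_prod_of_mem _ (Finset.mem_univ j)) _
  choose q hqm hqd hsc using fun j => exists_scale (cp j) (hcp j) l (hdvd j)
  choose s t hst' using fun j => Pool.Agent.H985.Chow.Asm.G_surj (l ^ 2 * Cc j : K[X])
  have hst : ∀ j, s j ^ 2 + X * t j ^ 2 = l ^ 2 * Cc j := hst'
  obtain ⟨a, ha⟩ : ∃ a : K[X], a = ∏ j, (cp j).leadingCoeff := ⟨_, rfl⟩
  have ha0 : a ≠ 0 := by rw [ha, ← hl₀]; exact hl₀0
  obtain ⟨b, hb⟩ : ∃ b : K[X], b = ∏ j, l ^ (cp j).natDegree := ⟨_, rfl⟩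
  have hb0 : b ≠ 0 := by
    rw [hb]
    exact Finset.prod_ne_zero_iff.2 fun j _ => pow_ne_zero _ hl0
  have key : ∀ {R : Type} [CommRing R] (φ : K[X] →+* R) (w : R),
      φ (a ^ 2) * ∏ τ ∈ Ic q s t,
        eval₂ (φ.comp (frobenius K[X] 2)) (φ M * w + φ (X * τ ^ 2)) (Qc q s t τ) =
      φ (b ^ 2) * (φ c * eval₂ φ w f) := by
    intro R _ φ w
    have h1 := key_id cp q Cc s t f c μ l hf hqm hsc hst φ w
    rw [Finset.prod_pow, ← ha, ← hM] at h1
    have h2 : ∏ j, (l ^ 2) ^ (cp j).natDegree = b ^ 2 := by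
      rw [hb, ← Finset.prod_pow]
      refine Finset.prod_congr rfl fun j _ => ?_
      rw [← pow_mul, ← pow_mul, mul_comm]
    rw [h2] at h1
    exact h1
  -- separability
  have hsepI : ∀ τ ∈ Ic q s t, ∃ (u v : K[X][X]) (N : K[X]), SepE (Qc q s t τ) u v N := by
    intro τ hτ
    refine sepE_of_sep _ (Qc_monic q s t τ hqm) (Finset.mem_filter.1 hτ).2 ?_
    obtain ⟨ι, hι⟩ : ∃ ι : K[X] →+* FractionRing K[X], ι = algebraMap K[X] (FractionRing K[X]) :=
      ⟨_, rfl⟩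
    have hinj : Function.Injective ι := by
      rw [hι]
      exact IsFractionRing.injective K[X] (FractionRing K[X])
    have hfs : (f.map ι).Separable := by
      have h1 := congrArg (map ι) hsep
      rw [Polynomial.map_add, Polynomial.map_mul, Polynomial.map_mul, map_C,
        ← derivative_map] at h1
      have h2 : ι N ≠ 0 := fun h0 => hN (hinj (by rw [h0, map_zero]))
      refine ⟨C (ι N)⁻¹ * u.map ι, C (ι N)⁻¹ * v.map ι, ?_⟩
      rw [mul_assoc, mul_assoc, ← mul_add, h1, ← C_mul, inv_mul_cancel₀ h2, C_1]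
    have h1 := key ((C : FractionRing K[X] →+* (FractionRing K[X])[X]).comp ι) X
    rw [RingHom.comp_apply, RingHom.comp_apply, RingHom.comp_apply, RingHom.comp_apply,
      ← mul_assoc, ← C_mul] at h1
    have h2 : eval₂ ((C : FractionRing K[X] →+* (FractionRing K[X])[X]).comp ι) X f =
        f.map ι := rfl
    rw [h2] at h1
    have hbc : ι (b ^ 2) * ι c ≠ 0 := mul_ne_zero
      (fun h0 => pow_ne_zero 2 hb0 (hinj (by rw [h0, map_zero])))
      (fun h0 => hc (hinj (by rw [h0, map_zero])))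
    have h3 : (C (ι (b ^ 2) * ι c) * f.map ι).Separable := by
      exact hfs.unit_mul (isUnit_C.2 (IsUnit.mk0 _ hbc))
    rw [← h1] at h3
    have h4 := h3.of_dvd ((Finset.dvd_prod_of_mem _ hτ).mul_left _)
    have h5 : eval₂ (((C : FractionRing K[X] →+* (FractionRing K[X])[X]).comp ι).comp
        (frobenius K[X] 2)) (C (ι M) * X + ((C : FractionRing K[X] →+*
          (FractionRing K[X])[X]).comp ι) (X * τ ^ 2)) (Qc q s t τ) =
        ((Qc q s t τ).map (ι.comp (frobenius K[X] 2))).comp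
          (C (ι M) * X + C (ι (X * τ ^ 2))) := by
      rw [comp, eval₂_map]
      rfl
    rw [h5] at h4
    have hM' : ι M ≠ 0 := fun h0 => hM0 (hinj (by rw [h0, map_zero]))
    have h6 := sep_of_comp _ _ _ hM' h4
    have h7 : ι.comp (frobenius K[X] 2) = (frobenius (FractionRing K[X]) 2).comp ι := by
      ext x <;> simp [frobenius_def]
    rw [h7, ← Polynomial.map_map, separable_map, hι] at h6
    exact h6
  refine ⟨Ic q s t, Qc q s t, fun τ => eval₂ ((C : K[X] →+* K[X][X]).comp (frobenius K[X] 2))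
    (C M * X + C (X * τ ^ 2)) (Qc q s t τ), M, a, b, hMm, ha0, hb0, ?_, hsepI, ?_⟩
  · have h1 := key (C : K[X] →+* K[X][X]) X
    rw [eval₂_C_X] at h1
    exact h1
  · intro τ g
    change (evalRingHom g) (eval₂ ((C : K[X] →+* K[X][X]).comp (frobenius K[X] 2))
      (C M * X + C (X * τ ^ 2)) (Qc q s t τ)) = _
    rw [hom_eval₂, PhE, eval_map]
    have h1 : (evalRingHom g).comp ((C : K[X] →+* K[X][X]).comp (frobenius K[X] 2)) =
        frobenius K[X] 2 := by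
      refine RingHom.ext fun x => ?_
      simp
    have h2 : (evalRingHom g) (C M * X + C (X * τ ^ 2)) = M * g + X * τ ^ 2 := by
      simp
    rw [h1, h2]

theorem sq_dvd_prod {R ι : Type*} [CommRing R] [IsDomain R] [DecidableEq ι] (I : Finset ι)
    (x : ι → R) (P : R) (hP : Prime P) (h : P ^ 2 ∣ ∏ τ ∈ I, x τ) :
    (∃ τ ∈ I, P ^ 2 ∣ x τ) ∨ ∃ τ ∈ I, ∃ σ ∈ I, τ ≠ σ ∧ P ∣ x τ ∧ P ∣ x σ := by
  obtain ⟨τ, hτ, h1⟩ := (hP.dvd_finsetProd_iff x).1 ((dvd_pow_self P two_ne_zero).trans h)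
  rw [← Finset.mul_prod_erase I x hτ] at h
  by_cases h2 : P ∣ ∏ σ ∈ I.erase τ, x σ
  · obtain ⟨σ, hσ, h3⟩ := (hP.dvd_finsetProd_iff x).1 h2
    exact Or.inr ⟨τ, hτ, σ, Finset.mem_of_mem_erase hσ, (Finset.ne_of_mem_erase hσ).symm, h1, h3⟩
  · exact Or.inl ⟨τ, hτ, hP.pow_dvd_of_dvd_mul_right 2 h2 h⟩

open Classical in
theorem sq_dvd_eval {K : Type} [Field K] (I : Finset K[X]) (G : K[X] → K[X][X])
    (f u v : K[X][X]) (a b c N P g : K[X])
    (hid : C (a ^ 2) * ∏ τ ∈ I, G τ = C (b ^ 2) * (C c * f))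
    (hsep : u * f + v * derivative f = C N) (hP : Irreducible P) (hPa : ¬ P ∣ a) (hPb : ¬ P ∣ b)
    (hPc : ¬ P ∣ c) (hPN : ¬ P ∣ N) (h : P ^ 2 ∣ f.eval g) :
    ∃ τ ∈ I, P ^ 2 ∣ (G τ).eval g := by
  have hp : Prime P := hP.prime
  have h1 := congrArg (eval g) hid
  rw [eval_mul, eval_mul, eval_mul, eval_C, eval_C, eval_C, eval_prod] at h1
  have h2 : P ^ 2 ∣ ∏ τ ∈ I, (G τ).eval g := by
    refine hp.pow_dvd_of_dvd_mul_left 2 (a := a ^ 2) (fun h0 => hPa (hp.dvd_of_dvd_pow h0)) ?_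
    rw [h1]
    exact Dvd.dvd.mul_left (Dvd.dvd.mul_left h _) _
  rcases sq_dvd_prod I _ P hp h2 with h3 | ⟨τ, hτ, σ, hσ, hne, h4, h5⟩
  · exact h3
  · exfalso
    have h6 := congrArg (fun p => eval g (derivative p)) hid
    simp only [derivative_mul, derivative_C, zero_mul, zero_add, eval_mul, eval_C] at h6
    have h7 : P ∣ eval g (derivative (∏ τ ∈ I, G τ)) := by
      rw [derivative_prod_finset, eval_finsetSum]
      refine Finset.dvd_sum fun ρ hρ => ?_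
      rw [eval_mul, eval_prod]
      refine Dvd.dvd.mul_right ?_ _
      by_cases h8 : ρ = τ
      · exact h5.trans (Finset.dvd_prod_of_mem (fun i => (G i).eval g)
          (Finset.mem_erase.2 ⟨by rw [h8]; exact hne.symm, hσ⟩))
      · exact h4.trans (Finset.dvd_prod_of_mem (fun i => (G i).eval g)
          (Finset.mem_erase.2 ⟨fun h9 => h8 h9.symm, hτ⟩))
    have h8 : P ∣ b ^ 2 * (c * eval g (derivative f)) := by
      rw [← h6]
      exact Dvd.dvd.mul_left h7 _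
    have h9 : P ∣ eval g (derivative f) := by
      rcases hp.dvd_or_dvd h8 with h10 | h10
      · exact absurd (hp.dvd_of_dvd_pow h10) hPb
      · rcases hp.dvd_or_dvd h10 with h11 | h11
        · exact absurd h11 hPc
        · exact h11
    apply hPN
    have h10 := congrArg (eval g) hsep
    rw [eval_add, eval_mul, eval_mul, eval_C] at h10
    rw [← h10]
    exact dvd_add (Dvd.dvd.mul_left ((dvd_pow_self P two_ne_zero).trans h) _)
      (Dvd.dvd.mul_left h9 _)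

open Classical in
/-- the values of `f` divisible by the square of a large prime -/
theorem tail3 (hcnt : S_cntE) (hbig : S_bigE) (K : Type) [Field K] [Fintype K] [CharP K 2] (r : ℕ)
    (cp : Fin r → K[X][X]) (Cc : Fin r → K[X]) (f u v : K[X][X]) (c μ N : K[X]) (hc : c ≠ 0)
    (hμ : μ ≠ 0) (hN : N ≠ 0)
    (hf : C c * f = ∏ j, ((cp j).map (frobenius K[X] 2)).comp (C μ * X + C (Cc j)))
    (hdeg : 0 < f.natDegree) (hsep : u * f + v * derivative f = C N) (η : ℝ) (hη : 0 < η) :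
    ∃ M₁ : ℕ, 1 ≤ M₁ ∧ ∃ n₀ : ℕ, ∀ n : ℕ, n₀ ≤ n →
      ((MD K n ∩ {g | ∃ P : K[X], Irreducible P ∧ M₁ < P.natDegree ∧
        P ^ 2 ∣ f.eval g}).ncard : ℝ) ≤ η * (Fintype.card K : ℝ) ^ n := by
  obtain ⟨I, cq, G, M, a, b, hMm, ha, hb, hid, hI, hG⟩ :=
    setup K r cp Cc f u v c μ N hc hμ hN hf hdeg hsep
  obtain ⟨q, hq⟩ : ∃ q : ℝ, q = (Fintype.card K : ℝ) := ⟨_, rfl⟩
  have hq0 : 0 < q := by
    rw [hq]
    exact_mod_cast Fintype.card_pos
  obtain ⟨d, hd⟩ : ∃ d : ℕ, d = M.natDegree := ⟨_, rfl⟩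
  obtain ⟨η', hη'⟩ : ∃ η' : ℝ, η' = η / (((I.card : ℝ) + 1) * q ^ d) := ⟨_, rfl⟩
  have hη'0 : 0 < η' := by
    rw [hη']
    positivity
  have h1 : ∀ τ : K[X], ∃ M₀ : ℕ, τ ∈ I → ∀ M₁ : ℕ, M₀ ≤ M₁ → ∃ n₀ : ℕ, ∀ n : ℕ, n₀ ≤ n →
      ((MD K n ∩ {g | ∃ P : K[X], Irreducible P ∧ M₁ < P.natDegree ∧
        P ^ 2 ∣ (PhE (cq τ)).eval (g + X * τ ^ 2)}).ncard : ℝ) ≤
          η' * (Fintype.card K : ℝ) ^ n := by
    intro τ
    by_cases hτ : τ ∈ I
    · obtain ⟨u', v', N', h2⟩ := hI τ hτ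
      obtain ⟨M₀, hM₀⟩ := tail2 hcnt hbig K (cq τ) u' v' N' (X * τ ^ 2) h2 η' hη'0
      exact ⟨M₀, fun _ => hM₀⟩
    · exact ⟨0, fun h => absurd h hτ⟩
  choose M₀ hM₀ using h1
  obtain ⟨M₁, hM₁⟩ : ∃ M₁ : ℕ, M₁ = I.sup M₀ + (1 + a.natDegree + b.natDegree + c.natDegree +
    N.natDegree) := ⟨_, rfl⟩
  have h2 : ∀ τ : K[X], ∃ n₀ : ℕ, τ ∈ I → ∀ n : ℕ, n₀ ≤ n →
      ((MD K n ∩ {g | ∃ P : K[X], Irreducible P ∧ M₁ < P.natDegree ∧
        P ^ 2 ∣ (PhE (cq τ)).eval (g + X * τ ^ 2)}).ncard : ℝ) ≤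
          η' * (Fintype.card K : ℝ) ^ n := by
    intro τ
    by_cases hτ : τ ∈ I
    · have h3 : M₀ τ ≤ M₁ := by
        have h4 : M₀ τ ≤ I.sup M₀ := Finset.le_sup hτ
        omega
      obtain ⟨n₀, hn₀⟩ := hM₀ τ hτ M₁ h3
      exact ⟨n₀, fun _ => hn₀⟩
    · exact ⟨0, fun h => absurd h hτ⟩
  choose n₀ hn₀ using h2
  refine ⟨M₁, by omega, I.sup n₀, fun n hn => ?_⟩
  have hndvd : ∀ P z : K[X], z ≠ 0 → z.natDegree ≤ M₁ → M₁ < P.natDegree → ¬ P ∣ z := by
    intro P z hz h3 h4 h5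
    have h6 := natDegree_le_of_dvd h5 hz
    omega
  have hsub : (MD K n ∩ {g | ∃ P : K[X], Irreducible P ∧ M₁ < P.natDegree ∧ P ^ 2 ∣ f.eval g}) ⊆
      ⋃ τ ∈ I, (MD K n ∩ {g | ∃ P : K[X], Irreducible P ∧ M₁ < P.natDegree ∧
        P ^ 2 ∣ (PhE (cq τ)).eval (M * g + X * τ ^ 2)}) := by
    rintro g ⟨hg, P, hP, hPd, hPf⟩
    obtain ⟨τ, hτ, h3⟩ := sq_dvd_eval I G f u v a b c N P g hid hsep hP
      (hndvd P a ha (by omega) hPd) (hndvd P b hb (by omega) hPd) (hndvd P c hc (by omega) hPd)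
      (hndvd P N hN (by omega) hPd) hPf
    rw [hG] at h3
    exact Set.mem_biUnion hτ ⟨hg, P, hP, hPd, h3⟩
  have hfin : ∀ p : K[X] → Prop, (MD K n ∩ {g | p g}).Finite := fun p =>
    (MD_finite (K := K) n).subset Set.inter_subset_left
  have h3 : ∀ τ ∈ I, ((MD K n ∩ {g | ∃ P : K[X], Irreducible P ∧ M₁ < P.natDegree ∧
        P ^ 2 ∣ (PhE (cq τ)).eval (M * g + X * τ ^ 2)}).ncard : ℝ) ≤ η' * q ^ (n + d) := by
    intro τ hτ
    have h4 : n₀ τ ≤ I.sup n₀ := Finset.le_sup hτ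
    have h5 := hn₀ τ hτ (n + d) (by omega)
    rw [← hq] at h5
    refine le_trans ?_ h5
    have h6 := Set.ncard_le_ncard_of_injOn
      (s := MD K n ∩ {g | ∃ P : K[X], Irreducible P ∧ M₁ < P.natDegree ∧
        P ^ 2 ∣ (PhE (cq τ)).eval (M * g + X * τ ^ 2)})
      (t := MD K (n + d) ∩ {g | ∃ P : K[X], Irreducible P ∧ M₁ < P.natDegree ∧
        P ^ 2 ∣ (PhE (cq τ)).eval (g + X * τ ^ 2)}) (fun g => M * g)
      (by
        rintro g ⟨⟨hg1, hg2⟩, hg3⟩
        refine ⟨⟨hMm.mul hg1, ?_⟩, hg3⟩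
        rw [hMm.natDegree_mul hg1, hg2, hd, add_comm])
      (fun x _ y _ hxy => mul_left_cancel₀ hMm.ne_zero hxy)
      ((MD_finite (K := K) (n + d)).subset Set.inter_subset_left)
    exact_mod_cast h6
  have h7 : (MD K n ∩ {g | ∃ P : K[X], Irreducible P ∧ M₁ < P.natDegree ∧
      P ^ 2 ∣ f.eval g}).ncard ≤ ∑ τ ∈ I, (MD K n ∩ {g | ∃ P : K[X], Irreducible P ∧
        M₁ < P.natDegree ∧ P ^ 2 ∣ (PhE (cq τ)).eval (M * g + X * τ ^ 2)}).ncard :=
    (Set.ncard_le_ncard hsub (Set.Finite.biUnion I.finite_toSet fun τ _ => hfin _)).trans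
      (Finset.set_ncard_biUnion_le I _)
  calc _ ≤ ((∑ τ ∈ I, (MD K n ∩ {g | ∃ P : K[X], Irreducible P ∧
        M₁ < P.natDegree ∧ P ^ 2 ∣ (PhE (cq τ)).eval (M * g + X * τ ^ 2)}).ncard : ℕ) : ℝ) := by
        exact_mod_cast h7
    _ = ∑ τ ∈ I, ((MD K n ∩ {g | ∃ P : K[X], Irreducible P ∧
        M₁ < P.natDegree ∧ P ^ 2 ∣ (PhE (cq τ)).eval (M * g + X * τ ^ 2)}).ncard : ℝ) := by
        push_cast
        rfl
    _ ≤ ∑ τ ∈ I, η' * q ^ (n + d) := Finset.sum_le_sum h3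
    _ = I.card * (η' * q ^ (n + d)) := by rw [Finset.sum_const, nsmul_eq_mul]
    _ ≤ (I.card + 1) * (η' * q ^ (n + d)) := by
        have : 0 ≤ η' * q ^ (n + d) := by positivity
        nlinarith
    _ = η * q ^ n := by
        rw [hη', pow_add]
        field_simp
    _ = _ := by rw [hq]

end MobE

open MobE

open Classical in
theorem mobE (hE : S_E) (hcnt : S_cntE) (hbig : S_bigE) : S_Emob := by
  intro K _ _ _ r cp Cc f u v c μ N Q hc hμ hQ hN hf hdeg hsep ε hε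
  obtain ⟨M₁, hM₁, n₁, hn₁⟩ := tail3 hcnt hbig K r cp Cc f u v c μ N hc hμ hN hf hdeg hsep
    (ε / 2) (by positivity)
  -- the product of the small primes
  have hSfin : {P : K[X] | P.Monic ∧ Irreducible P ∧ P.natDegree ≤ M₁}.Finite := by
    refine Set.Finite.subset
      (Set.Finite.biUnion (Finset.range (M₁ + 1)).finite_toSet fun d _ => MD_finite (K := K) d) ?_
    intro P hP
    refine Set.mem_biUnion (x := P.natDegree) ?_ ⟨hP.1, rfl⟩
    simp only [Finset.coe_range, Set.mem_Iio]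
    have := hP.2.2
    omega
  obtain ⟨W, hW⟩ : ∃ W : K[X], W = ∏ P ∈ hSfin.toFinset, P := ⟨_, rfl⟩
  have hW0 : W ≠ 0 := by
    rw [hW]
    refine Finset.prod_ne_zero_iff.2 fun P hP => ?_
    rw [Set.Finite.mem_toFinset] at hP
    exact hP.1.ne_zero
  have hWd : ∀ P : K[X], Irreducible P → P.natDegree ≤ M₁ → P ∣ W := by
    intro P hP hPd
    have h5 : Associated (normalize P) P := normalize_associated P
    refine (h5.symm.dvd).trans ?_
    rw [hW]
    refine Finset.dvd_prod_of_mem (fun P => P) ?_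
    rw [Set.Finite.mem_toFinset]
    refine ⟨monic_normalize hP.ne_zero, (h5.irreducible_iff).2 hP, ?_⟩
    rw [natDegree_eq_of_degree_eq (degree_eq_degree_of_associated h5)]
    exact hPd
  obtain ⟨n₂, hn₂⟩ := hE K r cp Cc f u v c μ N (Q * W) hc hμ (mul_ne_zero hQ hW0) hN hf hdeg hsep
    (ε / 2) (by positivity)
  refine ⟨max n₁ n₂, fun n hn w hw1 hw2 => ?_⟩
  obtain ⟨w1, hw1'⟩ : ∃ w1 : K[X] → ℝ, w1 = fun g =>
    if ∃ P : K[X], Irreducible P ∧ P.natDegree ≤ M₁ ∧ P ^ 2 ∣ f.eval g then 0 else w g := ⟨_, rfl⟩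
  have hw1g : ∀ g, w1 g =
      if ∃ P : K[X], Irreducible P ∧ P.natDegree ≤ M₁ ∧ P ^ 2 ∣ f.eval g then 0 else w g := by
    intro g
    rw [hw1']
  have h1 := hn₂ n ((le_max_right _ _).trans hn) w1 (by
    intro g
    rw [hw1g]
    split_ifs
    · simp
    · exact hw1 g) (by
    intro g
    obtain ⟨χ, hχ⟩ := hw2 g
    refine ⟨χ.compAddMonoidHom (AddMonoidHom.mulLeft W), fun x => ?_⟩
    have h2 : μ * (Q * W * x) ^ 2 = μ * (Q * (W * x)) ^ 2 := by ring
    have h3 : (∃ P : K[X], Irreducible P ∧ P.natDegree ≤ M₁ ∧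
        P ^ 2 ∣ f.eval (g + μ * (Q * W * x) ^ 2)) ↔
        ∃ P : K[X], Irreducible P ∧ P.natDegree ≤ M₁ ∧ P ^ 2 ∣ f.eval g := by
      have h4 : ∀ P : K[X], Irreducible P → P.natDegree ≤ M₁ →
          (P ^ 2 ∣ f.eval (g + μ * (Q * W * x) ^ 2) ↔ P ^ 2 ∣ f.eval g) := by
        intro P hP hPd
        have h5 : P ^ 2 ∣ f.eval (g + μ * (Q * W * x) ^ 2) - f.eval g := by
          refine Dvd.dvd.trans ?_ (sub_dvd_eval_sub (g + μ * (Q * W * x) ^ 2) g f)
          rw [add_sub_cancel_left]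
          exact (pow_dvd_pow_of_dvd (((hWd P hP hPd).mul_left Q).mul_right x) 2).mul_left μ
        constructor
        · intro h6
          have h7 := dvd_sub h6 h5
          rwa [sub_sub_cancel] at h7
        · intro h6
          have h7 := dvd_add h5 h6
          rwa [sub_add_cancel] at h7
      constructor
      · rintro ⟨P, hP, hPd, h6⟩
        exact ⟨P, hP, hPd, (h4 P hP hPd).1 h6⟩
      · rintro ⟨P, hP, hPd, h6⟩
        exact ⟨P, hP, hPd, (h4 P hP hPd).2 h6⟩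
    rw [hw1g, hw1g]
    by_cases h5 : ∃ P : K[X], Irreducible P ∧ P.natDegree ≤ M₁ ∧ P ^ 2 ∣ f.eval g
    · rw [if_pos h5, if_pos (h3.2 h5), zero_mul]
    · rw [if_neg h5, if_neg (fun h6 => h5 (h3.1 h6)), h2, hχ]
      rfl)
  have h2 := hn₁ n ((le_max_left _ _).trans hn)
  have hfin : (MD K n).Finite := MD_finite (K := K) n
  rw [finsum_mem_eq_finite_toFinset_sum _ hfin] at h1 ⊢
  set F : Finset K[X] := hfin.toFinset with hF
  have h3 : ∀ g : K[X], |w g * (mob (f.eval g) : ℝ) - w1 g * (liou (f.eval g) : ℝ)| ≤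
      if ∃ P : K[X], Irreducible P ∧ M₁ < P.natDegree ∧ P ^ 2 ∣ f.eval g then 1 else 0 := by
    intro g
    have hsq : Squarefree (f.eval g) ↔ ∀ P : K[X], Irreducible P → ¬ P * P ∣ f.eval g :=
      squarefree_iff_irreducible_sq_not_dvd_of_exists_irreducible ⟨X, irreducible_X⟩
    by_cases h4 : ∃ P : K[X], Irreducible P ∧ P.natDegree ≤ M₁ ∧ P ^ 2 ∣ f.eval g
    · rw [hw1g, if_pos h4]
      have h5 : ¬ Squarefree (f.eval g) := by
        obtain ⟨P, hP, -, h6⟩ := h4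
        rw [sq] at h6
        exact fun h7 => hsq.1 h7 P hP h6
      rw [mob, if_neg h5]
      simp only [Int.cast_zero, mul_zero, zero_mul, sub_zero, abs_zero]
      split_ifs <;> norm_num
    · rw [hw1g, if_neg h4]
      by_cases h5 : Squarefree (f.eval g)
      · have h6 : f.eval g ≠ 0 := h5.ne_zero
        rw [mob, if_pos h5, liou, if_neg h6, sub_self, abs_zero]
        split_ifs <;> norm_num
      · have h6 : ∃ P : K[X], Irreducible P ∧ M₁ < P.natDegree ∧ P ^ 2 ∣ f.eval g := by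
          rw [hsq] at h5
          push Not at h5
          obtain ⟨P, hP, h7⟩ := h5
          rw [← sq] at h7
          refine ⟨P, hP, ?_, h7⟩
          by_contra h8
          exact h4 ⟨P, hP, not_lt.1 h8, h7⟩
        rw [if_pos h6, mob, if_neg h5, Int.cast_zero, mul_zero, zero_sub, abs_neg, abs_mul]
        exact mul_le_one₀ (hw1 g) (abs_nonneg _) (abs_liou _)
  have h4 : ((MD K n ∩ {g | ∃ P : K[X], Irreducible P ∧ M₁ < P.natDegree ∧
        P ^ 2 ∣ f.eval g}).ncard : ℝ) = ∑ g ∈ F,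
      if ∃ P : K[X], Irreducible P ∧ M₁ < P.natDegree ∧ P ^ 2 ∣ f.eval g then (1 : ℝ) else 0 := by
    rw [Finset.sum_boole]
    have h5 : (MD K n ∩ {g | ∃ P : K[X], Irreducible P ∧ M₁ < P.natDegree ∧
        P ^ 2 ∣ f.eval g}) = ((F.filter fun g => ∃ P : K[X], Irreducible P ∧
          M₁ < P.natDegree ∧ P ^ 2 ∣ f.eval g : Finset K[X]) : Set K[X]) := by
      ext g
      simp [hF]
    rw [h5, Set.ncard_coe_finset]
  rw [h4] at h2
  have h5 : ∑ g ∈ F, w g * (mob (f.eval g) : ℝ) = ∑ g ∈ F, w1 g * (liou (f.eval g) : ℝ) +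
      ∑ g ∈ F, (w g * (mob (f.eval g) : ℝ) - w1 g * (liou (f.eval g) : ℝ)) := by
    rw [← Finset.sum_add_distrib]
    refine Finset.sum_congr rfl fun g _ => ?_
    ring
  rw [h5]
  calc _ ≤ |∑ g ∈ F, w1 g * (liou (f.eval g) : ℝ)| +
      |∑ g ∈ F, (w g * (mob (f.eval g) : ℝ) - w1 g * (liou (f.eval g) : ℝ))| := abs_add_le _ _
    _ ≤ ε / 2 * (Fintype.card K : ℝ) ^ n + ε / 2 * (Fintype.card K : ℝ) ^ n := by
        refine add_le_add h1 (le_trans ?_ h2)
        exact (Finset.abs_sum_le_sum_abs _ _).trans (Finset.sum_le_sum fun g _ => h3 g)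
    _ = ε * (Fintype.card K : ℝ) ^ n := by ring

end Pool.Agent.H140.E
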