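import Mathlib
import Pool.Agent.H140.E.Final
import Pool.Agent.H140.E.IntrA
import Pool.Agent.H140.E.MobE
import Pool.Agent.H140.E.Cor

/-!
# Chowla's conjecture for polynomials of any degree over `F_q[X]`, `q` even: the final theorem
-/

set_option autoImplicit false

namespace Pool.Agent.H140.E

open Polynomial
open Pool.Agent.H985.Chow (mob MD)
open Pool.Agent.H140.Q (liou)

/-- clearing denominators in the relation of separability -/
theorem sep_clear {K : Type} [Field K] (f : K[X][X])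
    (h : (f.map (algebraMap K[X] (RatFunc K))).Separable) :
    ∃ (u v : K[X][X]) (N : K[X]), N ≠ 0 ∧ u * f + v * derivative f = C N := by
  obtain ⟨a, b, hab⟩ := h
  obtain ⟨x, hx, hxa⟩ := IsLocalization.integerNormalization_spec (nonZeroDivisors K[X]) a
  obtain ⟨y, hy, hyb⟩ := IsLocalization.integerNormalization_spec (nonZeroDivisors K[X]) b
  set A := IsLocalization.integerNormalization (nonZeroDivisors K[X]) a
  set B := IsLocalization.integerNormalization (nonZeroDivisors K[X]) b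
  refine ⟨C y * A, C x * B, x * y,
    mul_ne_zero (nonZeroDivisors.ne_zero hx) (nonZeroDivisors.ne_zero hy), ?_⟩
  apply map_injective (algebraMap K[X] (RatFunc K))
    (IsFractionRing.injective K[X] (RatFunc K))
  rw [Polynomial.map_add, Polynomial.map_mul, Polynomial.map_mul, Polynomial.map_mul,
    Polynomial.map_mul, hxa, hyb, map_C, map_C, map_C, ← derivative_map, Algebra.smul_def,
    Algebra.smul_def, map_mul, C_mul]
  have e1 : ∀ r : K[X], algebraMap K[X] (RatFunc K)[X] r =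
      C (algebraMap K[X] (RatFunc K) r) := fun r => by
    rw [IsScalarTower.algebraMap_apply K[X] (RatFunc K) (RatFunc K)[X],
      Polynomial.algebraMap_eq]
  rw [e1, e1]
  calc _ = C (algebraMap K[X] (RatFunc K) x) * C (algebraMap K[X] (RatFunc K) y) *
        (a * f.map (algebraMap K[X] (RatFunc K)) +
          b * derivative (f.map (algebraMap K[X] (RatFunc K)))) := by ring
    _ = _ := by rw [hab, mul_one]

/-- **The main theorem** in terms of the roots of `f`. -/
theorem all (K : Type) [Field K] [Fintype K] [CharP K 2] (f : K[X][X]) (μ : K[X])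
    (hd : 0 < f.natDegree) (hs : (f.map (algebraMap K[X] (RatFunc K))).Separable) (hμ : μ ≠ 0)
    (hr : ∀ θ : AlgebraicClosure (RatFunc K), aeval θ f = 0 →
      ∃ (s : RatFunc K) (σ : AlgebraicClosure (RatFunc K)), IsSeparable (RatFunc K) σ ∧
        σ ^ 2 = algebraMap K[X] (AlgebraicClosure (RatFunc K)) μ * θ +
          algebraMap (RatFunc K) (AlgebraicClosure (RatFunc K)) s) (ε : ℝ) (hε : 0 < ε) :
    ∃ n₀ : ℕ, ∀ n : ℕ, n₀ ≤ n → ∀ w : K[X] → ℝ, (∀ g, |w g| ≤ 1) →
      (∀ g, ∃ χ : AddChar K[X] ℝ, ∀ x, w (g + μ * x ^ 2) = w g * χ x) →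
      |∑ᶠ g ∈ MD K n, w g * (liou (f.eval g) : ℝ)| ≤ ε * (Fintype.card K : ℝ) ^ n ∧
      |∑ᶠ g ∈ MD K n, w g * (mob (f.eval g) : ℝ)| ≤ ε * (Fintype.card K : ℝ) ^ n := by
  obtain ⟨u, v, N, hN, hsep⟩ := sep_clear f hs
  obtain ⟨r, cp, a, c, δ, hc, hδ, hf⟩ := intrA K f u v μ N hμ hN hd hsep hr
  obtain ⟨n₁, h1⟩ := s_E K r cp a f u v c (δ ^ 2 * μ) N 1 hc
    (mul_ne_zero (pow_ne_zero 2 hδ) hμ) one_ne_zero hN hf hd hsep ε hε
  obtain ⟨n₂, h2⟩ := mobE s_E cntE bigE K r cp a f u v c (δ ^ 2 * μ) N 1 hc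
    (mul_ne_zero (pow_ne_zero 2 hδ) hμ) one_ne_zero hN hf hd hsep ε hε
  refine ⟨max n₁ n₂, fun n hn w hw hχ => ?_⟩
  have hw2 : ∀ g, ∃ χ : AddChar K[X] ℝ, ∀ x, w (g + δ ^ 2 * μ * (1 * x) ^ 2) = w g * χ x := by
    intro g
    obtain ⟨χ, hχ⟩ := hχ g
    refine ⟨χ.compAddMonoidHom (AddMonoidHom.mulLeft δ), fun x => ?_⟩
    rw [AddChar.compAddMonoidHom_apply, AddMonoidHom.coe_mulLeft, ← hχ (δ * x)]
    congr 1
    ring
  exact ⟨h1 n (le_trans (le_max_left _ _) hn) w hw hw2,
    h2 n (le_trans (le_max_right _ _) hn) w hw hw2⟩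

theorem s_const : S_const := constE s_E
theorem s_bin : S_bin := binE s_E
theorem s_quadw : S_quadw := quadE s_E
theorem s_cub : S_cub := cubE s_E

end Pool.Agent.H140.E
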